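import Pool.Agent.Lib.MP_ac4d2b_ag.Defs

/-!
MP_ac4d2b_ag (Hilbert scheme of 12 points), module CL1: closure properties of `Dn`.
-/

set_option autoImplicit false
set_option linter.unusedSectionVars false

namespace Pool.Agent.MPac4d2b

open Matrix

namespace CL1Aux

/-- evaluation of a substitution -/
theorem eval_aeval' {K σ τ : Type} [Field K] (q : τ → K) (s : σ → MvPolynomial τ K)
    (f : MvPolynomial σ K) :
    MvPolynomial.eval q (MvPolynomial.aeval s f) =
      MvPolynomial.eval (fun i => MvPolynomial.eval q (s i)) f := by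
  induction f using MvPolynomial.induction_on with
  | C a => simp
  | add p r hp hr => rw [map_add, map_add, hp, hr, map_add]
  | mul_X p i hp =>
    rw [map_mul, map_mul, hp, map_mul, MvPolynomial.aeval_X, MvPolynomial.eval_X]

end CL1Aux

open CL1Aux

section CL1
variable {K ι κ : Type} [Field K] [Fintype ι] [DecidableEq ι] [Fintype κ] [DecidableEq κ]

/-- general principle: polynomial maps sending diagonalisable triples into the closure -/
theorem dn_map (P : Fin 3 × κ × κ → MvPolynomial (Fin 3 × ι × ι) K)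
    (h : ∀ S : Fin 3 → Matrix ι ι K, SimDiag S →
      Dn (fun i => Matrix.of fun a b => MvPolynomial.eval (pt S) (P (i, a, b))))
    {T : Fin 3 → Matrix ι ι K} (hT : Dn T) :
    Dn (fun i => Matrix.of fun a b => MvPolynomial.eval (pt T) (P (i, a, b))) := by
  intro f hf
  have key : ∀ S : Fin 3 → Matrix ι ι K,
      MvPolynomial.eval (pt S) (MvPolynomial.aeval P f) =
      MvPolynomial.eval (pt fun i => Matrix.of fun a b =>
        MvPolynomial.eval (pt S) (P (i, a, b))) f := by
    intro S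
    rw [eval_aeval']
    rfl
  rw [← key]
  apply hT
  intro S hS
  rw [key]
  exact h S hS f hf

theorem dn_simDiag {T : Fin 3 → Matrix ι ι K} (h : SimDiag T) : Dn T :=
  fun _ hf => hf T h

end CL1

namespace CL1Aux

variable {K ι κ : Type} [Field K] [Fintype ι] [DecidableEq ι] [Fintype κ] [DecidableEq κ]

/-- A map of triples of matrices with polynomial entries. -/
def PolyMap (F : (Fin 3 → Matrix ι ι K) → Matrix κ κ K) : Prop :=
  ∃ P : κ × κ → MvPolynomial (Fin 3 × ι × ι) K,
    ∀ S a b, F S a b = MvPolynomial.eval (pt S) (P (a, b))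

theorem PolyMap.const (M : Matrix κ κ K) :
    PolyMap (ι := ι) (fun _ => M) :=
  ⟨fun x => MvPolynomial.C (M x.1 x.2), fun S a b => by simp⟩

theorem PolyMap.proj (i : Fin 3) : PolyMap (ι := ι) (K := K) (fun S => S i) :=
  ⟨fun x => MvPolynomial.X (i, x.1, x.2), fun S a b => by simp [pt]⟩

theorem PolyMap.add {F G : (Fin 3 → Matrix ι ι K) → Matrix κ κ K} (hF : PolyMap F)
    (hG : PolyMap G) : PolyMap (fun S => F S + G S) := by
  obtain ⟨P, hP⟩ := hF
  obtain ⟨Q, hQ⟩ := hG
  exact ⟨fun x => P x + Q x, fun S a b => by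
    beta_reduce; rw [Matrix.add_apply, hP, hQ, map_add]⟩

theorem PolyMap.mul {F G : (Fin 3 → Matrix ι ι K) → Matrix κ κ K} (hF : PolyMap F)
    (hG : PolyMap G) : PolyMap (fun S => F S * G S) := by
  obtain ⟨P, hP⟩ := hF
  obtain ⟨Q, hQ⟩ := hG
  refine ⟨fun x => ∑ c, P (x.1, c) * Q (c, x.2), fun S a b => ?_⟩
  beta_reduce
  rw [Matrix.mul_apply, map_sum]
  refine Finset.sum_congr rfl fun c _ => ?_
  rw [hP, hQ, map_mul]

theorem PolyMap.smul {F : (Fin 3 → Matrix ι ι K) → Matrix κ κ K} (c : K) (hF : PolyMap F) :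
    PolyMap (fun S => c • F S) := by
  obtain ⟨P, hP⟩ := hF
  exact ⟨fun x => MvPolynomial.C c * P x, fun S a b => by
    beta_reduce; rw [Matrix.smul_apply, hP, map_mul, MvPolynomial.eval_C, smul_eq_mul]⟩

theorem PolyMap.sum {α : Type} (s : Finset α) (F : α → (Fin 3 → Matrix ι ι K) → Matrix κ κ K)
    (hF : ∀ x ∈ s, PolyMap (F x)) : PolyMap (fun S => ∑ x ∈ s, F x S) := by
  classical
  induction s using Finset.induction_on with
  | empty => simpa using PolyMap.const (ι := ι) (0 : Matrix κ κ K)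
  | insert a s ha ih =>
    simp only [Finset.sum_insert ha]
    exact (hF a (Finset.mem_insert_self _ _)).add
      (ih fun x hx => hF x (Finset.mem_insert_of_mem hx))

theorem PolyMap.pow {F : (Fin 3 → Matrix ι ι K) → Matrix κ κ K} (hF : PolyMap F) (k : ℕ) :
    PolyMap (fun S => F S ^ k) := by
  induction k with
  | zero => simpa using PolyMap.const (ι := ι) (1 : Matrix κ κ K)
  | succ k ih =>
    simp only [pow_succ]
    exact ih.mul hF

/-- general principle, second form -/
theorem dn_polyMap (F : Fin 3 → (Fin 3 → Matrix ι ι K) → Matrix κ κ K) (hF : ∀ i, PolyMap (F i))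
    (h : ∀ S : Fin 3 → Matrix ι ι K, SimDiag S → Dn (fun i => F i S))
    {T : Fin 3 → Matrix ι ι K} (hT : Dn T) : Dn (fun i => F i T) := by
  choose P hP using hF
  have key : ∀ S : Fin 3 → Matrix ι ι K, (fun i => F i S) =
      fun i => Matrix.of fun a b => MvPolynomial.eval (pt S) (P i (a, b)) := by
    intro S
    ext i a b
    rw [hP]
    rfl
  rw [key]
  refine dn_map (fun x => P x.1 x.2) (fun S hS => ?_) hT
  have := h S hS
  rw [key] at this
  exact this

theorem polyMap_fromBlocks_left (B : Matrix κ κ K) (i : Fin 3) :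
    PolyMap (ι := ι) (fun S => Matrix.fromBlocks (S i) 0 0 B) := by
  refine ⟨fun x => Sum.elim
    (fun a => Sum.elim (fun b => MvPolynomial.X (i, a, b)) (fun _ => 0) x.2)
    (fun a => Sum.elim (fun _ => 0) (fun b => MvPolynomial.C (B a b)) x.2) x.1, ?_⟩
  rintro S (a | a) (b | b) <;> simp [pt]

theorem polyMap_fromBlocks_right (A : Matrix ι ι K) (i : Fin 3) :
    PolyMap (ι := κ) (fun S => Matrix.fromBlocks A 0 0 (S i)) := by
  refine ⟨fun x => Sum.elim
    (fun a => Sum.elim (fun b => MvPolynomial.C (A a b)) (fun _ => 0) x.2)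
    (fun a => Sum.elim (fun _ => 0) (fun b => MvPolynomial.X (i, a, b)) x.2) x.1, ?_⟩
  rintro S (a | a) (b | b) <;> simp [pt]

theorem polyMap_ev3 (φ : MvPolynomial (Fin 3) K) :
    PolyMap (fun S : Fin 3 → Matrix ι ι K => (ev3 S φ : Matrix ι ι K)) := by
  unfold ev3
  refine PolyMap.sum _ _ fun e _ => PolyMap.smul _ ?_
  exact (((PolyMap.proj 0).pow _).mul ((PolyMap.proj 1).pow _)).mul ((PolyMap.proj 2).pow _)

/-- powers of conjugates -/
theorem conj_pow (g h : Matrix ι ι K) (hgh : g * h = 1) (D : Matrix ι ι K) (k : ℕ) :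
    (g * D * h) ^ k = g * D ^ k * h := by
  have hhg : h * g = 1 := mul_eq_one_comm.mp hgh
  induction k with
  | zero => simp [hgh]
  | succ k ih =>
    rw [pow_succ, ih, pow_succ]
    calc g * D ^ k * h * (g * D * h) = g * D ^ k * (h * g) * D * h := by
          simp only [Matrix.mul_assoc]
      _ = g * (D ^ k * D) * h := by rw [hhg, Matrix.mul_one, Matrix.mul_assoc g]

theorem ev3_conj (g h : Matrix ι ι K) (hgh : g * h = 1) (D : Fin 3 → Matrix ι ι K)
    (φ : MvPolynomial (Fin 3) K) :
    ev3 (fun i => g * D i * h) φ = g * ev3 D φ * h := by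
  have hhg : h * g = 1 := mul_eq_one_comm.mp hgh
  unfold ev3
  rw [Matrix.mul_sum, Matrix.sum_mul]
  refine Finset.sum_congr rfl fun e _ => ?_
  rw [conj_pow g h hgh, conj_pow g h hgh, conj_pow g h hgh, Matrix.mul_smul, Matrix.smul_mul]
  congr 1
  calc g * D 0 ^ e 0 * h * (g * D 1 ^ e 1 * h) * (g * D 2 ^ e 2 * h)
      = g * D 0 ^ e 0 * (h * g) * D 1 ^ e 1 * (h * g) * D 2 ^ e 2 * h := by
        simp only [Matrix.mul_assoc]
    _ = g * (D 0 ^ e 0 * D 1 ^ e 1 * D 2 ^ e 2) * h := by
        rw [hhg, Matrix.mul_one, Matrix.mul_one]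
        simp only [Matrix.mul_assoc]

theorem ev3_diagonal (d : Fin 3 → ι → K) (φ : MvPolynomial (Fin 3) K) :
    ev3 (fun i => diagonal (d i)) φ = diagonal (fun a => MvPolynomial.eval (fun i => d i a) φ) := by
  unfold ev3
  ext a b
  by_cases hab : a = b
  · subst hab
    rw [diagonal_apply_eq, MvPolynomial.eval_eq', Matrix.sum_apply]
    refine Finset.sum_congr rfl fun e _ => ?_
    simp only [diagonal_pow, diagonal_mul_diagonal, Matrix.smul_apply, diagonal_apply_eq,
      smul_eq_mul, Pi.pow_apply, Fin.prod_univ_three]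
  · rw [diagonal_apply_ne _ hab, Matrix.sum_apply]
    refine Finset.sum_eq_zero fun e _ => ?_
    simp only [diagonal_pow, diagonal_mul_diagonal, Matrix.smul_apply,
      diagonal_apply_ne _ hab, smul_zero]

omit [Fintype ι] [DecidableEq ι] in
theorem eval_line (u w : ι → K) (f : MvPolynomial ι K) (t : K) :
    (MvPolynomial.aeval
      (fun x => Polynomial.C (u x) + Polynomial.X * Polynomial.C (w x)) f).eval t =
      MvPolynomial.eval (fun x => u x + t * w x) f := by
  induction f using MvPolynomial.induction_on with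
  | C a => simp
  | add p r hp hr => rw [map_add, Polynomial.eval_add, map_add, hp, hr]
  | mul_X p i hp =>
    rw [map_mul, Polynomial.eval_mul, map_mul, hp, MvPolynomial.aeval_X, MvPolynomial.eval_X,
      Polynomial.eval_add, Polynomial.eval_mul, Polynomial.eval_C, Polynomial.eval_C,
      Polynomial.eval_X]

end CL1Aux

open CL1Aux

section CL1
variable {K ι κ : Type} [Field K] [Fintype ι] [DecidableEq ι] [Fintype κ] [DecidableEq κ]

theorem dn_conj {T : Fin 3 → Matrix ι ι K} (h : Dn T) (g g' : Matrix ι ι K) (hg : g * g' = 1) :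
    Dn (fun i => g * T i * g') := by
  refine dn_polyMap (fun i S => g * S i * g')
    (fun i => ((PolyMap.const g).mul (PolyMap.proj i)).mul (PolyMap.const g')) ?_ h
  rintro S ⟨p, q, d, hpq, hS⟩
  refine dn_simDiag ⟨g * p, q * g', d, ?_, fun i => ?_⟩
  · calc g * p * (q * g') = g * (p * q) * g' := by simp only [Matrix.mul_assoc]
      _ = 1 := by rw [hpq, Matrix.mul_one, hg]
  · beta_reduce
    rw [hS]
    simp only [Matrix.mul_assoc]

theorem dn_reindex (e : ι ≃ κ) {T : Fin 3 → Matrix ι ι K} (h : Dn T) :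
    Dn (fun i => (T i).submatrix e.symm e.symm) := by
  refine dn_polyMap (fun i S => (S i).submatrix e.symm e.symm)
    (fun i => ⟨fun x => MvPolynomial.X (i, e.symm x.1, e.symm x.2), fun S a b => by simp [pt]⟩)
    ?_ h
  rintro S ⟨p, q, d, hpq, hS⟩
  refine dn_simDiag ⟨p.submatrix e.symm e.symm, q.submatrix e.symm e.symm,
    fun i => d i ∘ e.symm, ?_, fun i => ?_⟩
  · rw [submatrix_mul_equiv, hpq, submatrix_one_equiv]
  · beta_reduce
    rw [hS, ← submatrix_mul_equiv _ _ _ e.symm, ← submatrix_mul_equiv _ _ _ e.symm]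
    rw [submatrix_diagonal_equiv]

theorem dn_transpose {T : Fin 3 → Matrix ι ι K} (h : Dn T) : Dn (fun i => (T i)ᵀ) := by
  refine dn_polyMap (fun i S => (S i)ᵀ)
    (fun i => ⟨fun x => MvPolynomial.X (i, x.2, x.1), fun S a b => by simp [pt]⟩) ?_ h
  rintro S ⟨p, q, d, hpq, hS⟩
  refine dn_simDiag ⟨qᵀ, pᵀ, d, ?_, fun i => ?_⟩
  · rw [← transpose_mul, hpq, transpose_one]
  · beta_reduce
    rw [hS, transpose_mul, transpose_mul, diagonal_transpose, Matrix.mul_assoc]

theorem dn_sum {T : Fin 3 → Matrix ι ι K} {S : Fin 3 → Matrix κ κ K} (hT : Dn T) (hS : Dn S) :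
    Dn (fun i => Matrix.fromBlocks (T i) 0 0 (S i)) := by
  refine dn_polyMap (fun i T' => Matrix.fromBlocks (T' i) 0 0 (S i))
    (fun i => polyMap_fromBlocks_left (S i) i) ?_ hT
  intro T' hT'
  refine dn_polyMap (fun i S' => Matrix.fromBlocks (T' i) 0 0 (S' i))
    (fun i => polyMap_fromBlocks_right (T' i) i) ?_ hS
  intro S' hS'
  obtain ⟨p, q, d, hpq, hT'⟩ := hT'
  obtain ⟨p', q', d', hpq', hS'⟩ := hS'
  refine dn_simDiag ⟨fromBlocks p 0 0 p', fromBlocks q 0 0 q', fun i => Sum.elim (d i) (d' i),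
    ?_, fun i => ?_⟩
  · rw [fromBlocks_multiply]
    simp [hpq, hpq']
  · beta_reduce
    rw [← fromBlocks_diagonal, fromBlocks_multiply, fromBlocks_multiply, hT', hS']
    simp

theorem dn_poly {T : Fin 3 → Matrix ι ι K} (h : Dn T) (φ : Fin 3 → MvPolynomial (Fin 3) K) :
    Dn (fun i => ev3 T (φ i)) := by
  refine dn_polyMap (fun i S => ev3 S (φ i)) (fun i => polyMap_ev3 (φ i)) ?_ h
  rintro S ⟨p, q, d, hpq, hS⟩
  have hS' : S = fun i => p * diagonal (d i) * q := funext hS
  refine dn_simDiag ⟨p, q, fun i a => MvPolynomial.eval (fun j => d j a) (φ i), hpq, fun i => ?_⟩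
  beta_reduce
  rw [hS', ev3_conj p q hpq, ev3_diagonal]

theorem dn_line (T S : Fin 3 → Matrix ι ι K)
    (h : {t : K | Dn (fun i => T i + t • S i)}.Infinite) : Dn T := by
  intro f hf
  set P : Polynomial K := MvPolynomial.aeval
    (fun x : Fin 3 × ι × ι => Polynomial.C (pt T x) + Polynomial.X * Polynomial.C (pt S x)) f
    with hP
  have key : ∀ t : K, P.eval t = MvPolynomial.eval (pt fun i => T i + t • S i) f := by
    intro t
    rw [hP, eval_line]
    rfl
  have hzero : P = 0 := by
    by_contra hne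
    refine h (Set.Finite.subset (P.finite_setOfPred_isRoot hne) fun t ht => ?_)
    have := ht f hf
    rw [← key t] at this
    exact this
  have h0 := key 0
  rw [hzero] at h0
  simpa using h0.symm

end CL1

end Pool.Agent.MPac4d2b
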