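import Mathlib

/-!
MP_ac4d2b_ag (Hilbert scheme of 12 points in affine 3-space), project HILB: definitions.
-/

set_option autoImplicit false

namespace Pool.Agent.MPac4d2b

open Matrix

noncomputable section

/-- The point of affine space given by a triple of matrices. -/
def pt {K ι : Type} (T : Fin 3 → Matrix ι ι K) : Fin 3 × ι × ι → K :=
  fun q => T q.1 q.2.1 q.2.2

/-- Simultaneously diagonalisable triples. -/
def SimDiag {K ι : Type} [Field K] [Fintype ι] [DecidableEq ι]
    (T : Fin 3 → Matrix ι ι K) : Prop :=
  ∃ (g h : Matrix ι ι K) (d : Fin 3 → ι → K), g * h = 1 ∧ ∀ i, T i = g * diagonal (d i) * h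

/-- The triple lies in the Zariski closure of the set of simultaneously diagonalisable triples. -/
def Dn {K ι : Type} [Field K] [Fintype ι] [DecidableEq ι]
    (T : Fin 3 → Matrix ι ι K) : Prop :=
  ∀ f : MvPolynomial (Fin 3 × ι × ι) K,
    (∀ S : Fin 3 → Matrix ι ι K, SimDiag S → MvPolynomial.eval (pt S) f = 0) →
      MvPolynomial.eval (pt T) f = 0

/-- The same for a triple of endomorphisms of a finite dimensional space. -/
def Cl {K V : Type} [Field K] [AddCommGroup V] [Module K V]
    (f : Fin 3 → Module.End K V) : Prop :=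
  ∃ (n : ℕ) (b : Module.Basis (Fin n) K V), Dn (fun i => LinearMap.toMatrix b b (f i))

/-- Evaluation of a polynomial at a triple (ordered monomials). -/
def ev3 {K A : Type} [CommRing K] [Ring A] [Algebra K A] (a : Fin 3 → A)
    (p : MvPolynomial (Fin 3) K) : A :=
  ∑ e ∈ p.support, p.coeff e • (a 0 ^ e 0 * a 1 ^ e 1 * a 2 ^ e 2)

/-- Commuting triples. -/
def Comm3 {A : Type} [Mul A] (a : Fin 3 → A) : Prop := ∀ i j, a i * a j = a j * a i

/-- Cyclic vectors. -/
def Cyc {K V : Type} [Field K] [AddCommGroup V] [Module K V]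
    (f : Fin 3 → Module.End K V) (v : V) : Prop :=
  Submodule.span K (Set.range fun e : ℕ × ℕ × ℕ => (f 0 ^ e.1 * f 1 ^ e.2.1 * f 2 ^ e.2.2) v) = ⊤

/-- The endomorphism has two distinct eigenvalues. -/
def TwoEig {K V : Type} [Field K] [AddCommGroup V] [Module K V] (g : Module.End K V) : Prop :=
  ∃ μ ν : K, μ ≠ ν ∧ g.HasEigenvalue μ ∧ g.HasEigenvalue ν

/-- The main theorem in dimension `n`, for vector spaces. -/
def MainV (K : Type) [Field K] (n : ℕ) : Prop :=
  ∀ (V : Type) [AddCommGroup V] [Module K V] [FiniteDimensional K V]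
    (f : Fin 3 → Module.End K V) (v : V), Comm3 f → Cyc f v → Module.finrank K V = n → Cl f

/-- Multiplication by three elements of a ring. -/
def mulT (K : Type) {R : Type} [Field K] [CommRing R] [Algebra K R] (a : Fin 3 → R) :
    Fin 3 → Module.End K R := fun i => LinearMap.mulLeft K (a i)

/-- Evaluation of a polynomial in `y` (outer variable) with coefficients polynomials in `z`
(inner variable) at two elements of an algebra. -/
def ev2 {R A : Type} [CommRing R] [Ring A] [Algebra R A] (z y : A)
    (p : Polynomial (Polynomial R)) : A :=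
  p.eval₂ (Polynomial.aeval z : Polynomial R →ₐ[R] A).toRingHom y

/-- Lattice data for a triple of endomorphisms `f` of `M`: a module `N` over the power series ring
with commuting endomorphisms `z`, `y` with `x y = z ^ m` and an element `w` such that `M` is the
quotient of `N` by the submodule generated by `w`. -/
structure Lat {K M : Type} [Field K] [AddCommGroup M] [Module K M]
    (f : Fin 3 → Module.End K M) (m Q : ℕ) (N : Type) [AddCommGroup N]
    [Module (PowerSeries K) N] where
  z : Module.End (PowerSeries K) N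
  y : Module.End (PowerSeries K) N
  w : N
  π : N →+ M
  comm : z * y = y * z
  rel : (PowerSeries.X : PowerSeries K) • y = z ^ m
  surj : Function.Surjective π
  πC : ∀ (c : K) (u : N), π ((PowerSeries.C c : PowerSeries K) • u) = c • π u
  πx : ∀ u : N, π ((PowerSeries.X : PowerSeries K) • u) = f 0 (π u)
  πy : ∀ u : N, π (y u) = f 1 (π u)
  πz : ∀ u : N, π (z u) = f 2 (π u)
  ker : ∀ u : N, π u = 0 ↔ ∃ p : Polynomial (Polynomial (PowerSeries K)), ev2 z y p w = u
  kp : ∀ p : Polynomial (Polynomial (PowerSeries K)), ev2 z y p w = 0 →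
    p ∈ Ideal.span {(Polynomial.X : Polynomial (Polynomial (PowerSeries K))) ^ Q,
      Polynomial.C (Polynomial.C PowerSeries.X) * Polynomial.X - Polynomial.C (Polynomial.X ^ m)}
  pow : ∀ δ : Polynomial (PowerSeries K), δ.Monic → δ.natDegree = m * Q →
    Polynomial.aeval z δ = 0 → δ = Polynomial.X ^ (m * Q)

/-- The ideal generated by a triple of ring elements. -/
def mx {R : Type} [CommRing R] (x : Fin 3 → R) : Ideal R := Ideal.span (Set.range x)

/-- The three elements generate the algebra, and the ideal they generate is nilpotent. -/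
def Gen3 (K : Type) {R : Type} [Field K] [CommRing R] [Algebra K R] (x : Fin 3 → R) : Prop :=
  Algebra.adjoin K (Set.range x) = ⊤ ∧ ∃ k : ℕ, mx x ^ k = ⊥

/-- The dimension of an ideal. -/
def dimI (K : Type) {R : Type} [Field K] [CommRing R] [Algebra K R] (I : Ideal R) : ℕ :=
  Module.finrank K (I.restrictScalars K : Submodule K R)

/-- The value of a quadratic form at a triple. -/
def quad {K R : Type} [Field K] [CommRing R] [Algebra K R] (q : Matrix (Fin 3) (Fin 3) K)
    (x : Fin 3 → R) : R := ∑ i, ∑ j, q i j • (x i * x j)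

/-- A linear change of a triple. -/
def lin {K R : Type} [Field K] [CommRing R] [Algebra K R] (A : Matrix (Fin 3) (Fin 3) K)
    (x : Fin 3 → R) : Fin 3 → R := fun i => ∑ j, A i j • x j

/-- The matrix has a nonzero minor of size two. -/
def Minor2 {K : Type} [Field K] (q : Matrix (Fin 3) (Fin 3) K) : Prop :=
  ∃ i j k l, q i k * q j l - q i l * q j k ≠ 0

/-- The three elements are independent modulo the square of the ideal they generate. -/
def Ind1 (K : Type) {R : Type} [Field K] [CommRing R] [Algebra K R] (x : Fin 3 → R) : Prop :=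
  ∀ c : Fin 3 → K, ∑ i, c i • x i ∈ mx x ^ 2 → c = 0

/-- The span of the monomials of degree at least `j` applied to `v`. -/
def Fil {K V : Type} [Field K] [AddCommGroup V] [Module K V] (f : Fin 3 → Module.End K V)
    (v : V) (j : ℕ) : Submodule K V :=
  Submodule.span K {u | ∃ a b c : ℕ, j ≤ a + b + c ∧ u = (f 0 ^ a * f 1 ^ b * f 2 ^ c) v}

end

end Pool.Agent.MPac4d2b
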