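import Mathlib
import Pool.Agent.Lib.MP_ac4d2b_ag.Defs
import Pool.Agent.Lib.MP_ac4d2b_ag.CL1

/-!
MP_ac4d2b_ag (project HILB), module CL2: closure properties of `Cl`.
-/

set_option autoImplicit false

namespace Pool.Agent.MPac4d2b

open Matrix

namespace CL2Aux

variable {K V : Type} [Field K] [AddCommGroup V] [Module K V]

theorem dn_basis {ι κ : Type} [Fintype ι] [DecidableEq ι] [Fintype κ] [DecidableEq κ]
    (b : Module.Basis ι K V) (b' : Module.Basis κ K V) (f : Fin 3 → Module.End K V)
    (h : Dn (fun i => LinearMap.toMatrix b b (f i))) :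
    Dn (fun i => LinearMap.toMatrix b' b' (f i)) := by
  let e : ι ≃ κ := b.indexEquiv b'
  let b1 := b.reindex e
  have h1 : Dn (fun i => LinearMap.toMatrix b1 b1 (f i)) := by
    have h2 := dn_reindex e h
    have h3 : (fun i => LinearMap.toMatrix b1 b1 (f i))
        = fun i => (LinearMap.toMatrix b b (f i)).submatrix e.symm e.symm := by
      funext i
      ext k l
      simp [b1, LinearMap.toMatrix_apply]
    rw [h3]
    exact h2
  have h4 := dn_conj h1 (b'.toMatrix b1) (b1.toMatrix b') (Module.Basis.toMatrix_mul_toMatrix_flip _ _)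
  have h5 : (fun i => b'.toMatrix b1 * LinearMap.toMatrix b1 b1 (f i) * b1.toMatrix b')
      = fun i => LinearMap.toMatrix b' b' (f i) := by
    funext i
    exact basis_toMatrix_mul_linearMap_toMatrix_mul_basis_toMatrix _ _ _ _ _
  rw [h5] at h4
  exact h4

theorem ev3_map {A B : Type} [Ring A] [Algebra K A] [Ring B] [Algebra K B] (ψ : A →ₐ[K] B)
    (a : Fin 3 → A) (p : MvPolynomial (Fin 3) K) : ψ (ev3 a p) = ev3 (fun i => ψ (a i)) p := by
  simp only [ev3, map_sum, map_smul, map_mul, map_pow]

theorem exists_ev3 (f : Fin 3 → Module.End K V) (hc : Comm3 f) (g : Module.End K V)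
    (hg : g ∈ Algebra.adjoin K (Set.range f)) : ∃ p : MvPolynomial (Fin 3) K, g = ev3 f p := by
  have hcomm : ∀ x ∈ Set.range f, ∀ y ∈ Set.range f, x * y = y * x := by
    rintro _ ⟨i, rfl⟩ _ ⟨j, rfl⟩
    exact hc i j
  let S := Algebra.adjoin K (Set.range f)
  letI iR : CommRing S := Algebra.adjoinCommRingOfComm K hcomm
  have hmemS : ∀ i, f i ∈ S := fun i => Algebra.subset_adjoin ⟨i, rfl⟩
  let a : Fin 3 → S := fun i => ⟨f i, hmemS i⟩
  have htop : Algebra.adjoin K (Set.range a) = ⊤ := by
    have h1 : Set.range a = (fun x : S => (x : Module.End K V)) ⁻¹' (Set.range f) := by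
      ext x
      constructor
      · rintro ⟨i, rfl⟩
        exact ⟨i, rfl⟩
      · rintro ⟨i, hi⟩
        exact ⟨i, Subtype.ext hi⟩
    rw [h1]
    exact Algebra.adjoin_adjoin_coe_preimage
  have hmem : (⟨g, hg⟩ : S) ∈ Algebra.adjoin K (Set.range a) := by rw [htop]; trivial
  rw [Algebra.adjoin_range_eq_range_aeval] at hmem
  obtain ⟨p, hp⟩ := hmem
  refine ⟨p, ?_⟩
  have h2 : (MvPolynomial.aeval a : MvPolynomial (Fin 3) K →ₐ[K] S).toRingHom p
      = MvPolynomial.aeval a p := rfl
  rw [h2, MvPolynomial.aeval_def, MvPolynomial.eval₂_eq'] at hp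
  have h3 := congrArg (fun t : S => (t : Module.End K V)) hp
  have h4 : g = ((∑ d ∈ p.support, (algebraMap K S) (MvPolynomial.coeff d p) *
      ∏ i, a i ^ d i : S) : Module.End K V) := h3.symm
  rw [h4]
  unfold ev3
  rw [AddSubmonoidClass.coe_finset_sum]
  refine Finset.sum_congr rfl fun d _ => ?_
  rw [Fin.prod_univ_three, Algebra.smul_def]
  rfl

end CL2Aux

open CL2Aux

section CL2
variable {K V W : Type} [Field K] [AddCommGroup V] [Module K V] [AddCommGroup W] [Module K W]

theorem cl_iff {ι : Type} [Fintype ι] [DecidableEq ι] (b : Module.Basis ι K V)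
    (f : Fin 3 → Module.End K V) :
    Cl f ↔ Dn (fun i => LinearMap.toMatrix b b (f i)) := by
  constructor
  · rintro ⟨n, b', h⟩
    exact dn_basis b' b f h
  · intro h
    have : Module.Finite K V := Module.Finite.of_basis b
    exact ⟨Module.finrank K V, Module.finBasis K V, dn_basis b _ f h⟩

theorem cl_equiv (e : V ≃ₗ[K] W) (f : Fin 3 → Module.End K V) (g : Fin 3 → Module.End K W)
    (h : ∀ i v, e (f i v) = g i (e v)) (hf : Cl f) : Cl g := by
  obtain ⟨n, b, hb⟩ := hf
  refine ⟨n, b.map e, ?_⟩
  have h1 : (fun i => LinearMap.toMatrix (b.map e) (b.map e) (g i))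
      = fun i => LinearMap.toMatrix b b (f i) := by
    funext i
    ext k l
    simp [LinearMap.toMatrix_apply, ← h]
  rw [h1]
  exact hb

theorem cl_compl [FiniteDimensional K V] (f : Fin 3 → Module.End K V) (p q : Submodule K V)
    (hpq : IsCompl p q)
    (hp : ∀ i, ∀ v ∈ p, f i v ∈ p) (hq : ∀ i, ∀ v ∈ q, f i v ∈ q)
    (h1 : Cl (fun i => (f i).restrict (hp i))) (h2 : Cl (fun i => (f i).restrict (hq i))) :
    Cl f := by
  obtain ⟨n1, b1, hb1⟩ := h1
  obtain ⟨n2, b2, hb2⟩ := h2
  let B := (b1.prod b2).map (p.prodEquivOfIsCompl q hpq)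
  rw [cl_iff B]
  have h3 : (fun i => LinearMap.toMatrix B B (f i)) = fun i => Matrix.fromBlocks
      (LinearMap.toMatrix b1 b1 ((f i).restrict (hp i))) 0 0
      (LinearMap.toMatrix b2 b2 ((f i).restrict (hq i))) := by
    funext i
    have hl : ∀ u : p, (p.prodEquivOfIsCompl q hpq).symm (f i u) = ((f i).restrict (hp i) u, 0) := by
      intro u
      rw [LinearEquiv.symm_apply_eq]
      simp
    have hr : ∀ u : q, (p.prodEquivOfIsCompl q hpq).symm (f i u) = (0, (f i).restrict (hq i) u) := by
      intro u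
      rw [LinearEquiv.symm_apply_eq]
      simp
    ext k l
    rw [LinearMap.toMatrix_apply]
    rcases l with l | l
    · have e1 : B (Sum.inl l) = (b1 l : V) := by simp [B]
      rw [e1]
      have e2 : B.repr (f i (b1 l)) = (b1.prod b2).repr ((f i).restrict (hp i) (b1 l), 0) := by
        rw [← hl]; rfl
      rw [e2]
      rcases k with k | k
      · simp [LinearMap.toMatrix_apply]
      · simp
    · have e1 : B (Sum.inr l) = (b2 l : V) := by simp [B]
      rw [e1]
      have e2 : B.repr (f i (b2 l)) = (b1.prod b2).repr (0, (f i).restrict (hq i) (b2 l)) := by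
        rw [← hr]; rfl
      rw [e2]
      rcases k with k | k
      · simp
      · simp [LinearMap.toMatrix_apply]
  rw [h3]
  exact dn_sum hb1 hb2

theorem cl_poly (f : Fin 3 → Module.End K V) (hf : Cl f)
    (φ : Fin 3 → MvPolynomial (Fin 3) K) : Cl (fun i => ev3 f (φ i)) := by
  obtain ⟨n, b, hb⟩ := hf
  refine ⟨n, b, ?_⟩
  have h1 := dn_poly hb φ
  have h2 : (fun i => LinearMap.toMatrix b b (ev3 f (φ i)))
      = fun i => ev3 (fun i => LinearMap.toMatrix b b (f i)) (φ i) := by
    funext i
    exact ev3_map (K := K) (LinearMap.toMatrixAlgEquiv b).toAlgHom f (φ i)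
  rw [h2]
  exact h1

theorem cl_adjoin (f g : Fin 3 → Module.End K V) (hc : Comm3 f) (hf : Cl f)
    (hg : ∀ i, g i ∈ Algebra.adjoin K (Set.range f)) : Cl g := by
  choose φ hφ using fun i => exists_ev3 f hc (g i) (hg i)
  have h1 : g = fun i => ev3 f (φ i) := funext hφ
  rw [h1]
  exact cl_poly f hf φ

theorem cl_line [FiniteDimensional K V] (f g : Fin 3 → Module.End K V)
    (h : {t : K | Cl (fun i => f i + t • g i)}.Infinite) : Cl f := by
  let b := Module.finBasis K V
  rw [cl_iff b]
  apply dn_line _ (fun i => LinearMap.toMatrix b b (g i))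
  refine h.mono ?_
  intro t ht
  have ht' : Cl (fun i => f i + t • g i) := ht
  rw [cl_iff b] at ht'
  show Dn _
  simpa only [map_add, map_smul] using ht'

theorem cl_of_dual [FiniteDimensional K V] (f : Fin 3 → Module.End K V)
    (h : Cl (fun i => ((f i).dualMap : Module.End K (Module.Dual K V)))) : Cl f := by
  let b := Module.finBasis K V
  rw [cl_iff b]
  rw [cl_iff b.dualBasis] at h
  have h1 := dn_transpose h
  have h2 : (fun i => (LinearMap.toMatrix b.dualBasis b.dualBasis
      ((f i).dualMap : Module.End K (Module.Dual K V)))ᵀ)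
      = fun i => LinearMap.toMatrix b b (f i) := by
    funext i
    have h3 := LinearMap.toMatrix_transpose (B₁ := b) (B₂ := b) (f i)
    have h4 : LinearMap.toMatrix b.dualBasis b.dualBasis
      ((f i).dualMap : Module.End K (Module.Dual K V)) = (LinearMap.toMatrix b b (f i))ᵀ := h3
    rw [h4, Matrix.transpose_transpose]
  rw [h2] at h1
  exact h1

theorem cl_of_finrank_le_one [FiniteDimensional K V] (f : Fin 3 → Module.End K V)
    (h : Module.finrank K V ≤ 1) : Cl f := by
  let b := Module.finBasis K V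
  rw [cl_iff b]
  apply dn_simDiag
  have hs : Subsingleton (Fin (Module.finrank K V)) := by
    constructor
    intro i j
    apply Fin.ext
    have := i.2
    have := j.2
    omega
  refine ⟨1, 1, fun i a => LinearMap.toMatrix b b (f i) a a, by rw [mul_one], fun i => ?_⟩
  rw [one_mul, mul_one]
  ext k l
  have hkl : k = l := Subsingleton.elim _ _
  subst hkl
  rw [Matrix.diagonal_apply_eq]

end CL2

end Pool.Agent.MPac4d2b
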