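import Pool.Agent.Lib.MP_ac4d2b_ag.Defs

/-!
MP_ac4d2b_ag (Hilbert scheme of 12 points), module SPEC: specialisation of the closure condition.
-/

set_option autoImplicit false
set_option linter.unusedSectionVars false

namespace Pool.Agent.MPac4d2b

namespace SPECAux

open Matrix MvPolynomial

/-- substitution and evaluation in an algebra -/
theorem aeval_aeval {K A σ τ : Type} [CommRing K] [CommRing A] [Algebra K A] (q : τ → A)
    (s : σ → MvPolynomial τ K) (f : MvPolynomial σ K) :
    aeval q (aeval s f) = aeval (fun i => aeval q (s i)) f := by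
  induction f using MvPolynomial.induction_on with
  | C a => simp
  | add p r hp hr => rw [map_add, map_add, hp, hr, map_add]
  | mul_X p i hp => rw [map_mul, map_mul, hp, map_mul, aeval_X, aeval_X]

section
variable {K ι : Type} [Field K] [Fintype ι] [DecidableEq ι]

/-- generic matrix -/
noncomputable def gG : Matrix ι ι (MvPolynomial ((ι × ι) ⊕ (Fin 3 × ι)) K) :=
  Matrix.of fun a b => X (Sum.inl (a, b))

/-- generic diagonals -/
noncomputable def dG (i : Fin 3) : ι → MvPolynomial ((ι × ι) ⊕ (Fin 3 × ι)) K :=
  fun a => X (Sum.inr (i, a))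

/-- the generic simultaneously diagonalisable matrices (up to a scalar) -/
noncomputable def tG (i : Fin 3) : Matrix ι ι (MvPolynomial ((ι × ι) ⊕ (Fin 3 × ι)) K) :=
  gG * diagonal (dG i) * gG.adjugate

/-- the parametrisation -/
noncomputable def Phi :
    MvPolynomial (Fin 3 × ι × ι) K →ₐ[K] MvPolynomial ((ι × ι) ⊕ (Fin 3 × ι)) K :=
  aeval (fun x => tG x.1 x.2.1 x.2.2)

variable {A : Type} [CommRing A] [Algebra K A]

def qg (q : (ι × ι) ⊕ (Fin 3 × ι) → A) : Matrix ι ι A := Matrix.of fun a b => q (Sum.inl (a, b))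
def qd (q : (ι × ι) ⊕ (Fin 3 × ι) → A) (i : Fin 3) : ι → A := fun a => q (Sum.inr (i, a))

theorem map_gG (q : (ι × ι) ⊕ (Fin 3 × ι) → A) :
    (aeval q : MvPolynomial _ K →ₐ[K] A).toRingHom.mapMatrix (gG (K := K) (ι := ι)) = qg q := by
  ext a b
  simp [gG, qg]

theorem aeval_det (q : (ι × ι) ⊕ (Fin 3 × ι) → A) :
    aeval q (gG (K := K) (ι := ι)).det = (qg q).det := by
  have h : aeval q (gG (K := K) (ι := ι)).det =
      (aeval q : MvPolynomial _ K →ₐ[K] A).toRingHom (gG (K := K) (ι := ι)).det := rfl
  rw [h, RingHom.map_det, map_gG]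

theorem aeval_Phi (q : (ι × ι) ⊕ (Fin 3 × ι) → A) (f : MvPolynomial (Fin 3 × ι × ι) K) :
    aeval q (Phi f) = aeval (pt fun i => qg q * diagonal (qd q i) * (qg q).adjugate) f := by
  unfold Phi
  rw [aeval_aeval]
  congr 2
  ext ⟨i, a, b⟩
  have h1 : aeval q (tG (K := K) i a b) =
      ((aeval q : MvPolynomial _ K →ₐ[K] A).toRingHom.mapMatrix (tG (K := K) (ι := ι) i)) a b := rfl
  have h2 : (aeval q : MvPolynomial _ K →ₐ[K] A).toRingHom.mapMatrix
      (diagonal (dG (K := K) (ι := ι) i)) = diagonal (qd q i) := by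
    ext a b
    by_cases hab : a = b
    · subst hab
      simp [dG, qd]
    · simp [hab]
  rw [h1, tG, map_mul, map_mul, RingHom.map_adjugate, map_gG, h2]
  rfl

/-- the parametrisation kills every polynomial vanishing on the diagonalisable triples -/
theorem Phi_eq_zero [Infinite K] (f : MvPolynomial (Fin 3 × ι × ι) K)
    (hf : ∀ S : Fin 3 → Matrix ι ι K, SimDiag S → eval (pt S) f = 0) : Phi f = 0 := by
  have hdet : (gG (K := K) (ι := ι)).det ≠ 0 := by
    intro h
    have h1 := aeval_det (K := K) (A := K) (Sum.elim (fun x : ι × ι => (1 : Matrix ι ι K) x.1 x.2)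
      (fun _ : Fin 3 × ι => (0 : K)))
    rw [h, map_zero] at h1
    have h2 : qg (Sum.elim (fun x : ι × ι => (1 : Matrix ι ι K) x.1 x.2)
      (fun _ : Fin 3 × ι => (0 : K))) = 1 := rfl
    rw [h2, det_one] at h1
    exact zero_ne_one h1
  have hzero : Phi f * (gG (K := K) (ι := ι)).det = 0 := by
    apply MvPolynomial.funext
    intro q
    rw [map_mul, map_zero]
    have e1 : ∀ p : MvPolynomial ((ι × ι) ⊕ (Fin 3 × ι)) K, eval q p = aeval q p := fun p => by
      rw [MvPolynomial.aeval_eq_eval]
    rw [e1, e1, aeval_det, aeval_Phi]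
    by_cases h0 : (qg q).det = 0
    · rw [h0, mul_zero]
    · have hS : SimDiag (fun i => qg q * diagonal (qd q i) * (qg q).adjugate) := by
        refine ⟨qg q, (qg q).det⁻¹ • (qg q).adjugate, fun i a => (qg q).det * qd q i a, ?_,
          fun i => ?_⟩
        · rw [Matrix.mul_smul, mul_adjugate, smul_smul, inv_mul_cancel₀ h0, one_smul]
        · have : diagonal (fun a => (qg q).det * qd q i a) = (qg q).det • diagonal (qd q i) := by
            ext a b
            by_cases hab : a = b
            · subst hab; simp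
            · simp [hab]
          beta_reduce
          rw [this]
          simp only [Matrix.mul_smul, Matrix.smul_mul, smul_smul]
          rw [inv_mul_cancel₀ h0, one_smul]
      have h5 := hf _ hS
      rw [MvPolynomial.aeval_eq_eval, h5, zero_mul]
  exact (mul_eq_zero.mp hzero).resolve_right hdet

end

/-- a polynomial killed by the parametrisation vanishes on the diagonalisable triples over every
extension field -/
theorem vanish {K ι L : Type} [Field K] [Fintype ι] [DecidableEq ι] [Field L] [Algebra K L]
    (f : MvPolynomial (Fin 3 × ι × ι) K) (hf : Phi f = 0) (S : Fin 3 → Matrix ι ι L)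
    (hS : SimDiag S) : aeval (pt S) f = 0 := by
  obtain ⟨g, h, d, hgh, hS⟩ := hS
  have hdet : g.det ≠ 0 := by
    intro h0
    have := congrArg Matrix.det hgh
    rw [det_mul, h0, zero_mul, det_one] at this
    exact zero_ne_one this
  have hh : h = g.det⁻¹ • g.adjugate := by
    have h2 : g.adjugate * (g * h) = g.adjugate := by rw [hgh, Matrix.mul_one]
    rw [← Matrix.mul_assoc, adjugate_mul, smul_mul_assoc, Matrix.one_mul] at h2
    rw [← h2, smul_smul, inv_mul_cancel₀ hdet, one_smul]
  set q : (ι × ι) ⊕ (Fin 3 × ι) → L := Sum.elim (fun x => g x.1 x.2)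
    (fun x => g.det⁻¹ * d x.1 x.2) with hq
  have h3 := aeval_Phi (K := K) q f
  rw [hf, map_zero] at h3
  have hqg : qg q = g := rfl
  have h4 : (fun i => qg q * diagonal (qd q i) * (qg q).adjugate) = S := by
    ext1 i
    rw [hqg, hS i, hh]
    have : diagonal (qd q i) = g.det⁻¹ • diagonal (d i) := by
      ext a b
      by_cases hab : a = b
      · subst hab; simp [qd, hq]
      · simp [hab]
    rw [this, Matrix.mul_smul, Matrix.smul_mul, Matrix.mul_smul]
  rw [h4] at h3
  exact h3.symm

end SPECAux

open Matrix SPECAux in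
theorem dn_spec {K ι L R : Type} [Field K] [Infinite K] [Fintype ι] [DecidableEq ι] [Field L]
    [CommRing R] [Algebra K R] (ε : R →ₐ[K] K) (σ : R →+* L) (hσ : Function.Injective σ)
    (T : Fin 3 → Matrix ι ι R) (h : Dn (fun i => (T i).map σ)) :
    Dn (fun i => (T i).map ε) := by
  let _ : Algebra K L := (σ.comp (algebraMap K R)).toAlgebra
  intro f hf
  have hPhi := Phi_eq_zero f hf
  -- the polynomial over the large field
  have h1 : ∀ q : Fin 3 × ι × ι → L,
      MvPolynomial.eval q (MvPolynomial.map (algebraMap K L) f) = MvPolynomial.aeval q f := by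
    intro q
    rw [MvPolynomial.eval_map, MvPolynomial.aeval_def]
  have h2 := h (MvPolynomial.map (algebraMap K L) f) (fun S hS => by
    rw [h1]; exact vanish f hPhi S hS)
  rw [h1] at h2
  -- back to the ring
  have h3 : σ (MvPolynomial.aeval (pt T) f) = 0 := by
    rw [← h2]
    have : ∀ p : MvPolynomial (Fin 3 × ι × ι) K, σ (MvPolynomial.aeval (pt T) p) =
        MvPolynomial.aeval (pt fun i => (T i).map σ) p := by
      intro p
      induction p using MvPolynomial.induction_on with
      | C a =>
        rw [MvPolynomial.aeval_C, MvPolynomial.aeval_C]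
        rfl
      | add p r hp hr => rw [map_add, map_add, hp, hr, map_add]
      | mul_X p i hp =>
        rw [map_mul, map_mul, hp, map_mul, MvPolynomial.aeval_X, MvPolynomial.aeval_X]
        rfl
    exact this f
  have h4 : MvPolynomial.aeval (pt T) f = 0 := hσ (by rw [h3, map_zero])
  have h5 : ∀ p : MvPolynomial (Fin 3 × ι × ι) K, ε (MvPolynomial.aeval (pt T) p) =
      MvPolynomial.eval (pt fun i => (T i).map ε) p := by
    intro p
    induction p using MvPolynomial.induction_on with
    | C a => simp
    | add p r hp hr => rw [map_add, map_add, hp, hr, map_add]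
    | mul_X p i hp =>
      rw [map_mul, map_mul, hp, map_mul, MvPolynomial.aeval_X, MvPolynomial.eval_X]
      rfl
  rw [← h5, h4, map_zero]

end Pool.Agent.MPac4d2b
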