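import Mathlib
import Pool.Agent.Lib.MP_ac4d2b_ag.Defs
import Pool.Agent.Lib.MP_ac4d2b_ag.CL2

/-!
MP_ac4d2b_ag (project HILB), module SPL: splitting of commuting triples and the C1 step.
-/

set_option autoImplicit false

namespace Pool.Agent.MPac4d2b

namespace SplAux55

variable {K V : Type} [Field K] [AddCommGroup V] [Module K V] [FiniteDimensional K V]

/-- without two eigenvalues, the characteristic polynomial is a power -/
theorem trace_eq_of_not_twoEig [IsAlgClosed K] (g : Module.End K V) (h : ¬ TwoEig g) :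
    ∃ μ : K, LinearMap.trace K V g = Module.finrank K V * μ ∧
      LinearMap.trace K V (g * g) = Module.finrank K V * μ ^ 2 := by
  rcases subsingleton_or_nontrivial V with hV | hV
  · refine ⟨0, ?_, ?_⟩
    · have : g = 0 := Subsingleton.elim _ _
      rw [this]; simp
    · have : g * g = 0 := Subsingleton.elim _ _
      rw [this]; simp
  obtain ⟨μ, hμ⟩ := Module.End.exists_eigenvalue g
  have h1 : ∀ ν : K, ν ≠ μ → g.maxGenEigenspace ν = ⊥ := by
    intro ν hν
    rw [eq_bot_iff]
    intro x hx
    rw [Module.End.mem_maxGenEigenspace] at hx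
    obtain ⟨k, hk⟩ := hx
    have hne : ¬ g.HasEigenvalue ν := fun hν' => h ⟨μ, ν, hν.symm, hμ, hν'⟩
    have hinj : ∀ y : V, (g - ν • (1 : Module.End K V)) y = 0 → y = 0 := by
      intro y hy
      by_contra hy0
      apply hne
      rw [Module.End.hasEigenvalue_iff]
      intro hbot
      apply hy0
      have : y ∈ g.eigenspace ν := by
        rw [Module.End.mem_eigenspace_iff]
        rw [LinearMap.sub_apply, LinearMap.smul_apply, Module.End.one_apply, sub_eq_zero] at hy
        exact hy
      rw [hbot] at this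
      exact (Submodule.mem_bot K).1 this
    have hpow : ∀ (k : ℕ) (y : V), ((g - ν • (1 : Module.End K V)) ^ k) y = 0 → y = 0 := by
      intro k
      induction k with
      | zero => intro y hy; simpa using hy
      | succ k ih =>
        intro y hy
        rw [pow_succ, Module.End.mul_apply] at hy
        exact hinj y (ih _ hy)
    exact (Submodule.mem_bot K).2 (hpow k x hk)
  have h2 : g.maxGenEigenspace μ = ⊤ := by
    have h3 := Module.End.iSup_maxGenEigenspace_eq_top g
    rw [eq_top_iff, ← h3]
    refine iSup_le fun ν => ?_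
    by_cases hν : ν = μ
    · rw [hν]
    · rw [h1 ν hν]
      exact bot_le
  set N : Module.End K V := g - μ • 1 with hN
  have hNnil : IsNilpotent N := by
    refine ⟨Module.finrank K V, ?_⟩
    rw [Module.End.maxGenEigenspace_eq_genEigenspace_finrank] at h2
    ext x
    have h3 : x ∈ g.genEigenspace μ (Module.finrank K V) := by rw [h2]; exact Submodule.mem_top
    rw [Module.End.mem_genEigenspace_nat, LinearMap.mem_ker] at h3
    exact h3
  have htN : LinearMap.trace K V N = 0 := by
    have := LinearMap.isNilpotent_trace_of_isNilpotent hNnil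
    exact this.eq_zero
  have hN2 : IsNilpotent (N * N) := by
    rw [← pow_two]
    exact hNnil.pow_of_pos (by norm_num)
  have htN2 : LinearMap.trace K V (N * N) = 0 := by
    have := LinearMap.isNilpotent_trace_of_isNilpotent hN2
    exact this.eq_zero
  have hg : g = N + μ • 1 := by rw [hN]; abel
  refine ⟨μ, ?_, ?_⟩
  · rw [hg, map_add, htN, map_smul, LinearMap.trace_one, zero_add, smul_eq_mul, mul_comm]
  · have h4 : g * g = N * N + (2 * μ) • N + μ ^ 2 • 1 := by
      rw [hg]
      simp only [add_mul, mul_add, smul_mul_assoc, mul_smul_comm, one_mul, mul_one, smul_add, smul_smul]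
      rw [two_mul, add_smul, pow_two]
      abel
    rw [h4, map_add, map_add, htN2, map_smul, htN, map_smul, LinearMap.trace_one]
    simp only [smul_eq_mul, mul_zero, zero_add]
    ring

end SplAux55

open SplAux55

section SPL
variable {K V : Type} [Field K] [AddCommGroup V] [Module K V] [FiniteDimensional K V]

theorem split_two (f : Fin 3 → Module.End K V) (g : Module.End K V)
    (hg : ∀ i, Commute g (f i)) (h : TwoEig g) :
    ∃ p q : Submodule K V, IsCompl p q ∧ p ≠ ⊥ ∧ q ≠ ⊥ ∧
      (∀ i, ∀ v ∈ p, f i v ∈ p) ∧ (∀ i, ∀ v ∈ q, f i v ∈ q) := by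
  obtain ⟨μ, ν, hne, hμ, hν⟩ := h
  obtain ⟨u, hu, hu0⟩ := hμ.exists_hasEigenvector
  obtain ⟨w, hw, hw0⟩ := hν.exists_hasEigenvector
  rw [Module.End.mem_eigenspace_iff] at hu hw
  let a : Module.End K V := g - algebraMap K _ μ
  have hev := (LinearMap.eventually_isCompl_ker_pow_range_pow a).and
    (Filter.eventually_ge_atTop 1)
  obtain ⟨N, hN, hN1⟩ := hev.exists
  have hcomm : ∀ i, Commute (a ^ N) (f i) := by
    intro i
    apply Commute.pow_left
    exact (hg i).sub_left (Algebra.commutes μ (f i))
  refine ⟨_, _, hN, ?_, ?_, ?_, ?_⟩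
  · intro hbot
    apply hu0
    rw [← Submodule.mem_bot K, ← hbot, LinearMap.mem_ker]
    obtain ⟨M, rfl⟩ : ∃ M, N = M + 1 := ⟨N - 1, by omega⟩
    have h1 : a u = 0 := by
      show g u - (algebraMap K (Module.End K V) μ) u = 0
      rw [hu, Module.algebraMap_end_apply, sub_self]
    rw [pow_succ, Module.End.mul_apply, h1, map_zero]
  · intro hbot
    apply hw0
    rw [← Submodule.mem_bot K, ← hbot, LinearMap.mem_range]
    have h1 : a w = (ν - μ) • w := by
      show g w - (algebraMap K (Module.End K V) μ) w = _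
      rw [hw, Module.algebraMap_end_apply, sub_smul]
    have h2 : ∀ n : ℕ, (a ^ n) w = (ν - μ) ^ n • w := by
      intro n
      induction n with
      | zero => simp
      | succ n ih => rw [pow_succ', Module.End.mul_apply, ih, map_smul, h1, smul_smul, pow_succ]
    refine ⟨((ν - μ) ^ N)⁻¹ • w, ?_⟩
    rw [map_smul, h2, smul_smul, inv_mul_cancel₀, one_smul]
    exact pow_ne_zero _ (sub_ne_zero.mpr hne.symm)
  · intro i v hv
    rw [LinearMap.mem_ker] at hv ⊢
    have h1 := congrArg (fun T : Module.End K V => T v) (hcomm i).eq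
    simp only [Module.End.mul_apply] at h1
    rw [h1, hv, map_zero]
  · intro i v hv
    rw [LinearMap.mem_range] at hv ⊢
    obtain ⟨y, rfl⟩ := hv
    refine ⟨f i y, ?_⟩
    have h1 := congrArg (fun T : Module.End K V => T y) (hcomm i).eq
    simpa only [Module.End.mul_apply] using h1

theorem cyc_restrict (f : Fin 3 → Module.End K V) (v : V) (hv : Cyc f v) (p q : Submodule K V)
    (hpq : IsCompl p q) (hp : ∀ i, ∀ v ∈ p, f i v ∈ p) (hq : ∀ i, ∀ v ∈ q, f i v ∈ q) :
    ∃ w : p, Cyc (fun i => (f i).restrict (hp i)) w := by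
  let P : V →ₗ[K] p := p.linearProjOfIsCompl q hpq
  have hPp : ∀ u : p, P u = u := fun u => Submodule.linearProjOfIsCompl_apply_left hpq u
  have hPq : ∀ u ∈ q, P u = 0 := fun u hu => (Submodule.linearProjOfIsCompl_apply_eq_zero_iff hpq).mpr hu
  have hcomm : ∀ i u, P (f i u) = (f i).restrict (hp i) (P u) := by
    intro i u
    have hu : u ∈ p ⊔ q := by rw [hpq.sup_eq_top]; trivial
    obtain ⟨a, ha, b, hb, rfl⟩ := Submodule.mem_sup.mp hu
    have e1 : P (f i a) = (f i).restrict (hp i) ⟨a, ha⟩ := by
      have h2 := hPp ⟨f i a, hp i a ha⟩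
      rw [h2]
      rfl
    have e2 : P a = ⟨a, ha⟩ := hPp ⟨a, ha⟩
    rw [map_add, map_add, map_add, e1, hPq _ (hq i b hb), hPq b hb, e2, add_zero, add_zero]
  have hpow : ∀ i (n : ℕ) u, P ((f i ^ n) u) = ((f i).restrict (hp i) ^ n) (P u) := by
    intro i n
    induction n with
    | zero => intro u; simp
    | succ n ih =>
      intro u
      rw [pow_succ', pow_succ', Module.End.mul_apply, Module.End.mul_apply, hcomm, ih]
  refine ⟨P v, ?_⟩
  have hv' : Submodule.span K (Set.range fun e : ℕ × ℕ × ℕ =>
    (f 0 ^ e.1 * f 1 ^ e.2.1 * f 2 ^ e.2.2) v) = ⊤ := hv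
  have h1 := congrArg (Submodule.map P) hv'
  rw [Submodule.map_span, ← Set.range_comp, Submodule.map_top] at h1
  have hsurj : LinearMap.range P = ⊤ := by
    rw [eq_top_iff]
    intro u _
    exact ⟨u, hPp u⟩
  rw [hsurj] at h1
  unfold Cyc
  rw [← h1]
  congr 1
  ext u
  simp only [Set.mem_range, Function.comp_apply, Module.End.mul_apply, hpow]

theorem cl_of_twoEig (f : Fin 3 → Module.End K V) (hf : Comm3 f) (v : V) (hv : Cyc f v)
    (g : Module.End K V) (hg : ∀ i, Commute g (f i)) (h : TwoEig g)
    (IH : ∀ k < Module.finrank K V, MainV K k) : Cl f := by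
  obtain ⟨p, q, hpq, hp0, hq0, hp, hq⟩ := split_two f g hg h
  have hpt : p ≠ ⊤ := by
    intro hp1
    apply hq0
    have h1 := hpq.disjoint
    rw [hp1] at h1
    exact top_disjoint.mp h1
  have hqt : q ≠ ⊤ := by
    intro hq1
    apply hp0
    have h1 := hpq.disjoint
    rw [hq1] at h1
    exact disjoint_top.mp h1
  have key : ∀ (p q : Submodule K V) (_ : IsCompl p q) (_ : p ≠ ⊤)
      (hp : ∀ i, ∀ v ∈ p, f i v ∈ p) (hq : ∀ i, ∀ v ∈ q, f i v ∈ q),
      Cl (fun i => (f i).restrict (hp i)) := by
    intro p q hpq hpt hp hq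
    obtain ⟨w, hw⟩ := cyc_restrict f v hv p q hpq hp hq
    refine IH _ (Submodule.finrank_lt hpt) p _ w ?_ hw rfl
    intro i j
    ext u
    have h2 := congrArg (fun T : Module.End K V => T u) (hf i j)
    simpa only [Module.End.mul_apply, LinearMap.coe_restrict_apply] using h2
  exact cl_compl f p q hpq hp hq (key p q hpq hpt hp hq) (key q p hpq.symm hqt hq hp)

theorem twoEig_generic [IsAlgClosed K] [CharZero K] (g E : Module.End K V) (hE : E * E = E)
    (h0 : E ≠ 0) (h1 : E ≠ 1) : {t : K | ¬ TwoEig (g + t • E)}.Finite := by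
  classical
  -- the rank of `E`
  have hproj : LinearMap.IsProj (LinearMap.range E) E := by
    refine ⟨fun x => LinearMap.mem_range_self E x, ?_⟩
    rintro _ ⟨y, rfl⟩
    rw [← Module.End.mul_apply, hE]
  have htr : LinearMap.trace K V E = Module.finrank K (LinearMap.range E) := hproj.trace
  set n := Module.finrank K V with hn
  set r := Module.finrank K (LinearMap.range E) with hr
  have hr0 : r ≠ 0 := by
    intro h
    apply h0
    rw [hr, Submodule.finrank_eq_zero] at h
    exact LinearMap.range_eq_bot.1 h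
  have hrn : r ≠ n := by
    intro h
    apply h1
    have htop : LinearMap.range E = ⊤ := Submodule.eq_top_of_finrank_eq h
    ext x
    obtain ⟨y, rfl⟩ : x ∈ LinearMap.range E := by rw [htop]; exact Submodule.mem_top
    rw [← Module.End.mul_apply, hE, Module.End.one_apply]
  have hrle : r ≤ n := Submodule.finrank_le _
  -- the quadratic polynomial
  let p : Polynomial K := Polynomial.C ((n : K) * r - (r : K) ^ 2) * Polynomial.X ^ 2 +
    Polynomial.C ((n : K) * (LinearMap.trace K V (g * E) + LinearMap.trace K V (E * g)) -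
      2 * LinearMap.trace K V g * r) * Polynomial.X +
    Polynomial.C ((n : K) * LinearMap.trace K V (g * g) - (LinearMap.trace K V g) ^ 2)
  have hp : p ≠ 0 := by
    intro h
    have h2 := congrArg (fun q : Polynomial K => q.coeff 2) h
    simp only [p, Polynomial.coeff_add, Polynomial.coeff_C_mul, Polynomial.coeff_X_pow, Polynomial.coeff_X,
      Polynomial.coeff_C, Polynomial.coeff_zero] at h2
    norm_num at h2
    have h3 : (r : K) * ((n : K) - r) = 0 := by linear_combination h2
    rcases mul_eq_zero.1 h3 with h4 | h4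
    · exact hr0 (by exact_mod_cast h4)
    · exact hrn (by exact_mod_cast (sub_eq_zero.1 h4).symm)
  refine Set.Finite.subset (Multiset.finite_toSet p.roots) ?_
  intro t ht
  obtain ⟨μ, hμ1, hμ2⟩ := trace_eq_of_not_twoEig (g + t • E) ht
  change t ∈ p.roots
  rw [Polynomial.mem_roots hp, Polynomial.IsRoot.def]
  simp only [p, Polynomial.eval_add, Polynomial.eval_mul, Polynomial.eval_C, Polynomial.eval_pow,
    Polynomial.eval_X]
  rw [map_add, map_smul, htr, smul_eq_mul] at hμ1
  have h5 : (g + t • E) * (g + t • E) = g * g + t • (g * E) + t • (E * g) + t ^ 2 • E := by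
    simp only [add_mul, mul_add, smul_mul_assoc, mul_smul_comm, smul_add, smul_smul, hE, pow_two]
    abel
  rw [h5, map_add, map_add, map_add, map_smul, map_smul, map_smul, htr] at hμ2
  simp only [smul_eq_mul] at hμ2
  linear_combination (n : K) * hμ2 - (LinearMap.trace K V g + t * r + n * μ) * hμ1

/-- monomials of a triple -/

theorem cyc_generic [Infinite K] (f g : Fin 3 → Module.End K V) (v : V) (hv : Cyc f v) :
    {t : K | ¬ Cyc (fun i => f i + t • g i) v}.Finite := by
  classical
  let mon : (Fin 3 → Module.End K V) → ℕ × ℕ × ℕ → V :=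
    fun f e => (f 0 ^ e.1 * f 1 ^ e.2.1 * f 2 ^ e.2.2) v
  have hspan : Submodule.span K (Set.range (mon f)) = ⊤ := hv
  obtain ⟨κ, a, -, hsp, hli⟩ := exists_linearIndependent' K (mon f)
  rw [hspan] at hsp
  let c : Module.Basis κ K V := Module.Basis.mk hli (by rw [hsp])
  let B := Module.finBasis K V
  let ε : κ ≃ Fin (Module.finrank K V) := c.indexEquiv B
  -- the polynomial matrices
  let n := Module.finrank K V
  let F : Fin 3 → Matrix (Fin n) (Fin n) (Polynomial K) := fun i =>
    (LinearMap.toMatrix B B (f i)).map Polynomial.C +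
      (Polynomial.X : Polynomial K) • (LinearMap.toMatrix B B (g i)).map Polynomial.C
  let w : Fin n → Polynomial K := fun j => Polynomial.C (B.repr v j)
  let M : Matrix (Fin n) (Fin n) (Polynomial K) := Matrix.of fun i j =>
    ((F 0 ^ (a (ε.symm j)).1 * F 1 ^ (a (ε.symm j)).2.1 * F 2 ^ (a (ε.symm j)).2.2).mulVec w) i
  have hev : ∀ t : K, (Polynomial.evalRingHom t).mapMatrix M =
      B.toMatrix (fun j => mon (fun i => f i + t • g i) (a (ε.symm j))) := by
    intro t
    have hF : ∀ i, (Polynomial.evalRingHom t).mapMatrix (F i) =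
        LinearMap.toMatrix B B (f i + t • g i) := by
      intro i
      ext x y
      simp [F, LinearMap.toMatrix_apply]
      ring
    ext x y
    rw [Module.Basis.toMatrix_apply]
    have h1 : ((Polynomial.evalRingHom t).mapMatrix M) x y =
        (((Polynomial.evalRingHom t).mapMatrix
          (F 0 ^ (a (ε.symm y)).1 * F 1 ^ (a (ε.symm y)).2.1 * F 2 ^ (a (ε.symm y)).2.2)).mulVec
            (fun j => B.repr v j)) x := by
      have hw : (fun j => B.repr v j) = (Polynomial.evalRingHom t) ∘ w := by
        funext j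
        simp [w]
      rw [hw, RingHom.mapMatrix_apply, RingHom.mapMatrix_apply, ← RingHom.map_mulVec]
      rfl
    rw [h1, map_mul, map_mul, map_pow, map_pow, map_pow, hF, hF, hF]
    have h2 : LinearMap.toMatrix B B (f 0 + t • g 0) ^ (a (ε.symm y)).1 *
        LinearMap.toMatrix B B (f 1 + t • g 1) ^ (a (ε.symm y)).2.1 *
        LinearMap.toMatrix B B (f 2 + t • g 2) ^ (a (ε.symm y)).2.2 =
        LinearMap.toMatrix B B ((f 0 + t • g 0) ^ (a (ε.symm y)).1 *
          (f 1 + t • g 1) ^ (a (ε.symm y)).2.1 * (f 2 + t • g 2) ^ (a (ε.symm y)).2.2) := by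
      rw [LinearMap.toMatrix_mul, LinearMap.toMatrix_mul, LinearMap.toMatrix_pow, LinearMap.toMatrix_pow,
        LinearMap.toMatrix_pow]
    rw [h2, LinearMap.toMatrix_mulVec_repr]
  have hdet : M.det ≠ 0 := by
    intro h0
    have h1 := hev 0
    have h2 : (fun j => mon (fun i => f i + (0 : K) • g i) (a (ε.symm j))) = c.reindex ε := by
      funext j
      simp [mon, c]
    rw [h2] at h1
    have h3 := congrArg Matrix.det h1
    rw [← RingHom.map_det, h0, map_zero] at h3
    have h4 : IsUnit (B.toMatrix (c.reindex ε)).det := by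
      have := (B.det_self)
      have h5 := Module.Basis.isUnit_det B (c.reindex ε)
      rwa [Module.Basis.det_apply] at h5
    rw [← h3] at h4
    exact not_isUnit_zero h4
  refine Set.Finite.subset (Multiset.finite_toSet M.det.roots) ?_
  intro t ht
  change t ∈ M.det.roots
  rw [Polynomial.mem_roots hdet, Polynomial.IsRoot.def]
  by_contra hne
  apply ht
  have h1 := congrArg Matrix.det (hev t)
  rw [← RingHom.map_det] at h1
  have h2 : IsUnit (B.det (fun j => mon (fun i => f i + t • g i) (a (ε.symm j)))) := by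
    rw [Module.Basis.det_apply, ← h1]
    exact IsUnit.mk0 _ hne
  have h3 := (Module.Basis.is_basis_iff_det B).2 h2
  change Submodule.span K (Set.range (mon (fun i => f i + t • g i))) = ⊤
  rw [eq_top_iff, ← h3.2]
  refine Submodule.span_mono ?_
  rintro _ ⟨j, rfl⟩
  exact ⟨_, rfl⟩

theorem cl_c1 [IsAlgClosed K] [CharZero K] (f : Fin 3 → Module.End K V) (hf : Comm3 f) (v : V)
    (hv : Cyc f v) (j : Fin 3) (E : Module.End K V) (hE : E * E = E) (h0 : E ≠ 0) (h1 : E ≠ 1)
    (hc : ∀ i, i ≠ j → Commute E (f i)) (IH : ∀ k < Module.finrank K V, MainV K k) :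
    Cl f := by
  have : Infinite K := inferInstance
  apply cl_line f (Pi.single j E)
  have hfin := (twoEig_generic (f j) E hE h0 h1).union (cyc_generic f (Pi.single j E) v hv)
  refine hfin.infinite_compl.mono ?_
  intro t ht
  rw [Set.mem_compl_iff, Set.mem_union, not_or] at ht
  obtain ⟨ht1, ht2⟩ := ht
  have ht1' : TwoEig (f j + t • E) := by
    by_contra h
    exact ht1 h
  have ht2' : Cyc (fun i => f i + t • (Pi.single j E : Fin 3 → Module.End K V) i) v := by
    by_contra h
    exact ht2 h
  have hcomm : Comm3 (fun i => f i + t • (Pi.single j E : Fin 3 → Module.End K V) i) := by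
    intro i k
    show (f i + t • (Pi.single j E : Fin 3 → Module.End K V) i) *
      (f k + t • (Pi.single j E : Fin 3 → Module.End K V) k) =
      (f k + t • (Pi.single j E : Fin 3 → Module.End K V) k) *
      (f i + t • (Pi.single j E : Fin 3 → Module.End K V) i)
    by_cases hi : i = j
    · by_cases hk : k = j
      · rw [hi, hk]
      · subst hi
        rw [Pi.single_eq_same, Pi.single_eq_of_ne hk, smul_zero, add_zero, add_mul, mul_add,
          hf i k, smul_mul_assoc, mul_smul_comm, (hc k hk).eq]
    · by_cases hk : k = j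
      · subst hk
        rw [Pi.single_eq_same, Pi.single_eq_of_ne hi, smul_zero, add_zero, add_mul, mul_add,
          hf i k, smul_mul_assoc, mul_smul_comm, (hc i hi).eq]
      · rw [Pi.single_eq_of_ne hi, Pi.single_eq_of_ne hk, smul_zero, add_zero, add_zero, hf i k]
  refine cl_of_twoEig _ hcomm v ht2' (f j + t • E) ?_ ht1' IH
  intro i
  have h3 := hcomm j i
  simp only [Pi.single_eq_same] at h3
  exact h3

end SPL

end Pool.Agent.MPac4d2b
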