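import Mathlib
import Pool.Agent.Lib.MP_ac4d2b_ag.Defs
import Pool.Agent.Lib.MP_ac4d2b_ag.CL2
import Pool.Agent.Lib.MP_ac4d2b_ag.SPL

/-!
# MP_ac4d2b_ag: commuting pairs
-/

set_option autoImplicit false

namespace Pool.Agent.MPac4d2b

namespace PairAux

section Nilp

variable {K V : Type} [Field K] [AddCommGroup V] [Module K V]

/-- the projection to a cyclic submodule of maximal length -/
noncomputable def T (N : Module.End K V) (κ : ℕ) (v : V) (l : Module.Dual K V) : Module.End K V :=
  ∑ i ∈ Finset.range (κ + 1), (l ∘ₗ (N ^ (κ - i))).smulRight ((N ^ i) v)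

theorem T_apply (N : Module.End K V) (κ : ℕ) (v : V) (l : Module.Dual K V) (x : V) :
    T N κ v l x = ∑ i ∈ Finset.range (κ + 1), l ((N ^ (κ - i)) x) • (N ^ i) v := by
  simp [T, LinearMap.sum_apply]

theorem T_comm (N : Module.End K V) (κ : ℕ) (hN : N ^ (κ + 1) = 0) (v : V) (l : Module.Dual K V) (x : V) :
    T N κ v l (N x) = N (T N κ v l x) := by
  rw [T_apply, T_apply, map_sum, Finset.sum_range_succ', Finset.sum_range_succ]
  have h1 : (N ^ (κ - 0)) (N x) = 0 := by
    rw [Nat.sub_zero, ← Module.End.mul_apply, ← pow_succ, hN, LinearMap.zero_apply]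
  have h2 : N (l ((N ^ (κ - κ)) x) • (N ^ κ) v) = 0 := by
    rw [map_smul, ← Module.End.mul_apply, ← pow_succ', hN, LinearMap.zero_apply, smul_zero]
  rw [h1, h2, map_zero, zero_smul]
  congr 1
  refine Finset.sum_congr rfl fun i hi => ?_
  rw [Finset.mem_range] at hi
  rw [map_smul, ← Module.End.mul_apply N (N ^ i), ← pow_succ', ← Module.End.mul_apply (N ^ (κ - (i + 1))) N,
    ← pow_succ, show κ - (i + 1) + 1 = κ - i by omega]

theorem T_comm_pow (N : Module.End K V) (κ : ℕ) (hN : N ^ (κ + 1) = 0) (v : V) (l : Module.Dual K V)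
    (i : ℕ) (x : V) : T N κ v l ((N ^ i) x) = (N ^ i) (T N κ v l x) := by
  induction i generalizing x with
  | zero => simp
  | succ i ih =>
    rw [pow_succ, Module.End.mul_apply, ih, T_comm N κ hN, Module.End.mul_apply]

theorem T_self (N : Module.End K V) (κ : ℕ) (v : V) (l : Module.Dual K V)
    (hl : l ((N ^ κ) v) = 1) (hl' : ∀ j, j < κ → l ((N ^ j) v) = 0) : T N κ v l v = v := by
  rw [T_apply, Finset.sum_range_succ', Nat.sub_zero, hl, one_smul, pow_zero, Module.End.one_apply]
  rw [Finset.sum_eq_zero, zero_add]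
  intro i hi
  rw [Finset.mem_range] at hi
  rw [hl' _ (by omega), zero_smul]

theorem exists_functional (N : Module.End K V) (κ : ℕ) (hN : N ^ (κ + 1) = 0) (v : V)
    (hv : (N ^ κ) v ≠ 0) : ∃ l : Module.Dual K V, l ((N ^ κ) v) = 1 ∧ ∀ j, j < κ → l ((N ^ j) v) = 0 := by
  have hbig : ∀ j, κ < j → (N ^ j) v = 0 := by
    intro j hj
    obtain ⟨k, rfl⟩ := Nat.exists_eq_add_of_lt hj
    rw [show κ + k + 1 = k + (κ + 1) by ring, pow_add, hN, mul_zero, LinearMap.zero_apply]
  have hnot : (N ^ κ) v ∉ Submodule.span K (Set.range fun j : Fin κ => (N ^ (j : ℕ)) v) := by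
    intro hmem
    obtain ⟨c, hc⟩ := (Submodule.mem_span_range_iff_exists_fun K).1 hmem
    have hc0 : ∀ (j : ℕ) (hj : j < κ), c ⟨j, hj⟩ = 0 := by
      intro j
      induction j using Nat.strong_induction_on with
      | _ j ih =>
        intro hj
        have h1 := congrArg (N ^ (κ - j)) hc
        rw [map_sum, ← Module.End.mul_apply, ← pow_add, hbig _ (by omega)] at h1
        rw [Finset.sum_eq_single ⟨j, hj⟩] at h1
        · rw [map_smul, ← Module.End.mul_apply, ← pow_add, show κ - j + j = κ by omega] at h1
          rcases smul_eq_zero.1 h1 with h | h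
          · exact h
          · exact absurd h hv
        · intro i _ hij
          rw [map_smul, ← Module.End.mul_apply, ← pow_add]
          rcases lt_or_gt_of_ne (fun h => hij (Fin.ext h) : (i : ℕ) ≠ j) with hlt | hgt
          · have := ih i hlt i.2
            rw [show c i = 0 from this, zero_smul]
          · rw [hbig _ (by omega), smul_zero]
        · intro h
          exact absurd (Finset.mem_univ _) h
    apply hv
    rw [← hc]
    exact Finset.sum_eq_zero fun i _ => by rw [hc0 i i.2, zero_smul]
  obtain ⟨l, hl1, hl2⟩ := Submodule.exists_dual_map_eq_bot_of_notMem hnot inferInstance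
  refine ⟨(l ((N ^ κ) v))⁻¹ • l, ?_, ?_⟩
  · rw [LinearMap.smul_apply, smul_eq_mul, inv_mul_cancel₀ hl1]
  · intro j hj
    have h1 : l ((N ^ j) v) ∈ Submodule.map l
        (Submodule.span K (Set.range fun j : Fin κ => (N ^ (j : ℕ)) v)) :=
      Submodule.mem_map_of_mem (Submodule.subset_span ⟨⟨j, hj⟩, rfl⟩)
    rw [hl2, Submodule.mem_bot] at h1
    rw [LinearMap.smul_apply, h1, smul_zero]

/-- a nilpotent endomorphism commutes with a nontrivial idempotent, or its commutant is generated
by it -/
theorem nilp_alternative [Nontrivial V] (N : Module.End K V) (hN : IsNilpotent N) :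
    (∃ E : Module.End K V, E * E = E ∧ E ≠ 0 ∧ E ≠ 1 ∧ Commute E N) ∨
      ∀ w : Module.End K V, w * N = N * w → w ∈ Algebra.adjoin K {N} := by
  classical
  have hex : ∃ k, N ^ k = 0 := hN
  obtain ⟨κ, hκ⟩ : ∃ κ, Nat.find hex = κ + 1 := by
    refine ⟨Nat.find hex - 1, ?_⟩
    have : Nat.find hex ≠ 0 := by
      intro h
      have h1 := Nat.find_spec hex
      rw [h, pow_zero] at h1
      exact one_ne_zero h1
    omega
  have hN1 : N ^ (κ + 1) = 0 := by rw [← hκ]; exact Nat.find_spec hex
  have hN2 : N ^ κ ≠ 0 := Nat.find_min hex (by omega)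
  obtain ⟨v, hv⟩ : ∃ v, (N ^ κ) v ≠ 0 := by
    by_contra hcon
    push Not at hcon
    exact hN2 (LinearMap.ext hcon)
  obtain ⟨l, hl1, hl2⟩ := exists_functional N κ hN1 v hv
  have hTv := T_self N κ v l hl1 hl2
  have hv0 : v ≠ 0 := by rintro rfl; exact hv (map_zero _)
  by_cases h1 : T N κ v l = 1
  · right
    intro w hw
    have hwp : ∀ (i : ℕ) (x : V), w ((N ^ i) x) = (N ^ i) (w x) := by
      intro i x
      have : w * N ^ i = N ^ i * w := (Commute.pow_right (show Commute w N from hw) i)
      rw [← Module.End.mul_apply, this, Module.End.mul_apply]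
    have hid : ∀ x, x = ∑ i ∈ Finset.range (κ + 1), l ((N ^ (κ - i)) x) • (N ^ i) v := by
      intro x
      rw [← T_apply, h1, Module.End.one_apply]
    have hw2 : w = ∑ i ∈ Finset.range (κ + 1), l ((N ^ (κ - i)) (w v)) • N ^ i := by
      ext x
      have h2 : ∀ y, (∑ i ∈ Finset.range (κ + 1), l ((N ^ (κ - i)) (w v)) • N ^ i) ((N ^ y) v) =
          (N ^ y) (w v) := by
        intro y
        conv_rhs => rw [hid (w v)]
        rw [LinearMap.sum_apply, map_sum]
        refine Finset.sum_congr rfl fun i _ => ?_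
        rw [LinearMap.smul_apply, map_smul, ← Module.End.mul_apply (N ^ i), ← Module.End.mul_apply (N ^ y),
          ← pow_add, ← pow_add, add_comm]
      conv_lhs => rw [hid x]
      conv_rhs => rw [hid x]
      rw [map_sum, map_sum]
      refine Finset.sum_congr rfl fun i _ => ?_
      rw [map_smul, map_smul, hwp, h2]
    rw [hw2]
    refine Subalgebra.sum_mem _ fun i _ => Subalgebra.smul_mem _ (Subalgebra.pow_mem _ ?_ _) _
    exact Algebra.subset_adjoin rfl
  · left
    refine ⟨T N κ v l, ?_, ?_, h1, ?_⟩
    · ext x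
      rw [Module.End.mul_apply]
      conv_lhs => rw [T_apply N κ v l x]
      rw [map_sum, T_apply N κ v l x]
      refine Finset.sum_congr rfl fun i _ => ?_
      rw [map_smul, T_comm_pow N κ hN1, hTv]
    · intro h
      rw [h, LinearMap.zero_apply] at hTv
      exact hv0 hTv.symm
    · ext x
      exact T_comm N κ hN1 v l x

/-- an endomorphism without two eigenvalues is a scalar plus a nilpotent one -/
theorem exists_nilp [IsAlgClosed K] [FiniteDimensional K V] [Nontrivial V] (u : Module.End K V)
    (h : ¬ TwoEig u) : ∃ μ : K, IsNilpotent (u - algebraMap K (Module.End K V) μ) := by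
  obtain ⟨μ, hμ⟩ := Module.End.exists_eigenvalue u
  refine ⟨μ, ?_⟩
  have h1 : ∀ ν : K, ν ≠ μ → u.maxGenEigenspace ν = ⊥ := by
    intro ν hν
    rw [eq_bot_iff]
    intro x hx
    rw [Module.End.mem_maxGenEigenspace] at hx
    obtain ⟨k, hk⟩ := hx
    have hne : ¬ u.HasEigenvalue ν := fun hν' => h ⟨μ, ν, hν.symm, hμ, hν'⟩
    have hinj : ∀ y : V, (u - ν • (1 : Module.End K V)) y = 0 → y = 0 := by
      intro y hy
      by_contra hy0
      apply hne
      rw [Module.End.hasEigenvalue_iff]
      intro hbot
      apply hy0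
      have : y ∈ u.eigenspace ν := by
        rw [Module.End.mem_eigenspace_iff]
        rw [LinearMap.sub_apply, LinearMap.smul_apply, Module.End.one_apply, sub_eq_zero] at hy
        exact hy
      rw [hbot] at this
      exact (Submodule.mem_bot K).1 this
    have hpow : ∀ (k : ℕ) (y : V), ((u - ν • (1 : Module.End K V)) ^ k) y = 0 → y = 0 := by
      intro k
      induction k with
      | zero => intro y hy; simpa using hy
      | succ k ih =>
        intro y hy
        rw [pow_succ, Module.End.mul_apply] at hy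
        exact hinj y (ih _ hy)
    exact (Submodule.mem_bot K).2 (hpow k x hk)
  have h2 : u.maxGenEigenspace μ = ⊤ := by
    have h3 := Module.End.iSup_maxGenEigenspace_eq_top u
    rw [eq_top_iff, ← h3]
    refine iSup_le fun ν => ?_
    by_cases hν : ν = μ
    · rw [hν]
    · rw [h1 ν hν]
      exact bot_le
  refine ⟨Module.finrank K V, ?_⟩
  rw [Module.End.maxGenEigenspace_eq_genEigenspace_finrank] at h2
  ext x
  have h3 : x ∈ u.genEigenspace μ (Module.finrank K V) := by rw [h2]; exact Submodule.mem_top
  rw [Module.End.mem_genEigenspace_nat, LinearMap.mem_ker] at h3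
  rw [Algebra.algebraMap_eq_smul_one]
  exact h3

end Nilp

/-- the statement for pairs, in dimension `n` -/
def P (K : Type) [Field K] (n : ℕ) : Prop :=
  ∀ (V : Type) [AddCommGroup V] [Module K V] [FiniteDimensional K V] (u w : Module.End K V),
    u * w = w * u → Module.finrank K V = n → Cl ![u, w, 0]

section Split

variable {K V : Type} [Field K] [AddCommGroup V] [Module K V] [FiniteDimensional K V]

theorem pair_split (u w g : Module.End K V) (h : u * w = w * u) (hgu : Commute g u) (hgw : Commute g w)
    (hg : TwoEig g) (IH : ∀ k < Module.finrank K V, P K k) : Cl ![u, w, 0] := by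
  have hc : ∀ i, Commute g (![u, w, 0] i) := by
    intro i
    match i with
    | 0 => exact hgu
    | 1 => exact hgw
    | 2 => exact Commute.zero_right g
  obtain ⟨p, q, hpq, hp0, hq0, hp, hq⟩ := split_two ![u, w, 0] g hc hg
  have key : ∀ (p q : Submodule K V), IsCompl p q → q ≠ ⊥ →
      ∀ (hp : ∀ i, ∀ v ∈ p, ![u, w, 0] i v ∈ p), Cl (fun i => (![u, w, 0] i).restrict (hp i)) := by
    intro p q hpq hq0 hp
    have h1 : (fun i => (![u, w, 0] i).restrict (hp i)) =
        ![u.restrict (hp 0), w.restrict (hp 1), (0 : Module.End K p)] := by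
      funext i
      match i with
      | 0 => rfl
      | 1 => rfl
      | 2 => rfl
    rw [h1]
    refine IH (Module.finrank K p) ?_ p _ _ ?_ rfl
    · apply Submodule.finrank_lt
      intro htop
      apply hq0
      have h2 := hpq.inf_eq_bot
      rw [htop, top_inf_eq] at h2
      exact h2
    · ext x
      exact congrArg (fun f : Module.End K V => f x) h
  exact cl_compl _ p q hpq hp hq (key p q hpq hq0 hp) (key q p hpq.symm hp0 hq)

theorem pair_idem [IsAlgClosed K] [CharZero K] (u w E : Module.End K V) (h : u * w = w * u)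
    (hEu : Commute E u) (hE : E * E = E) (h0 : E ≠ 0) (h1 : E ≠ 1)
    (IH : ∀ k < Module.finrank K V, P K k) : Cl ![u, w, 0] := by
  refine cl_line ![u, w, 0] ![0, E, 0] ?_
  refine Set.Infinite.mono ?_ (twoEig_generic w E hE h0 h1).infinite_compl
  intro t ht
  have ht' : TwoEig (w + t • E) := not_not.1 ht
  have h2 : (fun i => ![u, w, 0] i + t • ![(0 : Module.End K V), E, 0] i) = ![u, w + t • E, 0] := by
    funext i
    match i with
    | 0 => simp
    | 1 => simp
    | 2 => simp
  have hcomm : u * (w + t • E) = (w + t • E) * u := by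
    rw [mul_add, add_mul, h, mul_smul_comm, smul_mul_assoc, hEu.eq]
  change Cl (fun i => ![u, w, 0] i + t • ![(0 : Module.End K V), E, 0] i)
  rw [h2]
  exact pair_split u (w + t • E) (w + t • E) hcomm hcomm.symm (Commute.refl _) ht' IH

end Split

theorem pair_all (K : Type) [Field K] [IsAlgClosed K] [CharZero K] (n : ℕ) : P K n := by
  induction n using Nat.strong_induction_on with
  | _ n IH =>
    intro V _ _ _ u w h hn
    subst hn
    rcases Nat.lt_or_ge 1 (Module.finrank K V) with hdim | hdim
    swap
    · exact cl_of_finrank_le_one _ hdim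
    have : Nontrivial V := Module.nontrivial_of_finrank_pos (R := K) (by omega)
    by_cases hu : TwoEig u
    · exact pair_split u w u h (Commute.refl _) h hu IH
    obtain ⟨μ, hμ⟩ := exists_nilp u hu
    rcases nilp_alternative _ hμ with ⟨E, hE, h0, h1, hc⟩ | hcyc
    · refine pair_idem u w E h ?_ hE h0 h1 IH
      have h2 := hc.add_right (Algebra.commutes μ E).symm
      rwa [sub_add_cancel] at h2
    -- `w` is a polynomial in `u`
    have hw : w ∈ Algebra.adjoin K {u - algebraMap K (Module.End K V) μ} := by
      apply hcyc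
      rw [mul_sub, sub_mul, h, Algebra.commutes]
    have hle : Algebra.adjoin K {u - algebraMap K (Module.End K V) μ} ≤ Algebra.adjoin K {u} := by
      rw [Algebra.adjoin_le_iff, Set.singleton_subset_iff]
      exact Subalgebra.sub_mem _ (Algebra.subset_adjoin rfl) (Subalgebra.algebraMap_mem _ _)
    have hw' := hle hw
    -- the triple `(0, u, 0)`
    obtain ⟨E, hE, h0, h1⟩ : ∃ E : Module.End K V, E * E = E ∧ E ≠ 0 ∧ E ≠ 1 := by
      obtain ⟨x, hx⟩ := exists_ne (0 : V)
      obtain ⟨l, hl⟩ : ∃ l : Module.Dual K V, l x = 1 := by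
        have h2 : ∃ l : Module.Dual K V, l x ≠ 0 := by
          by_contra hcon
          push Not at hcon
          exact hx ((Module.forall_dual_apply_eq_zero_iff K x).1 hcon)
        obtain ⟨l, hl⟩ := h2
        exact ⟨(l x)⁻¹ • l, by rw [LinearMap.smul_apply, smul_eq_mul, inv_mul_cancel₀ hl]⟩
      refine ⟨l.smulRight x, ?_, ?_, ?_⟩
      · ext y
        simp [hl]
      · intro h2
        have h3 := congrArg (fun f : Module.End K V => f x) h2
        simp only [LinearMap.smulRight_apply, hl, one_smul, LinearMap.zero_apply] at h3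
        exact hx h3
      · intro h2
        have h3 : Module.finrank K V ≤ 1 := by
          refine finrank_le_one x fun y => ⟨l y, ?_⟩
          exact congrArg (fun f : Module.End K V => f y) h2
        omega
    have h3 : Cl ![(0 : Module.End K V), u, 0] :=
      pair_idem 0 u E (by rw [zero_mul, mul_zero]) (Commute.zero_right E) hE h0 h1 IH
    refine cl_adjoin ![(0 : Module.End K V), u, 0] _ ?_ h3 ?_
    · intro i j
      fin_cases i <;> fin_cases j <;> simp
    · have hsub : Algebra.adjoin K {u} ≤ Algebra.adjoin K (Set.range ![(0 : Module.End K V), u, 0]) := by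
        rw [Algebra.adjoin_le_iff, Set.singleton_subset_iff]
        exact Algebra.subset_adjoin ⟨1, rfl⟩
      intro i
      match i with
      | 0 => exact Algebra.subset_adjoin ⟨1, rfl⟩
      | 1 => exact hsub hw'
      | 2 => exact Subalgebra.zero_mem _

end PairAux

theorem cl_pair {K V : Type} [Field K] [IsAlgClosed K] [CharZero K] [AddCommGroup V]
    [Module K V] [FiniteDimensional K V] (u w : Module.End K V) (h : u * w = w * u)
    (f : Fin 3 → Module.End K V) (hf : ∀ i, f i ∈ Algebra.adjoin K {u, w}) : Cl f := by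
  refine cl_adjoin ![u, w, 0] f ?_ (PairAux.pair_all K _ V u w h rfl) ?_
  · intro i j
    match i, j with
    | 0, 0 => rfl
    | 0, 1 => exact h
    | 0, 2 => exact (mul_zero _).trans (zero_mul _).symm
    | 1, 0 => exact h.symm
    | 1, 1 => rfl
    | 1, 2 => exact (mul_zero _).trans (zero_mul _).symm
    | 2, 0 => exact (zero_mul _).trans (mul_zero _).symm
    | 2, 1 => exact (zero_mul _).trans (mul_zero _).symm
    | 2, 2 => rfl
  · intro i
    have hsub : Algebra.adjoin K {u, w} ≤ Algebra.adjoin K (Set.range ![u, w, (0 : Module.End K V)]) := by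
      rw [Algebra.adjoin_le_iff]
      rintro x hx
      rcases hx with rfl | hx
      · exact Algebra.subset_adjoin ⟨0, rfl⟩
      · rw [Set.mem_singleton_iff.1 hx]
        exact Algebra.subset_adjoin ⟨1, rfl⟩
    exact hsub (hf i)

end Pool.Agent.MPac4d2b
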