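import Mathlib
import Pool.Agent.Lib.MP_ac4d2b_ag.Defs
import Pool.Agent.Lib.MP_ac4d2b_ag.CL2
import Pool.Agent.Lib.MP_ac4d2b_ag.SPL
import Pool.Agent.Lib.MP_ac4d2b_ag.PAIR

/-!
MP_ac4d2b_ag (project HILB), module SURF: triples with `f 0 * f 1 = ∏ (f 2 - c i)`.
-/

set_option autoImplicit false

namespace Pool.Agent.MPac4d2b

namespace SURFAux

section General

variable {K V W : Type} [Field K] [AddCommGroup V] [Module K V] [AddCommGroup W] [Module K W]

theorem aeval_intertwine (e : W →ₗ[K] V) (g' : Module.End K W) (g : Module.End K V)
    (h : ∀ w, e (g' w) = g (e w)) (P : Polynomial K) (w : W) :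
    e (Polynomial.aeval g' P w) = Polynomial.aeval g P (e w) := by
  have hpow : ∀ (n : ℕ) (w : W), e ((g' ^ n) w) = (g ^ n) (e w) := by
    intro n
    induction n with
    | zero => intro w; simp
    | succ n ih =>
      intro w
      rw [pow_succ, pow_succ, Module.End.mul_apply, Module.End.mul_apply, ih, h]
  induction P using Polynomial.induction_on' with
  | add p q hp hq => simp only [map_add, LinearMap.add_apply, hp, hq]
  | monomial n a =>
    simp only [Polynomial.aeval_monomial, Module.End.mul_apply, Module.algebraMap_end_apply,
      map_smul, hpow]

/-- The inverse of an invertible endomorphism is a polynomial in it. -/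
theorem inv_poly [FiniteDimensional K V] (g : Module.End K V) (hg : IsUnit g) :
    ∃ r : Polynomial K, g * Polynomial.aeval g r = 1 := by
  have hdet : LinearMap.det g ≠ 0 := by
    have := (LinearMap.isUnit_iff_isUnit_det g).mp hg
    exact this.ne_zero
  have hc : g.charpoly.coeff 0 ≠ 0 := by
    intro h0
    apply hdet
    rw [LinearMap.det_eq_sign_charpoly_coeff, h0, mul_zero]
  have h1 : Polynomial.aeval g g.charpoly = 0 := LinearMap.aeval_self_charpoly g
  rw [← Polynomial.divX_mul_X_add g.charpoly] at h1
  simp only [map_add, map_mul, Polynomial.aeval_X, Polynomial.aeval_C] at h1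
  refine ⟨Polynomial.C (-(g.charpoly.coeff 0)⁻¹) * g.charpoly.divX, ?_⟩
  have hcomm : g * Polynomial.aeval g g.charpoly.divX = Polynomial.aeval g g.charpoly.divX * g :=
    (Algebra.commute_of_mem_adjoin_self (Polynomial.aeval_mem_adjoin_singleton K g)).eq
  simp only [map_mul, Polynomial.aeval_C]
  rw [← mul_assoc, ← Algebra.commutes, mul_assoc, hcomm, eq_neg_of_add_eq_zero_left h1]
  rw [mul_neg, ← map_mul, neg_mul, inv_mul_cancel₀ hc, map_neg, map_one, neg_neg]

theorem isNilpotent_sub [IsAlgClosed K] [FiniteDimensional K V] (g : Module.End K V) (μ : K)
    (h : ∀ ν, g.HasEigenvalue ν → ν = μ) : IsNilpotent (g - algebraMap K _ μ) := by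
  have h1 : g.maxGenEigenspace μ = ⊤ := by
    have h2 := Module.End.iSup_maxGenEigenspace_eq_top g
    rw [eq_top_iff, ← h2]
    refine iSup_le fun ν => ?_
    by_cases hν : ν = μ
    · rw [hν]
    · have : g.maxGenEigenspace ν = ⊥ := by
        by_contra hne
        apply hν
        apply h
        rw [Module.End.hasEigenvalue_iff]
        intro h0
        apply hne
        rw [eq_bot_iff]
        intro v hv
        rw [Module.End.mem_maxGenEigenspace] at hv
        obtain ⟨k, hk⟩ := hv
        induction k with
        | zero => simpa using hk
        | succ k ih =>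
          apply ih
          have h3 : ((g - ν • (1 : Module.End K V)) ^ k) v ∈ g.eigenspace ν := by
            rw [Module.End.mem_eigenspace_iff]
            rw [pow_succ', Module.End.mul_apply] at hk
            have : g (((g - ν • (1 : Module.End K V)) ^ k) v) -
              ν • (((g - ν • (1 : Module.End K V)) ^ k) v) = 0 := by
              simpa using hk
            exact sub_eq_zero.mp this
          rw [h0] at h3
          simpa using h3
      rw [this]
      exact bot_le
  refine ⟨Module.finrank K V, ?_⟩
  ext v
  have hv : v ∈ g.maxGenEigenspace μ := by rw [h1]; trivial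
  rw [Module.End.maxGenEigenspace_eq_genEigenspace_finrank, Module.End.mem_genEigenspace_nat] at hv
  have h4 : (algebraMap K (Module.End K V)) μ = μ • (1 : Module.End K V) :=
    Algebra.algebraMap_eq_smul_one μ
  rw [h4]
  simpa using hv

theorem isUnit_sub [FiniteDimensional K V] (g : Module.End K V) (μ : K)
    (h : ¬ g.HasEigenvalue μ) : IsUnit (g - algebraMap K _ μ) := by
  rw [Module.End.hasEigenvalue_iff_mem_spectrum, spectrum.notMem_iff] at h
  have := h.neg
  rwa [neg_sub] at this

/-- The elimination of the third element. -/
theorem mem_adjoin_pair (a b c e : Module.End K V) (he : e = a * b) (hab : a * b = b * a)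
    (hac : a * c = c * a) (hbc : b * c = c * b) (hnil : IsNilpotent e)
    (s0 : Module.End K V) (hs0 : s0 ∈ Algebra.adjoin K {a, b})
    (r : Module.End K V) (hr : r ∈ Algebra.adjoin K ({a, b, c} : Set (Module.End K V)))
    (hc : c = s0 + e * r) : c ∈ Algebra.adjoin K {a, b} := by
  have hle : Algebra.adjoin K ({a, b} : Set (Module.End K V)) ≤ Algebra.adjoin K {a, b, c} := by
    apply Algebra.adjoin_mono
    intro x hx
    rcases hx with rfl | hx
    · simp
    · rw [Set.mem_singleton_iff] at hx
      subst hx; simp
  have ha : a ∈ Algebra.adjoin K ({a, b} : Set (Module.End K V)) :=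
    Algebra.subset_adjoin (by simp)
  have hb : b ∈ Algebra.adjoin K ({a, b} : Set (Module.End K V)) :=
    Algebra.subset_adjoin (by simp)
  have heS : e ∈ Algebra.adjoin K ({a, b} : Set (Module.End K V)) := by
    rw [he]; exact Subalgebra.mul_mem _ ha hb
  have hcomm : ∀ x ∈ Algebra.adjoin K ({a, b, c} : Set (Module.End K V)), Commute e x := by
    intro x hx
    induction hx using Algebra.adjoin_induction with
    | mem x hx =>
      have haa : Commute e a := by
        rw [he]; exact Commute.mul_left (Commute.refl a) hab.symm
      have hbb : Commute e b := by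
        rw [he]; exact Commute.mul_left hab (Commute.refl b)
      have hcc : Commute e c := by
        rw [he]; exact Commute.mul_left hac hbc
      rcases hx with rfl | rfl | hx
      · exact haa
      · exact hbb
      · rw [Set.mem_singleton_iff] at hx
        rw [hx]; exact hcc
    | algebraMap t => exact Algebra.commute_algebraMap_right t e
    | add x y _ _ h1 h2 => exact h1.add_right h2
    | mul x y _ _ h1 h2 => exact h1.mul_right h2
  have step1 : ∀ x ∈ Algebra.adjoin K ({a, b, c} : Set (Module.End K V)),
      ∃ s ∈ Algebra.adjoin K ({a, b} : Set (Module.End K V)),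
      ∃ y ∈ Algebra.adjoin K ({a, b, c} : Set (Module.End K V)), x = s + e * y := by
    intro x hx
    induction hx using Algebra.adjoin_induction with
    | mem x hx =>
      rcases hx with rfl | rfl | hx
      · exact ⟨_, ha, 0, Subalgebra.zero_mem _, by simp⟩
      · exact ⟨_, hb, 0, Subalgebra.zero_mem _, by simp⟩
      · rw [Set.mem_singleton_iff] at hx
        exact ⟨s0, hs0, r, hr, by rw [hx]; exact hc⟩
    | algebraMap t =>
      exact ⟨_, Subalgebra.algebraMap_mem _ t, 0, Subalgebra.zero_mem _, by simp⟩
    | add x y _ _ h1 h2 =>
      obtain ⟨s, hs, z, hz, rfl⟩ := h1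
      obtain ⟨s', hs', z', hz', rfl⟩ := h2
      exact ⟨s + s', Subalgebra.add_mem _ hs hs', z + z', Subalgebra.add_mem _ hz hz',
        by rw [mul_add]; abel⟩
    | mul x y _ _ h1 h2 =>
      obtain ⟨s, hs, z, hz, rfl⟩ := h1
      obtain ⟨s', hs', z', hz', rfl⟩ := h2
      refine ⟨s * s', Subalgebra.mul_mem _ hs hs', s * z' + z * (s' + e * z'),
        Subalgebra.add_mem _ (Subalgebra.mul_mem _ (hle hs) hz')
          (Subalgebra.mul_mem _ hz (Subalgebra.add_mem _ (hle hs')
            (Subalgebra.mul_mem _ (hle heS) hz'))), ?_⟩
      have h3 : e * s = s * e := hcomm s (hle hs)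
      rw [mul_add e, ← mul_assoc e s z', h3, add_mul, mul_add s, mul_assoc e z, mul_assoc s e z',
        add_assoc]
  have stepk : ∀ k : ℕ, ∀ x ∈ Algebra.adjoin K ({a, b, c} : Set (Module.End K V)),
      ∃ s ∈ Algebra.adjoin K ({a, b} : Set (Module.End K V)),
      ∃ y ∈ Algebra.adjoin K ({a, b, c} : Set (Module.End K V)), x = s + e ^ k * y := by
    intro k
    induction k with
    | zero => intro x hx; exact ⟨0, Subalgebra.zero_mem _, x, hx, by simp⟩
    | succ k ih =>
      intro x hx
      obtain ⟨s, hs, y, hy, hxy⟩ := step1 x hx
      obtain ⟨s', hs', y', hy', hyy⟩ := ih y hy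
      refine ⟨s + e * s', Subalgebra.add_mem _ hs (Subalgebra.mul_mem _ heS hs'), y', hy', ?_⟩
      rw [hxy, hyy, mul_add, pow_succ', mul_assoc, add_assoc]
  obtain ⟨k, hk⟩ := hnil
  obtain ⟨s, hs, y, _, h⟩ := stepk k c (Algebra.subset_adjoin (by simp))
  rw [h, hk, zero_mul, add_zero]
  exact hs

end General

end SURFAux

open SURFAux

theorem cl_surface {K V : Type} [Field K] [IsAlgClosed K] [CharZero K] [AddCommGroup V]
    [Module K V] [FiniteDimensional K V] (f : Fin 3 → Module.End K V) (hf : Comm3 f) (m : ℕ)
    (c : Fin m → K) (hc : Function.Injective c)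
    (h : f 0 * f 1 = Polynomial.aeval (f 2) (∏ i, (Polynomial.X - Polynomial.C (c i)))) :
    Cl f := by
  have key : ∀ (n : ℕ) (V : Type) [AddCommGroup V] [Module K V] [FiniteDimensional K V]
      (f : Fin 3 → Module.End K V), Module.finrank K V = n → Comm3 f →
      f 0 * f 1 = Polynomial.aeval (f 2) (∏ i, (Polynomial.X - Polynomial.C (c i))) → Cl f := by
    intro n
    induction n using Nat.strong_induction_on with
    | _ n ih =>
      intro V _ _ _ f hn hf h
      by_cases h1 : Module.finrank K V ≤ 1
      · exact cl_of_finrank_le_one f h1
      have hnt : Nontrivial V := Module.nontrivial_of_finrank_pos (R := K) (by omega)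
      by_cases h2 : ∃ i, TwoEig (f i)
      · obtain ⟨i, hi⟩ := h2
        obtain ⟨p, q, hpq, hp0, hq0, hp, hq⟩ := split_two f (f i) (fun j => hf i j) hi
        have hptop : p ≠ ⊤ := by
          intro hp'
          apply hq0
          have := hpq.disjoint
          rw [hp', disjoint_iff, top_inf_eq] at this
          exact this
        have hqtop : q ≠ ⊤ := by
          intro hq'
          apply hp0
          have := hpq.disjoint
          rw [hq', disjoint_iff, inf_top_eq] at this
          exact this
        have main : ∀ (p : Submodule K V) (hp : ∀ i, ∀ v ∈ p, f i v ∈ p), p ≠ ⊤ →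
            Cl (fun i => (f i).restrict (hp i)) := by
          intro p hp hpt
          refine ih (Module.finrank K p) ?_ p _ rfl ?_ ?_
          · rw [← hn]
            exact Submodule.finrank_lt hpt
          · intro i j
            ext v
            have := LinearMap.congr_fun (hf i j) (v : V)
            simpa using this
          · ext v
            have e1 := aeval_intertwine p.subtype ((f 2).restrict (hp 2)) (f 2)
              (fun w => rfl) (∏ i, (Polynomial.X - Polynomial.C (c i))) v
            have e2 := LinearMap.congr_fun h (v : V)
            have e3 : ((((f 0).restrict (hp 0) * (f 1).restrict (hp 1)) v : p) : V) =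
              (f 0 * f 1) (v : V) := rfl
            rw [e3, e2]
            exact e1.symm
        exact cl_compl f p q hpq hp hq (main p hp hptop) (main q hq hqtop)
      · have h3 : ∀ i, ∀ μ ν, (f i).HasEigenvalue μ → (f i).HasEigenvalue ν → μ = ν := by
          intro i μ ν hμ hν
          by_contra hne
          exact h2 ⟨i, μ, ν, hne, hμ, hν⟩
        have hu : ∀ i, ¬ (f i).HasEigenvalue 0 → IsUnit (f i) := by
          intro i hi
          have := isUnit_sub (f i) 0 hi
          simpa using this
        by_cases h4 : (f 0).HasEigenvalue 0
        · by_cases h5 : (f 1).HasEigenvalue 0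
          · -- the main case
            obtain ⟨μ, hμ⟩ := Module.End.exists_eigenvalue (f 2)
            have hn0 : IsNilpotent (f 0) := by
              have := isNilpotent_sub (f 0) 0 (fun ν hν => h3 0 ν 0 hν h4)
              simpa using this
            have he : IsNilpotent (f 0 * f 1) :=
              Commute.isNilpotent_mul_right (hf 0 1) hn0
            obtain ⟨v, hv⟩ := hμ.exists_hasEigenvector
            have hPv : Polynomial.aeval (f 2) (∏ i, (Polynomial.X - Polynomial.C (c i))) v =
                (∏ i, (Polynomial.X - Polynomial.C (c i))).eval μ • v :=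
              Module.End.aeval_apply_of_hasEigenvector hv
            have hμ0 : (∏ i, (Polynomial.X - Polynomial.C (c i))).eval μ = 0 := by
              by_contra hne
              rw [← h] at hPv
              obtain ⟨k, hk⟩ := he
              have hpow : ∀ k : ℕ, ((f 0 * f 1) ^ k) v =
                  ((∏ i, (Polynomial.X - Polynomial.C (c i))).eval μ) ^ k • v := by
                intro k
                induction k with
                | zero => simp
                | succ k ihk =>
                  rw [pow_succ, Module.End.mul_apply, hPv, map_smul, ihk, smul_smul, pow_succ,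
                    mul_comm]
              have := hpow k
              rw [hk, LinearMap.zero_apply] at this
              rcases smul_eq_zero.mp this.symm with h6 | h6
              · exact pow_ne_zero k hne h6
              · exact hv.2 h6
            rw [Polynomial.eval_prod, Finset.prod_eq_zero_iff] at hμ0
            obtain ⟨i0, _, hi0⟩ := hμ0
            have hμc : μ = c i0 := by
              simpa [sub_eq_zero] using hi0
            set Q : Polynomial K :=
              ∏ i ∈ Finset.univ.erase i0, (Polynomial.X - Polynomial.C (c i)) with hQ
            have hPQ : (∏ i, (Polynomial.X - Polynomial.C (c i))) =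
                (Polynomial.X - Polynomial.C (c i0)) * Q := by
              rw [hQ, Finset.mul_prod_erase Finset.univ
                (fun i => Polynomial.X - Polynomial.C (c i)) (Finset.mem_univ i0)]
            have hQu : IsUnit (Polynomial.aeval (f 2) Q) := by
              rw [hQ]
              have : ∀ s : Finset (Fin m), i0 ∉ s →
                  IsUnit (Polynomial.aeval (f 2)
                    (∏ i ∈ s, (Polynomial.X - Polynomial.C (c i)))) := by
                intro s
                induction s using Finset.induction_on with
                | empty => intro _; simp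
                | insert j s hj ihs =>
                  intro hs
                  rw [Finset.prod_insert hj, map_mul]
                  refine IsUnit.mul ?_ (ihs (fun h' => hs (Finset.mem_insert_of_mem h')))
                  rw [map_sub, Polynomial.aeval_X, Polynomial.aeval_C]
                  apply isUnit_sub
                  intro hev
                  have e1 := h3 2 _ _ hev hμ
                  rw [hμc] at e1
                  exact hs (by rw [← hc e1]; exact Finset.mem_insert_self _ _)
              exact this _ (Finset.notMem_erase _ _)
            obtain ⟨r, hr⟩ := inv_poly _ hQu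
            have hN : f 2 = algebraMap K _ (c i0) +
                (f 0 * f 1) * Polynomial.aeval (Polynomial.aeval (f 2) Q) r := by
              rw [h, hPQ, map_mul, mul_assoc, hr, mul_one, map_sub, Polynomial.aeval_X,
                Polynomial.aeval_C]
              abel
            have hmem2 : f 2 ∈ Algebra.adjoin K ({f 0, f 1} : Set (Module.End K V)) := by
              refine mem_adjoin_pair (f 0) (f 1) (f 2) (f 0 * f 1) rfl (hf 0 1) (hf 0 2) (hf 1 2)
                he _ (Subalgebra.algebraMap_mem _ (c i0)) _ ?_ hN
              have e1 : Polynomial.aeval (Polynomial.aeval (f 2) Q) r ∈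
                  Algebra.adjoin K {Polynomial.aeval (f 2) Q} :=
                Polynomial.aeval_mem_adjoin_singleton K _
              refine (Algebra.adjoin_le ?_ : Algebra.adjoin K {Polynomial.aeval (f 2) Q} ≤
                Algebra.adjoin K {f 0, f 1, f 2}) e1
              intro x hx
              rw [Set.mem_singleton_iff] at hx
              rw [hx]
              refine (Algebra.adjoin_mono (by simp) : Algebra.adjoin K {f 2} ≤
                Algebra.adjoin K {f 0, f 1, f 2}) (Polynomial.aeval_mem_adjoin_singleton K _)
            refine cl_pair (f 0) (f 1) (hf 0 1) f ?_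
            intro i
            fin_cases i
            · exact Algebra.subset_adjoin (by simp)
            · exact Algebra.subset_adjoin (by simp)
            · exact hmem2
          · -- f 1 is invertible
            obtain ⟨r, hr⟩ := inv_poly _ (hu 1 h5)
            refine cl_pair (f 1) (f 2) (hf 1 2) f ?_
            intro i
            fin_cases i
            · show f 0 ∈ _
              have e1 : f 0 = Polynomial.aeval (f 2)
                  (∏ i, (Polynomial.X - Polynomial.C (c i))) * Polynomial.aeval (f 1) r := by
                rw [← h, mul_assoc, hr, mul_one]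
              rw [e1]
              refine Subalgebra.mul_mem _ ?_ ?_
              · exact (Algebra.adjoin_mono (by simp) : Algebra.adjoin K {f 2} ≤
                  Algebra.adjoin K {f 1, f 2}) (Polynomial.aeval_mem_adjoin_singleton K _)
              · exact (Algebra.adjoin_mono (by simp) : Algebra.adjoin K {f 1} ≤
                  Algebra.adjoin K {f 1, f 2}) (Polynomial.aeval_mem_adjoin_singleton K _)
            · exact Algebra.subset_adjoin (by simp)
            · exact Algebra.subset_adjoin (by simp)
        · -- f 0 is invertible
          obtain ⟨r, hr⟩ := inv_poly _ (hu 0 h4)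
          refine cl_pair (f 0) (f 2) (hf 0 2) f ?_
          intro i
          fin_cases i
          · exact Algebra.subset_adjoin (by simp)
          · show f 1 ∈ _
            have e1 : f 1 = Polynomial.aeval (f 2)
                (∏ i, (Polynomial.X - Polynomial.C (c i))) * Polynomial.aeval (f 0) r := by
              rw [← h, hf 0 1, mul_assoc, hr, mul_one]
            rw [e1]
            refine Subalgebra.mul_mem _ ?_ ?_
            · exact (Algebra.adjoin_mono (by simp) : Algebra.adjoin K {f 2} ≤
                Algebra.adjoin K {f 0, f 2}) (Polynomial.aeval_mem_adjoin_singleton K _)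
            · exact (Algebra.adjoin_mono (by simp) : Algebra.adjoin K {f 0} ≤
                Algebra.adjoin K {f 0, f 2}) (Polynomial.aeval_mem_adjoin_singleton K _)
          · exact Algebra.subset_adjoin (by simp)
  exact key _ V f rfl hf h

end Pool.Agent.MPac4d2b
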