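import Mathlib
import Pool.Agent.Lib.MP_ac4d2b_ag.Defs
import Pool.Agent.Lib.MP_ac4d2b_ag.CL2
import Pool.Agent.Lib.MP_ac4d2b_ag.SPEC
import Pool.Agent.Lib.MP_ac4d2b_ag.SURF

/-!
MP_ac4d2b_ag (Hilbert scheme of 12 points), module FAM: from a flat family to the closure.
-/

set_option autoImplicit false

namespace Pool.Agent.MPac4d2b

open Matrix

namespace FAMAux

/-- A module over the power series on which `X` acts injectively is torsion free. -/
theorem torsionFree {K MM : Type} [Field K] [AddCommGroup MM] [Module (PowerSeries K) MM]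
    (htf : ∀ u : MM, (PowerSeries.X : PowerSeries K) • u = 0 → u = 0) :
    Module.IsTorsionFree (PowerSeries K) MM := by
  have hpow : ∀ (k : ℕ) (u : MM), (PowerSeries.X : PowerSeries K) ^ k • u = 0 → u = 0 := by
    intro k
    induction k with
    | zero => intro u hu; simpa using hu
    | succ k ih =>
      intro u hu
      rw [pow_succ, mul_smul] at hu
      exact htf u (ih _ hu)
  refine ⟨fun c hc => ?_⟩
  have hc0 : c ≠ 0 := hc.ne_zero
  obtain ⟨k, w, hw⟩ := IsDiscreteValuationRing.eq_unit_mul_pow_irreducible hc0
    (PowerSeries.X_irreducible (R := K))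
  intro u v huv
  have h1 : c • (u - v) = 0 := by
    rw [smul_sub]
    exact sub_eq_zero.2 huv
  rw [hw, mul_smul] at h1
  have h2 : (PowerSeries.X : PowerSeries K) ^ k • (u - v) = 0 := by
    have h3 := congrArg (fun z => ((w⁻¹ : (PowerSeries K)ˣ) : PowerSeries K) • z) h1
    simp only [smul_zero, ← mul_smul, Units.inv_mul_cancel_left] at h3
    exact h3
  exact sub_eq_zero.1 (hpow k _ h2)

end FAMAux

open FAMAux

theorem cl_of_family {K M MM : Type} [Field K] [IsAlgClosed K] [CharZero K] [AddCommGroup M]
    [Module K M] [FiniteDimensional K M] [AddCommGroup MM] [Module (PowerSeries K) MM]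
    [Module.Finite (PowerSeries K) MM] (f : Fin 3 → Module.End K M)
    (g : Fin 3 → Module.End (PowerSeries K) MM) (hg : Comm3 g) (m : ℕ)
    (hgm : g 0 * g 1 = Polynomial.aeval (g 2)
      (∏ i : Fin m, (Polynomial.X - Polynomial.C (((i : ℕ) : PowerSeries K) * PowerSeries.X))))
    (ρ : MM →+ M) (hρs : Function.Surjective ρ)
    (hρ0 : ∀ u, ρ u = 0 ↔ ∃ v, u = (PowerSeries.X : PowerSeries K) • v)
    (hρc : ∀ (c : PowerSeries K) (u : MM), ρ (c • u) = PowerSeries.constantCoeff c • ρ u)
    (hρg : ∀ i u, ρ (g i u) = f i (ρ u))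
    (htf : ∀ u : MM, (PowerSeries.X : PowerSeries K) • u = 0 → u = 0) : Cl f := by
  have _ : Module.IsTorsionFree (PowerSeries K) MM := torsionFree htf
  have _ : Module.Free (PowerSeries K) MM := Module.free_of_finite_type_torsion_free'
  set n := Module.finrank (PowerSeries K) MM with hn
  let b : Module.Basis (Fin n) (PowerSeries K) MM := Module.finBasis (PowerSeries K) MM
  have hsum : ∀ u : MM, ρ u = ∑ k, PowerSeries.constantCoeff (b.repr u k) • ρ (b k) := by
    intro u
    conv_lhs => rw [← b.sum_repr u]
    rw [map_sum]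
    exact Finset.sum_congr rfl fun k _ => hρc _ _
  have hli : LinearIndependent K (fun k => ρ (b k)) := by
    rw [Fintype.linearIndependent_iff]
    intro c hc k
    have h1 : ρ (∑ k, (PowerSeries.C (c k) : PowerSeries K) • b k) = 0 := by
      rw [map_sum, ← hc]
      exact Finset.sum_congr rfl fun k _ => by rw [hρc]; simp
    obtain ⟨v, hv⟩ := (hρ0 _).1 h1
    have h2 := congrArg (fun u => b.repr u k) hv
    simp only [map_sum, map_smul, Module.Basis.repr_self, Finsupp.smul_single, smul_eq_mul,
      mul_one, Finsupp.coe_finsetSum, Finset.sum_apply, Finsupp.smul_apply] at h2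
    have h3 : ∑ x, (Finsupp.single x (PowerSeries.C (c x) : PowerSeries K)) k =
        PowerSeries.C (c k) := by
      rw [Finset.sum_eq_single k]
      · simp
      · intro x _ hx
        exact Finsupp.single_eq_of_ne hx.symm
      · simp
    rw [h3] at h2
    have h4 := congrArg PowerSeries.constantCoeff h2
    simpa using h4
  have hsp : ⊤ ≤ Submodule.span K (Set.range fun k => ρ (b k)) := by
    intro x _
    obtain ⟨u, rfl⟩ := hρs x
    rw [hsum]
    exact Submodule.sum_mem _ fun k _ => Submodule.smul_mem _ _ (Submodule.subset_span ⟨k, rfl⟩)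
  let b' : Module.Basis (Fin n) K M := Module.Basis.mk hli hsp
  have hb' : ∀ k, b' k = ρ (b k) := fun k => Module.Basis.mk_apply hli hsp k
  have hrepr : ∀ u k, b'.repr (ρ u) k = PowerSeries.constantCoeff (b.repr u k) := by
    intro u k
    rw [hsum u]
    simp only [← hb', map_sum, map_smul, Module.Basis.repr_self, Finsupp.smul_single,
      smul_eq_mul, mul_one, Finsupp.coe_finsetSum, Finset.sum_apply]
    rw [Finset.sum_eq_single k]
    · simp
    · intro x _ hx
      exact Finsupp.single_eq_of_ne hx.symm
    · simp
  let T : Fin 3 → Matrix (Fin n) (Fin n) (PowerSeries K) := fun i => LinearMap.toMatrix b b (g i)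
  have hT : ∀ i, LinearMap.toMatrix b' b' (f i) = (T i).map PowerSeries.constantCoeff := by
    intro i
    ext j k
    have h1 : T i j k = b.repr (g i (b k)) j := LinearMap.toMatrix_apply b b (g i) j k
    rw [LinearMap.toMatrix_apply, Matrix.map_apply, h1, hb', ← hρg, hrepr]
  let L := AlgebraicClosure (FractionRing (PowerSeries K))
  let σ : PowerSeries K →+* L :=
    (algebraMap (FractionRing (PowerSeries K)) L).comp
      (algebraMap (PowerSeries K) (FractionRing (PowerSeries K)))
  have hσ : Function.Injective σ := by
    refine (algebraMap (FractionRing (PowerSeries K)) L).injective.comp ?_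
    exact IsFractionRing.injective (PowerSeries K) (FractionRing (PowerSeries K))
  have hchar : CharZero (PowerSeries K) :=
    charZero_of_injective_ringHom (f := (PowerSeries.C : K →+* PowerSeries K))
      PowerSeries.C_injective
  have hcharL : CharZero L := charZero_of_injective_ringHom hσ
  let F : Fin 3 → Module.End L (Fin n → L) := fun i => Matrix.toLin' ((T i).map σ)
  let Φ : Module.End (PowerSeries K) MM →+* Module.End L (Fin n → L) :=
    ((Matrix.toLinAlgEquiv' (R := L) (n := Fin n)).toRingEquiv.toRingHom.comp
      (σ.mapMatrix (m := Fin n))).comp (LinearMap.toMatrixAlgEquiv b).toRingEquiv.toRingHom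
  have hΦ : ∀ i, Φ (g i) = F i := fun i => rfl
  have hF : Comm3 F := by
    intro i j
    rw [← hΦ, ← hΦ, ← map_mul, ← map_mul, hg i j]
  have hΦa : ∀ p : Polynomial (PowerSeries K),
      Φ (Polynomial.aeval (g 2) p) = Polynomial.aeval (F 2) (p.map σ) := by
    intro p
    induction p using Polynomial.induction_on' with
    | add p q hp hq => rw [map_add, map_add, hp, hq, Polynomial.map_add, map_add]
    | monomial k c =>
      rw [Polynomial.aeval_monomial, Polynomial.map_monomial, Polynomial.aeval_monomial,
        map_mul, map_pow, hΦ]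
      congr 1
      show Matrix.toLin' ((LinearMap.toMatrix b b (algebraMap (PowerSeries K)
        (Module.End (PowerSeries K) MM) c)).map σ) = _
      rw [Algebra.algebraMap_eq_smul_one, map_smul]
      have h1 : LinearMap.toMatrix b b (1 : Module.End (PowerSeries K) MM) = 1 :=
        LinearMap.toMatrix_one b
      rw [h1]
      have h2 : (c • (1 : Matrix (Fin n) (Fin n) (PowerSeries K))).map σ =
          σ c • (1 : Matrix (Fin n) (Fin n) L) := by
        ext j k
        rw [Matrix.map_apply, Matrix.smul_apply, Matrix.smul_apply, smul_eq_mul, smul_eq_mul,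
          map_mul, Matrix.one_apply, Matrix.one_apply]
        split_ifs <;> simp
      rw [h2, map_smul, Matrix.toLin'_one, Algebra.algebraMap_eq_smul_one]
      rfl
  have hFm : F 0 * F 1 = Polynomial.aeval (F 2)
      (∏ i : Fin m, (Polynomial.X - Polynomial.C (σ (((i : ℕ) : PowerSeries K) *
        PowerSeries.X)))) := by
    have h1 := congrArg Φ hgm
    rw [map_mul, hΦ, hΦ, hΦa, Polynomial.map_prod] at h1
    rw [h1]
    congr 1
    exact Finset.prod_congr rfl fun i _ => by
      rw [Polynomial.map_sub, Polynomial.map_X, Polynomial.map_C]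
  have hcinj : Function.Injective
      (fun i : Fin m => σ (((i : ℕ) : PowerSeries K) * PowerSeries.X)) := by
    intro i j hij
    have h1 := hσ hij
    have h2 : ((i : ℕ) : PowerSeries K) = ((j : ℕ) : PowerSeries K) :=
      mul_right_cancel₀ PowerSeries.X_ne_zero h1
    exact Fin.ext (Nat.cast_injective h2)
  have hcl := cl_surface F hF m _ hcinj hFm
  have hdn := (cl_iff (Pi.basisFun L (Fin n)) F).1 hcl
  have hmat : ∀ i, LinearMap.toMatrix (Pi.basisFun L (Fin n)) (Pi.basisFun L (Fin n)) (F i) =
      (T i).map σ := by
    intro i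
    have h1 : LinearMap.toMatrix (Pi.basisFun L (Fin n)) (Pi.basisFun L (Fin n)) (F i) =
        LinearMap.toMatrix' (F i) := by
      rw [LinearMap.toMatrix_eq_toMatrix']
    rw [h1]
    exact LinearMap.toMatrix'_toLin' _
  simp only [hmat] at hdn
  let ε : PowerSeries K →ₐ[K] K :=
    { (PowerSeries.constantCoeff : PowerSeries K →+* K) with
      commutes' := fun r => by
        show PowerSeries.constantCoeff (algebraMap K (PowerSeries K) r) = r
        rw [PowerSeries.algebraMap_apply]
        simp }
  have hres := dn_spec ε σ hσ T hdn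
  rw [cl_iff b' f]
  simp only [hT]
  exact hres

end Pool.Agent.MPac4d2b
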