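import Mathlib
import Pool.Agent.Lib.MP_ac4d2b_ag.Defs

/-!
# MP_ac4d2b_ag: the core of the flatness argument
-/

set_option autoImplicit false

open Polynomial

namespace Pool.Agent.MPac4d2b

/-- `ev2` as a ring homomorphism -/
noncomputable def ev2Hom {R A : Type} [CommRing R] [Ring A] [Algebra R A] (z y : A) (h : z * y = y * z) :
    R[X][X] →+* A :=
  Polynomial.eval₂RingHom' (Polynomial.aeval z : R[X] →ₐ[R] A).toRingHom y (fun q => by
    induction q using Polynomial.induction_on' with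
    | add p q hp hq => rw [map_add]; exact hp.add_left hq
    | monomial n a =>
      simp only [AlgHom.toRingHom_eq_coe, RingHom.coe_coe, aeval_monomial]
      exact (Algebra.commute_algebraMap_left a y).mul_left (Commute.pow_left h n))

theorem ev2Hom_apply {R A : Type} [CommRing R] [Ring A] [Algebra R A] (z y : A) (h : z * y = y * z)
    (p : R[X][X]) : ev2Hom z y h p = ev2 z y p := rfl

theorem ev2_add {R A : Type} [CommRing R] [Ring A] [Algebra R A] (z y : A) (p q : R[X][X]) :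
    ev2 z y (p + q) = ev2 z y p + ev2 z y q := Polynomial.eval₂_add _ _

theorem ev2_sub {R A : Type} [CommRing R] [Ring A] [Algebra R A] (z y : A) (p q : R[X][X]) :
    ev2 z y (p - q) = ev2 z y p - ev2 z y q := Polynomial.eval₂_sub _

theorem ev2_mul {R A : Type} [CommRing R] [Ring A] [Algebra R A] (z y : A) (h : z * y = y * z)
    (p q : R[X][X]) : ev2 z y (p * q) = ev2 z y p * ev2 z y q := by
  rw [← ev2Hom_apply z y h, map_mul]
  rfl

theorem ev2_C {R A : Type} [CommRing R] [Ring A] [Algebra R A] (z y : A) (p : R[X]) :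
    ev2 z y (C p) = aeval z p := Polynomial.eval₂_C _ _

theorem ev2_X {R A : Type} [CommRing R] [Ring A] [Algebra R A] (z y : A) :
    ev2 z y (X : R[X][X]) = y := Polynomial.eval₂_X _ _

theorem ev2_X_pow {R A : Type} [CommRing R] [Ring A] [Algebra R A] (z y : A) (n : ℕ) :
    ev2 z y (X ^ n : R[X][X]) = y ^ n := Polynomial.eval₂_X_pow _ _

theorem ev2_zero {R A : Type} [CommRing R] [Ring A] [Algebra R A] (z y : A) :
    ev2 z y (0 : R[X][X]) = 0 := Polynomial.eval₂_zero _ _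

theorem ev2_one {R A : Type} [CommRing R] [Ring A] [Algebra R A] (z y : A) :
    ev2 z y (1 : R[X][X]) = 1 := Polynomial.eval₂_one _ _

/-- scalars can be cancelled modulo `x y - z ^ m` -/
theorem cancel_x {P : Type} [CommRing P] [IsDomain P] (x : P) (hx : x ≠ 0) (m : ℕ) (a : P[X][X])
    (h : C (C x) * a ∈ Ideal.span {C (C x) * X - C ((X : P[X]) ^ m)}) :
    a ∈ Ideal.span {C (C x) * X - C ((X : P[X]) ^ m)} := by
  obtain ⟨e, he⟩ := Ideal.mem_span_singleton'.1 h
  have h1 : C ((X : P[X]) ^ m) * e = C (C x) * (X * e - a) := by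
    linear_combination -he
  have h2 : C (C x) ∣ e := by
    rw [C_dvd_iff_dvd_coeff]
    intro i
    rw [C_dvd_iff_dvd_coeff]
    intro j
    have h3 := congrArg (fun q : P[X][X] => (q.coeff i).coeff (j + m)) h1
    simp only [coeff_C_mul, coeff_X_pow_mul] at h3
    exact ⟨_, h3⟩
  obtain ⟨e', rfl⟩ := h2
  refine Ideal.mem_span_singleton'.2 ⟨e', ?_⟩
  have hx' : (C (C x) : P[X][X]) ≠ 0 := by
    rw [Ne, C_eq_zero, C_eq_zero]
    exact hx
  apply mul_left_cancel₀ hx'
  linear_combination he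

theorem F0_mem {P : Type} [CommRing P] [IsDomain P] (x : P) (hx : x ≠ 0) (m Q : ℕ) (F : P[X][X])
    (h : C (C x) ^ Q * F - C (X ^ (m * Q)) ∈
      Ideal.span {C (C x) * X - C ((X : P[X]) ^ m)}) :
    F - X ^ Q ∈ Ideal.span {C (C x) * X - C ((X : P[X]) ^ m)} := by
  have h1 : C (C x) ^ Q * (F - X ^ Q) ∈ Ideal.span {C (C x) * X - C ((X : P[X]) ^ m)} := by
    have h2 : (C (C x) * X : P[X][X]) ^ Q - (C ((X : P[X]) ^ m)) ^ Q ∈
        Ideal.span {C (C x) * X - C ((X : P[X]) ^ m)} :=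
      Ideal.mem_span_singleton.2 (sub_dvd_pow_sub_pow _ _ _)
    have h3 : C (C x) ^ Q * (F - X ^ Q) = (C (C x) ^ Q * F - C (X ^ (m * Q))) -
        ((C (C x) * X : P[X][X]) ^ Q - (C ((X : P[X]) ^ m)) ^ Q) := by
      rw [pow_mul, C_pow (a := (X : P[X]) ^ m), mul_pow]
      ring
    rw [h3]
    exact Ideal.sub_mem _ h h2
  clear h
  generalize F - X ^ Q = b at h1 ⊢
  induction Q with
  | zero => simpa using h1
  | succ Q ih =>
    apply ih
    apply cancel_x x hx
    rw [← mul_assoc, ← pow_succ']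
    exact h1

/-- reduction of evaluations -/
theorem red_aeval {O P N NA : Type} [CommRing O] [CommRing P] [AddCommGroup N] [Module P N]
    [AddCommGroup NA] [Module O NA] (ρ : O →+* P) (Z : Module.End O NA) (z : Module.End P N)
    (ρN : NA →+ N) (hρN : ∀ o u, ρN (o • u) = ρ o • ρN u)
    (hZ : ∀ u, ρN (Z u) = z (ρN u)) (q : O[X]) (u : NA) :
    ρN (aeval Z q u) = aeval z (q.map ρ) (ρN u) := by
  have hpow : ∀ (n : ℕ) (u : NA), ρN ((Z ^ n) u) = (z ^ n) (ρN u) := by
    intro n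
    induction n with
    | zero => intro u; simp
    | succ n ih => intro u; rw [pow_succ, pow_succ, Module.End.mul_apply, Module.End.mul_apply, ih, hZ]
  induction q using Polynomial.induction_on' with
  | add p q hp hq => simp only [map_add, Polynomial.map_add, LinearMap.add_apply, hp, hq]
  | monomial n a =>
    simp only [map_monomial, aeval_monomial, Module.End.mul_apply, Module.algebraMap_end_apply, hρN, hpow]

theorem red_ev2 {O P N NA : Type} [CommRing O] [CommRing P] [AddCommGroup N] [Module P N]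
    [AddCommGroup NA] [Module O NA] (ρ : O →+* P) (Z Y : Module.End O NA) (z y : Module.End P N)
    (ρN : NA →+ N) (hρN : ∀ o u, ρN (o • u) = ρ o • ρN u)
    (hZ : ∀ u, ρN (Z u) = z (ρN u)) (hY : ∀ u, ρN (Y u) = y (ρN u)) (p : O[X][X]) (u : NA) :
    ρN (ev2 Z Y p u) = ev2 z y (p.map (mapRingHom ρ)) (ρN u) := by
  have hpow : ∀ (n : ℕ) (u : NA), ρN ((Y ^ n) u) = (y ^ n) (ρN u) := by
    intro n
    induction n with
    | zero => intro u; simp
    | succ n ih => intro u; rw [pow_succ, pow_succ, Module.End.mul_apply, Module.End.mul_apply, ih, hY]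
  induction p using Polynomial.induction_on' with
  | add p q hp hq => simp only [ev2_add, map_add, Polynomial.map_add, LinearMap.add_apply, hp, hq]
  | monomial n a =>
    unfold ev2
    rw [Polynomial.map_monomial, eval₂_monomial, eval₂_monomial]
    simp only [Module.End.mul_apply, AlgHom.toRingHom_eq_coe, RingHom.coe_coe, coe_mapRingHom]
    rw [red_aeval ρ Z z ρN hρN hZ, hpow]

theorem flat_core {O P N NA : Type} [CommRing O] [CommRing P] [AddCommGroup N] [Module P N]
    [AddCommGroup NA] [Module O NA] (ρ : O →+* P) (hρ : Function.Surjective ρ) (t x : O)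
    (hker : ∀ o, ρ o = 0 ↔ ∃ o', o = t * o') (ht : ∀ u : NA, t • u = 0 → u = 0)
    (Z Y : Module.End O NA) (z y : Module.End P N) (hZY : Z * Y = Y * Z)
    (ρN : NA →+ N) (hρN : ∀ o u, ρN (o • u) = ρ o • ρN u)
    (hZ : ∀ u, ρN (Z u) = z (ρN u)) (hY : ∀ u, ρN (Y u) = y (ρN u)) (W : NA) (m Q : ℕ)
    (hkp : ∀ p : P[X][X], ev2 z y p (ρN W) = 0 →
      p ∈ Ideal.span {(X : P[X][X]) ^ Q, C (C (ρ x)) * X - C (X ^ m)})
    (h : O[X]) (hh : h.map ρ = X ^ m) (hxy : x • Y = aeval Z h)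
    (F : O[X][X]) (hF : ev2 Z Y F = 0)
    (hF0 : F.map (mapRingHom ρ) - X ^ Q ∈ Ideal.span {C (C (ρ x)) * X - C ((X : P[X]) ^ m)})
    (u : NA) (p : O[X][X]) (hu : t • u = ev2 Z Y p W) : ∃ p' : O[X][X], u = ev2 Z Y p' W := by
  have ht0 : ρ t = 0 := (hker t).2 ⟨1, (mul_one t).symm⟩
  have h0 : ev2 z y (p.map (mapRingHom ρ)) (ρN W) = 0 := by
    rw [← red_ev2 ρ Z Y z y ρN hρN hZ hY, ← hu, hρN, ht0, zero_smul]
  obtain ⟨c', e', hce⟩ := Ideal.mem_span_pair.1 (hkp _ h0)
  obtain ⟨e1', he1⟩ := Ideal.mem_span_singleton'.1 hF0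
  have hsurj : Function.Surjective (mapRingHom (mapRingHom ρ) : O[X][X] →+* P[X][X]) :=
    Polynomial.map_surjective _ (Polynomial.map_surjective _ hρ)
  obtain ⟨c, rfl⟩ := hsurj c'
  obtain ⟨e, rfl⟩ := hsurj e'
  obtain ⟨e1, rfl⟩ := hsurj e1'
  have hrel : mapRingHom (mapRingHom ρ) (C (C x) * X - C h : O[X][X]) =
      C (C (ρ x)) * X - C (X ^ m) := by
    simp [hh]
  have hdiff : mapRingHom (mapRingHom ρ) (p - (F * c + (C (C x) * X - C h) * (e - e1 * c))) = 0 := by
    have h1 : mapRingHom (mapRingHom ρ) p = p.map (mapRingHom ρ) := rfl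
    have h2 : mapRingHom (mapRingHom ρ) F = F.map (mapRingHom ρ) := rfl
    rw [map_sub, map_add, map_mul, map_mul, hrel, map_sub, map_mul, h1, h2, ← hce]
    linear_combination (mapRingHom (mapRingHom ρ) c) * he1
  obtain ⟨p', hp'⟩ : C (C t) ∣ p - (F * c + (C (C x) * X - C h) * (e - e1 * c)) := by
    rw [C_dvd_iff_dvd_coeff]
    intro i
    rw [C_dvd_iff_dvd_coeff]
    intro j
    have h3 := congrArg (fun q : P[X][X] => (q.coeff i).coeff j) hdiff
    simp only [coe_mapRingHom, coeff_map, coeff_zero] at h3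
    obtain ⟨o', ho'⟩ := (hker _).1 h3
    exact ⟨o', ho'⟩
  refine ⟨p', ?_⟩
  have h4 : p = F * c + (C (C x) * X - C h) * (e - e1 * c) + C (C t) * p' := by
    rw [← hp']
    ring
  have hrel0 : ev2 Z Y (C (C x) * X - C h : O[X][X]) = 0 := by
    rw [ev2_sub, ev2_mul Z Y hZY, ev2_C, ev2_C, ev2_X, aeval_C, ← hxy]
    ext v
    simp [Module.algebraMap_end_apply]
  have h5 : ev2 Z Y p W = t • ev2 Z Y p' W := by
    rw [h4, ev2_add, ev2_add, ev2_mul Z Y hZY, ev2_mul Z Y hZY, ev2_mul Z Y hZY, hF, hrel0, ev2_C, aeval_C]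
    simp [Module.algebraMap_end_apply]
  rw [h5] at hu
  have h6 : t • (u - ev2 Z Y p' W) = 0 := by rw [smul_sub, hu, sub_self]
  exact sub_eq_zero.1 (ht _ h6)

end Pool.Agent.MPac4d2b
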