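import Mathlib

/-! Project HILB (MP_ac4d2b_ag): the deformation of a nilpotent operator on a
lattice and the polynomial that kills it, in the form used by module DEF.  Author: helper28. -/

set_option autoImplicit false

open Polynomial

namespace Pool.Agent.MPac4d2b

namespace DetBAux

variable {O : Type*} [CommRing O]

/-- products of a periodic function -/
lemma prod_periodic {R : Type*} [CommMonoid R] (g : ℕ → R) (m Q : ℕ) :
    ∏ p ∈ Finset.range (m * Q), g (p % m) = (∏ i ∈ Finset.range m, g i) ^ Q := by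
  induction Q with
  | zero => simp
  | succ Q ih =>
    rw [Nat.mul_succ, Finset.prod_range_add, ih, pow_succ]
    congr 1
    apply Finset.prod_congr rfl
    intro i hi
    rw [Finset.mem_range] at hi
    rw [Nat.mul_add_mod, Nat.mod_eq_of_lt hi]

variable {r : ℕ} (s : Fin r → ℕ) (m : ℕ) (a : ℕ → O)

/-- the colour of a position -/
def col (b : Fin r) (i : Fin (s b)) : ℕ := (finSigmaFinEquiv (⟨b, i⟩ : (b : Fin r) × Fin (s b)) : ℕ) % m

/-- offset of a block -/
def off (b : Fin r) : ℕ := ∑ i : Fin (b : ℕ), s (Fin.castLE b.2.le i)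

lemma col_eq (b : Fin r) (i : Fin (s b)) : col s m b i = (off s b + i) % m := by
  unfold col off
  rw [finSigmaFinEquiv_apply]

lemma col_inj (b : Fin r) (hb : s b ≤ m) (i j : ℕ) (hi : i < s b) (hj : j < s b)
    (h : (off s b + i) % m = (off s b + j) % m) : i = j := by
  have h2 : (off s b + i) ≡ (off s b + j) [MOD m] := h
  have h3 : i ≡ j [MOD m] := Nat.ModEq.add_left_cancel' _ h2
  exact Nat.ModEq.eq_of_lt_of_lt h3 (by omega) (by omega)

/-- initial products in a block -/
noncomputable def pp (b : Fin r) (k : ℕ) : O[X] :=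
  ∏ i ∈ Finset.range k, (X - C (a ((off s b + i) % m)))

/-- the block polynomial -/
noncomputable def PB (b : Fin r) : O[X] := pp s m a b (s b)

/-- the complementary block polynomial -/
noncomputable def PC (b : Fin r) : O[X] :=
  ∏ i ∈ Finset.range m \ (Finset.range (s b)).image (fun i => (off s b + i) % m), (X - C (a i))

/-- the full polynomial -/
noncomputable def hh : O[X] := ∏ i ∈ Finset.range m, (X - C (a i))

lemma PB_mul_PC (hm : 0 < m) (b : Fin r) (hb : s b ≤ m) : PB s m a b * PC s m a b = hh m a := by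
  unfold PB PC pp hh
  have h1 : ∏ i ∈ Finset.range (s b), (X - C (a ((off s b + i) % m)))
      = ∏ j ∈ (Finset.range (s b)).image (fun i => (off s b + i) % m), (X - C (a j)) := by
    rw [Finset.prod_image]
    intro i hi j hj hij
    simp only [Finset.coe_range, Set.mem_Iio] at hi hj
    exact col_inj s m b hb i j hi hj hij
  rw [h1, mul_comm, Finset.prod_sdiff]
  intro j hj
  rw [Finset.mem_image] at hj
  obtain ⟨i, -, rfl⟩ := hj
  exact Finset.mem_range.2 (Nat.mod_lt _ hm)

lemma prod_PB (Q : ℕ) (hsum : ∑ b, s b = m * Q) : ∏ b, PB s m a b = hh m a ^ Q := by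
  unfold PB pp hh
  rw [← prod_periodic (fun i => X - C (a i)), ← hsum]
  have h1 : ∀ b : Fin r, ∏ i ∈ Finset.range (s b), (X - C (a ((off s b + i) % m)))
      = ∏ i : Fin (s b), (X - C (a ((finSigmaFinEquiv (⟨b, i⟩ : (b : Fin r) × Fin (s b)) : ℕ) % m))) := by
    intro b
    rw [Finset.prod_range]
    apply Finset.prod_congr rfl
    intro i _
    rw [← col_eq, col]
  rw [Finset.prod_congr rfl (fun b _ => h1 b), Finset.prod_range, ← Fintype.prod_sigma'
    (f := fun (b : Fin r) (i : Fin (s b)) => (X - C (a ((finSigmaFinEquiv (⟨b, i⟩ : (b : Fin r) × Fin (s b)) : ℕ) % m)) : O[X]))]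
  exact Fintype.prod_equiv finSigmaFinEquiv _ _ (fun x => rfl)

lemma pp_succ (b : Fin r) (k : ℕ) :
    pp s m a b (k + 1) = pp s m a b k * (X - C (a ((off s b + k) % m))) := by
  unfold pp
  rw [Finset.prod_range_succ]

lemma pp_monic (b : Fin r) (k : ℕ) : (pp s m a b k).Monic :=
  monic_prod_of_monic _ _ (fun _ _ => monic_X_sub_C _)

lemma pp_natDegree [Nontrivial O] (b : Fin r) (k : ℕ) : (pp s m a b k).natDegree = k := by
  unfold pp
  rw [natDegree_prod_of_monic _ _ (fun _ _ => monic_X_sub_C _)]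
  simp

lemma PB_monic (b : Fin r) : (PB s m a b).Monic := pp_monic s m a b _

lemma PB_natDegree [Nontrivial O] (b : Fin r) : (PB s m a b).natDegree = s b := pp_natDegree s m a b _

section Op

variable {N : Type*} [AddCommGroup N] [Module O N]
variable (e : Module.Basis ((b : Fin r) × Fin (s b)) O N) (x : O) (u : Fin r → N)

/-- the operator `Z` -/
noncomputable def ZZ : Module.End O N :=
  e.constr O (fun k => a ((finSigmaFinEquiv k : ℕ) % m) • e k +
    if h : k.2.1 + 1 < s k.1 then e ⟨k.1, ⟨k.2.1 + 1, h⟩⟩ else x • u k.1)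

lemma ZZ_apply (b : Fin r) (i : Fin (s b)) :
    ZZ s m a e x u (e ⟨b, i⟩) = a ((finSigmaFinEquiv (⟨b, i⟩ : (b : Fin r) × Fin (s b)) : ℕ) % m) • e ⟨b, i⟩ +
    if h : i.1 + 1 < s b then e ⟨b, ⟨i.1 + 1, h⟩⟩ else x • u b := by
  unfold ZZ
  rw [Module.Basis.constr_basis]

variable (hs1 : ∀ b, 1 ≤ s b)

lemma Z_sub (b : Fin r) (i : Fin (s b)) :
    aeval (ZZ s m a e x u) (X - C (a ((off s b + i) % m)) : O[X]) (e ⟨b, i⟩) =
    if h : i.1 + 1 < s b then e ⟨b, ⟨i.1 + 1, h⟩⟩ else x • u b := by
  have h1 : (finSigmaFinEquiv (⟨b, i⟩ : (b : Fin r) × Fin (s b)) : ℕ) % m = (off s b + i) % m := by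
    rw [← col_eq, col]
  rw [map_sub, aeval_X, aeval_C, LinearMap.sub_apply, ZZ_apply, h1, Module.algebraMap_end_apply]
  abel

lemma pp_apply (b : Fin r) (k : ℕ) (hk : k < s b) :
    aeval (ZZ s m a e x u) (pp s m a b k) (e ⟨b, ⟨0, hs1 b⟩⟩) = e ⟨b, ⟨k, hk⟩⟩ := by
  induction k with
  | zero => simp [pp]
  | succ k ih =>
    rw [pp_succ, mul_comm, map_mul, Module.End.mul_apply, ih (by omega), Z_sub s m a e x u b ⟨k, by omega⟩,
      dif_pos hk]

lemma PB_apply (b : Fin r) :
    aeval (ZZ s m a e x u) (PB s m a b) (e ⟨b, ⟨0, hs1 b⟩⟩) = x • u b := by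
  have h0 := hs1 b
  have h1 : PB s m a b = (X - C (a ((off s b + (s b - 1)) % m))) * pp s m a b (s b - 1) := by
    unfold PB
    rw [mul_comm, ← pp_succ, Nat.sub_add_cancel h0]
  rw [h1, map_mul, Module.End.mul_apply,
    pp_apply s m a e x u hs1 b (s b - 1) (by omega), Z_sub s m a e x u b ⟨s b - 1, by omega⟩,
    dif_neg (by simp only; omega)]

/-- coefficient polynomials of a vector -/
noncomputable def cp (v : N) (b : Fin r) : O[X] :=
  ∑ i : Fin (s b), C (e.repr v ⟨b, i⟩) * pp s m a b i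

lemma cp_degree [Nontrivial O] (v : N) (b : Fin r) : (cp s m a e v b).degree < s b := by
  unfold cp
  refine lt_of_le_of_lt (degree_sum_le _ _) ?_
  rw [Finset.sup_lt_iff (by exact WithBot.bot_lt_coe _)]
  intro i _
  refine lt_of_le_of_lt (degree_mul_le _ _) ?_
  refine lt_of_le_of_lt (add_le_add degree_C_le degree_le_natDegree) ?_
  rw [pp_natDegree, zero_add]
  exact_mod_cast i.2

lemma cp_sum (v : N) :
    ∑ b, aeval (ZZ s m a e x u) (cp s m a e v b) (e ⟨b, ⟨0, hs1 b⟩⟩) = v := by
  conv_rhs => rw [← e.sum_repr v]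
  rw [Fintype.sum_sigma]
  apply Finset.sum_congr rfl
  intro b _
  unfold cp
  rw [map_sum, LinearMap.sum_apply]
  apply Finset.sum_congr rfl
  intro i _
  rw [map_mul, aeval_C, Module.End.mul_apply, pp_apply s m a e x u hs1 b i i.2,
    Module.algebraMap_end_apply]

/-- an operator commuting with `Z` that kills the block generators is zero -/
lemma ext_gen (T : Module.End O N) (hT : ∀ p : O[X], Commute (aeval (ZZ s m a e x u) p) T)
    (h : ∀ b, T (e ⟨b, ⟨0, hs1 b⟩⟩) = 0) : T = 0 := by
  apply e.ext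
  rintro ⟨b, i⟩
  have h1 := pp_apply s m a e x u hs1 b i i.2
  rw [← h1, ← Module.End.mul_apply, ← (hT _).eq, Module.End.mul_apply, h b, map_zero]
  rfl

lemma commute_ZZ (p q : O[X]) : Commute (aeval (ZZ s m a e x u) p) (aeval (ZZ s m a e x u) q) := by
  have : Commute p q := mul_comm p q
  exact this.map (aeval (ZZ s m a e x u))

/-- the matrix of relations -/
noncomputable def GG : Matrix (Fin r) (Fin r) O[X] :=
  Matrix.of fun b' b => (if b' = b then PB s m a b else 0) - C x * cp s m a e (u b) b'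

lemma GG_rel (b : Fin r) :
    ∑ b', aeval (ZZ s m a e x u) (GG s m a e x u b' b) (e ⟨b', ⟨0, hs1 b'⟩⟩) = 0 := by
  unfold GG
  simp only [Matrix.of_apply, map_sub, map_mul, aeval_C, LinearMap.sub_apply, Module.End.mul_apply,
    Module.algebraMap_end_apply]
  rw [Finset.sum_sub_distrib, ← Finset.smul_sum, cp_sum s m a e x u hs1]
  rw [Finset.sum_eq_single b]
  · rw [if_pos rfl, PB_apply, sub_self]
  · intro b' _ hb'
    rw [if_neg hb', map_zero, LinearMap.zero_apply]
  · intro h; exact absurd (Finset.mem_univ b) h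

include hs1 in
lemma det_apply : aeval (ZZ s m a e x u) (GG s m a e x u).det = 0 := by
  apply ext_gen s m a e x u hs1 _ (fun p => commute_ZZ s m a e x u p _)
  intro b''
  set G := GG s m a e x u with hG
  have h1 : ∀ b' : Fin r, ∑ b, G b' b * G.adjugate b b'' = if b' = b'' then G.det else 0 := by
    intro b'
    have h2 := congrFun (congrFun (Matrix.mul_adjugate G) b') b''
    rw [Matrix.mul_apply] at h2
    rw [h2, Matrix.smul_apply, Matrix.one_apply, smul_eq_mul]
    split_ifs <;> simp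
  have h3 : ∑ b', aeval (ZZ s m a e x u) (∑ b, G b' b * G.adjugate b b'') (e ⟨b', ⟨0, hs1 b'⟩⟩) = 0 := by
    have h4 : ∀ b', aeval (ZZ s m a e x u) (∑ b, G b' b * G.adjugate b b'') (e ⟨b', ⟨0, hs1 b'⟩⟩)
        = ∑ b, aeval (ZZ s m a e x u) (G.adjugate b b'') (aeval (ZZ s m a e x u) (G b' b) (e ⟨b', ⟨0, hs1 b'⟩⟩)) := by
      intro b'
      rw [map_sum, LinearMap.sum_apply]
      apply Finset.sum_congr rfl
      intro b _
      rw [mul_comm, map_mul, Module.End.mul_apply]
    rw [Finset.sum_congr rfl (fun b' _ => h4 b'), Finset.sum_comm]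
    apply Finset.sum_eq_zero
    intro b _
    rw [← map_sum, GG_rel s m a e x u hs1 b, map_zero]
  rw [Finset.sum_eq_single b''] at h3
  · rwa [h1 b'', if_pos rfl] at h3
  · intro b' _ hb'
    rw [h1 b', if_neg hb', map_zero, LinearMap.zero_apply]
  · intro h; exact absurd (Finset.mem_univ _) h

/-! ### expansion of the determinant -/

/-- the minors -/
noncomputable def DD (S : Finset (Fin r)) : O[X] :=
  (Matrix.of (S.piecewise (fun b' b => - cp s m a e (u b) b') (fun b' b => if b' = b then 1 else 0))).det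

lemma det_expand : (GG s m a e x u).det =
    ∑ S : Finset (Fin r), C x ^ S.card * (∏ b ∈ Sᶜ, PB s m a b) * DD s m a e u S := by
  have h1 : (GG s m a e x u) = (fun b' => fun b => C x * - cp s m a e (u b) b') +
      (fun b' => fun b => PB s m a b' * if b' = b then 1 else 0) := by
    funext b' b
    unfold GG
    simp only [Matrix.of_apply, Pi.add_apply]
    split_ifs with h
    · subst h; ring
    · ring
  have h2 := (Matrix.detRowAlternating (n := Fin r) (R := O[X])).toMultilinearMap.map_add_univ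
    (fun b' => fun b => C x * - cp s m a e (u b) b')
    (fun b' => fun b => PB s m a b' * if b' = b then 1 else 0)
  have h3 : (GG s m a e x u).det = (Matrix.detRowAlternating (n := Fin r) (R := O[X])).toMultilinearMap
      ((fun b' => fun b => C x * - cp s m a e (u b) b') +
      (fun b' => fun b => PB s m a b' * if b' = b then 1 else 0)) := by
    rw [← h1]; rfl
  rw [h3, h2]
  apply Finset.sum_congr rfl
  intro S _
  have h4 : (S.piecewise (fun b' => fun b => C x * - cp s m a e (u b) b')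
      (fun b' => fun b => PB s m a b' * if b' = b then 1 else 0))
      = Matrix.of fun i j => (S.piecewise (fun _ => C x) (fun b => PB s m a b)) i *
        (Matrix.of (S.piecewise (fun b' b => - cp s m a e (u b) b')
          (fun b' b => if b' = b then 1 else 0))) i j := by
    funext b' b
    by_cases hb : b' ∈ S
    · simp [Finset.piecewise, hb]
    · simp [Finset.piecewise, hb]
  have h5 : (Matrix.detRowAlternating (n := Fin r) (R := O[X])).toMultilinearMap
      (S.piecewise (fun b' => fun b => C x * - cp s m a e (u b) b')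
      (fun b' => fun b => PB s m a b' * if b' = b then 1 else 0)) =
      (Matrix.of fun i j => (S.piecewise (fun _ => C x) (fun b => PB s m a b)) i *
        (Matrix.of (S.piecewise (fun b' b => - cp s m a e (u b) b')
          (fun b' b => if b' = b then 1 else 0))) i j).det := by
    rw [← h4]; rfl
  rw [h5, Matrix.det_mul_column, Finset.prod_piecewise, Finset.univ_inter, Finset.prod_const,
    ← Finset.compl_eq_univ_sdiff]
  rfl

/-! ### the operator `Y` -/

/-- the operator `Y` -/
noncomputable def YY : Module.End O N :=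
  e.constr O (fun k => aeval (ZZ s m a e x u) (pp s m a k.1 k.2 * PC s m a k.1) (u k.1))

include hs1 in
lemma x_smul_YY (hm : 0 < m) (hsm : ∀ b, s b ≤ m) :
    x • YY s m a e x u = aeval (ZZ s m a e x u) (hh m a) := by
  apply e.ext
  rintro ⟨b, i⟩
  rw [LinearMap.smul_apply, YY, Module.Basis.constr_basis]
  have h1 := pp_apply s m a e x u hs1 b i i.2
  rw [← h1, ← Module.End.mul_apply, ← map_mul, ← PB_mul_PC s m a hm b (hsm b)]
  have h2 : PB s m a b * PC s m a b * pp s m a b i = (pp s m a b i * PC s m a b) * PB s m a b := by ring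
  rw [h2, map_mul _ (pp s m a b i * PC s m a b), Module.End.mul_apply, PB_apply s m a e x u hs1 b,
    map_smul]

/-! ### the determinant is monic -/

variable [IsDomain O]

include hs1 in
lemma GG_natDegree_off (b' b : Fin r) (h : b' ≠ b) : (GG s m a e x u b' b).natDegree < s b' := by
  unfold GG
  rw [Matrix.of_apply, if_neg h, zero_sub, natDegree_neg]
  by_cases h0 : C x * cp s m a e (u b) b' = 0
  · rw [h0, natDegree_zero]; exact hs1 b'
  · rw [natDegree_lt_iff_degree_lt h0]
    refine lt_of_le_of_lt (degree_mul_le _ _) ?_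
    refine lt_of_le_of_lt (add_le_add degree_C_le le_rfl) ?_
    rw [zero_add]
    exact cp_degree s m a e _ _

lemma GG_diag_degree (b : Fin r) : (C x * cp s m a e (u b) b).degree < (PB s m a b).degree := by
  rw [degree_eq_natDegree (PB_monic s m a b).ne_zero, PB_natDegree]
  refine lt_of_le_of_lt (degree_mul_le _ _) ?_
  refine lt_of_le_of_lt (add_le_add degree_C_le le_rfl) ?_
  rw [zero_add]
  exact cp_degree s m a e _ _

lemma GG_diag_monic (b : Fin r) : (GG s m a e x u b b).Monic := by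
  unfold GG
  rw [Matrix.of_apply, if_pos rfl, sub_eq_add_neg]
  apply (PB_monic s m a b).add_of_left
  rw [degree_neg]
  exact GG_diag_degree s m a e x u b

lemma GG_diag_natDegree (b : Fin r) : (GG s m a e x u b b).natDegree = s b := by
  unfold GG
  rw [Matrix.of_apply, if_pos rfl, sub_eq_add_neg,
    natDegree_add_eq_left_of_degree_lt, PB_natDegree]
  rw [degree_neg]
  exact GG_diag_degree s m a e x u b

include hs1 in
lemma det_monic : (GG s m a e x u).det.Monic ∧ (GG s m a e x u).det.natDegree = ∑ b, s b := by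
  set G := GG s m a e x u with hG
  have hD : (∏ i, G i i).Monic := monic_prod_of_monic _ _ (fun b _ => GG_diag_monic s m a e x u b)
  have hDn : (∏ i, G i i).natDegree = ∑ b, s b := by
    rw [natDegree_prod_of_monic _ _ (fun b _ => GG_diag_monic s m a e x u b)]
    exact Finset.sum_congr rfl (fun b _ => GG_diag_natDegree s m a e x u b)
  have hdet : G.det = ∏ i, G i i + ∑ σ ∈ (Finset.univ : Finset (Equiv.Perm (Fin r))).erase 1,
      Equiv.Perm.sign σ • ∏ i, G (σ i) i := by
    rw [Matrix.det_apply, ← Finset.add_sum_erase _ _ (Finset.mem_univ (1 : Equiv.Perm (Fin r)))]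
    simp
  have hlt : (∑ σ ∈ (Finset.univ : Finset (Equiv.Perm (Fin r))).erase 1,
      Equiv.Perm.sign σ • ∏ i, G (σ i) i).degree < (∏ i, G i i).degree := by
    rw [degree_eq_natDegree hD.ne_zero, hDn]
    refine lt_of_le_of_lt (degree_sum_le _ _) ?_
    rw [Finset.sup_lt_iff (by exact WithBot.bot_lt_coe _)]
    intro σ hσ
    rw [Finset.mem_erase] at hσ
    have h1 : (Equiv.Perm.sign σ • ∏ i, G (σ i) i).degree ≤ (∏ i, G (σ i) i).degree := by
      rcases Int.units_eq_one_or (Equiv.Perm.sign σ) with h | h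
      · rw [h, one_smul]
      · rw [h, Units.neg_smul, one_smul, degree_neg]
    refine lt_of_le_of_lt h1 ?_
    refine lt_of_le_of_lt degree_le_natDegree ?_
    have h2 : (∏ i, G (σ i) i).natDegree < ∑ b, s b := by
      refine lt_of_le_of_lt (natDegree_prod_le _ _) ?_
      rw [← Equiv.sum_comp σ s]
      have h3 : ∀ i : Fin r, (G (σ i) i).natDegree ≤ s (σ i) := by
        intro i
        by_cases h : σ i = i
        · rw [h]; exact (GG_diag_natDegree s m a e x u i).le
        · exact (GG_natDegree_off s m a e x u hs1 _ _ h).le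
      have h4 : ∃ i : Fin r, σ i ≠ i := by
        by_contra hcon
        push Not at hcon
        exact hσ.1 (Equiv.ext hcon)
      obtain ⟨i, hi⟩ := h4
      exact Finset.sum_lt_sum (fun i _ => h3 i)
        ⟨i, Finset.mem_univ i, GG_natDegree_off s m a e x u hs1 _ _ hi⟩
    exact_mod_cast h2
  rw [hdet]
  exact ⟨hD.add_of_left hlt, by rw [natDegree_add_eq_left_of_degree_lt hlt, hDn]⟩

lemma PB_compl (hm : 0 < m) (Q : ℕ) (hsm : ∀ b, s b ≤ m) (hsum : ∑ b, s b = m * Q)
    (S : Finset (Fin r)) (hS : S.card ≤ Q) :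
    ∏ b ∈ Sᶜ, PB s m a b = hh m a ^ (Q - S.card) * ∏ b ∈ S, PC s m a b := by
  have h0 : (∏ b ∈ S, PB s m a b) ≠ 0 :=
    (monic_prod_of_monic _ _ (fun b _ => PB_monic s m a b)).ne_zero
  apply mul_right_cancel₀ h0
  rw [mul_comm, Finset.prod_mul_prod_compl, prod_PB s m a Q hsum, mul_assoc, ← Finset.prod_mul_distrib]
  rw [Finset.prod_congr rfl (fun b _ => by rw [mul_comm, PB_mul_PC s m a hm b (hsm b)]),
    Finset.prod_const, ← pow_add, Nat.sub_add_cancel hS]

/-- the polynomial `F` -/
noncomputable def FF (Q : ℕ) : O[X][X] :=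
  ∑ S : Finset (Fin r), if S.card ≤ Q then
    X ^ (Q - S.card) * C ((∏ b ∈ S, PC s m a b) * DD s m a e u S)
    else C (C x ^ (S.card - Q) * (∏ b ∈ Sᶜ, PB s m a b) * DD s m a e u S)

lemma FF_rel (hm : 0 < m) (Q : ℕ) (hsm : ∀ b, s b ≤ m) (hsum : ∑ b, s b = m * Q) :
    C (C x) ^ Q * FF s m a e x u Q - C (GG s m a e x u).det ∈
      Ideal.span {(C (C x) * X - C (hh m a) : O[X][X])} := by
  rw [det_expand, FF, Finset.mul_sum, map_sum, ← Finset.sum_sub_distrib]
  apply Ideal.sum_mem
  intro S _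
  rw [Ideal.mem_span_singleton]
  by_cases hS : S.card ≤ Q
  · rw [if_pos hS, PB_compl s m a hm Q hsm hsum S hS]
    have h1 : C (C x) ^ Q * (X ^ (Q - S.card) * C ((∏ b ∈ S, PC s m a b) * DD s m a e u S)) -
        C (C x ^ S.card * (hh m a ^ (Q - S.card) * ∏ b ∈ S, PC s m a b) * DD s m a e u S) =
        (C (C x) ^ S.card * C ((∏ b ∈ S, PC s m a b) * DD s m a e u S)) *
        (((C (C x) * X) ^ (Q - S.card) - C (hh m a) ^ (Q - S.card) : O[X][X])) := by
      have h2 : (C (C x) : O[X][X]) ^ Q = C (C x) ^ S.card * C (C x) ^ (Q - S.card) := by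
        rw [← pow_add, Nat.add_sub_cancel' hS]
      rw [h2]
      simp only [map_mul, map_pow]
      ring
    rw [h1]
    exact Dvd.dvd.mul_left (sub_dvd_pow_sub_pow _ _ _) _
  · rw [if_neg hS]
    have h1 : C (C x) ^ Q * C (C x ^ (S.card - Q) * (∏ b ∈ Sᶜ, PB s m a b) * DD s m a e u S) -
        C (C x ^ S.card * (∏ b ∈ Sᶜ, PB s m a b) * DD s m a e u S) = (0 : O[X][X]) := by
      have h2 : (C x : O[X]) ^ S.card = C x ^ Q * C x ^ (S.card - Q) := by
        rw [← pow_add, Nat.add_sub_cancel' (by omega)]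
      rw [h2]
      simp only [map_mul, map_pow]
      ring
    rw [h1]
    exact dvd_zero _

include e in
lemma smul_eq_zero_imp {y : O} (hy : y ≠ 0) {v : N} (h : y • v = 0) : v = 0 := by
  apply e.repr.injective
  rw [map_zero]
  ext k
  have h1 : e.repr (y • v) k = 0 := by rw [h, map_zero]; rfl
  rw [map_smul, Finsupp.smul_apply, smul_eq_mul] at h1
  simpa [hy] using h1

include hs1 in
lemma commute_YY (hx : x ≠ 0) (hm : 0 < m) (hsm : ∀ b, s b ≤ m) (p : O[X]) :
    Commute (aeval (ZZ s m a e x u) p) (YY s m a e x u) := by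
  have h1 : ∀ v : N, x • (aeval (ZZ s m a e x u) p (YY s m a e x u v) - YY s m a e x u (aeval (ZZ s m a e x u) p v)) = 0 := by
    intro v
    have h2 := x_smul_YY s m a e x u hs1 hm hsm
    have h3 : ∀ w : N, x • YY s m a e x u w = aeval (ZZ s m a e x u) (hh m a) w := fun w => by
      rw [← h2, LinearMap.smul_apply]
    rw [smul_sub, ← map_smul, h3, h3, ← Module.End.mul_apply, ← Module.End.mul_apply,
      (commute_ZZ s m a e x u p (hh m a)).eq, sub_self]
  ext v
  rw [Module.End.mul_apply, Module.End.mul_apply]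
  exact sub_eq_zero.1 (smul_eq_zero_imp s e hx (h1 v))

end Op

end DetBAux

/-- Section 3.3 of the blueprint. -/
theorem det_block {O N : Type*} [CommRing O] [IsDomain O] [AddCommGroup N] [Module O N]
    (x : O) (hx : x ≠ 0) (m Q r : ℕ) (hm : 0 < m) (s : Fin r → ℕ) (hs1 : ∀ b, 1 ≤ s b)
    (hsm : ∀ b, s b ≤ m) (hsum : ∑ b, s b = m * Q) (a : ℕ → O)
    (e : Module.Basis ((b : Fin r) × Fin (s b)) O N) (u : Fin r → N) :
    ∃ (Z Y : Module.End O N) (hc : ∀ p : O[X], Commute ((aeval Z).toRingHom p) Y)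
      (F : O[X][X]) (δ : O[X]),
      (∀ (b : Fin r) (i : Fin (s b)), Z (e ⟨b, i⟩) =
        a ((finSigmaFinEquiv (⟨b, i⟩ : (b : Fin r) × Fin (s b)) : ℕ) % m) • e ⟨b, i⟩ +
        if h : i.1 + 1 < s b then e ⟨b, ⟨i.1 + 1, h⟩⟩ else x • u b) ∧
      x • Y = aeval Z (∏ i ∈ Finset.range m, (X - C (a i)) : O[X]) ∧
      δ.Monic ∧ δ.natDegree = m * Q ∧ aeval Z δ = 0 ∧
      C (C x) ^ Q * F - C δ ∈
        Ideal.span {(C (C x) * X - C (∏ i ∈ Finset.range m, (X - C (a i))) : O[X][X])} ∧
      Polynomial.eval₂RingHom' (aeval Z).toRingHom Y hc F = 0 := by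
  have hc : ∀ p : O[X], Commute ((aeval (DetBAux.ZZ s m a e x u)).toRingHom p) (DetBAux.YY s m a e x u) :=
    fun p => DetBAux.commute_YY s m a e x u hs1 hx hm hsm p
  have hY := DetBAux.x_smul_YY s m a e x u hs1 hm hsm
  have hδ := DetBAux.det_monic s m a e x u hs1
  have hδ0 := DetBAux.det_apply s m a e x u hs1
  have hF := DetBAux.FF_rel s m a e x u hm Q hsm hsum
  refine ⟨DetBAux.ZZ s m a e x u, DetBAux.YY s m a e x u, hc, DetBAux.FF s m a e x u Q,
    (DetBAux.GG s m a e x u).det, fun b i => DetBAux.ZZ_apply s m a e x u b i, hY,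
    hδ.1, hδ.2.trans hsum, hδ0, hF, ?_⟩
  set E := Polynomial.eval₂RingHom' (aeval (DetBAux.ZZ s m a e x u)).toRingHom (DetBAux.YY s m a e x u) hc with hE
  have hEC : ∀ p : O[X], E (C p) = aeval (DetBAux.ZZ s m a e x u) p := by
    intro p
    rw [hE]
    simp [eval₂RingHom']
  have hEX : E X = DetBAux.YY s m a e x u := by
    rw [hE]
    simp [eval₂RingHom']
  have hEg : E (C (C x) * X - C (DetBAux.hh m a)) = 0 := by
    rw [map_sub, map_mul, hEC, hEC, hEX, ← hY, aeval_C, sub_eq_zero]
    ext v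
    rw [Module.End.mul_apply, Module.algebraMap_end_apply, LinearMap.smul_apply]
  obtain ⟨c, hcc⟩ := Ideal.mem_span_singleton.1 hF
  have h1 : E (C (C x) ^ Q * DetBAux.FF s m a e x u Q - C (DetBAux.GG s m a e x u).det) = 0 := by
    rw [hcc, map_mul, hEg, zero_mul]
  rw [map_sub, map_mul, hEC, hδ0, sub_zero, map_pow, hEC, aeval_C] at h1
  ext v
  have h2 := LinearMap.congr_fun h1 v
  rw [LinearMap.zero_apply, ← map_pow, Module.End.mul_apply, Module.algebraMap_end_apply] at h2
  rw [LinearMap.zero_apply]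
  exact DetBAux.smul_eq_zero_imp s e (pow_ne_zero Q hx) h2

end Pool.Agent.MPac4d2b
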