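import Mathlib
import Pool.Agent.Lib.MP_ac4d2b_ag.Defs
import Pool.Agent.Lib.MP_ac4d2b_ag.DetB

/-! Module BAS of project HILB (MP_ac4d2b_ag): adapted basis and colouring.  Author: helper28. -/

set_option autoImplicit false

namespace Pool.Agent.MPac4d2b

open Module

namespace BASAux

/-- bases of strings for a nilpotent endomorphism -/
theorem jordan {K : Type} [Field K] (n : ℕ) : ∀ (V : Type) [AddCommGroup V] [Module K V]
    [FiniteDimensional K V] (z : Module.End K V) (m : ℕ), z ^ m = 0 → finrank K V = n →
    ∃ (B : Type) (_ : Fintype B) (s : B → ℕ) (e : Basis ((b : B) × Fin (s b)) K V),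
      (∀ b, 1 ≤ s b ∧ s b ≤ m) ∧
      (∀ (b : B) (i : Fin (s b)) (h : i.val + 1 < s b), z (e ⟨b, i⟩) = e ⟨b, ⟨i.val + 1, h⟩⟩) ∧
      (∀ (b : B) (i : Fin (s b)), i.val + 1 = s b → z (e ⟨b, i⟩) = 0) := by
  classical
  induction n using Nat.strong_induction_on with
  | _ n IH =>
    intro V _ _ _ z m hz hn
    rcases Nat.eq_zero_or_pos n with h0 | hpos
    · have hsub : Subsingleton V := by
        rw [h0] at hn
        exact Module.finrank_zero_iff.1 hn
      exact ⟨Empty, inferInstance, fun b => b.elim, Basis.empty V, fun b => b.elim,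
        fun b => b.elim, fun b => b.elim⟩
    · have hnt : Nontrivial V := by
        apply Module.nontrivial_of_finrank_pos (R := K)
        omega
      -- the nilpotency index
      have hex : ∃ k, z ^ k = 0 := ⟨m, hz⟩
      obtain ⟨k, hk0, hkmin⟩ : ∃ k, z ^ k = 0 ∧ ∀ j < k, z ^ j ≠ 0 :=
        ⟨Nat.find hex, Nat.find_spec hex, fun j hj => Nat.find_min hex hj⟩
      have hk1 : 1 ≤ k := by
        rcases Nat.eq_zero_or_pos k with h | h
        · rw [h, pow_zero] at hk0
          exact absurd hk0 one_ne_zero
        · exact h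
      have hkm : k ≤ m := by
        by_contra hcon
        exact hkmin m (by omega) hz
      have hge : ∀ j, k ≤ j → z ^ j = 0 := fun j hj => by
        rw [← Nat.sub_add_cancel hj, pow_add, hk0, mul_zero]
      obtain ⟨v, hv⟩ : ∃ v, (z ^ (k - 1)) v ≠ 0 := by
        by_contra hcon
        push Not at hcon
        exact hkmin (k - 1) (by omega) (LinearMap.ext hcon)
      obtain ⟨lam, hlam⟩ : ∃ lam : V →ₗ[K] K, lam ((z ^ (k - 1)) v) = 1 := by
        have h1 : ¬ ∀ φ : Module.Dual K V, φ ((z ^ (k - 1)) v) = 0 := by
          rw [Module.forall_dual_apply_eq_zero_iff]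
          exact hv
        push Not at h1
        obtain ⟨φ, hφ⟩ := h1
        refine ⟨(φ ((z ^ (k - 1)) v))⁻¹ • φ, ?_⟩
        rw [LinearMap.smul_apply, smul_eq_mul, inv_mul_cancel₀ hφ]
      set Φ : V →ₗ[K] (Fin k → K) := LinearMap.pi (fun i : Fin k => lam ∘ₗ (z ^ (k - 1 - (i : ℕ)))) with hΦ
      have hΦa : ∀ x i, Φ x i = lam ((z ^ (k - 1 - (i : ℕ))) x) := fun x i => rfl
      set w : Fin k → V := fun j => (z ^ (j : ℕ)) v with hw
      set M : Matrix (Fin k) (Fin k) K := Matrix.of fun i j => Φ (w j) i with hM
      have hMa : ∀ i j, M i j = lam ((z ^ (k - 1 - (i : ℕ) + (j : ℕ))) v) := by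
        intro i j
        rw [hM, Matrix.of_apply, hΦa, hw]
        simp only
        rw [pow_add, Module.End.mul_apply]
      have hdet : M.det = 1 := by
        rw [← Matrix.det_transpose, Matrix.det_of_isUpperTriangular]
        · apply Finset.prod_eq_one
          intro i _
          rw [Matrix.transpose_apply, hMa, Nat.sub_add_cancel (by have := i.2; omega), hlam]
        · intro i j hij
          rw [Matrix.transpose_apply, hMa, hge, LinearMap.zero_apply, map_zero]
          simp only [id_eq] at hij
          have h3 : (j : ℕ) < (i : ℕ) := hij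
          have h4 := i.2
          omega
      have hMu : IsUnit M.det := by rw [hdet]; exact isUnit_one
      set lc : (Fin k → K) →ₗ[K] V := Fintype.linearCombination K w with hlc
      have hlca : ∀ c, lc c = ∑ j, c j • w j := fun c => by
        rw [hlc, Fintype.linearCombination_apply]
      have hΦlc : ∀ c, Φ (lc c) = M.mulVec c := by
        intro c
        rw [hlca, map_sum]
        funext i
        rw [Finset.sum_apply, Matrix.mulVec, dotProduct]
        apply Finset.sum_congr rfl
        intro j _
        rw [map_smul, Pi.smul_apply, smul_eq_mul, mul_comm]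
        rfl
      set U : Submodule K V := LinearMap.ker Φ with hU
      have hUz : ∀ x ∈ U, z x ∈ U := by
        intro x hx
        rw [hU, LinearMap.mem_ker] at hx ⊢
        funext i
        rw [hΦa, ← Module.End.mul_apply, ← pow_succ, Pi.zero_apply]
        rcases Nat.eq_zero_or_pos (i : ℕ) with h | h
        · rw [h, Nat.sub_zero, Nat.sub_add_cancel hk1, hk0, LinearMap.zero_apply, map_zero]
        · have h1 := congrFun hx ⟨(i : ℕ) - 1, by have := i.2; omega⟩
          rw [hΦa] at h1
          simp only [Pi.zero_apply] at h1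
          have h2 : k - 1 - (i : ℕ) + 1 = k - 1 - ((i : ℕ) - 1) := by have := i.2; omega
          rw [h2]
          exact h1
      have hUlt : finrank K U < n := by
        rw [← hn]
        apply Submodule.finrank_lt
        intro htop
        have h1 : v ∈ U := by rw [htop]; exact Submodule.mem_top
        rw [hU, LinearMap.mem_ker] at h1
        have h2 := congrFun h1 ⟨0, hk1⟩
        rw [hΦa, Nat.sub_zero, hlam] at h2
        exact one_ne_zero h2
      set zU : Module.End K U := z.restrict hUz with hzU
      have hzUm : zU ^ m = 0 := by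
        rw [hzU, Module.End.pow_restrict]
        ext x
        simp [hz]
      obtain ⟨B, hB, s, e, hs, he1, he2⟩ := IH (finrank K U) hUlt U zU m hzUm rfl
      -- the linear equivalence
      have hbij : Function.Bijective (lc.coprod U.subtype) := by
        constructor
        · rw [injective_iff_map_eq_zero]
          rintro ⟨c, u⟩ hcu
          rw [LinearMap.coprod_apply] at hcu
          have h1 : Φ (lc c + U.subtype u) = 0 := by rw [hcu, map_zero]
          have h2 : Φ (U.subtype u) = 0 := u.2
          rw [map_add, h2, add_zero, hΦlc] at h1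
          have h3 : c = 0 := by
            have h4 : M⁻¹.mulVec (M.mulVec c) = 0 := by rw [h1, Matrix.mulVec_zero]
            rwa [Matrix.mulVec_mulVec, Matrix.nonsing_inv_mul M hMu, Matrix.one_mulVec] at h4
          subst h3
          rw [map_zero, zero_add] at hcu
          have h5 : u = 0 := Subtype.ext hcu
          rw [h5]
          rfl
        · intro x
          have h1 : x - lc (M⁻¹.mulVec (Φ x)) ∈ U := by
            rw [hU, LinearMap.mem_ker, map_sub, hΦlc, Matrix.mulVec_mulVec,
              Matrix.mul_nonsing_inv M hMu, Matrix.one_mulVec, sub_self]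
          refine ⟨(M⁻¹.mulVec (Φ x), ⟨_, h1⟩), ?_⟩
          rw [LinearMap.coprod_apply]
          simp
      set ψ := LinearEquiv.ofBijective (lc.coprod U.subtype) hbij with hψ
      set E : Basis (Fin k ⊕ ((b : B) × Fin (s b))) K V :=
        ((Pi.basisFun K (Fin k)).prod e).map ψ with hE
      have hEl : ∀ j : Fin k, E (Sum.inl j) = w j := by
        intro j
        rw [hE, Basis.map_apply, hψ, LinearEquiv.ofBijective_apply, LinearMap.coprod_apply,
          Basis.prod_apply_inl_fst, Basis.prod_apply_inl_snd, map_zero, add_zero, hlca,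
          Finset.sum_eq_single j]
        · simp
        · intro i _ hi
          rw [Pi.basisFun_apply, Pi.single_eq_of_ne hi, zero_smul]
        · intro h; exact absurd (Finset.mem_univ _) h
      have hEr : ∀ l, E (Sum.inr l) = (e l : V) := by
        intro l
        rw [hE, Basis.map_apply, hψ, LinearEquiv.ofBijective_apply, LinearMap.coprod_apply,
          Basis.prod_apply_inr_fst, Basis.prod_apply_inr_snd, map_zero, zero_add]
        rfl
      -- the new index
      let s' : Unit ⊕ B → ℕ := Sum.elim (fun _ => k) s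
      let τ : (Fin k ⊕ ((b : B) × Fin (s b))) ≃ ((b : Unit ⊕ B) × Fin (s' b)) :=
        { toFun := Sum.elim (fun j => ⟨Sum.inl (), j⟩) (fun l => ⟨Sum.inr l.1, l.2⟩)
          invFun := fun p => match p with
            | ⟨Sum.inl _, j⟩ => Sum.inl j
            | ⟨Sum.inr b, j⟩ => Sum.inr ⟨b, j⟩
          left_inv := by rintro (j | ⟨b, j⟩) <;> rfl
          right_inv := by rintro ⟨_ | b, j⟩ <;> rfl }
      have hs1' : ∀ (i : Fin k) (h : i.val + 1 < k), z (E (Sum.inl i)) = E (Sum.inl ⟨i.val + 1, h⟩) := by
        intro i h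
        rw [hEl, hEl, hw]
        simp only
        rw [pow_succ', Module.End.mul_apply]
      have hs2' : ∀ (i : Fin k), i.val + 1 = k → z (E (Sum.inl i)) = 0 := by
        intro i h
        rw [hEl, hw]
        simp only
        rw [← Module.End.mul_apply, ← pow_succ', h, hk0, LinearMap.zero_apply]
      refine ⟨Unit ⊕ B, inferInstance, s', E.reindex τ, ?_, ?_, ?_⟩
      · rintro (_ | b)
        · exact ⟨hk1, hkm⟩
        · exact hs b
      · rintro (_ | b) i h
        · rw [Basis.reindex_apply, Basis.reindex_apply]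
          exact hs1' i h
        · rw [Basis.reindex_apply, Basis.reindex_apply]
          have h1 : (τ.symm ⟨Sum.inr b, i⟩) = Sum.inr ⟨b, i⟩ := rfl
          have h2 : (τ.symm ⟨Sum.inr b, ⟨i.val + 1, h⟩⟩) = Sum.inr ⟨b, ⟨i.val + 1, h⟩⟩ := rfl
          rw [h1, h2, hEr, hEr, ← he1 b i h]
          rfl
      · rintro (_ | b) i h
        · rw [Basis.reindex_apply]
          exact hs2' i h
        · rw [Basis.reindex_apply]
          have h1 : (τ.symm ⟨Sum.inr b, i⟩) = Sum.inr ⟨b, i⟩ := rfl
          rw [h1, hEr]
          have h2 := he2 b i h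
          have h3 : z (e ⟨b, i⟩ : V) = ((zU (e ⟨b, i⟩) : U) : V) := rfl
          rw [h3, h2]
          rfl

/-- the constant term as a reduction map on a free module -/
noncomputable def rho {K N : Type} [Field K] [AddCommGroup N] [Module (PowerSeries K) N]
    {ι : Type} [Fintype ι] (β : Basis ι (PowerSeries K) N) : N →+ (ι → K) where
  toFun n := fun k => PowerSeries.constantCoeff (β.repr n k)
  map_zero' := by funext k; simp
  map_add' n n' := by funext k; simp

section

variable {K N : Type} [Field K] [AddCommGroup N] [Module (PowerSeries K) N]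
    {ι : Type} [Fintype ι] (β : Basis ι (PowerSeries K) N)

lemma rho_apply (n : N) (k : ι) : rho β n k = PowerSeries.constantCoeff (β.repr n k) := rfl

lemma rho_smul (p : PowerSeries K) (n : N) :
    rho β (p • n) = PowerSeries.constantCoeff p • rho β n := by
  funext k
  rw [rho_apply, map_smul, Finsupp.smul_apply, smul_eq_mul, map_mul, Pi.smul_apply, smul_eq_mul,
    rho_apply]

lemma rho_surj : Function.Surjective (rho β) := by
  classical
  intro c
  refine ⟨∑ k, PowerSeries.C (c k) • β k, ?_⟩
  funext k
  rw [rho_apply, β.repr_sum_self]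
  simp

lemma rho_ker (n : N) (h : rho β n = 0) : ∃ u, n = (PowerSeries.X : PowerSeries K) • u := by
  have h1 : ∀ k, ∃ q, β.repr n k = PowerSeries.X * q := by
    intro k
    have h2 := congrFun h k
    rw [rho_apply, Pi.zero_apply] at h2
    exact PowerSeries.X_dvd_iff.2 h2
  choose q hq using h1
  refine ⟨∑ k, q k • β k, ?_⟩
  rw [Finset.smul_sum]
  conv_lhs => rw [← β.sum_repr n]
  apply Finset.sum_congr rfl
  intro k _
  rw [hq, mul_smul]

end

end BASAux

open BASAux in
theorem adapted_basis {K N : Type} [Field K] [AddCommGroup N] [Module (PowerSeries K) N]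
    [Module.Free (PowerSeries K) N] [Module.Finite (PowerSeries K) N]
    (z : Module.End (PowerSeries K) N) (m : ℕ) (hm : 1 ≤ m)
    (hz : ∀ u : N, ∃ u', (z ^ m) u = (PowerSeries.X : PowerSeries K) • u') :
    ∃ (r : ℕ) (s : Fin r → ℕ) (e : Module.Basis (Σ b : Fin r, Fin (s b)) (PowerSeries K) N),
      (∀ b, 1 ≤ s b ∧ s b ≤ m) ∧
      (∀ (b : Fin r) (i : Fin (s b)) (h : i.val + 1 < s b),
        z (e ⟨b, i⟩) = e ⟨b, ⟨i.val + 1, h⟩⟩) ∧
      (∀ (b : Fin r) (i : Fin (s b)), i.val + 1 = s b →
        ∃ u, z (e ⟨b, i⟩) = (PowerSeries.X : PowerSeries K) • u) := by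
  classical
  -- a basis and the reduced endomorphism
  set ι := Module.Free.ChooseBasisIndex (PowerSeries K) N with hι
  set β : Basis ι (PowerSeries K) N := Module.Free.chooseBasis (PowerSeries K) N with hβ
  set zb : Module.End K (ι → K) := Matrix.toLin' (Matrix.of fun k l => rho β (z (β l)) k) with hzb
  have hzρ : ∀ n, rho β (z n) = zb (rho β n) := by
    intro n
    have h1 : z n = ∑ l, β.repr n l • z (β l) := by
      conv_lhs => rw [← β.sum_repr n]
      rw [map_sum]
      exact Finset.sum_congr rfl (fun l _ => map_smul _ _ _)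
    rw [h1, map_sum, hzb, Matrix.toLin'_apply]
    funext k
    rw [Finset.sum_apply, Matrix.mulVec, dotProduct]
    apply Finset.sum_congr rfl
    intro l _
    rw [rho_smul, Pi.smul_apply, smul_eq_mul, Matrix.of_apply, rho_apply β n l, mul_comm]
  have hzρp : ∀ (j : ℕ) n, rho β ((z ^ j) n) = (zb ^ j) (rho β n) := by
    intro j
    induction j with
    | zero => intro n; simp
    | succ j ih => intro n; rw [pow_succ, pow_succ, Module.End.mul_apply, Module.End.mul_apply, ih, hzρ]
  have hzbm : zb ^ m = 0 := by
    apply LinearMap.ext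
    intro c
    obtain ⟨n, rfl⟩ := rho_surj β c
    obtain ⟨u', hu'⟩ := hz n
    rw [← hzρp, hu', rho_smul]
    simp
  obtain ⟨B, hB, s, e, hs, he1, he2⟩ := jordan (finrank K (ι → K)) (ι → K) zb m hzbm rfl
  -- lift the generators
  have hlift : ∀ b : B, ∃ n : N, rho β n = e ⟨b, ⟨0, (hs b).1⟩⟩ := fun b => rho_surj β _
  choose g hg using hlift
  have hpow : ∀ (b : B) (i : ℕ) (hi : i < s b), rho β ((z ^ i) (g b)) = e ⟨b, ⟨i, hi⟩⟩ := by
    intro b i
    induction i with
    | zero => intro hi; rw [pow_zero, Module.End.one_apply, hg]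
    | succ i ih =>
      intro hi
      rw [pow_succ', Module.End.mul_apply, hzρ, ih (by omega), he1 b ⟨i, by omega⟩ hi]
  -- same number of elements
  obtain ⟨σ⟩ : Nonempty (ι ≃ ((b : B) × Fin (s b))) := by
    apply Fintype.card_eq.1
    have h1 := Module.finrank_eq_card_basis e
    rw [Module.finrank_fintype_fun_eq_card] at h1
    exact h1
  set w : ((b : B) × Fin (s b)) → N := fun p => (z ^ (p.2 : ℕ)) (g p.1) with hw
  have hρw : ∀ p, rho β (w p) = e p := fun p => hpow p.1 p.2 p.2.2
  have hdet : IsUnit ((β.reindex σ).det w) := by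
    rw [Basis.det_apply, PowerSeries.isUnit_iff_constantCoeff, RingHom.map_det]
    have h1 : ((β.reindex σ).toMatrix w).map (PowerSeries.constantCoeff (R := K)) =
        ((Pi.basisFun K ι).reindex σ).toMatrix e := by
      ext p q
      rw [Matrix.map_apply, Basis.toMatrix_apply, Basis.toMatrix_apply, Basis.repr_reindex_apply,
        Basis.repr_reindex_apply, Pi.basisFun_repr, ← hρw q, rho_apply]
    rw [RingHom.mapMatrix_apply, h1, ← Basis.det_apply]
    exact ((Pi.basisFun K ι).reindex σ).is_basis_iff_det.1 ⟨e.linearIndependent, e.span_eq⟩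
  obtain ⟨hli, hsp⟩ := (β.reindex σ).is_basis_iff_det.2 hdet
  set E : Basis ((b : B) × Fin (s b)) (PowerSeries K) N := Basis.mk hli hsp.ge with hE
  have hEa : ∀ p, E p = w p := fun p => by rw [hE, Basis.mk_apply]
  -- transfer to Fin r
  set r := Fintype.card B with hr
  set τ : B ≃ Fin r := Fintype.equivFin B with hτ
  let T : ((b : B) × Fin (s b)) ≃ ((b : Fin r) × Fin (s (τ.symm b))) :=
    { toFun := fun p => ⟨τ p.1, ⟨p.2.val, by rw [Equiv.symm_apply_apply]; exact p.2.2⟩⟩
      invFun := fun p => ⟨τ.symm p.1, p.2⟩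
      left_inv := by
        rintro ⟨b, i⟩
        have h1 : τ.symm (τ b) = b := τ.symm_apply_apply b
        apply Sigma.ext h1
        simp only
        rw [Fin.heq_ext_iff (by rw [h1])]
      right_inv := by
        rintro ⟨b, i⟩
        have h1 : τ (τ.symm b) = b := τ.apply_symm_apply b
        apply Sigma.ext h1
        simp only
        rw [Fin.heq_ext_iff (by rw [h1])] }
  have hTs : ∀ (b : Fin r) (i : Fin (s (τ.symm b))), T.symm ⟨b, i⟩ = ⟨τ.symm b, i⟩ := fun b i => rfl
  refine ⟨r, fun b => s (τ.symm b), E.reindex T, fun b => hs _, ?_, ?_⟩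
  · intro b i h
    rw [Basis.reindex_apply, Basis.reindex_apply, hTs, hTs, hEa, hEa, hw]
    simp only
    rw [pow_succ', Module.End.mul_apply]
  · intro b i h
    rw [Basis.reindex_apply, hTs]
    apply rho_ker β
    rw [hzρ, hEa, hρw, he2 _ i h]

/-- the colouring -/
theorem coloring (r m Q : ℕ) (hm : 1 ≤ m) (s : Fin r → ℕ) (hs : ∀ b, s b ≤ m)
    (hsum : ∑ b, s b = m * Q) :
    ∃ c : (Σ b : Fin r, Fin (s b)) → Fin m,
      (∀ b, Function.Injective fun i : Fin (s b) => c ⟨b, i⟩) ∧
      ∀ k : Fin m, (Finset.univ.filter fun p => c p = k).card = Q := by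
  classical
  refine ⟨fun p => ⟨(finSigmaFinEquiv p : ℕ) % m, Nat.mod_lt _ hm⟩, ?_, ?_⟩
  · intro b i j hij
    simp only [Fin.mk.injEq] at hij
    apply Fin.ext
    have h1 := DetBAux.col_eq s m b i
    have h2 := DetBAux.col_eq s m b j
    unfold DetBAux.col at h1 h2
    rw [h1, h2] at hij
    exact DetBAux.col_inj s m b (hs b) i j i.2 j.2 hij
  · intro k
    have h1 : (Finset.univ.filter fun p : (Σ b : Fin r, Fin (s b)) =>
        (⟨(finSigmaFinEquiv p : ℕ) % m, Nat.mod_lt _ hm⟩ : Fin m) = k).card =
        (Finset.univ.filter fun p : Fin (∑ b, s b) => (p : ℕ) % m = (k : ℕ)).card := by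
      apply Finset.card_equiv finSigmaFinEquiv
      intro p
      simp [Fin.ext_iff]
    rw [h1]
    have h2 : (Finset.univ.filter fun p : Fin (∑ b, s b) => (p : ℕ) % m = (k : ℕ)).card =
        ((Finset.range (m * Q)).filter fun p => p % m = (k : ℕ)).card := by
      rw [← hsum]
      rw [Finset.card_filter, Finset.card_filter, Finset.sum_range]
    rw [h2]
    have h3 : ((Finset.range (m * Q)).filter fun p => p % m = (k : ℕ)) =
        (Finset.range Q).image (fun q => m * q + (k : ℕ)) := by
      ext p
      simp only [Finset.mem_filter, Finset.mem_range, Finset.mem_image]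
      constructor
      · rintro ⟨hp, hpk⟩
        refine ⟨p / m, ?_, ?_⟩
        · exact Nat.div_lt_of_lt_mul hp
        · rw [← hpk, Nat.div_add_mod]
      · rintro ⟨q, hq, rfl⟩
        refine ⟨?_, ?_⟩
        · have h4 : m * (q + 1) ≤ m * Q := Nat.mul_le_mul_left m hq
          have h5 := k.2
          rw [Nat.mul_succ] at h4
          omega
        · rw [Nat.mul_add_mod, Nat.mod_eq_of_lt k.2]
    rw [h3, Finset.card_image_of_injective, Finset.card_range]
    intro q q' hqq
    simp only at hqq
    have h4 : m * q = m * q' := by omega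
    exact Nat.eq_of_mul_eq_mul_left hm h4

end Pool.Agent.MPac4d2b
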