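import Mathlib
import Pool.Agent.Lib.MP_ac4d2b_ag.Defs
import Pool.Agent.Lib.MP_ac4d2b_ag.DetB
import Pool.Agent.Lib.MP_ac4d2b_ag.Core
import Pool.Agent.Lib.MP_ac4d2b_ag.BAS

/-! Module DEF of project HILB (MP_ac4d2b_ag): the deformation of a lattice.  Author: helper28. -/

set_option autoImplicit false

namespace Pool.Agent.MPac4d2b

open Polynomial

namespace DEFAux

section

variable {A K N I : Type} [Field K] [AddCommGroup N] [Module (PowerSeries K) N] [Fintype I]
  [CommRing A] (ε : A →+* K) (e : Module.Basis I (PowerSeries K) N)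

/-- the reduction map -/
noncomputable def red : (I → PowerSeries A) →+ N where
  toFun v := ∑ k, PowerSeries.map ε (v k) • e k
  map_zero' := by simp
  map_add' v w := by simp [add_smul, Finset.sum_add_distrib]

lemma red_apply (v : I → PowerSeries A) : red ε e v = ∑ k, PowerSeries.map ε (v k) • e k := rfl

lemma red_smul (o : PowerSeries A) (v : I → PowerSeries A) :
    red ε e (o • v) = PowerSeries.map ε o • red ε e v := by
  rw [red_apply, red_apply, Finset.smul_sum]
  apply Finset.sum_congr rfl
  intro k _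
  rw [Pi.smul_apply, smul_eq_mul, map_mul, mul_smul]

lemma red_single [DecidableEq I] (k : I) : red ε e (Pi.basisFun (PowerSeries A) I k) = e k := by
  rw [red_apply, Finset.sum_eq_single k]
  · simp
  · intro j _ hj
    rw [Pi.basisFun_apply, Pi.single_eq_of_ne hj, map_zero, zero_smul]
  · intro h; exact absurd (Finset.mem_univ k) h

lemma map_surj (hε : Function.Surjective ε) : Function.Surjective (PowerSeries.map ε) := by
  intro p
  choose g hg using hε
  refine ⟨PowerSeries.mk fun n => g (PowerSeries.coeff n p), ?_⟩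
  ext n
  rw [PowerSeries.coeff_map, PowerSeries.coeff_mk, hg]

lemma red_surj (hε : Function.Surjective ε) : Function.Surjective (red ε e) := by
  intro n
  choose g hg using map_surj ε hε
  refine ⟨fun k => g (e.repr n k), ?_⟩
  rw [red_apply]
  conv_rhs => rw [← e.sum_repr n]
  apply Finset.sum_congr rfl
  intro k _
  rw [hg]

lemma map_zero_iff (t : A) (ht : ∀ a, ε a = 0 ↔ ∃ a', a = t * a') (p : PowerSeries A) :
    PowerSeries.map ε p = 0 ↔ ∃ q, p = PowerSeries.C t * q := by
  constructor
  · intro h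
    have h1 : ∀ n, ∃ a', PowerSeries.coeff n p = t * a' := by
      intro n
      rw [← ht, ← PowerSeries.coeff_map, h, map_zero]
    choose g hg using h1
    refine ⟨PowerSeries.mk g, ?_⟩
    ext n
    rw [PowerSeries.coeff_C_mul, PowerSeries.coeff_mk, hg]
  · rintro ⟨q, rfl⟩
    have h0 : ε t = 0 := (ht t).2 ⟨1, by ring⟩
    rw [map_mul, PowerSeries.map_C, h0, map_zero, zero_mul]

lemma red_ker (t : A) (ht : ∀ a, ε a = 0 ↔ ∃ a', a = t * a') (v : I → PowerSeries A) :
    red ε e v = 0 ↔ ∃ w, v = (PowerSeries.C t : PowerSeries A) • w := by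
  constructor
  · intro h
    have h1 : ∀ k, PowerSeries.map ε (v k) = 0 := by
      rw [red_apply] at h
      have h2 := Fintype.linearIndependent_iff.1 e.linearIndependent _ h
      exact h2
    have h3 : ∀ k, ∃ q, v k = PowerSeries.C t * q := fun k => (map_zero_iff ε t ht (v k)).1 (h1 k)
    choose g hg using h3
    refine ⟨g, ?_⟩
    funext k
    rw [Pi.smul_apply, smul_eq_mul, hg k]
  · rintro ⟨w, rfl⟩
    have h0 : PowerSeries.map ε (PowerSeries.C t) = 0 := by
      rw [map_zero_iff ε t ht]
      exact ⟨1, by ring⟩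
    rw [red_smul, h0, zero_smul]

lemma red_intertwine [DecidableEq I] (Z : Module.End (PowerSeries A) (I → PowerSeries A))
    (z : Module.End (PowerSeries K) N)
    (h : ∀ k, red ε e (Z (Pi.basisFun (PowerSeries A) I k)) = z (e k)) (v : I → PowerSeries A) :
    red ε e (Z v) = z (red ε e v) := by
  have h1 : Z v = ∑ k, v k • Z (Pi.basisFun (PowerSeries A) I k) := by
    conv_lhs => rw [← (Pi.basisFun (PowerSeries A) I).sum_repr v]
    rw [map_sum]
    apply Finset.sum_congr rfl
    intro k _
    rw [map_smul, Pi.basisFun_repr]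
  rw [h1, map_sum, red_apply, map_sum]
  apply Finset.sum_congr rfl
  intro k _
  rw [red_smul, h, map_smul]

end

end DEFAux

theorem deform_exists {A K M N : Type} [Field K] [AddCommGroup M] [Module K M]
    [AddCommGroup N] [Module (PowerSeries K) N]
    [Module.Free (PowerSeries K) N] [Module.Finite (PowerSeries K) N]
    [CommRing A] [IsDomain A] (ε : A →+* K) (hε : Function.Surjective ε) (t : A) (ht0 : t ≠ 0)
    (ht : ∀ a, ε a = 0 ↔ ∃ a', a = t * a') (f : Fin 3 → Module.End K M) (m Q : ℕ) (hm : 1 ≤ m)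
    (hQ : 1 ≤ Q) (D : Lat f m Q N) (hrank : Module.finrank (PowerSeries K) N = m * Q)
    (a : Fin m → A) (ha : ∀ i, ε (a i) = 0) :
    ∃ (I : Type) (_ : Fintype I) (Z Y : Module.End (PowerSeries A) (I → PowerSeries A))
      (ρN : (I → PowerSeries A) →+ N) (W : I → PowerSeries A) (F : (PowerSeries A)[X][X]),
      Z * Y = Y * Z ∧
      (PowerSeries.X : PowerSeries A) • Y =
        aeval Z (∏ i : Fin m, ((X : (PowerSeries A)[X]) - C (PowerSeries.C (a i)))) ∧
      Function.Surjective ρN ∧
      (∀ u, ρN u = 0 ↔ ∃ v, u = (PowerSeries.C t : PowerSeries A) • v) ∧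
      (∀ (o : PowerSeries A) u, ρN (o • u) = PowerSeries.map ε o • ρN u) ∧
      (∀ u, ρN (Z u) = D.z (ρN u)) ∧ (∀ u, ρN (Y u) = D.y (ρN u)) ∧ ρN W = D.w ∧
      ev2 Z Y F = 0 ∧
      F.map (mapRingHom (PowerSeries.map ε)) - X ^ Q ∈
        Ideal.span {C (C (PowerSeries.X : PowerSeries K)) * X -
          C ((X : (PowerSeries K)[X]) ^ m)} := by
  classical
  have hz : ∀ u : N, ∃ u', (D.z ^ m) u = (PowerSeries.X : PowerSeries K) • u' := by
    intro u
    exact ⟨D.y u, by rw [← D.rel, LinearMap.smul_apply]⟩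
  obtain ⟨r, s, e, hs, he1, he2⟩ := adapted_basis D.z m hm hz
  have hsum : ∑ b, s b = m * Q := by
    have h1 := Module.finrank_eq_card_basis e
    rw [hrank] at h1
    rw [h1]
    simp
  have hu : ∀ b : Fin r, ∃ u : N, D.z (e ⟨b, ⟨s b - 1, by have := (hs b).1; omega⟩⟩) =
      (PowerSeries.X : PowerSeries K) • u := fun b => he2 b _ (by
        have := (hs b).1
        simp only
        omega)
  choose u hu using hu
  have hU : ∀ b : Fin r, ∃ U : (((b : Fin r) × Fin (s b)) → PowerSeries A), DEFAux.red ε e U = u b :=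
    fun b => DEFAux.red_surj ε e hε (u b)
  choose U hU using hU
  set a' : ℕ → PowerSeries A := fun i => if h : i < m then PowerSeries.C (a ⟨i, h⟩) else 0 with ha'
  have ha'0 : ∀ i, PowerSeries.map ε (a' i) = 0 := by
    intro i
    rw [ha']
    dsimp only
    split_ifs with h
    · rw [PowerSeries.map_C, ha, map_zero]
    · exact map_zero _
  have hprod : ∏ i ∈ Finset.range m, ((X : (PowerSeries A)[X]) - C (a' i)) =
      ∏ i : Fin m, ((X : (PowerSeries A)[X]) - C (PowerSeries.C (a i))) := by
    rw [Finset.prod_range]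
    apply Finset.prod_congr rfl
    intro i _
    rw [ha']
    simp
  obtain ⟨Z, Y, hc, F, δ, hZ, hY, hδm, hδd, hδ0, hF, hF0⟩ :=
    det_block (PowerSeries.X : PowerSeries A) PowerSeries.X_ne_zero m Q r hm s (fun b => (hs b).1)
      (fun b => (hs b).2) hsum a' (Pi.basisFun (PowerSeries A) ((b : Fin r) × Fin (s b))) U
  rw [hprod] at hY hF
  -- intertwining
  have hZz : ∀ v, DEFAux.red ε e (Z v) = D.z (DEFAux.red ε e v) := by
    apply DEFAux.red_intertwine
    rintro ⟨b, i⟩
    rw [hZ, map_add, DEFAux.red_smul, ha'0, zero_smul, zero_add]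
    split_ifs with h
    · rw [DEFAux.red_single, he1 b i h]
    · rw [DEFAux.red_smul, PowerSeries.map_X, hU]
      have hi : i = ⟨s b - 1, by have := (hs b).1; omega⟩ := by
        apply Fin.ext
        have := i.2
        simp only
        omega
      rw [hi, hu b]
  have hmap : (∏ i : Fin m, ((X : (PowerSeries A)[X]) - C (PowerSeries.C (a i)))).map
      (PowerSeries.map ε) = X ^ m := by
    rw [Polynomial.map_prod, Finset.prod_congr rfl (g := fun _ => (X : (PowerSeries K)[X]))]
    · simp
    · intro i _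
      rw [Polynomial.map_sub, map_X, map_C, PowerSeries.map_C, ha, map_zero, map_zero, sub_zero]
  have hYy : ∀ v, DEFAux.red ε e (Y v) = D.y (DEFAux.red ε e v) := by
    intro v
    have h1 : (PowerSeries.X : PowerSeries K) • (DEFAux.red ε e (Y v) - D.y (DEFAux.red ε e v)) = 0 := by
      rw [smul_sub, ← LinearMap.smul_apply (PowerSeries.X : PowerSeries K) D.y, D.rel]
      have h2 : (PowerSeries.X : PowerSeries K) • DEFAux.red ε e (Y v) =
          DEFAux.red ε e ((PowerSeries.X : PowerSeries A) • Y v) := by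
        rw [DEFAux.red_smul, PowerSeries.map_X]
      rw [h2, ← LinearMap.smul_apply, hY,
        red_aeval (PowerSeries.map ε) Z D.z (DEFAux.red ε e) (DEFAux.red_smul ε e) hZz, hmap,
        map_pow, aeval_X, sub_self]
    exact sub_eq_zero.1 (DetBAux.smul_eq_zero_imp s e PowerSeries.X_ne_zero h1)
  obtain ⟨W, hW⟩ := DEFAux.red_surj ε e hε D.w
  refine ⟨(b : Fin r) × Fin (s b), inferInstance, Z, Y, DEFAux.red ε e, W, F, ?_, hY,
    DEFAux.red_surj ε e hε, DEFAux.red_ker ε e t ht, DEFAux.red_smul ε e, hZz, hYy, hW, hF0, ?_⟩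
  · have h1 := (hc X).eq
    simpa using h1
  · -- the reduction of F
    have hδ : δ.map (PowerSeries.map ε) = X ^ (m * Q) := by
      apply D.pow
      · exact hδm.map _
      · rw [hδm.natDegree_map, hδd]
      · ext n
        obtain ⟨v, rfl⟩ := DEFAux.red_surj ε e hε n
        rw [← red_aeval (PowerSeries.map ε) Z D.z (DEFAux.red ε e) (DEFAux.red_smul ε e) hZz, hδ0]
        simp
    apply F0_mem (PowerSeries.X : PowerSeries K) PowerSeries.X_ne_zero
    obtain ⟨c, hcc⟩ := Ideal.mem_span_singleton.1 hF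
    rw [Ideal.mem_span_singleton]
    refine ⟨c.map (mapRingHom (PowerSeries.map ε)), ?_⟩
    have h1 := congrArg (Polynomial.map (mapRingHom (PowerSeries.map ε))) hcc
    rw [Polynomial.map_sub, Polynomial.map_mul, Polynomial.map_mul, Polynomial.map_pow,
      Polynomial.map_sub, Polynomial.map_mul, map_C, map_C, map_C, map_X, coe_mapRingHom, map_C,
      PowerSeries.map_X] at h1
    rw [hδ, hmap] at h1
    exact h1

end Pool.Agent.MPac4d2b
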