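import Mathlib
import Pool.Agent.Lib.MP_ac4d2b_ag.Defs

/-!
# MP_ac4d2b_ag: finiteness by Weierstrass division
-/

set_option autoImplicit false

open PowerSeries

namespace Pool.Agent.MPac4d2b

theorem finite_of_reduction {A MM : Type} [CommRing A] [IsLocalRing A]
    [IsAdicComplete (IsLocalRing.maximalIdeal A) A] [AddCommGroup MM] [Module A MM]
    [Module (PowerSeries A) MM] [IsScalarTower A (PowerSeries A) MM]
    [Module.Finite (PowerSeries A) MM] (t : A) (ht : t ∈ IsLocalRing.maximalIdeal A) (n : ℕ)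
    (h : ∀ u : MM, ∃ v : MM, (PowerSeries.X : PowerSeries A) ^ n • u = PowerSeries.C t • v) :
    Module.Finite A MM := by
  classical
  let φ : Module.End A⟦X⟧ MM := algebraMap A⟦X⟧ _ ((X : A⟦X⟧) ^ n)
  obtain ⟨p, hp, -, hpc, hp0⟩ :=
    LinearMap.exists_monic_and_natDegree_eq_and_coeff_mem_pow_and_aeval_eq_zero (R := A⟦X⟧) φ
      (Ideal.span {(C t : A⟦X⟧)}) (by
        rintro _ ⟨ξ, rfl⟩
        obtain ⟨η, hη⟩ := h ξ
        have : φ ξ = (C t : A⟦X⟧) • η := by
          rw [← hη]
          rfl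
        rw [this]
        exact Submodule.smul_mem_smul (Ideal.mem_span_singleton_self _) Submodule.mem_top)
  let g : A⟦X⟧ := p.eval ((X : A⟦X⟧) ^ n)
  have hgM : ∀ ξ : MM, g • ξ = 0 := by
    intro ξ
    have h1 : Polynomial.aeval φ p = algebraMap A⟦X⟧ (Module.End A⟦X⟧ MM) g := by
      rw [Polynomial.aeval_algebraMap_apply]
      rfl
    rw [h1] at hp0
    have h2 := congrArg (fun f : Module.End A⟦X⟧ MM => f ξ) hp0
    simpa [Module.algebraMap_end_apply] using h2
  -- `g` is not zero modulo the maximal ideal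
  have hgres : g.map (IsLocalRing.residue A) ≠ 0 := by
    have h1 : g.map (IsLocalRing.residue A) =
        (p.map (PowerSeries.map (IsLocalRing.residue A))).eval (X ^ n) := by
      have : (X ^ n : (IsLocalRing.ResidueField A)⟦X⟧) =
          PowerSeries.map (IsLocalRing.residue A) (X ^ n) := by simp
      rw [this, Polynomial.eval_map_apply]
    have h2 : p.map (PowerSeries.map (IsLocalRing.residue A)) = Polynomial.X ^ p.natDegree := by
      ext1 i
      rw [Polynomial.coeff_map, Polynomial.coeff_X_pow]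
      split_ifs with hi
      · rw [hi, hp.coeff_natDegree, map_one]
      · rcases lt_or_gt_of_ne hi with hi' | hi'
        · have h3 := hpc i
          obtain ⟨j, hj⟩ : ∃ j, p.natDegree - i = j + 1 := ⟨p.natDegree - i - 1, by omega⟩
          rw [hj, pow_succ] at h3
          have h4 := Ideal.mul_le_right h3
          obtain ⟨c, hc⟩ := Ideal.mem_span_singleton'.1 h4
          rw [← hc, map_mul, PowerSeries.map_C]
          have h5 : IsLocalRing.residue A t = 0 := (IsLocalRing.residue_eq_zero_iff _).2 ht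
          rw [h5, map_zero, mul_zero]
        · rw [Polynomial.coeff_eq_zero_of_natDegree_lt hi', map_zero]
    rw [h1, h2, Polynomial.eval_pow, Polynomial.eval_X, ← pow_mul]
    exact pow_ne_zero _ PowerSeries.X_ne_zero
  -- Weierstrass division
  obtain ⟨s, hs⟩ := Module.Finite.fg_top (R := A⟦X⟧) (M := MM)
  let k := ((g.map (IsLocalRing.residue A)).order).toNat
  refine ⟨(Finset.univ : Finset (Fin k × s)).image fun q => ((X : A⟦X⟧) ^ (q.1 : ℕ)) • (q.2 : MM), ?_⟩
  rw [eq_top_iff]
  rintro ξ -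
  have hξ : ξ ∈ Submodule.span A⟦X⟧ (s : Set MM) := by rw [hs]; exact Submodule.mem_top
  obtain ⟨f, -, hf⟩ := Submodule.mem_span_finset.1 hξ
  rw [← hf]
  refine Submodule.sum_mem _ fun a ha => ?_
  have hdiv := PowerSeries.eq_mul_weierstrassDiv_add_weierstrassMod (f a) hgres
  have hdeg := PowerSeries.degree_weierstrassMod_lt (f a) g
  set r := (f a) %ʷ g with hr
  have h1 : f a • a = (r : A⟦X⟧) • a := by
    conv_lhs => rw [hdiv]
    rw [add_smul, mul_smul, hgM, zero_add]
  have h2 : (r : A⟦X⟧) = ∑ i ∈ Finset.range k, (C (r.coeff i) : A⟦X⟧) * X ^ i := by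
    ext1 j
    rw [Polynomial.coeff_coe, map_sum]
    simp only [PowerSeries.coeff_C_mul, PowerSeries.coeff_X_pow, mul_ite, mul_one, mul_zero]
    rw [Finset.sum_ite_eq]
    split_ifs with hj
    · rfl
    · refine Polynomial.coeff_eq_zero_of_degree_lt (lt_of_lt_of_le hdeg ?_)
      rw [Finset.mem_range, not_lt] at hj
      exact_mod_cast hj
  rw [h1, h2, Finset.sum_smul]
  refine Submodule.sum_mem _ fun i hi => ?_
  have h3 : ((C (r.coeff i) : A⟦X⟧) * X ^ i) • a = (r.coeff i) • ((X : A⟦X⟧) ^ i • a) := by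
    rw [mul_smul, ← PowerSeries.algebraMap_eq, algebraMap_smul]
  rw [h3]
  refine Submodule.smul_mem _ _ (Submodule.subset_span ?_)
  simp only [Finset.coe_image, Finset.coe_univ, Set.image_univ, Set.mem_range]
  exact ⟨(⟨i, Finset.mem_range.1 hi⟩, ⟨a, ha⟩), rfl⟩

end Pool.Agent.MPac4d2b
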