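import Mathlib
import Pool.Agent.Lib.MP_ac4d2b_ag.Defs
import Pool.Agent.Lib.MP_ac4d2b_ag.Core
import Pool.Agent.Lib.MP_ac4d2b_ag.Fin
import Pool.Agent.Lib.MP_ac4d2b_ag.DEF

/-!
# MP_ac4d2b_ag: existence of the flat family
-/

set_option autoImplicit false

open Polynomial

namespace Pool.Agent.MPac4d2b

namespace FamxAux

/-- the kernel of the coefficientwise reduction of power series -/
theorem map_eq_zero_iff {A K : Type} [CommRing A] [CommRing K] (ε : A →+* K) (t : A)
    (ht : ∀ a, ε a = 0 ↔ ∃ a', a = t * a') (o : PowerSeries A) :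
    PowerSeries.map ε o = 0 ↔ ∃ o', o = PowerSeries.C t * o' := by
  constructor
  · intro h
    have h1 : ∀ n, ∃ a', PowerSeries.coeff n o = t * a' := by
      intro n
      have h2 := congrArg (PowerSeries.coeff n) h
      rw [PowerSeries.coeff_map, map_zero] at h2
      exact (ht _).1 h2
    choose c hc using h1
    refine ⟨PowerSeries.mk c, ?_⟩
    ext n
    rw [PowerSeries.coeff_C_mul, PowerSeries.coeff_mk, hc]
  · rintro ⟨o', rfl⟩
    rw [map_mul, PowerSeries.map_C, (ht t).2 ⟨1, (mul_one t).symm⟩, map_zero, zero_mul]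

/-- the submodule generated by `W` -/
noncomputable def cyc {O NA : Type} [CommRing O] [AddCommGroup NA] [Module O NA] (Z Y : Module.End O NA)
    (hZY : Z * Y = Y * Z) (W : NA) : Submodule O NA where
  carrier := {u | ∃ p : O[X][X], ev2 Z Y p W = u}
  add_mem' := by
    rintro _ _ ⟨p, rfl⟩ ⟨q, rfl⟩
    exact ⟨p + q, by rw [ev2_add, LinearMap.add_apply]⟩
  zero_mem' := ⟨0, by rw [ev2_zero, LinearMap.zero_apply]⟩
  smul_mem' := by
    rintro c _ ⟨p, rfl⟩
    refine ⟨C (C c) * p, ?_⟩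
    rw [ev2_mul Z Y hZY, ev2_C, aeval_C, Module.End.mul_apply, Module.algebraMap_end_apply]

theorem mem_cyc {O NA : Type} [CommRing O] [AddCommGroup NA] [Module O NA] (Z Y : Module.End O NA)
    (hZY : Z * Y = Y * Z) (W u : NA) : u ∈ cyc Z Y hZY W ↔ ∃ p : O[X][X], ev2 Z Y p W = u := Iff.rfl

theorem Z_mem_cyc {O NA : Type} [CommRing O] [AddCommGroup NA] [Module O NA] (Z Y : Module.End O NA)
    (hZY : Z * Y = Y * Z) (W u : NA) (hu : u ∈ cyc Z Y hZY W) : Z u ∈ cyc Z Y hZY W := by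
  obtain ⟨p, rfl⟩ := hu
  refine ⟨C X * p, ?_⟩
  rw [ev2_mul Z Y hZY, ev2_C, aeval_X, Module.End.mul_apply]

theorem Y_mem_cyc {O NA : Type} [CommRing O] [AddCommGroup NA] [Module O NA] (Z Y : Module.End O NA)
    (hZY : Z * Y = Y * Z) (W u : NA) (hu : u ∈ cyc Z Y hZY W) : Y u ∈ cyc Z Y hZY W := by
  obtain ⟨p, rfl⟩ := hu
  refine ⟨X * p, ?_⟩
  rw [ev2_mul Z Y hZY, ev2_X, Module.End.mul_apply]


/-- the coefficientwise reduction is surjective -/
theorem map_surj {A K : Type} [CommRing A] [CommRing K] (ε : A →+* K) (hε : Function.Surjective ε) :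
    Function.Surjective (PowerSeries.map ε) := by
  intro q
  have h1 : ∀ n, ∃ b, ε b = PowerSeries.coeff n q := fun n => hε _
  choose b hb using h1
  exact ⟨PowerSeries.mk b, by ext n; rw [PowerSeries.coeff_map, PowerSeries.coeff_mk, hb]⟩

theorem map_eq_zero_iff_C {A : Type} [CommRing A] (t : A) (h : (PowerSeries.C t : PowerSeries A) = 0) :
    t = 0 := by
  have := congrArg (PowerSeries.constantCoeff) h
  simpa using this

/-- base change of evaluations -/
theorem aeval_base {A O MM NA : Type} [CommRing A] [CommRing O] [Algebra A O] [AddCommGroup MM]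
    [Module O MM] [Module A MM] [IsScalarTower A O MM] [AddCommGroup NA] [Module O NA]
    (q : NA →ₗ[O] MM) (Z : Module.End O NA) (gz : Module.End A MM)
    (hgz : ∀ u, gz (q u) = q (Z u)) (r : A[X]) (u : NA) :
    aeval gz r (q u) = q (aeval Z (r.map (algebraMap A O)) u) := by
  have hpow : ∀ (n : ℕ) (u : NA), (gz ^ n) (q u) = q ((Z ^ n) u) := by
    intro n
    induction n with
    | zero => intro u; simp
    | succ n ih => intro u; rw [pow_succ, pow_succ, Module.End.mul_apply, Module.End.mul_apply, hgz, ih]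
  induction r using Polynomial.induction_on' with
  | add p r hp hr =>
    rw [map_add, LinearMap.add_apply, hp, hr, Polynomial.map_add, map_add, LinearMap.add_apply, map_add]
  | monomial n b =>
    rw [map_monomial, aeval_monomial, aeval_monomial, Module.End.mul_apply, Module.End.mul_apply,
      Module.algebraMap_end_apply, Module.algebraMap_end_apply, hpow, map_smul, algebraMap_smul]

/-- the family, for a given quotient `MM` of `NA` -/
theorem family_of_quot {A K M N NA MM : Type} [Field K] [AddCommGroup M] [Module K M]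
    [AddCommGroup N] [Module (PowerSeries K) N]
    [CommRing A] [IsDomain A] [IsLocalRing A] [IsAdicComplete (IsLocalRing.maximalIdeal A) A]
    [AddCommGroup NA] [Module (PowerSeries A) NA] [Module.Finite (PowerSeries A) NA]
    [AddCommGroup MM] [Module (PowerSeries A) MM] [Module A MM] [IsScalarTower A (PowerSeries A) MM]
    (ε : A →+* K) (hε : Function.Surjective ε) (t : A)
    (ht : ∀ a, ε a = 0 ↔ ∃ a', a = t * a') (f : Fin 3 → Module.End K M)
    (hnil : IsNilpotent (f 0)) (m Q : ℕ) (D : Lat f m Q N)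
    (a : Fin m → A) (ha : ∀ i, ε (a i) = 0)
    (htf : ∀ u : NA, (PowerSeries.C t : PowerSeries A) • u = 0 → u = 0)
    (Z Y : Module.End (PowerSeries A) NA) (ρN : NA →+ N) (W : NA) (F : (PowerSeries A)[X][X])
    (hZY : Z * Y = Y * Z)
    (hXY : (PowerSeries.X : PowerSeries A) • Y =
        aeval Z (∏ i : Fin m, ((X : (PowerSeries A)[X]) - C (PowerSeries.C (a i)))))
    (hsurj : Function.Surjective ρN)
    (hker : ∀ u, ρN u = 0 ↔ ∃ v, u = (PowerSeries.C t : PowerSeries A) • v)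
    (hsmul : ∀ (o : PowerSeries A) u, ρN (o • u) = PowerSeries.map ε o • ρN u)
    (hZ : ∀ u, ρN (Z u) = D.z (ρN u)) (hY : ∀ u, ρN (Y u) = D.y (ρN u)) (hW : ρN W = D.w)
    (hF : ev2 Z Y F = 0)
    (hF0 : F.map (mapRingHom (PowerSeries.map ε)) - X ^ Q ∈
        Ideal.span {C (C (PowerSeries.X : PowerSeries K)) * X -
          C ((X : (PowerSeries K)[X]) ^ m)})
    (q : NA →ₗ[PowerSeries A] MM) (hq : Function.Surjective q)
    (hqk : ∀ u, q u = 0 ↔ ∃ p : (PowerSeries A)[X][X], ev2 Z Y p W = u)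
    (gY gZ : Module.End (PowerSeries A) MM) (hgY : ∀ u, gY (q u) = q (Y u))
    (hgZ : ∀ u, gZ (q u) = q (Z u)) (ρ : MM →+ M) (hρ : ∀ u, ρ (q u) = D.π (ρN u)) :
    Module.Finite A MM ∧ ∃ g : Fin 3 → Module.End A MM,
      Comm3 g ∧ g 0 * g 1 = aeval (g 2) (∏ i : Fin m, ((X : A[X]) - C (a i))) ∧
      Function.Surjective ρ ∧ (∀ u, ρ u = 0 ↔ ∃ v, u = t • v) ∧
      (∀ (c : A) u, ρ (c • u) = ε c • ρ u) ∧ (∀ i u, ρ (g i u) = f i (ρ u)) ∧
      (∀ u : MM, t • u = 0 → u = 0) := by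
  have hCt : ∀ (c : A) (u : MM), (PowerSeries.C c : PowerSeries A) • u = c • u := by
    intro c u
    rw [← PowerSeries.algebraMap_eq, algebraMap_smul]
  have hred := red_ev2 (PowerSeries.map ε) Z Y D.z D.y ρN hsmul hZ hY
  have hρker : ∀ u, ρ u = 0 ↔ ∃ v, u = t • v := by
    intro u
    obtain ⟨ξ, rfl⟩ := hq u
    rw [hρ]
    constructor
    · intro h
      obtain ⟨p, hp⟩ := (D.ker _).1 h
      have hs : Function.Surjective (mapRingHom (mapRingHom (PowerSeries.map ε)) :
          (PowerSeries A)[X][X] →+* (PowerSeries K)[X][X]) :=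
        Polynomial.map_surjective _ (Polynomial.map_surjective _ (map_surj ε hε))
      obtain ⟨p', rfl⟩ := hs p
      have h2 : ρN (ξ - ev2 Z Y p' W) = 0 := by
        rw [map_sub, hred, hW, sub_eq_zero]
        exact hp.symm
      obtain ⟨v, hv⟩ := (hker _).1 h2
      refine ⟨q v, ?_⟩
      rw [← hCt, ← map_smul, ← hv, map_sub, (hqk _).2 ⟨p', rfl⟩, sub_zero]
    · rintro ⟨v, hv⟩
      obtain ⟨η, rfl⟩ := hq v
      rw [← hρ, hv, ← hCt, ← map_smul, hρ, (hker _).2 ⟨η, rfl⟩, map_zero]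
  let gx : Module.End A MM :=
    (algebraMap (PowerSeries A) (Module.End (PowerSeries A) MM) PowerSeries.X).restrictScalars A
  let gy : Module.End A MM := gY.restrictScalars A
  let gz : Module.End A MM := gZ.restrictScalars A
  have hgx : ∀ u : NA, gx (q u) = q ((PowerSeries.X : PowerSeries A) • u) := by
    intro u
    rw [map_smul]
    rfl
  have hgy : ∀ u : NA, gy (q u) = q (Y u) := hgY
  have hgz : ∀ u : NA, gz (q u) = q (Z u) := hgZ
  let g : Fin 3 → Module.End A MM := ![gx, gy, gz]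
  have hg0 : g 0 = gx := rfl
  have hg1 : g 1 = gy := rfl
  have hg2 : g 2 = gz := rfl
  have hρg0 : ∀ u, ρ (gx u) = f 0 (ρ u) := by
    intro u
    obtain ⟨ξ, rfl⟩ := hq u
    rw [hgx, hρ, hρ, hsmul, PowerSeries.map_X, D.πx]
  have hρg1 : ∀ u, ρ (gy u) = f 1 (ρ u) := by
    intro u
    obtain ⟨ξ, rfl⟩ := hq u
    rw [hgy, hρ, hρ, hY, D.πy]
  have hρg2 : ∀ u, ρ (gz u) = f 2 (ρ u) := by
    intro u
    obtain ⟨ξ, rfl⟩ := hq u
    rw [hgz, hρ, hρ, hZ, D.πz]
  have hρg : ∀ i u, ρ (g i u) = f i (ρ u) := by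
    intro i
    match i with
    | 0 => exact hρg0
    | 1 => exact hρg1
    | 2 => exact hρg2
  have hfin : Module.Finite A MM := by
    haveI : Module.Finite (PowerSeries A) MM := Module.Finite.of_surjective q hq
    obtain ⟨n, hn⟩ := hnil
    refine finite_of_reduction t ?_ n ?_
    · rw [IsLocalRing.mem_maximalIdeal, mem_nonunits_iff]
      intro hu
      have h1 : ε t = 0 := (ht t).2 ⟨1, (mul_one t).symm⟩
      have h2 := hu.map ε
      rw [h1] at h2
      exact not_isUnit_zero h2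
    · intro u
      have h1 : ∀ (n : ℕ) (u : MM),
          ρ ((PowerSeries.X : PowerSeries A) ^ n • u) = (f 0 ^ n) (ρ u) := by
        intro n
        induction n with
        | zero => intro u; simp
        | succ n ih =>
          intro u
          rw [pow_succ', pow_succ', mul_smul, Module.End.mul_apply, ← ih]
          exact hρg0 _
      have h2 : ρ ((PowerSeries.X : PowerSeries A) ^ n • u) = 0 := by
        rw [h1, hn, LinearMap.zero_apply]
      obtain ⟨v, hv⟩ := (hρker _).1 h2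
      exact ⟨v, by rw [hv, hCt]⟩
  have hxy : gx * gy = gy * gx := by
    ext1 u
    obtain ⟨ξ, rfl⟩ := hq u
    rw [Module.End.mul_apply, Module.End.mul_apply, hgy, hgx, hgx, hgy, map_smul Y]
  have hxz : gx * gz = gz * gx := by
    ext1 u
    obtain ⟨ξ, rfl⟩ := hq u
    rw [Module.End.mul_apply, Module.End.mul_apply, hgz, hgx, hgx, hgz, map_smul Z]
  have hyz : gy * gz = gz * gy := by
    ext1 u
    obtain ⟨ξ, rfl⟩ := hq u
    rw [Module.End.mul_apply, Module.End.mul_apply, hgz, hgy, hgy, hgz, ← Module.End.mul_apply Y Z,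
      ← Module.End.mul_apply Z Y, hZY]
  refine ⟨hfin, g, ?_, ?_, ?_, hρker, ?_, hρg, ?_⟩
  · intro i j
    match i, j with
    | 0, 0 => rfl
    | 0, 1 => exact hxy
    | 0, 2 => exact hxz
    | 1, 0 => exact hxy.symm
    | 1, 1 => rfl
    | 1, 2 => exact hyz
    | 2, 0 => exact hxz.symm
    | 2, 1 => exact hyz.symm
    | 2, 2 => rfl
  · rw [hg0, hg1, hg2]
    ext1 u
    obtain ⟨ξ, rfl⟩ := hq u
    have h4 : (∏ i : Fin m, ((X : A[X]) - C (a i))).map (algebraMap A (PowerSeries A)) =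
        ∏ i : Fin m, ((X : (PowerSeries A)[X]) - C (PowerSeries.C (a i))) := by
      rw [Polynomial.map_prod]
      simp [PowerSeries.algebraMap_eq]
    rw [Module.End.mul_apply, aeval_base q Z gz hgz, h4, ← hXY, hgy, hgx, LinearMap.smul_apply]
  · intro u
    obtain ⟨n, hn⟩ := D.surj u
    obtain ⟨ξ, hξ⟩ := hsurj n
    exact ⟨q ξ, by rw [hρ, hξ, hn]⟩
  · intro c u
    obtain ⟨ξ, rfl⟩ := hq u
    rw [← hCt, ← map_smul, hρ, hρ, hsmul, PowerSeries.map_C, D.πC]
  · intro u hu
    obtain ⟨ξ, rfl⟩ := hq u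
    rw [← hCt, ← map_smul, hqk] at hu
    obtain ⟨p, hp⟩ := hu
    rw [hqk]
    obtain ⟨p', hp'⟩ := flat_core (PowerSeries.map ε) (map_surj ε hε) (PowerSeries.C t) PowerSeries.X
      (map_eq_zero_iff ε t ht) htf Z Y D.z D.y hZY ρN hsmul hZ hY W m Q (by
        intro p hp
        rw [hW] at hp
        rw [PowerSeries.map_X]
        exact D.kp p hp)
      (∏ i : Fin m, ((X : (PowerSeries A)[X]) - C (PowerSeries.C (a i)))) (by
        rw [Polynomial.map_prod]
        simp [ha]) hXY F hF (by rw [PowerSeries.map_X]; exact hF0) ξ p hp.symm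
    exact ⟨p', hp'.symm⟩

end FamxAux

open FamxAux

theorem family_exists {A K M N : Type} [Field K] [AddCommGroup M] [Module K M]
    [FiniteDimensional K M] [AddCommGroup N] [Module (PowerSeries K) N]
    [Module.Free (PowerSeries K) N] [Module.Finite (PowerSeries K) N]
    [CommRing A] [IsDomain A] [IsLocalRing A] [IsAdicComplete (IsLocalRing.maximalIdeal A) A]
    (ε : A →+* K) (hε : Function.Surjective ε) (t : A) (ht0 : t ≠ 0)
    (ht : ∀ a, ε a = 0 ↔ ∃ a', a = t * a') (f : Fin 3 → Module.End K M)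
    (hnil : IsNilpotent (f 0)) (m Q : ℕ) (hm : 1 ≤ m)
    (hQ : 1 ≤ Q) (D : Lat f m Q N) (hrank : Module.finrank (PowerSeries K) N = m * Q)
    (a : Fin m → A) (ha : ∀ i, ε (a i) = 0) :
    ∃ (MM : Type) (_ : AddCommGroup MM) (_ : Module A MM) (_ : Module.Finite A MM)
      (g : Fin 3 → Module.End A MM) (ρ : MM →+ M),
      Comm3 g ∧ g 0 * g 1 = aeval (g 2) (∏ i : Fin m, ((X : A[X]) - C (a i))) ∧
      Function.Surjective ρ ∧ (∀ u, ρ u = 0 ↔ ∃ v, u = t • v) ∧
      (∀ (c : A) u, ρ (c • u) = ε c • ρ u) ∧ (∀ i u, ρ (g i u) = f i (ρ u)) ∧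
      (∀ u : MM, t • u = 0 → u = 0) := by
  obtain ⟨I, hI, Z, Y, ρN, W, F, hZY, hXY, hsurj, hker, hsmul, hZ, hY, hW, hF, hF0⟩ :=
    deform_exists ε hε t ht0 ht f m Q hm hQ D hrank a ha
  have htf : ∀ u : I → PowerSeries A, (PowerSeries.C t : PowerSeries A) • u = 0 → u = 0 := by
    intro u hu
    funext i
    have h1 := congrFun hu i
    rw [Pi.smul_apply, smul_eq_mul, Pi.zero_apply, mul_eq_zero] at h1
    rcases h1 with h1 | h1
    · exact absurd ((map_eq_zero_iff_C t h1)) ht0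
    · exact h1
  have hmem : ∀ u ∈ (cyc Z Y hZY W).toAddSubgroup, (D.π.comp ρN) u = 0 := by
    rintro _ ⟨p, rfl⟩
    rw [AddMonoidHom.comp_apply, red_ev2 (PowerSeries.map ε) Z Y D.z D.y ρN hsmul hZ hY, hW]
    exact (D.ker _).2 ⟨_, rfl⟩
  obtain ⟨hfin, g, h1, h2, h3, h4, h5, h6, h7⟩ := family_of_quot (MM := (I → PowerSeries A) ⧸ (cyc Z Y hZY W))
    ε hε t ht f hnil m Q D a ha htf Z Y ρN W F hZY hXY hsurj hker hsmul hZ hY hW hF hF0
    (cyc Z Y hZY W).mkQ (Submodule.mkQ_surjective _)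
    (fun u => by rw [Submodule.mkQ_apply, Submodule.Quotient.mk_eq_zero]; exact Iff.rfl)
    ((cyc Z Y hZY W).mapQ (cyc Z Y hZY W) Y (fun u hu => Y_mem_cyc Z Y hZY W u hu))
    ((cyc Z Y hZY W).mapQ (cyc Z Y hZY W) Z (fun u hu => Z_mem_cyc Z Y hZY W u hu))
    (fun u => rfl) (fun u => rfl)
    (QuotientAddGroup.lift (cyc Z Y hZY W).toAddSubgroup (D.π.comp ρN) hmem) (fun u => rfl)
  exact ⟨_, inferInstance, inferInstance, hfin, g, _, h1, h2, h3, h4, h5, h6, h7⟩

end Pool.Agent.MPac4d2b
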