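import Mathlib
import Pool.Agent.Lib.MP_ac4d2b_ag.Defs
import Pool.Agent.Lib.MP_ac4d2b_ag.Core

/-!
# MP_ac4d2b_ag: the lattice
-/

set_option autoImplicit false

open Polynomial

namespace Pool.Agent.MPac4d2b

namespace LatAux

section EvNil

variable {K R : Type} [Field K] [CommRing R] [Algebra K R]

theorem aeval_trunc (a : R) (n : ℕ) (ha : a ^ n = 0) (p : K[X]) :
    aeval a (PowerSeries.trunc n (p : PowerSeries K)) = aeval a p := by
  have hN1 : (PowerSeries.trunc n (p : PowerSeries K)).natDegree < n + p.natDegree + 1 := by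
    have h1 : (PowerSeries.trunc n (p : PowerSeries K)).natDegree ≤ p.natDegree := by
      rw [Polynomial.natDegree_le_iff_coeff_eq_zero]
      intro k hk
      rw [PowerSeries.coeff_trunc]
      split_ifs
      · rw [Polynomial.coeff_coe, Polynomial.coeff_eq_zero_of_natDegree_lt hk]
      · rfl
    omega
  rw [aeval_eq_sum_range' hN1, aeval_eq_sum_range' (p := p) (n := n + p.natDegree + 1) (by omega)]
  refine Finset.sum_congr rfl fun k _ => ?_
  rw [PowerSeries.coeff_trunc]
  split_ifs with hk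
  · rw [Polynomial.coeff_coe]
  · obtain ⟨l, rfl⟩ := Nat.exists_eq_add_of_le (not_lt.1 hk)
    rw [pow_add, ha, zero_mul, smul_zero, smul_zero]

/-- evaluation of power series at a nilpotent element -/
noncomputable def evNil (a : R) (n : ℕ) (ha : a ^ (n + 1) = 0) : PowerSeries K →+* R where
  toFun c := aeval a (PowerSeries.trunc (n + 1) c)
  map_one' := by rw [PowerSeries.trunc_one, map_one]
  map_zero' := by rw [map_zero, map_zero]
  map_add' c d := by rw [map_add, map_add]
  map_mul' c d := by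
    rw [← PowerSeries.trunc_trunc_mul_trunc, ← Polynomial.coe_mul, aeval_trunc a (n + 1) ha, map_mul]

theorem evNil_apply (a : R) (n : ℕ) (ha : a ^ (n + 1) = 0) (c : PowerSeries K) :
    evNil a n ha c = ∑ i ∈ Finset.range (n + 1), PowerSeries.coeff i c • a ^ i := by
  have h1 : (PowerSeries.trunc (n + 1) c).natDegree < n + 1 := by
    rw [Nat.lt_succ_iff, Polynomial.natDegree_le_iff_coeff_eq_zero]
    intro k hk
    rw [PowerSeries.coeff_trunc, if_neg (by omega)]
  change aeval a (PowerSeries.trunc (n + 1) c) = _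
  rw [aeval_eq_sum_range' h1]
  refine Finset.sum_congr rfl fun k hk => ?_
  rw [PowerSeries.coeff_trunc, if_pos (Finset.mem_range.1 hk)]

theorem evNil_X (a : R) (n : ℕ) (ha : a ^ (n + 1) = 0) :
    evNil a n ha (PowerSeries.X : PowerSeries K) = a := by
  change aeval a (PowerSeries.trunc (n + 1) (PowerSeries.X : PowerSeries K)) = a
  rw [← Polynomial.coe_X, aeval_trunc a (n + 1) ha, aeval_X]

theorem evNil_C (a : R) (n : ℕ) (ha : a ^ (n + 1) = 0) (c : K) :
    evNil a n ha (PowerSeries.C c) = algebraMap K R c := by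
  change aeval a (PowerSeries.trunc (n + 1) (PowerSeries.C c : PowerSeries K)) = _
  rw [PowerSeries.trunc_C, aeval_C]

end EvNil

section Ops

variable {P : Type} [CommRing P]

/-- the operator `z` -/
noncomputable def zOp (x : P) (m : ℕ) : Module.End P (ℕ → P) where
  toFun g := fun j => x ^ ((j + 1) / m - j / m) * g (j + 1)
  map_add' g h := by funext j; simp [mul_add]
  map_smul' c g := by funext j; simp; ring

/-- the operator `y` -/
def yOp (m : ℕ) : Module.End P (ℕ → P) where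
  toFun g := fun j => g (j + m)
  map_add' g h := rfl
  map_smul' c g := rfl

theorem zOp_apply (x : P) (m : ℕ) (g : ℕ → P) (j : ℕ) :
    zOp x m g j = x ^ ((j + 1) / m - j / m) * g (j + 1) := rfl

theorem yOp_apply (m : ℕ) (g : ℕ → P) (j : ℕ) : yOp m g j = g (j + m) := rfl

theorem zOp_pow (x : P) (m k : ℕ) (g : ℕ → P) (j : ℕ) :
    (zOp x m ^ k) g j = x ^ ((j + k) / m - j / m) * g (j + k) := by
  induction k generalizing g with
  | zero => simp
  | succ k ih =>
    rw [pow_succ, Module.End.mul_apply, ih, zOp_apply, ← mul_assoc, ← pow_add]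
    have h1 : j / m ≤ (j + k) / m := Nat.div_le_div_right (by omega)
    have h2 : (j + k) / m ≤ (j + k + 1) / m := Nat.div_le_div_right (by omega)
    have h3 : (j + k) / m - j / m + ((j + k + 1) / m - (j + k) / m) = (j + (k + 1)) / m - j / m := by
      rw [← add_assoc j k 1]
      omega
    rw [h3, add_assoc]

theorem yOp_pow (m k : ℕ) (g : ℕ → P) (j : ℕ) : (yOp (P := P) m ^ k) g j = g (j + m * k) := by
  induction k generalizing g with
  | zero => simp
  | succ k ih =>
    rw [pow_succ, Module.End.mul_apply, ih, yOp_apply]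
    congr 1
    ring

theorem ops_comm (x : P) (m : ℕ) (hm : 1 ≤ m) : zOp x m * yOp m = yOp m * zOp x m := by
  ext g j
  rw [Module.End.mul_apply, Module.End.mul_apply, zOp_apply, yOp_apply, yOp_apply, zOp_apply]
  have h1 : (j + m + 1) / m = (j + 1) / m + 1 := by
    rw [show j + m + 1 = (j + 1) + m by ring, Nat.add_div_right _ (by omega)]
  have h2 : (j + m) / m = j / m + 1 := Nat.add_div_right _ (by omega)
  rw [h1, h2, Nat.add_sub_add_right, show j + 1 + m = j + m + 1 by ring]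

theorem ops_rel (x : P) (m : ℕ) (hm : 1 ≤ m) : x • yOp (P := P) m = zOp x m ^ m := by
  ext g j
  rw [zOp_pow, Nat.add_div_right _ (by omega), Nat.add_sub_cancel_left, pow_one]
  rfl

/-- monomials at index `j` -/
theorem ev2_mon (x : P) (m : ℕ) (hm : 1 ≤ m) (q i : ℕ) (g : ℕ → P) (j : ℕ) :
    ev2 (zOp x m) (yOp m) (X ^ q * C (X ^ i) : P[X][X]) g j =
      x ^ ((j + m * q + i) / m - (j + m * q) / m) * g (j + m * q + i) := by
  rw [ev2_mul _ _ (ops_comm x m hm), ev2_X_pow, ev2_C, aeval_X_pow, Module.End.mul_apply, yOp_pow, zOp_pow]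

/-- the coefficient functionals -/
theorem ev2_mon_zero (x : P) (m : ℕ) (hm : 1 ≤ m) (k : ℕ) (g : ℕ → P) :
    ev2 (zOp x m) (yOp m) (X ^ (k / m) * C (X ^ (k % m)) : P[X][X]) g 0 = g k := by
  rw [ev2_mon x m hm]
  have h1 : 0 + m * (k / m) + k % m = k := by rw [zero_add]; exact Nat.div_add_mod k m
  have h2 : (0 + m * (k / m)) / m = k / m := by
    rw [zero_add, Nat.mul_div_cancel_left _ (by omega)]
  rw [h1, h2, Nat.sub_self, pow_zero, one_mul]

/-- monomials applied to the generator -/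
theorem ev2_mon_single (x : P) (m Q : ℕ) (hm : 1 ≤ m) (k : ℕ) (hk : k < m * Q) :
    ev2 (zOp x m) (yOp m) (X ^ (k / m) * C (X ^ (k % m)) : P[X][X])
      (Pi.single (m * Q - 1) 1) = Pi.single (m * Q - 1 - k) 1 := by
  funext j
  rw [ev2_mon x m hm]
  have h1 : j + m * (k / m) + k % m = j + k := by rw [add_assoc, Nat.div_add_mod k m]
  rw [h1]
  by_cases hj : j + k = m * Q - 1
  · have hj' : j = m * Q - 1 - k := by omega
    rw [hj, Pi.single_eq_same, hj', Pi.single_eq_same, mul_one, ← hj']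
    have h2 : (m * Q - 1) / m = Q - 1 := by
      rcases Nat.exists_eq_succ_of_ne_zero (n := Q) (by rintro rfl; simp at hk) with ⟨Q', rfl⟩
      rw [Nat.mul_succ, Nat.succ_sub_one, show m * Q' + m - 1 = (m - 1) + m * Q' by omega,
        Nat.add_mul_div_left _ _ (by omega), Nat.div_eq_of_lt (by omega), zero_add]
    have h3 : (j + m * (k / m)) / m = Q - 1 := by
      have h4 : j + m * (k / m) = m * Q - 1 - k % m := by
        have := Nat.div_add_mod k m
        omega
      have h5 : k % m < m := Nat.mod_lt _ (by omega)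
      rcases Nat.exists_eq_succ_of_ne_zero (n := Q) (by rintro rfl; simp at hk) with ⟨Q', rfl⟩
      rw [h4, Nat.mul_succ, Nat.succ_sub_one, show m * Q' + m - 1 - k % m = (m - 1 - k % m) + m * Q' by omega,
        Nat.add_mul_div_left _ _ (by omega), Nat.div_eq_of_lt (by omega), zero_add]
    rw [h2, h3, Nat.sub_self, pow_zero]
  · have hj' : j ≠ m * Q - 1 - k := by omega
    rw [Pi.single_eq_of_ne hj, Pi.single_eq_of_ne hj', mul_zero]

/-- reduction of polynomials modulo `(y ^ Q, x y - z ^ m)` -/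
theorem reduce_mod (x : P) (m Q : ℕ) (hm : 1 ≤ m) (p : P[X][X]) :
    ∃ c : ℕ → P, p - ∑ k ∈ Finset.range (m * Q), C (C (c k)) * (X ^ (k / m) * C (X ^ (k % m))) ∈
      Ideal.span {(X : P[X][X]) ^ Q, C (C x) * X - C (X ^ m)} := by
  set I : Ideal P[X][X] := Ideal.span {(X : P[X][X]) ^ Q, C (C x) * X - C (X ^ m)} with hI
  have hadd : ∀ p q : P[X][X],
      (∃ c : ℕ → P, p - ∑ k ∈ Finset.range (m * Q), C (C (c k)) * (X ^ (k / m) * C (X ^ (k % m))) ∈ I) →
      (∃ c : ℕ → P, q - ∑ k ∈ Finset.range (m * Q), C (C (c k)) * (X ^ (k / m) * C (X ^ (k % m))) ∈ I) →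
      (∃ c : ℕ → P, p + q - ∑ k ∈ Finset.range (m * Q),
        C (C (c k)) * (X ^ (k / m) * C (X ^ (k % m))) ∈ I) := by
    rintro p q ⟨c, hc⟩ ⟨d, hd⟩
    refine ⟨c + d, ?_⟩
    have h1 : p + q - ∑ k ∈ Finset.range (m * Q), C (C ((c + d) k)) * (X ^ (k / m) * C (X ^ (k % m))) =
        (p - ∑ k ∈ Finset.range (m * Q), C (C (c k)) * (X ^ (k / m) * C (X ^ (k % m)))) +
        (q - ∑ k ∈ Finset.range (m * Q), C (C (d k)) * (X ^ (k / m) * C (X ^ (k % m)))) := by
      simp only [Pi.add_apply, map_add, add_mul, Finset.sum_add_distrib]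
      ring
    rw [h1]
    exact I.add_mem hc hd
  have hmon : ∀ (n k : ℕ) (b : P), ∃ c : ℕ → P, C (C b) * (X ^ n * C (X ^ k)) -
      ∑ k ∈ Finset.range (m * Q), C (C (c k)) * (X ^ (k / m) * C (X ^ (k % m))) ∈ I := by
    intro n k b
    -- `z ^ k = x ^ (k / m) y ^ (k / m) z ^ (k % m)`
    have h1 : C (C b) * (X ^ n * C (X ^ k)) -
        C (C (b * x ^ (k / m))) * (X ^ (n + k / m) * C (X ^ (k % m))) ∈ I := by
      have h2 : (C (X ^ m) : P[X][X]) ^ (k / m) - (C (C x) * X) ^ (k / m) ∈ I := by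
        have h3 : (C (X ^ m) : P[X][X]) - (C (C x) * X) ∈ I := by
          rw [← neg_sub]
          exact I.neg_mem (Ideal.subset_span (by simp))
        exact I.mem_of_dvd (sub_dvd_pow_sub_pow _ _ _) h3
      have h4 : C (C b) * (X ^ n * C (X ^ k)) -
          C (C (b * x ^ (k / m))) * (X ^ (n + k / m) * C (X ^ (k % m))) =
          (C (C b) * X ^ n * C (X ^ (k % m))) *
            ((C (X ^ m) : P[X][X]) ^ (k / m) - (C (C x) * X) ^ (k / m)) := by
        have h5 : (X : P[X]) ^ k = (X ^ m) ^ (k / m) * X ^ (k % m) := by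
          rw [← pow_mul, ← pow_add, Nat.div_add_mod]
        conv_lhs => rw [h5]
        simp only [map_mul, map_pow, mul_pow, pow_add]
        ring
      rw [h4]
      exact I.mul_mem_left _ h2
    rcases lt_or_ge (n + k / m) Q with hlt | hge
    · have hkm : k % m < m := Nat.mod_lt _ (by omega)
      have hj : m * (n + k / m) + k % m < m * Q := by
        have : m * (n + k / m) + m ≤ m * Q := by
          rw [← Nat.mul_succ]
          exact Nat.mul_le_mul_left _ hlt
        omega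
      refine ⟨Pi.single (m * (n + k / m) + k % m) (b * x ^ (k / m)), ?_⟩
      rw [Finset.sum_eq_single_of_mem _ (Finset.mem_range.2 hj)]
      · rw [Pi.single_eq_same, Nat.mul_add_div (by omega), Nat.div_eq_of_lt hkm, add_zero,
          Nat.mul_add_mod, Nat.mod_eq_of_lt hkm]
        exact h1
      · intro l _ hl
        rw [Pi.single_eq_of_ne hl, map_zero, map_zero, zero_mul]
    · refine ⟨0, ?_⟩
      have h6 : C (C (b * x ^ (k / m))) * (X ^ (n + k / m) * C (X ^ (k % m))) ∈ I := by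
        obtain ⟨l, hl⟩ := Nat.exists_eq_add_of_le hge
        rw [hl, pow_add]
        have : (C (C (b * x ^ (k / m))) * (X ^ Q * X ^ l * C (X ^ (k % m))) : P[X][X]) =
            (C (C (b * x ^ (k / m))) * (X ^ l * C (X ^ (k % m)))) * X ^ Q := by ring
        rw [this]
        exact I.mul_mem_left _ (Ideal.subset_span (by simp))
      have h7 := I.add_mem h1 h6
      simpa using h7
  induction p using Polynomial.induction_on' with
  | add p q hp hq => exact hadd p q hp hq
  | monomial n r =>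
    induction r using Polynomial.induction_on' with
    | add r s hr hs =>
      rw [map_add]
      exact hadd _ _ hr hs
    | monomial k b =>
      have h1 : (monomial n (monomial k b) : P[X][X]) = C (C b) * (X ^ n * C (X ^ k)) := by
        rw [← C_mul_X_pow_eq_monomial, ← C_mul_X_pow_eq_monomial, map_mul]
        ring
      rw [h1]
      exact hmon n k b

end Ops

section Main

variable {K R : Type} [Field K] [CommRing R] [Algebra K R]

/-- the map from the polynomial ring to `R` -/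
noncomputable def sig (a : Fin 3 → R) (μ : ℕ) (ha : a 0 ^ (μ + 1) = 0) : (PowerSeries K)[X][X] →+* R :=
  eval₂RingHom (eval₂RingHom (evNil (a 0) μ ha) (a 2)) (a 1)

theorem sig_CC (a : Fin 3 → R) (μ : ℕ) (ha : a 0 ^ (μ + 1) = 0) (c : PowerSeries K) :
    sig a μ ha (C (C c)) = evNil (a 0) μ ha c := by simp [sig]

theorem sig_CX (a : Fin 3 → R) (μ : ℕ) (ha : a 0 ^ (μ + 1) = 0) :
    sig (K := K) a μ ha (C X) = a 2 := by simp [sig]

theorem sig_X (a : Fin 3 → R) (μ : ℕ) (ha : a 0 ^ (μ + 1) = 0) :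
    sig (K := K) a μ ha X = a 1 := by simp [sig]

theorem sig_surj (a : Fin 3 → R) (μ : ℕ) (ha : a 0 ^ (μ + 1) = 0)
    (hgen : Algebra.adjoin K (Set.range a) = ⊤) : Function.Surjective (sig (K := K) a μ ha) := by
  intro r
  have hr : r ∈ Algebra.adjoin K (Set.range a) := by rw [hgen]; exact Algebra.mem_top
  induction hr using Algebra.adjoin_induction with
  | mem x hx =>
    obtain ⟨i, rfl⟩ := hx
    match i with
    | 0 => exact ⟨C (C PowerSeries.X), by rw [sig_CC, evNil_X]⟩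
    | 1 => exact ⟨X, sig_X a μ ha⟩
    | 2 => exact ⟨C X, sig_CX a μ ha⟩
  | algebraMap c => exact ⟨C (C (PowerSeries.C c)), by rw [sig_CC, evNil_C]⟩
  | add x y _ _ hx hy =>
    obtain ⟨p, rfl⟩ := hx
    obtain ⟨q, rfl⟩ := hy
    exact ⟨p + q, map_add _ _ _⟩
  | mul x y _ _ hx hy =>
    obtain ⟨p, rfl⟩ := hx
    obtain ⟨q, rfl⟩ := hy
    exact ⟨p * q, map_mul _ _ _⟩

theorem smul_eq (c : K) (p : (PowerSeries K)[X][X]) : c • p = C (C (PowerSeries.C c)) * p := by
  ext i j
  rw [coeff_smul, coeff_smul, coeff_C_mul, coeff_C_mul, PowerSeries.smul_eq_C_mul]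

/-- `sig` as a linear map -/
noncomputable def sigL (a : Fin 3 → R) (μ : ℕ) (ha : a 0 ^ (μ + 1) = 0) : (PowerSeries K)[X][X] →ₗ[K] R where
  toFun := sig a μ ha
  map_add' := map_add _
  map_smul' c p := by
    rw [smul_eq, map_mul, sig_CC, evNil_C, RingHom.id_apply, Algebra.smul_def]

/-- evaluation of the operators -/
noncomputable abbrev ev (K : Type) [Field K] (m : ℕ) (p : (PowerSeries K)[X][X]) :
    Module.End (PowerSeries K) (ℕ → PowerSeries K) :=
  ev2 (zOp PowerSeries.X m) (yOp m) p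

theorem ev_mul (m : ℕ) (hm : 1 ≤ m) (p q : (PowerSeries K)[X][X]) (g : ℕ → PowerSeries K) :
    ev K m (p * q) g = ev K m p (ev K m q g) := by
  unfold ev
  rw [ev2_mul _ _ (ops_comm _ m hm), Module.End.mul_apply]

theorem ev_CC (m : ℕ) (c : PowerSeries K) (g : ℕ → PowerSeries K) :
    ev K m (C (C c)) g = c • g := by
  unfold ev
  rw [ev2_C, aeval_C, Module.algebraMap_end_apply]

theorem ev_X (m : ℕ) (g : ℕ → PowerSeries K) : ev K m X g = yOp m g := by
  unfold ev
  rw [ev2_X]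

theorem ev_CX (m : ℕ) (g : ℕ → PowerSeries K) : ev K m (C X) g = zOp PowerSeries.X m g := by
  unfold ev
  rw [ev2_C, aeval_X]

theorem ev_add (m : ℕ) (p q : (PowerSeries K)[X][X]) (g : ℕ → PowerSeries K) :
    ev K m (p + q) g = ev K m p g + ev K m q g := by
  unfold ev
  rw [ev2_add, LinearMap.add_apply]

theorem ev_sub (m : ℕ) (p q : (PowerSeries K)[X][X]) (g : ℕ → PowerSeries K) :
    ev K m (p - q) g = ev K m p g - ev K m q g := by
  unfold ev
  rw [ev2_sub, LinearMap.sub_apply]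

/-- the monomials of `R` -/
def E (a : Fin 3 → R) (m j : ℕ) : R := a 1 ^ (j / m) * a 2 ^ (j % m)

theorem E_zero (a : Fin 3 → R) (m : ℕ) : E a m 0 = 1 := by simp [E]

theorem E_add (a : Fin 3 → R) (m j : ℕ) (hm : 1 ≤ m) : a 1 * E a m j = E a m (j + m) := by
  unfold E
  rw [Nat.add_div_right _ (by omega), Nat.add_mod_right, pow_succ]
  ring

theorem E_succ (a : Fin 3 → R) (m j : ℕ) (hm : 1 ≤ m) (hxy : a 0 * a 1 = a 2 ^ m) :
    a 2 * E a m j = a 0 ^ ((j + 1) / m - j / m) * E a m (j + 1) := by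
  unfold E
  have h0 := Nat.div_add_mod j m
  have h1 : j % m < m := Nat.mod_lt _ (by omega)
  set q := j / m
  set i := j % m
  rcases Nat.lt_or_ge (i + 1) m with h2 | h2
  · have h3 : (j + 1) / m = q := by
      rw [← h0, add_assoc, Nat.mul_add_div (by omega), Nat.div_eq_of_lt h2, add_zero]
    have h4 : (j + 1) % m = i + 1 := by
      rw [← h0, add_assoc, Nat.mul_add_mod, Nat.mod_eq_of_lt h2]
    rw [h3, h4, Nat.sub_self, pow_zero, pow_succ]
    ring
  · have h5 : i + 1 = m := by omega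
    have h3 : (j + 1) / m = q + 1 := by
      rw [← h0, add_assoc, Nat.mul_add_div (by omega), h5, Nat.div_self (by omega)]
    have h4 : (j + 1) % m = 0 := by
      rw [← h0, add_assoc, Nat.mul_add_mod, h5, Nat.mod_self]
    rw [h3, h4, Nat.add_sub_cancel_left, pow_one, pow_zero, pow_succ]
    have h6 : a 2 ^ i * a 2 = a 2 ^ m := by rw [← pow_succ, h5]
    calc a 2 * (a 1 ^ q * a 2 ^ i) = a 1 ^ q * (a 2 ^ i * a 2) := by ring
      _ = a 1 ^ q * (a 0 * a 1) := by rw [h6, hxy]
      _ = a 0 * (a 1 ^ q * a 1 * 1) := by ring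

theorem E_big (a : Fin 3 → R) (m Q j : ℕ) (hm : 1 ≤ m) (hQ : a 1 ^ Q = 0) (hj : m * Q ≤ j) :
    E a m j = 0 := by
  unfold E
  have h1 : Q ≤ j / m := (Nat.le_div_iff_mul_le (by omega)).2 (by rw [mul_comm]; exact hj)
  obtain ⟨l, hl⟩ := Nat.exists_eq_add_of_le h1
  rw [hl, pow_add, hQ, zero_mul, zero_mul]

/-- the sequence `h` represents the functional `φ (r * ·)` -/
def Rel (a : Fin 3 → R) (m μ : ℕ) (φ : Module.Dual K R) (h : ℕ → PowerSeries K) (r : R) : Prop :=
  ∀ j k, k ≤ μ → PowerSeries.coeff k (h j) = φ (a 0 ^ (μ - k) * r * E a m j)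

theorem Rel.add {a : Fin 3 → R} {m μ : ℕ} {φ : Module.Dual K R} {h h' : ℕ → PowerSeries K} {r r' : R}
    (H : Rel a m μ φ h r) (H' : Rel a m μ φ h' r') : Rel a m μ φ (h + h') (r + r') := by
  intro j k hk
  rw [Pi.add_apply, map_add, H j k hk, H' j k hk, ← map_add]
  congr 1
  ring

theorem Rel.y {a : Fin 3 → R} {m μ : ℕ} {φ : Module.Dual K R} {h : ℕ → PowerSeries K} {r : R}
    (hm : 1 ≤ m) (H : Rel a m μ φ h r) : Rel a m μ φ (yOp m h) (a 1 * r) := by
  intro j k hk
  rw [yOp_apply, H _ k hk, ← E_add a m j hm]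
  congr 1
  ring

theorem Rel.z {a : Fin 3 → R} {m μ : ℕ} {φ : Module.Dual K R} {h : ℕ → PowerSeries K} {r : R}
    (hm : 1 ≤ m) (hxy : a 0 * a 1 = a 2 ^ m) (ha : a 0 ^ (μ + 1) = 0)
    (H : Rel a m μ φ h r) : Rel a m μ φ (zOp PowerSeries.X m h) (a 2 * r) := by
  intro j k hk
  have h1 : a 0 ^ (μ - k) * (a 2 * r) * E a m j =
      a 0 ^ (μ - k) * r * (a 0 ^ ((j + 1) / m - j / m) * E a m (j + 1)) := by
    rw [← E_succ a m j hm hxy]
    ring
  rw [zOp_apply, PowerSeries.coeff_X_pow_mul', h1]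
  split_ifs with h2
  · rw [H _ _ (by omega)]
    congr 1
    have h3 : μ - (k - ((j + 1) / m - j / m)) = (μ - k) + ((j + 1) / m - j / m) := by omega
    rw [h3, pow_add]
    ring
  · have h3 : a 0 ^ (μ - k) * a 0 ^ ((j + 1) / m - j / m) = 0 := by
      rw [← pow_add]
      obtain ⟨l, hl⟩ := Nat.exists_eq_add_of_le
        (show μ + 1 ≤ μ - k + ((j + 1) / m - j / m) by omega)
      rw [hl, pow_add, ha, zero_mul]
    have h4 : a 0 ^ (μ - k) * r * (a 0 ^ ((j + 1) / m - j / m) * E a m (j + 1)) =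
        (a 0 ^ (μ - k) * a 0 ^ ((j + 1) / m - j / m)) * (r * E a m (j + 1)) := by ring
    rw [h4, h3, zero_mul, map_zero]

theorem Rel.smul {a : Fin 3 → R} {m μ : ℕ} {φ : Module.Dual K R} {h : ℕ → PowerSeries K} {r : R}
    (ha : a 0 ^ (μ + 1) = 0) (c : PowerSeries K)
    (H : Rel a m μ φ h r) : Rel a m μ φ (c • h) (evNil (a 0) μ ha c * r) := by
  intro j k hk
  rw [Pi.smul_apply, smul_eq_mul, PowerSeries.coeff_mul,
    Finset.Nat.sum_antidiagonal_eq_sum_range_succ (fun i l => PowerSeries.coeff i c * PowerSeries.coeff l (h j)),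
    evNil_apply]
  have h1 : a 0 ^ (μ - k) * ((∑ i ∈ Finset.range (μ + 1), PowerSeries.coeff i c • a 0 ^ i) * r) * E a m j =
      ∑ i ∈ Finset.range (μ + 1), PowerSeries.coeff i c • (a 0 ^ (μ - k) * a 0 ^ i * r * E a m j) := by
    rw [Finset.sum_mul, Finset.mul_sum, Finset.sum_mul]
    refine Finset.sum_congr rfl fun i _ => ?_
    simp only [Algebra.smul_def]
    ring
  rw [h1, map_sum, ← Finset.sum_subset (Finset.range_mono (show k + 1 ≤ μ + 1 by omega))]
  · refine Finset.sum_congr rfl fun i hi => ?_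
    rw [Finset.mem_range] at hi
    rw [H j (k - i) (by omega), map_smul, smul_eq_mul]
    congr 2
    have h2 : μ - (k - i) = (μ - k) + i := by omega
    rw [h2, pow_add]
  · intro i hi hi'
    rw [Finset.mem_range] at hi hi'
    have h3 : a 0 ^ (μ - k) * a 0 ^ i = 0 := by
      rw [← pow_add]
      obtain ⟨l, hl⟩ := Nat.exists_eq_add_of_le (show μ + 1 ≤ μ - k + i by omega)
      rw [hl, pow_add, ha, zero_mul]
    rw [h3, zero_mul, zero_mul, smul_zero, map_zero]

theorem Rel.ev {a : Fin 3 → R} {m μ : ℕ} {φ : Module.Dual K R} {h : ℕ → PowerSeries K} {r : R}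
    (hm : 1 ≤ m) (hxy : a 0 * a 1 = a 2 ^ m) (ha : a 0 ^ (μ + 1) = 0)
    (H : Rel a m μ φ h r) (p : (PowerSeries K)[X][X]) :
    Rel a m μ φ (ev K m p h) (sig a μ ha p * r) := by
  induction p using Polynomial.induction_on' with
  | add p q hp hq =>
    rw [ev_add, map_add, add_mul]
    exact hp.add hq
  | monomial n s =>
    induction s using Polynomial.induction_on' with
    | add s t hs ht =>
      rw [map_add, ev_add, map_add, add_mul]
      exact hs.add ht
    | monomial k b =>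
      have h1 : (monomial n (monomial k b) : (PowerSeries K)[X][X]) = C (C b) * (X ^ n * (C X) ^ k) := by
        rw [← C_mul_X_pow_eq_monomial, ← C_mul_X_pow_eq_monomial, map_mul, map_pow]
        ring
      rw [h1, ev_mul m hm, ev_CC, map_mul, sig_CC, mul_assoc]
      refine Rel.smul ha b ?_
      clear h1
      induction n with
      | zero =>
        rw [pow_zero, one_mul]
        induction k with
        | zero => rw [pow_zero, map_one, one_mul]; unfold LatAux.ev; rw [ev2_one]; exact H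
        | succ k ih =>
          rw [pow_succ', ev_mul m hm, ev_CX, map_mul, sig_CX, mul_assoc]
          exact Rel.z hm hxy ha ih
      | succ n ih =>
        rw [pow_succ', mul_assoc, ev_mul m hm, ev_X, map_mul, sig_X, mul_assoc]
        exact Rel.y hm ih

/-- the lattice `N` -/
noncomputable def latN (a : Fin 3 → R) (m Q μ : ℕ) (ha : a 0 ^ (μ + 1) = 0) :
    Submodule (PowerSeries K) (ℕ → PowerSeries K) where
  carrier := {g | (∀ j, m * Q ≤ j → g j = 0) ∧ ∀ p, sig a μ ha p = 0 → PowerSeries.X ^ (μ + 1) ∣ ev K m p g 0}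
  zero_mem' := ⟨fun _ _ => rfl, fun p _ => by rw [map_zero]; exact dvd_zero _⟩
  add_mem' := by
    rintro g h ⟨hg1, hg2⟩ ⟨hh1, hh2⟩
    refine ⟨fun j hj => ?_, fun p hp => ?_⟩
    · rw [Pi.add_apply, hg1 j hj, hh1 j hj, add_zero]
    · rw [map_add, Pi.add_apply]
      exact dvd_add (hg2 p hp) (hh2 p hp)
  smul_mem' := by
    rintro c g ⟨hg1, hg2⟩
    refine ⟨fun j hj => ?_, fun p hp => ?_⟩
    · rw [Pi.smul_apply, hg1 j hj, smul_zero]
    · rw [map_smul, Pi.smul_apply, smul_eq_mul]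
      exact dvd_mul_of_dvd_right (hg2 p hp) _

theorem mem_latN (a : Fin 3 → R) (m Q μ : ℕ) (ha : a 0 ^ (μ + 1) = 0) (g : ℕ → PowerSeries K) :
    g ∈ latN a m Q μ ha ↔ (∀ j, m * Q ≤ j → g j = 0) ∧
      ∀ p, sig a μ ha p = 0 → PowerSeries.X ^ (μ + 1) ∣ ev K m p g 0 := Iff.rfl

theorem z_mem (a : Fin 3 → R) (m Q μ : ℕ) (hm : 1 ≤ m) (ha : a 0 ^ (μ + 1) = 0)
    (g : ℕ → PowerSeries K) (hg : g ∈ latN a m Q μ ha) : zOp PowerSeries.X m g ∈ latN a m Q μ ha := by
  refine ⟨fun j hj => ?_, fun p hp => ?_⟩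
  · rw [zOp_apply, hg.1 _ (by omega), mul_zero]
  · rw [← ev_CX, ← ev_mul m hm]
    refine hg.2 _ ?_
    rw [map_mul, hp, zero_mul]

theorem y_mem (a : Fin 3 → R) (m Q μ : ℕ) (hm : 1 ≤ m) (ha : a 0 ^ (μ + 1) = 0)
    (g : ℕ → PowerSeries K) (hg : g ∈ latN a m Q μ ha) : yOp m g ∈ latN a m Q μ ha := by
  refine ⟨fun j hj => ?_, fun p hp => ?_⟩
  · rw [yOp_apply, hg.1 _ (by omega)]
  · rw [← ev_X, ← ev_mul m hm]
    refine hg.2 _ ?_
    rw [map_mul, hp, zero_mul]

theorem pow_smul_mem (a : Fin 3 → R) (m Q μ : ℕ) (ha : a 0 ^ (μ + 1) = 0)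
    (g : ℕ → PowerSeries K) (hg : ∀ j, m * Q ≤ j → g j = 0) :
    (PowerSeries.X : PowerSeries K) ^ (μ + 1) • g ∈ latN a m Q μ ha := by
  refine ⟨fun j hj => ?_, fun p hp => ?_⟩
  · rw [Pi.smul_apply, hg j hj, smul_zero]
  · rw [map_smul, Pi.smul_apply, smul_eq_mul]
    exact dvd_mul_right _ _

/-- the restricted operators -/
noncomputable def zN (a : Fin 3 → R) (m Q μ : ℕ) (hm : 1 ≤ m) (ha : a 0 ^ (μ + 1) = 0) :
    Module.End (PowerSeries K) (latN (K := K) a m Q μ ha) :=
  (zOp PowerSeries.X m).restrict (z_mem a m Q μ hm ha)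

noncomputable def yN (a : Fin 3 → R) (m Q μ : ℕ) (hm : 1 ≤ m) (ha : a 0 ^ (μ + 1) = 0) :
    Module.End (PowerSeries K) (latN (K := K) a m Q μ ha) :=
  (yOp m).restrict (y_mem a m Q μ hm ha)

theorem zN_coe (a : Fin 3 → R) (m Q μ : ℕ) (hm : 1 ≤ m) (ha : a 0 ^ (μ + 1) = 0)
    (u : latN (K := K) a m Q μ ha) :
    (zN a m Q μ hm ha u : ℕ → PowerSeries K) = zOp PowerSeries.X m (u : ℕ → PowerSeries K) := rfl

theorem yN_coe (a : Fin 3 → R) (m Q μ : ℕ) (hm : 1 ≤ m) (ha : a 0 ^ (μ + 1) = 0)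
    (u : latN (K := K) a m Q μ ha) :
    (yN a m Q μ hm ha u : ℕ → PowerSeries K) = yOp m (u : ℕ → PowerSeries K) := rfl

theorem ev_coe (a : Fin 3 → R) (m Q μ : ℕ) (hm : 1 ≤ m) (ha : a 0 ^ (μ + 1) = 0)
    (p : (PowerSeries K)[X][X]) (u : latN (K := K) a m Q μ ha) :
    (ev2 (zN a m Q μ hm ha) (yN a m Q μ hm ha) p u : ℕ → PowerSeries K) =
      ev K m p (u : ℕ → PowerSeries K) := by
  have h := red_ev2 (RingHom.id (PowerSeries K)) (zN a m Q μ hm ha) (yN a m Q μ hm ha)
    (zOp PowerSeries.X m) (yOp m) ((latN (K := K) a m Q μ ha).subtype.toAddMonoidHom)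
    (fun o u => rfl) (fun u => rfl) (fun u => rfl) p u
  have h2 : p.map (mapRingHom (RingHom.id (PowerSeries K))) = p := by
    rw [mapRingHom_id, Polynomial.map_id]
  rw [h2] at h
  exact h

theorem aeval_coe (a : Fin 3 → R) (m Q μ : ℕ) (hm : 1 ≤ m) (ha : a 0 ^ (μ + 1) = 0)
    (p : (PowerSeries K)[X]) (u : latN (K := K) a m Q μ ha) :
    (aeval (zN a m Q μ hm ha) p u : ℕ → PowerSeries K) =
      aeval (zOp PowerSeries.X m) p (u : ℕ → PowerSeries K) := by
  have h := red_aeval (RingHom.id (PowerSeries K)) (zN a m Q μ hm ha)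
    (zOp PowerSeries.X m) ((latN (K := K) a m Q μ ha).subtype.toAddMonoidHom)
    (fun o u => rfl) (fun u => rfl) p u
  rw [Polynomial.map_id] at h
  exact h

/-- the functional attached to a sequence -/
noncomputable def piFun (m μ : ℕ) (hm : 1 ≤ m) (s : R →ₗ[K] (PowerSeries K)[X][X])
    (g : ℕ → PowerSeries K) : Module.Dual K R where
  toFun r := PowerSeries.coeff μ (ev K m (s r) g 0)
  map_add' r r' := by rw [map_add, ev_add, Pi.add_apply, map_add]
  map_smul' c r := by
    rw [map_smul, smul_eq, ev_mul m hm, ev_CC, Pi.smul_apply, smul_eq_mul, PowerSeries.coeff_C_mul]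
    rfl

theorem piFun_sig (a : Fin 3 → R) (m Q μ : ℕ) (hm : 1 ≤ m) (ha : a 0 ^ (μ + 1) = 0)
    (s : R →ₗ[K] (PowerSeries K)[X][X]) (hs : ∀ r, sig a μ ha (s r) = r)
    (g : ℕ → PowerSeries K) (hg : g ∈ latN a m Q μ ha) (p : (PowerSeries K)[X][X]) :
    piFun m μ hm s g (sig a μ ha p) = PowerSeries.coeff μ (ev K m p g 0) := by
  change PowerSeries.coeff μ (ev K m (s (sig a μ ha p)) g 0) = _
  have h1 : sig (K := K) a μ ha (s (sig (K := K) a μ ha p) - p) = 0 := by
    have h0 := map_sub (sig (K := K) a μ ha) (s (sig (K := K) a μ ha p)) p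
    rw [hs, sub_self] at h0
    exact h0
  have h2 := (PowerSeries.X_pow_dvd_iff.1 (hg.2 _ h1)) μ (by omega)
  rw [ev_sub, Pi.sub_apply, map_sub, sub_eq_zero] at h2
  exact h2

/-- the projection `N → M` -/
noncomputable def piN (a : Fin 3 → R) (m Q μ : ℕ) (hm : 1 ≤ m) (ha : a 0 ^ (μ + 1) = 0)
    (s : R →ₗ[K] (PowerSeries K)[X][X]) : latN (K := K) a m Q μ ha →+ Module.Dual K R where
  toFun u := piFun m μ hm s (u : ℕ → PowerSeries K)
  map_zero' := by
    ext r
    change PowerSeries.coeff μ (ev K m (s r) (0 : ℕ → PowerSeries K) 0) = 0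
    rw [map_zero, Pi.zero_apply, map_zero]
  map_add' u v := by
    ext r
    change PowerSeries.coeff μ (ev K m (s r) ((u : ℕ → PowerSeries K) + v) 0) =
      PowerSeries.coeff μ (ev K m (s r) (u : ℕ → PowerSeries K) 0) +
      PowerSeries.coeff μ (ev K m (s r) (v : ℕ → PowerSeries K) 0)
    rw [map_add, Pi.add_apply, map_add]

/-- membership of the functional sequences -/
noncomputable def seqOf (a : Fin 3 → R) (m μ : ℕ) (φ : Module.Dual K R) : ℕ → PowerSeries K :=
  fun j => PowerSeries.mk fun k => φ (a 0 ^ (μ - k) * E a m j)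

theorem rel_seqOf (a : Fin 3 → R) (m μ : ℕ) (φ : Module.Dual K R) :
    Rel a m μ φ (seqOf a m μ φ) 1 := by
  intro j k _
  rw [seqOf, PowerSeries.coeff_mk, mul_one]

theorem seqOf_mem (a : Fin 3 → R) (m Q μ : ℕ) (hm : 1 ≤ m) (hxy : a 0 * a 1 = a 2 ^ m)
    (hQ : a 1 ^ Q = 0) (ha : a 0 ^ (μ + 1) = 0)
    (φ : Module.Dual K R) : seqOf a m μ φ ∈ latN a m Q μ ha := by
  refine ⟨fun j hj => ?_, fun p hp => ?_⟩
  · rw [seqOf, E_big a m Q j hm hQ hj]
    ext k
    rw [PowerSeries.coeff_mk, mul_zero, map_zero, map_zero]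
  · rw [PowerSeries.X_pow_dvd_iff]
    intro k hk
    rw [Rel.ev hm hxy ha (rel_seqOf a m μ φ) p 0 k (by omega), hp]
    simp

theorem ev_sum (m : ℕ) (t : Finset ℕ) (f : ℕ → (PowerSeries K)[X][X]) (v : ℕ → PowerSeries K) :
    ev K m (∑ k ∈ t, f k) v = ∑ k ∈ t, ev K m (f k) v := by
  classical
  induction t using Finset.induction_on with
  | empty => simp [LatAux.ev, ev2_zero]
  | insert i t hi ih => rw [Finset.sum_insert hi, Finset.sum_insert hi, ev_add, ih]

/-- the kernel of the projection -/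
theorem ker_piN (a : Fin 3 → R) (m Q μ : ℕ) (hm : 1 ≤ m)
    (ha : a 0 ^ (μ + 1) = 0)
    (s : R →ₗ[K] (PowerSeries K)[X][X]) (hs : ∀ r, sig a μ ha (s r) = r)
    (g : ℕ → PowerSeries K) (hg : g ∈ latN a m Q μ ha) :
    piFun m μ hm s g = 0 ↔ ∃ p : (PowerSeries K)[X][X],
      ev K m p ((PowerSeries.X : PowerSeries K) ^ (μ + 1) • (Pi.single (m * Q - 1) 1)) = g := by
  constructor
  · intro h
    have h1 : ∀ j, (PowerSeries.X : PowerSeries K) ^ (μ + 1) ∣ g j := by
      intro j
      rw [PowerSeries.X_pow_dvd_iff]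
      intro k hk
      have h2 := piFun_sig a m Q μ hm ha s hs g hg
        (C (C (PowerSeries.X ^ (μ - k))) * (X ^ (j / m) * C (X ^ (j % m))))
      rw [h, ev_mul m hm, ev_CC, Pi.smul_apply, smul_eq_mul] at h2
      have h3 : ev K m (X ^ (j / m) * C (X ^ (j % m))) g 0 = g j := ev2_mon_zero _ m hm j g
      rw [h3, PowerSeries.coeff_X_pow_mul', if_pos (by omega)] at h2
      have h4 : μ - (μ - k) = k := by omega
      rw [h4] at h2
      rw [← h2]
      rfl
    choose g' hg' using h1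
    refine ⟨∑ k ∈ Finset.range (m * Q), C (C (g' (m * Q - 1 - k))) * (X ^ (k / m) * C (X ^ (k % m))), ?_⟩
    rw [ev_sum]
    funext j
    rw [Finset.sum_apply]
    have h6 : ∀ k ∈ Finset.range (m * Q),
        ev K m (C (C (g' (m * Q - 1 - k))) * (X ^ (k / m) * C (X ^ (k % m))))
          ((PowerSeries.X : PowerSeries K) ^ (μ + 1) • (Pi.single (m * Q - 1) 1)) j =
        if j = m * Q - 1 - k then g j else 0 := by
      intro k hk
      rw [Finset.mem_range] at hk
      rw [ev_mul m hm, ev_CC, map_smul]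
      have h7 : ev K m (X ^ (k / m) * C (X ^ (k % m))) (Pi.single (m * Q - 1) 1) =
          Pi.single (m * Q - 1 - k) 1 := ev2_mon_single _ m Q hm k hk
      rw [h7, Pi.smul_apply, Pi.smul_apply, smul_eq_mul, smul_eq_mul, Pi.single_apply]
      split_ifs with h8
      · rw [mul_one, ← h8, hg' j, mul_comm]
      · rw [mul_zero, mul_zero]
    rw [Finset.sum_congr rfl h6]
    rcases Nat.lt_or_ge j (m * Q) with hj | hj
    · rw [Finset.sum_eq_single (m * Q - 1 - j)]
      · rw [if_pos (by omega)]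
      · intro k hk hkj
        rw [Finset.mem_range] at hk
        rw [if_neg (by omega)]
      · intro hk
        exact absurd (Finset.mem_range.2 (by omega)) hk
    · rw [hg.1 j hj]
      refine Finset.sum_eq_zero fun k _ => ?_
      split_ifs <;> rfl
  · rintro ⟨p, rfl⟩
    ext r
    obtain ⟨q, rfl⟩ : ∃ q, sig a μ ha q = r := ⟨s r, hs r⟩
    rw [piFun_sig a m Q μ hm ha s hs _ hg, map_smul, map_smul, Pi.smul_apply, smul_eq_mul,
      PowerSeries.coeff_X_pow_mul', if_neg (by omega)]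
    rfl

/-- the kernel property -/
theorem kp_main (m Q μ : ℕ) (hm : 1 ≤ m) (hQ1 : 1 ≤ Q) (p : (PowerSeries K)[X][X])
    (hp : ev K m p ((PowerSeries.X : PowerSeries K) ^ (μ + 1) • (Pi.single (m * Q - 1) 1)) = 0) :
    p ∈ Ideal.span {(X : (PowerSeries K)[X][X]) ^ Q,
      C (C PowerSeries.X) * X - C (X ^ m)} := by
  obtain ⟨c, hc⟩ := reduce_mod (PowerSeries.X : PowerSeries K) m Q hm p
  have hXne : (PowerSeries.X : PowerSeries K) ^ (μ + 1) ≠ 0 := pow_ne_zero _ PowerSeries.X_ne_zero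
  have h0 : ev K m p (Pi.single (m * Q - 1) 1) = 0 := by
    rw [map_smul] at hp
    funext j
    have h1 := congrFun hp j
    rw [Pi.smul_apply, smul_eq_mul, Pi.zero_apply, mul_eq_zero] at h1
    exact h1.resolve_left hXne
  have hI : ∀ q ∈ Ideal.span {(X : (PowerSeries K)[X][X]) ^ Q, C (C PowerSeries.X) * X - C (X ^ m)},
      ev K m q (Pi.single (m * Q - 1) 1) = 0 := by
    intro q hq
    obtain ⟨b, e, rfl⟩ := Ideal.mem_span_pair.1 hq
    rw [ev_add, ev_mul m hm, ev_mul m hm]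
    have h1 : ev K m (X ^ Q) (Pi.single (m * Q - 1) 1) = 0 := by
      unfold LatAux.ev
      rw [ev2_X_pow]
      funext j
      have hmQ : 1 ≤ m * Q := Nat.mul_pos hm hQ1
      rw [yOp_pow, Pi.zero_apply, Pi.single_apply, if_neg (by omega)]
    have h2 : ev K m (C (C PowerSeries.X) * X - C (X ^ m)) (Pi.single (m * Q - 1) 1) = 0 := by
      rw [ev_sub, ev_mul m hm, ev_CC, ev_X]
      have h3 : ev K m (C (X ^ m)) (Pi.single (m * Q - 1) 1) =
          (zOp (PowerSeries.X : PowerSeries K) m ^ m) (Pi.single (m * Q - 1) 1) := by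
        unfold LatAux.ev
        rw [ev2_C, aeval_X_pow]
      rw [h3, ← ops_rel _ m hm, LinearMap.smul_apply, sub_self]
    rw [h1, h2, map_zero, map_zero, add_zero]
  have h1 := hI _ hc
  rw [ev_sub, h0, zero_sub, neg_eq_zero, ev_sum] at h1
  -- the coefficients vanish
  have h2 : ∀ k, k < m * Q → c k = 0 := by
    intro k hk
    have h3 := congrFun h1 (m * Q - 1 - k)
    rw [Finset.sum_apply, Pi.zero_apply, Finset.sum_eq_single k] at h3
    · rw [ev_mul m hm, ev_CC] at h3
      have h7 : ev K m (X ^ (k / m) * C (X ^ (k % m))) (Pi.single (m * Q - 1) 1) =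
          Pi.single (m * Q - 1 - k) 1 := ev2_mon_single _ m Q hm k hk
      rw [h7, Pi.smul_apply, Pi.single_eq_same, smul_eq_mul, mul_one] at h3
      exact h3
    · intro l hl hlk
      rw [Finset.mem_range] at hl
      rw [ev_mul m hm, ev_CC]
      have h7 : ev K m (X ^ (l / m) * C (X ^ (l % m))) (Pi.single (m * Q - 1) 1) =
          Pi.single (m * Q - 1 - l) 1 := ev2_mon_single _ m Q hm l hl
      rw [h7, Pi.smul_apply, Pi.single_eq_of_ne (by omega), smul_zero]
    · intro hk'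
      exact absurd (Finset.mem_range.2 hk) hk'
  have h3 : ∑ k ∈ Finset.range (m * Q), C (C (c k)) * (X ^ (k / m) * C (X ^ (k % m))) =
      (0 : (PowerSeries K)[X][X]) := by
    refine Finset.sum_eq_zero fun k hk => ?_
    rw [h2 k (Finset.mem_range.1 hk), map_zero, map_zero, zero_mul]
  rw [h3, sub_zero] at hc
  exact hc

/-- monic annihilators of degree `m Q` -/
theorem pow_main (m Q μ : ℕ) (hm : 1 ≤ m) (hQ1 : 1 ≤ Q) (δ : (PowerSeries K)[X]) (hδ : δ.Monic)
    (hdeg : δ.natDegree = m * Q)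
    (h : aeval (zOp (PowerSeries.X : PowerSeries K) m) δ
      ((PowerSeries.X : PowerSeries K) ^ (μ + 1) • (Pi.single (m * Q - 1) 1)) = 0) :
    δ = X ^ (m * Q) := by
  have hXne : (PowerSeries.X : PowerSeries K) ^ (μ + 1) ≠ 0 := pow_ne_zero _ PowerSeries.X_ne_zero
  ext1 k
  rw [coeff_X_pow]
  split_ifs with hk
  · rw [hk, ← hdeg, hδ.coeff_natDegree]
  · rcases lt_or_gt_of_ne hk with hlt | hgt
    · have h1 := congrFun h (m * Q - 1 - k)
      rw [map_smul, Pi.smul_apply, smul_eq_mul, Pi.zero_apply, mul_eq_zero, or_iff_right hXne,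
        aeval_eq_sum_range, LinearMap.sum_apply, Finset.sum_apply, Finset.sum_eq_single k] at h1
      · rw [LinearMap.smul_apply, Pi.smul_apply, zOp_pow,
          show m * Q - 1 - k + k = m * Q - 1 by omega, Pi.single_eq_same, mul_one, smul_eq_mul,
          mul_eq_zero] at h1
        exact h1.resolve_right (pow_ne_zero _ PowerSeries.X_ne_zero)
      · intro l hl hlk
        rw [LinearMap.smul_apply, Pi.smul_apply, zOp_pow, Pi.single_eq_of_ne (by omega), mul_zero,
          smul_zero]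
      · intro hk'
        exact absurd (Finset.mem_range.2 (by omega)) hk'
    · exact Polynomial.coeff_eq_zero_of_natDegree_lt (by omega)

/-- restriction to the first `m Q` terms -/
noncomputable def resN (a : Fin 3 → R) (m Q μ : ℕ) (ha : a 0 ^ (μ + 1) = 0) :
    latN (K := K) a m Q μ ha →ₗ[PowerSeries K] (Fin (m * Q) → PowerSeries K) where
  toFun u := fun j => (u : ℕ → PowerSeries K) j
  map_add' u v := rfl
  map_smul' c u := rfl

theorem resN_inj (a : Fin 3 → R) (m Q μ : ℕ) (ha : a 0 ^ (μ + 1) = 0) :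
    Function.Injective (resN (K := K) a m Q μ ha) := by
  intro u v huv
  apply Subtype.ext
  funext j
  rcases Nat.lt_or_ge j (m * Q) with hj | hj
  · exact congrFun huv ⟨j, hj⟩
  · rw [u.2.1 j hj, v.2.1 j hj]

/-- multiples of the power of `x` -/
noncomputable def extN (a : Fin 3 → R) (m Q μ : ℕ) (ha : a 0 ^ (μ + 1) = 0) :
    (Fin (m * Q) → PowerSeries K) →ₗ[PowerSeries K] latN (K := K) a m Q μ ha where
  toFun c := ⟨(PowerSeries.X : PowerSeries K) ^ (μ + 1) • (fun j => if h : j < m * Q then c ⟨j, h⟩ else 0),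
    pow_smul_mem a m Q μ ha _ (fun j hj => dif_neg (by omega))⟩
  map_add' c d := by
    apply Subtype.ext
    funext j
    simp only [Pi.smul_apply, Pi.add_apply, Submodule.coe_add, smul_eq_mul]
    split_ifs
    · ring
    · simp
  map_smul' b c := by
    apply Subtype.ext
    funext j
    simp only [Pi.smul_apply, RingHom.id_apply, Submodule.coe_smul, smul_eq_mul]
    split_ifs
    · ring
    · simp

theorem extN_inj (a : Fin 3 → R) (m Q μ : ℕ) (ha : a 0 ^ (μ + 1) = 0) :
    Function.Injective (extN (K := K) a m Q μ ha) := by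
  intro c d hcd
  have hXne : (PowerSeries.X : PowerSeries K) ^ (μ + 1) ≠ 0 := pow_ne_zero _ PowerSeries.X_ne_zero
  funext j
  have h1 := congrFun (congrArg Subtype.val hcd) (j : ℕ)
  have h2 : ∀ c : Fin (m * Q) → PowerSeries K,
      ((extN (K := K) a m Q μ ha c : ℕ → PowerSeries K)) (j : ℕ) =
        (PowerSeries.X : PowerSeries K) ^ (μ + 1) * c j := by
    intro c
    change (PowerSeries.X : PowerSeries K) ^ (μ + 1) * (if h : (j : ℕ) < m * Q then c ⟨j, h⟩ else 0) = _
    rw [dif_pos j.2]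
  rw [h2, h2] at h1
  exact mul_left_cancel₀ hXne h1

end Main

end LatAux

open LatAux

theorem lattice_ring {K R : Type} [Field K] [CommRing R] [Algebra K R] [FiniteDimensional K R]
    (a : Fin 3 → R) (ha : Algebra.adjoin K (Set.range a) = ⊤) (hnil : ∀ i, IsNilpotent (a i))
    (m : ℕ) (hm : 1 ≤ m) (hxy : a 0 * a 1 = a 2 ^ m) :
    ∃ (Q : ℕ) (N : Type) (_ : AddCommGroup N) (_ : Module (PowerSeries K) N)
      (_ : Module.Free (PowerSeries K) N) (_ : Module.Finite (PowerSeries K) N),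
      1 ≤ Q ∧ Module.finrank (PowerSeries K) N = m * Q ∧
      Nonempty (Lat (fun i => ((mulT K a i).dualMap : Module.End K (Module.Dual K R))) m Q N) := by
  obtain ⟨μ, hμ⟩ := hnil 0
  obtain ⟨Q, hQ⟩ := hnil 1
  have hμ' : a 0 ^ (μ + 1) = 0 := by rw [pow_succ, hμ, zero_mul]
  have hQ' : a 1 ^ (Q + 1) = 0 := by rw [pow_succ, hQ, zero_mul]
  have hQ1 : 1 ≤ Q + 1 := by omega
  obtain ⟨s, hs⟩ := LinearMap.exists_rightInverse_of_surjective (sigL (K := K) a μ hμ')
    (LinearMap.range_eq_top.2 (sig_surj a μ hμ' ha))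
  have hs' : ∀ r, sig a μ hμ' (s r) = r := fun r => congrArg (fun f : R →ₗ[K] R => f r) hs
  have hfin : Module.Finite (PowerSeries K) (latN (K := K) a m (Q + 1) μ hμ') :=
    Module.Finite.of_injective _ (resN_inj a m (Q + 1) μ hμ')
  have hfree : Module.Free (PowerSeries K) (latN (K := K) a m (Q + 1) μ hμ') := by
    infer_instance
  refine ⟨Q + 1, latN (K := K) a m (Q + 1) μ hμ', inferInstance, inferInstance, hfree, hfin, hQ1, ?_, ?_⟩
  · refine le_antisymm ?_ ?_
    · have h1 := LinearMap.finrank_le_finrank_of_injective (resN_inj (K := K) a m (Q + 1) μ hμ')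
      rwa [Module.finrank_fintype_fun_eq_card, Fintype.card_fin] at h1
    · have h1 := LinearMap.finrank_le_finrank_of_injective (extN_inj (K := K) a m (Q + 1) μ hμ')
      rwa [Module.finrank_fintype_fun_eq_card, Fintype.card_fin] at h1
  · -- the lattice data
    let w0 : latN (K := K) a m (Q + 1) μ hμ' :=
      ⟨(PowerSeries.X : PowerSeries K) ^ (μ + 1) • (Pi.single (m * (Q + 1) - 1) 1),
        pow_smul_mem a m (Q + 1) μ hμ' _ (fun j hj => Pi.single_eq_of_ne (by
          have : 1 ≤ m * (Q + 1) := Nat.mul_pos hm hQ1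
          omega) _)⟩
    have hpi : ∀ (u : latN (K := K) a m (Q + 1) μ hμ') (p : (PowerSeries K)[X][X]),
        piN a m (Q + 1) μ hm hμ' s u (sig a μ hμ' p) =
          PowerSeries.coeff μ (ev K m p (u : ℕ → PowerSeries K) 0) :=
      fun u p => piFun_sig a m (Q + 1) μ hm hμ' s hs' _ u.2 p
    refine ⟨{ z := zN a m (Q + 1) μ hm hμ'
              y := yN a m (Q + 1) μ hm hμ'
              w := w0
              π := piN a m (Q + 1) μ hm hμ' s
              comm := ?_, rel := ?_, surj := ?_, πC := ?_, πx := ?_, πy := ?_, πz := ?_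
              ker := ?_, kp := ?_, pow := ?_ }⟩
    · ext u j
      exact congrArg (fun f : Module.End (PowerSeries K) (ℕ → PowerSeries K) =>
        PowerSeries.coeff _ (f (u : ℕ → PowerSeries K) j)) (ops_comm PowerSeries.X m hm)
    · ext u j
      have h1 : (((zN a m (Q + 1) μ hm hμ' ^ m) u : latN (K := K) a m (Q + 1) μ hμ') : ℕ → PowerSeries K) =
          (zOp PowerSeries.X m ^ m) (u : ℕ → PowerSeries K) := by
        have h2 := aeval_coe a m (Q + 1) μ hm hμ' (X ^ m) u
        rwa [aeval_X_pow, aeval_X_pow] at h2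
      rw [h1]
      exact congrArg (fun f : Module.End (PowerSeries K) (ℕ → PowerSeries K) =>
        PowerSeries.coeff _ (f (u : ℕ → PowerSeries K) j)) (ops_rel PowerSeries.X m hm)
    · intro φ
      refine ⟨⟨seqOf a m μ φ, seqOf_mem a m (Q + 1) μ hm hxy hQ' hμ' φ⟩, ?_⟩
      ext r
      obtain ⟨p, rfl⟩ : ∃ p, sig a μ hμ' p = r := ⟨s r, hs' r⟩
      rw [hpi, Rel.ev hm hxy hμ' (rel_seqOf a m μ φ) p 0 μ le_rfl, Nat.sub_self, pow_zero, one_mul, mul_one,
        E_zero, mul_one]
    · intro c u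
      ext r
      obtain ⟨p, rfl⟩ : ∃ p, sig a μ hμ' p = r := ⟨s r, hs' r⟩
      rw [LinearMap.smul_apply, hpi, hpi, Submodule.coe_smul, map_smul, Pi.smul_apply, smul_eq_mul,
        PowerSeries.coeff_C_mul, smul_eq_mul]
    · intro u
      ext r
      obtain ⟨p, rfl⟩ : ∃ p, sig a μ hμ' p = r := ⟨s r, hs' r⟩
      have h1 : (((mulT K a 0).dualMap : Module.End K (Module.Dual K R))
          (piN a m (Q + 1) μ hm hμ' s u)) (sig a μ hμ' p) =
          piN a m (Q + 1) μ hm hμ' s u (a 0 * sig a μ hμ' p) := rfl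
      have h2 : a 0 * sig a μ hμ' p = sig a μ hμ' (C (C PowerSeries.X) * p) := by
        rw [map_mul, sig_CC, evNil_X]
      rw [h1, h2, hpi, hpi, ev_mul m hm, ev_CC, Submodule.coe_smul, map_smul]
    · intro u
      ext r
      obtain ⟨p, rfl⟩ : ∃ p, sig a μ hμ' p = r := ⟨s r, hs' r⟩
      have h1 : (((mulT K a 1).dualMap : Module.End K (Module.Dual K R))
          (piN a m (Q + 1) μ hm hμ' s u)) (sig a μ hμ' p) =
          piN a m (Q + 1) μ hm hμ' s u (a 1 * sig a μ hμ' p) := rfl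
      have h2 : a 1 * sig a μ hμ' p = sig a μ hμ' (p * X) := by
        rw [map_mul, sig_X, mul_comm]
      rw [h1, h2, hpi, hpi, ev_mul m hm, ev_X, yN_coe]
    · intro u
      ext r
      obtain ⟨p, rfl⟩ : ∃ p, sig a μ hμ' p = r := ⟨s r, hs' r⟩
      have h1 : (((mulT K a 2).dualMap : Module.End K (Module.Dual K R))
          (piN a m (Q + 1) μ hm hμ' s u)) (sig a μ hμ' p) =
          piN a m (Q + 1) μ hm hμ' s u (a 2 * sig a μ hμ' p) := rfl
      have h2 : a 2 * sig a μ hμ' p = sig a μ hμ' (p * C X) := by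
        rw [map_mul, sig_CX, mul_comm]
      rw [h1, h2, hpi, hpi, ev_mul m hm, ev_CX, zN_coe]
    · intro u
      have h1 := ker_piN a m (Q + 1) μ hm hμ' s hs' (u : ℕ → PowerSeries K) u.2
      constructor
      · intro h
        obtain ⟨p, hp⟩ := h1.1 h
        exact ⟨p, Subtype.ext ((ev_coe a m (Q + 1) μ hm hμ' p w0).trans hp)⟩
      · rintro ⟨p, hp⟩
        exact h1.2 ⟨p, (ev_coe a m (Q + 1) μ hm hμ' p w0).symm.trans (congrArg Subtype.val hp)⟩
    · intro p hp
      exact kp_main m (Q + 1) μ hm hQ1 p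
        ((ev_coe a m (Q + 1) μ hm hμ' p w0).symm.trans (congrArg Subtype.val hp))
    · intro δ hδ hdeg h
      refine pow_main m (Q + 1) μ hm hQ1 δ hδ hdeg ?_
      have h1 := aeval_coe a m (Q + 1) μ hm hμ' δ w0
      rw [h] at h1
      exact h1.symm

end Pool.Agent.MPac4d2b
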