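import Mathlib
import Pool.Agent.Lib.MP_ac4d2b_ag.Defs
import Pool.Agent.Lib.MP_ac4d2b_ag.CL2
import Pool.Agent.Lib.MP_ac4d2b_ag.Lat
import Pool.Agent.Lib.MP_ac4d2b_ag.Famx
import Pool.Agent.Lib.MP_ac4d2b_ag.FAM

/-!
MP_ac4d2b_ag (project HILB), module AK: the key theorem.
-/

set_option autoImplicit false

namespace Pool.Agent.MPac4d2b

theorem cl_ak {K R : Type} [Field K] [IsAlgClosed K] [CharZero K] [CommRing R] [Algebra K R]
    [FiniteDimensional K R] (a : Fin 3 → R) (ha : Algebra.adjoin K (Set.range a) = ⊤)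
    (hnil : ∀ i, IsNilpotent (a i)) (m : ℕ) (hm : 1 ≤ m) (hxy : a 0 * a 1 = a 2 ^ m) :
    Cl (mulT K a) := by
  obtain ⟨Q, N, i1, i2, i3, i4, hQ, hr, ⟨D⟩⟩ := lattice_ring a ha hnil m hm hxy
  have : IsAdicComplete (IsLocalRing.maximalIdeal (PowerSeries K)) (PowerSeries K) := by
    rw [PowerSeries.maximalIdeal_eq_span_X]; infer_instance
  have hf0 : IsNilpotent ((mulT K a 0).dualMap : Module.End K (Module.Dual K R)) := by
    obtain ⟨k, hk⟩ := hnil 0
    refine ⟨k, ?_⟩
    have h1 : ∀ j : ℕ, ∀ φ : Module.Dual K R,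
        (((mulT K a 0).dualMap : Module.End K (Module.Dual K R)) ^ j) φ
          = φ.comp (LinearMap.mulLeft K (a 0 ^ j)) := by
      intro j
      induction j with
      | zero => intro φ; ext r; simp
      | succ j ih =>
        intro φ
        rw [pow_succ', Module.End.mul_apply, ih]
        ext r
        simp only [mulT, LinearMap.dualMap_apply, LinearMap.comp_apply, LinearMap.mulLeft_apply,
          pow_succ, mul_assoc]
    ext φ r
    rw [h1, hk]
    simp
  obtain ⟨MM, j1, j2, j3, g, ρ, hg, hgm, hs, h0, hc, hgρ, htf⟩ :=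
    family_exists (A := PowerSeries K) (PowerSeries.constantCoeff (R := K))
      (fun c => ⟨PowerSeries.C c, PowerSeries.constantCoeff_C c⟩) PowerSeries.X
      PowerSeries.X_ne_zero
      (fun b => by
        rw [← PowerSeries.X_dvd_iff]
        exact ⟨fun ⟨c, hc⟩ => ⟨c, hc⟩, fun ⟨c, hc⟩ => ⟨c, hc⟩⟩)
      (fun i => ((mulT K a i).dualMap : Module.End K (Module.Dual K R))) hf0 m Q hm hQ D hr
      (fun i => ((i : ℕ) : PowerSeries K) * PowerSeries.X)
      (fun i => by simp)
  exact cl_of_dual _ (cl_of_family _ g hg m hgm ρ hs h0 hc hgρ htf)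

end Pool.Agent.MPac4d2b
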