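import Mathlib
import Pool.Agent.Lib.MP_ac4d2b_ag.Defs

/-!
MP_ac4d2b_ag (project HILB), module RING: commutative rings generated by three elements and
commuting triples with a cyclic vector.
-/

set_option autoImplicit false

namespace Pool.Agent.MPac4d2b

namespace RINGAux

variable {K R : Type} [Field K] [CommRing R] [Algebra K R]

theorem mulT_mon (a : Fin 3 → R) (i j k : ℕ) (r : R) :
    (mulT K a 0 ^ i * mulT K a 1 ^ j * mulT K a 2 ^ k) r = a 0 ^ i * a 1 ^ j * a 2 ^ k * r := by
  simp only [mulT, LinearMap.pow_mulLeft, Module.End.mul_apply, LinearMap.mulLeft_apply]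
  ring

end RINGAux

section RING
variable {K R : Type} [Field K] [CommRing R] [Algebra K R]

theorem mulT_comm (a : Fin 3 → R) : Comm3 (mulT K a) := by
  intro i j
  ext r
  simp only [mulT, Module.End.mul_apply, LinearMap.mulLeft_apply]
  ring

theorem mulT_cyc (a : Fin 3 → R) (ha : Algebra.adjoin K (Set.range a) = ⊤) :
    Cyc (mulT K a) 1 := by
  unfold Cyc
  rw [eq_top_iff]
  intro r _
  have hr : r ∈ Algebra.adjoin K (Set.range a) := by rw [ha]; trivial
  rw [Algebra.adjoin_range_eq_range_aeval] at hr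
  obtain ⟨p, rfl⟩ := hr
  have h1 : (MvPolynomial.aeval a : MvPolynomial (Fin 3) K →ₐ[K] R).toRingHom p
      = MvPolynomial.aeval a p := rfl
  rw [h1, MvPolynomial.aeval_def, MvPolynomial.eval₂_eq']
  refine Submodule.sum_mem _ fun d _ => ?_
  rw [← Algebra.smul_def]
  refine Submodule.smul_mem _ _ (Submodule.subset_span ⟨(d 0, d 1, d 2), ?_⟩)
  simp only [RINGAux.mulT_mon, Fin.prod_univ_three, mul_one]

theorem exists_ring {V : Type} [AddCommGroup V] [Module K V] [FiniteDimensional K V]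
    (f : Fin 3 → Module.End K V) (hf : Comm3 f) (v : V) (hv : Cyc f v) :
    ∃ (R : Type) (_ : CommRing R) (_ : Algebra K R) (_ : FiniteDimensional K R) (a : Fin 3 → R)
      (e : R ≃ₗ[K] V), Algebra.adjoin K (Set.range a) = ⊤ ∧
      (∀ i r, e (a i * r) = f i (e r)) ∧ e 1 = v := by
  have hcomm : ∀ x ∈ Set.range f, ∀ y ∈ Set.range f, x * y = y * x := by
    rintro _ ⟨i, rfl⟩ _ ⟨j, rfl⟩
    exact hf i j
  let S := Algebra.adjoin K (Set.range f)
  letI iR : CommRing S := Algebra.adjoinCommRingOfComm K hcomm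
  have hmemS : ∀ i, f i ∈ S := fun i => Algebra.subset_adjoin ⟨i, rfl⟩
  let a : Fin 3 → S := fun i => ⟨f i, hmemS i⟩
  let φ : S →ₗ[K] V :=
    { toFun := fun r => (r : Module.End K V) v
      map_add' := fun r s => by simp
      map_smul' := fun c r => by simp }
  have hinj : Function.Injective φ := by
    rw [← LinearMap.ker_eq_bot, LinearMap.ker_eq_bot']
    intro r hr
    have hr' : (r : Module.End K V) v = 0 := hr
    apply Subtype.ext
    apply LinearMap.ext
    intro u
    have hu : u ∈ Submodule.span K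
        (Set.range fun e : ℕ × ℕ × ℕ => (f 0 ^ e.1 * f 1 ^ e.2.1 * f 2 ^ e.2.2) v) := by
      rw [hv]; trivial
    induction hu using Submodule.span_induction with
    | mem x hx =>
      obtain ⟨e, rfl⟩ := hx
      have hs : (f 0 ^ e.1 * f 1 ^ e.2.1 * f 2 ^ e.2.2) ∈ S :=
        mul_mem (mul_mem (pow_mem (hmemS 0) _) (pow_mem (hmemS 1) _)) (pow_mem (hmemS 2) _)
      have hc : r * (⟨_, hs⟩ : S) = (⟨_, hs⟩ : S) * r := mul_comm _ _
      have hc' := congrArg (fun t : S => (t : Module.End K V) v) hc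
      have h2 : (r : Module.End K V) ((f 0 ^ e.1 * f 1 ^ e.2.1 * f 2 ^ e.2.2) v)
          = (f 0 ^ e.1 * f 1 ^ e.2.1 * f 2 ^ e.2.2) ((r : Module.End K V) v) := hc'
      show (r : Module.End K V) ((f 0 ^ e.1 * f 1 ^ e.2.1 * f 2 ^ e.2.2) v) = 0
      rw [h2, hr', map_zero]
    | zero => simp
    | add x y _ _ hx hy =>
      rw [map_add, hx, hy]; simp
    | smul c x _ hx =>
      rw [map_smul, hx]; simp
  have hsurj : Function.Surjective φ := by
    intro u
    have hu : u ∈ Submodule.span K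
        (Set.range fun e : ℕ × ℕ × ℕ => (f 0 ^ e.1 * f 1 ^ e.2.1 * f 2 ^ e.2.2) v) := by
      rw [hv]; trivial
    have hle : Submodule.span K
        (Set.range fun e : ℕ × ℕ × ℕ => (f 0 ^ e.1 * f 1 ^ e.2.1 * f 2 ^ e.2.2) v)
        ≤ LinearMap.range φ := by
      rw [Submodule.span_le]
      rintro _ ⟨e, rfl⟩
      exact ⟨⟨_, mul_mem (mul_mem (pow_mem (hmemS 0) _) (pow_mem (hmemS 1) _))
        (pow_mem (hmemS 2) _)⟩, rfl⟩
    exact hle hu
  refine ⟨S, iR, (Subalgebra.algebra S : Algebra K S), ?_, a,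
    LinearEquiv.ofBijective φ ⟨hinj, hsurj⟩, ?_, ?_, ?_⟩
  · exact Module.Finite.of_injective φ hinj
  · have h1 : Set.range a = (fun x : S => (x : Module.End K V)) ⁻¹' (Set.range f) := by
      ext x
      constructor
      · rintro ⟨i, rfl⟩
        exact ⟨i, rfl⟩
      · rintro ⟨i, hi⟩
        exact ⟨i, Subtype.ext hi⟩
    rw [h1]
    exact Algebra.adjoin_adjoin_coe_preimage
  · intro i r
    rfl
  · show ((1 : S) : Module.End K V) v = v
    rfl

end RING

end Pool.Agent.MPac4d2b
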