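import Mathlib
import Pool.Agent.Lib.MP_ac4d2b_ag.Defs
import Pool.Agent.Lib.MP_ac4d2b_ag.RING
import Pool.Agent.Lib.MP_ac4d2b_ag.SPL

/-!
MP_ac4d2b_ag (project HILB), module C1R: the C1 step in ring form.
-/

set_option autoImplicit false

namespace Pool.Agent.MPac4d2b

section LOCAL
variable {K R : Type} [Field K] [IsAlgClosed K] [CharZero K] [CommRing R] [Algebra K R]
  [FiniteDimensional K R]

theorem cl_c1_ring (a : Fin 3 → R) (ha : Algebra.adjoin K (Set.range a) = ⊤) (j : Fin 3) (g : R)
    (hg : ∀ i, i ≠ j → a i * g = 0) (hgm : g ∉ Ideal.span (a '' {i | i ≠ j}))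
    (hdim : 2 ≤ Module.finrank K R) (IH : ∀ k < Module.finrank K R, MainV K k) :
    Cl (mulT K a) := by
  let J : Submodule K R := (Ideal.span (a '' {i | i ≠ j})).restrictScalars K
  have hgJ : g ∉ J := hgm
  obtain ⟨f, hfg, hfJ⟩ := Submodule.exists_dual_map_eq_bot_of_notMem hgJ inferInstance
  let lam : Module.Dual K R := (f g)⁻¹ • f
  have hlg : lam g = 1 := by
    show (f g)⁻¹ • f g = 1
    rw [smul_eq_mul, inv_mul_cancel₀ hfg]
  have hlJ : ∀ r ∈ J, lam r = 0 := by
    intro r hr
    have h1 : f r ∈ J.map f := Submodule.mem_map_of_mem hr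
    rw [hfJ, Submodule.mem_bot] at h1
    show (f g)⁻¹ • f r = 0
    rw [h1, smul_zero]
  let E : Module.End K R := lam.smulRight g
  have hEr : ∀ r, E r = lam r • g := fun r => rfl
  have hE : E * E = E := by
    ext r
    rw [Module.End.mul_apply, hEr, hEr, map_smul, smul_eq_mul, hlg, mul_one]
  have hg0 : g ≠ 0 := by
    rintro rfl
    exact hgm (zero_mem _)
  have h0 : E ≠ 0 := by
    intro h
    have h1 := congrArg (fun T : Module.End K R => T g) h
    simp only [hEr, hlg, one_smul, LinearMap.zero_apply] at h1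
    exact hg0 h1
  have h1 : E ≠ 1 := by
    intro h
    have h2 : ∀ r : R, r ∈ Submodule.span K {g} := by
      intro r
      have h3 := congrArg (fun T : Module.End K R => T r) h
      simp only [hEr, Module.End.one_apply] at h3
      rw [← h3]
      exact Submodule.smul_mem _ _ (Submodule.mem_span_singleton_self g)
    have h4 : Submodule.span K {g} = ⊤ := by
      rw [eq_top_iff]
      exact fun r _ => h2 r
    have h5 := finrank_span_singleton (K := K) hg0
    rw [h4, finrank_top] at h5
    omega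
  refine cl_c1 (mulT K a) (mulT_comm a) 1 (mulT_cyc a ha) j E hE h0 h1 ?_ IH
  intro i hi
  ext r
  show E (a i * r) = a i * E r
  have hai : a i * r ∈ J := by
    show a i * r ∈ Ideal.span (a '' {i | i ≠ j})
    exact Ideal.mul_mem_right _ _ (Ideal.subset_span ⟨i, hi, rfl⟩)
  rw [hEr, hEr, hlJ _ hai, zero_smul, mul_smul_comm, hg i hi, smul_zero]

end LOCAL

end Pool.Agent.MPac4d2b
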