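import Mathlib
import Pool.Agent.Lib.MP_ac4d2b_ag.Defs
import Pool.Agent.Lib.MP_ac4d2b_ag.RING

/-!
MP_ac4d2b_ag (project HILB), module GEN: generating triples of local algebras.
-/

set_option autoImplicit false

namespace Pool.Agent.MPac4d2b

open Matrix

namespace GENAux

variable {K R : Type} [Field K] [CommRing R] [Algebra K R]

theorem lin_lin (A B : Matrix (Fin 3) (Fin 3) K) (x : Fin 3 → R) :
    lin B (lin A x) = lin (B * A) x := by
  funext i
  simp only [lin, Finset.smul_sum, smul_smul, Matrix.mul_apply, Finset.sum_smul]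
  rw [Finset.sum_comm]

theorem lin_one (x : Fin 3 → R) : lin (1 : Matrix (Fin 3) (Fin 3) K) x = x := by
  funext i
  simp [lin, Matrix.one_apply]

theorem lin_mem_ideal (A : Matrix (Fin 3) (Fin 3) K) (x : Fin 3 → R) (i : Fin 3) :
    lin A x i ∈ mx x := by
  refine Submodule.sum_mem _ fun j _ => ?_
  rw [Algebra.smul_def]
  exact Ideal.mul_mem_left _ _ (Ideal.subset_span ⟨j, rfl⟩)

theorem lin_mem_adjoin (A : Matrix (Fin 3) (Fin 3) K) (x : Fin 3 → R) (i : Fin 3) :
    lin A x i ∈ Algebra.adjoin K (Set.range x) := by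
  refine Subalgebra.sum_mem _ fun j _ => ?_
  exact Subalgebra.smul_mem _ (Algebra.subset_adjoin (Set.mem_range_self j)) _

theorem mem_mx {R : Type} [CommRing R] (x : Fin 3 → R) (i : Fin 3) : x i ∈ mx x :=
  Ideal.subset_span (Set.mem_range_self i)

theorem mul_mem_Fil (x : Fin 3 → R) (j : ℕ) (i : Fin 3) (u : R)
    (hu : u ∈ Fil (mulT K x) (1 : R) j) : u * x i ∈ Fil (mulT K x) (1 : R) (j + 1) := by
  unfold Fil at hu
  induction hu using Submodule.span_induction with
  | mem u hu =>
    obtain ⟨a, b, c, habc, rfl⟩ := hu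
    rw [RINGAux.mulT_mon]
    fin_cases i
    · refine Submodule.subset_span ⟨a + 1, b, c, by omega, ?_⟩
      rw [RINGAux.mulT_mon]
      simp only [Fin.zero_eta]
      ring
    · refine Submodule.subset_span ⟨a, b + 1, c, by omega, ?_⟩
      rw [RINGAux.mulT_mon]
      simp only [Fin.mk_one]
      ring
    · refine Submodule.subset_span ⟨a, b, c + 1, by omega, ?_⟩
      rw [RINGAux.mulT_mon]
      simp only [Fin.reduceFinMk]
      ring
  | zero => rw [zero_mul]; exact Submodule.zero_mem _
  | add u v _ _ hu hv => rw [add_mul]; exact Submodule.add_mem _ hu hv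
  | smul c u _ hu => rw [smul_mul_assoc]; exact Submodule.smul_mem _ _ hu

/-- An induction principle for the powers of an ideal generated by a family. -/
theorem pow_succ_induction {ι : Type} (y : ι → R) (I : Ideal R)
    (hI : I = Ideal.span (Set.range y)) (j : ℕ) (P : AddSubgroup R)
    (h : ∀ u ∈ I ^ j, ∀ i, u * y i ∈ P) : ∀ r ∈ I ^ (j + 1), r ∈ P := by
  intro r hr
  rw [pow_succ] at hr
  refine Submodule.mul_induction_on hr ?_ ?_
  · intro u hu w hw
    rw [hI] at hw
    have key : ∀ v ∈ I ^ j, v * w ∈ P := by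
      clear hu
      unfold Ideal.span at hw
      induction hw using Submodule.span_induction with
      | mem w hw =>
        obtain ⟨i, rfl⟩ := hw
        intro v hv
        exact h v hv i
      | zero => intro v _; rw [mul_zero]; exact P.zero_mem
      | add w w' _ _ hw hw' =>
        intro v hv
        rw [mul_add]
        exact P.add_mem (hw v hv) (hw' v hv)
      | smul c w _ hw =>
        intro v hv
        have h1 : v * c • w = (v * c) * w := by rw [smul_eq_mul]; ring
        rw [h1]
        exact hw _ (Ideal.mul_mem_right _ _ hv)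
    exact key u hu
  · intro a b ha hb
    exact P.add_mem ha hb

theorem exists_sub_mem {ι : Type} (y : ι → R) (I : Ideal R)
    (hI : I = Ideal.span (Set.range y)) (hs : ∀ r : R, ∃ c : K, r - algebraMap K R c ∈ I)
    (j : ℕ) : ∀ r ∈ I ^ j, ∃ b ∈ Algebra.adjoin K (Set.range y), r - b ∈ I ^ (j + 1) := by
  induction j with
  | zero =>
    intro r _
    obtain ⟨c, hc⟩ := hs r
    exact ⟨algebraMap K R c, Subalgebra.algebraMap_mem _ _, by simpa using hc⟩
  | succ j ih =>
    let P : AddSubgroup R :=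
      { carrier := {r | ∃ b ∈ Algebra.adjoin K (Set.range y), r - b ∈ I ^ (j + 1 + 1)}
        add_mem' := by
          rintro r s ⟨b, hb, hr⟩ ⟨b', hb', hs⟩
          refine ⟨b + b', add_mem hb hb', ?_⟩
          have : r + s - (b + b') = (r - b) + (s - b') := by ring
          rw [this]
          exact add_mem hr hs
        zero_mem' := ⟨0, zero_mem _, by simp⟩
        neg_mem' := by
          rintro r ⟨b, hb, hr⟩
          refine ⟨-b, neg_mem hb, ?_⟩
          have : -r - -b = -(r - b) := by ring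
          rw [this]
          exact neg_mem hr }
    refine pow_succ_induction y I hI j P ?_
    intro u hu i
    obtain ⟨b, hb, hub⟩ := ih u hu
    refine ⟨b * y i, mul_mem hb (Algebra.subset_adjoin ⟨i, rfl⟩), ?_⟩
    have : u * y i - b * y i = (u - b) * y i := by ring
    rw [this, pow_succ I (j + 1)]
    exact Ideal.mul_mem_mul hub (by rw [hI]; exact Ideal.subset_span ⟨i, rfl⟩)

end GENAux

open GENAux

section GEN
variable {K R : Type} [Field K] [CommRing R] [Algebra K R]

/-- If every element is a constant plus an element of a nilpotent ideal `I` and `I` is generated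
by the family `y` then `y` generates the algebra. -/
theorem adjoin_eq_top_of_ideal {ι : Type} (y : ι → R) (I : Ideal R)
    (hI : I = Ideal.span (Set.range y)) (hk : ∃ k : ℕ, I ^ k = ⊥)
    (hs : ∀ r : R, ∃ c : K, r - algebraMap K R c ∈ I) :
    Algebra.adjoin K (Set.range y) = ⊤ := by
  obtain ⟨k, hk⟩ := hk
  have key : ∀ n j : ℕ, k ≤ j + n → ∀ r ∈ I ^ j, r ∈ Algebra.adjoin K (Set.range y) := by
    intro n
    induction n with
    | zero =>
      intro j hj r hr
      have h1 : I ^ j ≤ I ^ k := Ideal.pow_le_pow_right (by omega)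
      have h2 : r ∈ (⊥ : Ideal R) := by rw [← hk]; exact h1 hr
      rw [Ideal.mem_bot] at h2
      rw [h2]
      exact zero_mem _
    | succ n ih =>
      intro j hj r hr
      obtain ⟨b, hb, hrb⟩ := exists_sub_mem y I hI hs j r hr
      have h1 := ih (j + 1) (by omega) _ hrb
      have h2 : r = (r - b) + b := by ring
      rw [h2]
      exact add_mem h1 hb
  rw [eq_top_iff]
  intro r _
  exact key k 0 (by omega) r (by simp)

theorem mx_scalar (x : Fin 3 → R) (hx : Gen3 K x) (r : R) :
    ∃ c : K, r - algebraMap K R c ∈ mx x := by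
  have hr : r ∈ Algebra.adjoin K (Set.range x) := by rw [hx.1]; trivial
  induction hr using Algebra.adjoin_induction with
  | mem r hr =>
    obtain ⟨i, rfl⟩ := hr
    exact ⟨0, by rw [map_zero, sub_zero]; exact mem_mx x i⟩
  | algebraMap c => exact ⟨c, by rw [sub_self]; exact zero_mem _⟩
  | add r s _ _ hr hs =>
    obtain ⟨c, hc⟩ := hr
    obtain ⟨d, hd⟩ := hs
    refine ⟨c + d, ?_⟩
    have : r + s - algebraMap K R (c + d) = (r - algebraMap K R c) + (s - algebraMap K R d) := by
      rw [map_add]; ring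
    rw [this]
    exact add_mem hc hd
  | mul r s _ _ hr hs =>
    obtain ⟨c, hc⟩ := hr
    obtain ⟨d, hd⟩ := hs
    refine ⟨c * d, ?_⟩
    have : r * s - algebraMap K R (c * d)
        = s * (r - algebraMap K R c) + algebraMap K R c * (s - algebraMap K R d) := by
      rw [map_mul]; ring
    rw [this]
    exact add_mem (Ideal.mul_mem_left _ _ hc) (Ideal.mul_mem_left _ _ hd)

theorem gen3_lin (x : Fin 3 → R) (hx : Gen3 K x) (A : Matrix (Fin 3) (Fin 3) K)
    (hA : IsUnit A.det) : Gen3 K (lin A x) ∧ mx (lin A x) = mx x := by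
  have hinv : lin A⁻¹ (lin A x) = x := by
    rw [lin_lin, Matrix.nonsing_inv_mul _ hA, lin_one]
  have hm : mx (lin A x) = mx x := by
    apply le_antisymm
    · refine Ideal.span_le.mpr ?_
      rintro _ ⟨i, rfl⟩
      exact lin_mem_ideal A x i
    · refine Ideal.span_le.mpr ?_
      rintro _ ⟨i, rfl⟩
      have h1 := lin_mem_ideal A⁻¹ (lin A x) i
      rw [hinv] at h1
      exact h1
  refine ⟨⟨?_, ?_⟩, hm⟩
  · rw [eq_top_iff, ← hx.1]
    refine Algebra.adjoin_le ?_
    rintro _ ⟨i, rfl⟩
    have h1 := lin_mem_adjoin A⁻¹ (lin A x) i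
    rw [hinv] at h1
    exact h1
  · rw [hm]; exact hx.2

theorem gen3_congr (x x' : Fin 3 → R) (hx : Gen3 K x) (h : ∀ i, x' i - x i ∈ mx x ^ 2) :
    Gen3 K x' ∧ mx x' = mx x := by
  have hle : mx x' ≤ mx x := by
    refine Ideal.span_le.mpr ?_
    rintro _ ⟨i, rfl⟩
    have h1 : x' i = (x' i - x i) + x i := by ring
    rw [h1]
    exact add_mem (Ideal.pow_le_self (by norm_num) (h i)) (mem_mx x i)
  have h2 : mx x ≤ mx x' ⊔ mx x ^ 2 := by
    refine Ideal.span_le.mpr ?_
    rintro _ ⟨i, rfl⟩
    have h1 : x i = x' i + -(x' i - x i) := by ring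
    rw [h1]
    exact Submodule.add_mem_sup (mem_mx x' i) (neg_mem (h i))
  have h3 : ∀ k : ℕ, mx x ≤ mx x' ⊔ mx x ^ (k + 2) := by
    intro k
    induction k with
    | zero => exact h2
    | succ k ih =>
      refine le_trans ih (sup_le le_sup_left ?_)
      calc mx x ^ (k + 2) = mx x ^ (k + 1) * mx x := pow_succ _ _
        _ ≤ mx x ^ (k + 1) * (mx x' ⊔ mx x ^ 2) := Ideal.mul_mono_right h2
        _ = mx x ^ (k + 1) * mx x' ⊔ mx x ^ (k + 1) * mx x ^ 2 := Ideal.mul_sup _ _ _
        _ ≤ mx x' ⊔ mx x ^ (k + 1 + 2) := by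
          refine sup_le_sup Ideal.mul_le_right ?_
          rw [← pow_add]
  obtain ⟨k, hk⟩ := hx.2
  have hm : mx x' = mx x := by
    refine le_antisymm hle ?_
    have h4 := h3 k
    have h5 : mx x ^ (k + 2) = ⊥ := by
      rw [eq_bot_iff, ← hk]
      exact Ideal.pow_le_pow_right (by omega)
    rwa [h5, sup_bot_eq] at h4
  refine ⟨⟨?_, ?_⟩, hm⟩
  · refine adjoin_eq_top_of_ideal x' (mx x) ?_ hx.2 (mx_scalar x hx)
    rw [← hm]
    rfl
  · rw [hm]; exact hx.2

theorem quad_lin (q A : Matrix (Fin 3) (Fin 3) K) (x : Fin 3 → R) :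
    quad q (lin A x) = quad (Aᵀ * q * A) x := by
  simp only [quad, lin, Fin.sum_univ_three, Matrix.mul_apply, Matrix.transpose_apply,
    Algebra.smul_def, map_add, map_mul]
  ring

theorem mx_pow_span (x : Fin 3 → R) (hx : Gen3 K x) (j : ℕ) :
    (mx x ^ j).restrictScalars K = Fil (mulT K x) 1 j := by
  apply le_antisymm
  · induction j with
    | zero =>
      intro r _
      have h1 := mulT_cyc x hx.1
      unfold Cyc at h1
      have h2 : r ∈ Submodule.span K (Set.range fun e : ℕ × ℕ × ℕ =>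
          (mulT K x 0 ^ e.1 * mulT K x 1 ^ e.2.1 * mulT K x 2 ^ e.2.2) (1 : R)) := by
        rw [h1]; trivial
      refine Submodule.span_mono ?_ h2
      rintro _ ⟨e, rfl⟩
      exact ⟨e.1, e.2.1, e.2.2, by omega, rfl⟩
    | succ j ih =>
      intro r hr
      have h3 := pow_succ_induction x (mx x) rfl j
        (Fil (mulT K x) (1 : R) (j + 1)).toAddSubgroup
        (fun u hu i => mul_mem_Fil x j i u (ih hu)) r hr
      exact h3
  · refine Submodule.span_le.mpr ?_
    rintro _ ⟨a, b, c, habc, rfl⟩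
    rw [RINGAux.mulT_mon, mul_one]
    have h1 : x 0 ^ a * x 1 ^ b * x 2 ^ c ∈ mx x ^ (a + b + c) := by
      rw [pow_add, pow_add]
      exact Ideal.mul_mem_mul (Ideal.mul_mem_mul (Ideal.pow_mem_pow (mem_mx x 0) _)
        (Ideal.pow_mem_pow (mem_mx x 1) _)) (Ideal.pow_mem_pow (mem_mx x 2) _)
    exact Ideal.pow_le_pow_right habc h1

theorem mx_pow_ne (x : Fin 3 → R) (hx : Gen3 K x) (j : ℕ) (h : mx x ^ j = mx x ^ (j + 1)) :
    mx x ^ j = ⊥ := by
  have h1 : ∀ n : ℕ, mx x ^ j = mx x ^ (j + n) := by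
    intro n
    induction n with
    | zero => rfl
    | succ n ih =>
      calc mx x ^ j = mx x ^ (j + 1) := h
        _ = mx x ^ j * mx x := pow_succ _ _
        _ = mx x ^ (j + n) * mx x := by rw [← ih]
        _ = mx x ^ (j + (n + 1)) := by rw [← pow_succ]; rfl
  obtain ⟨k, hk⟩ := hx.2
  rw [h1 k, eq_bot_iff, ← hk]
  exact Ideal.pow_le_pow_right (by omega)

theorem mx_pow_lt [FiniteDimensional K R] (x : Fin 3 → R) (hx : Gen3 K x) (j : ℕ)
    (h : mx x ^ j ≠ ⊥) : dimI K (mx x ^ (j + 1)) < dimI K (mx x ^ j) := by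
  unfold dimI
  apply Submodule.finrank_lt_finrank_of_lt
  refine lt_of_le_of_ne ?_ ?_
  · exact fun r hr => Ideal.pow_le_pow_right (Nat.le_succ j) hr
  · intro heq
    apply h
    apply mx_pow_ne x hx j
    exact (Submodule.restrictScalars_injective K R R heq).symm

end GEN

end Pool.Agent.MPac4d2b
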