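import Mathlib
import Pool.Agent.Lib.MP_ac4d2b_ag.Defs
import Pool.Agent.Lib.MP_ac4d2b_ag.GEN

/-!
MP_ac4d2b_ag (project HILB), module DIM: dimension counts.
-/

set_option autoImplicit false

namespace Pool.Agent.MPac4d2b

open Matrix

namespace DIMAux

variable {K R : Type} [Field K] [CommRing R] [Algebra K R]

theorem smul_mem_ideal (I : Ideal R) (c : K) {r : R} (hr : r ∈ I) : c • r ∈ I := by
  rw [Algebra.smul_def]
  exact Ideal.mul_mem_left _ _ hr

theorem nontrivial_of_ind1 (x : Fin 3 → R) (h1 : Ind1 K x) : (1 : R) ≠ 0 := by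
  intro h
  have hz : ∀ r : R, r = 0 := fun r => by rw [← mul_one r, h, mul_zero]
  have h2 := h1 (fun _ => 1) (by rw [hz (∑ i, (1 : K) • x i)]; exact zero_mem _)
  have h3 := congrFun h2 0
  simp at h3

theorem one_not_mem (x : Fin 3 → R) (hx : Gen3 K x) (h1 : Ind1 K x) : (1 : R) ∉ mx x := by
  intro h
  apply nontrivial_of_ind1 x h1
  obtain ⟨k, hk⟩ := hx.2
  have h2 : (1 : R) ^ k ∈ mx x ^ k := Ideal.pow_mem_pow h k
  rw [hk, one_pow] at h2
  exact h2

theorem const_zero (x : Fin 3 → R) (hx : Gen3 K x) (h1 : Ind1 K x) (c : K)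
    (hc : c • (1 : R) ∈ mx x) : c = 0 := by
  by_contra hne
  apply one_not_mem x hx h1
  have h2 := smul_mem_ideal (mx x) c⁻¹ hc
  rwa [smul_smul, inv_mul_cancel₀ hne, one_smul] at h2

theorem dim_aux [FiniteDimensional K R] (x : Fin 3 → R) (hx : Gen3 K x) (h1 : Ind1 K x)
    {P : Type} [AddCommGroup P] [Module K P] [FiniteDimensional K P] (L : P →ₗ[K] R)
    (hL2 : ∀ p, L p ∈ mx x ^ 2) (hL3 : ∀ p, L p ∈ mx x ^ 3 → p = 0) :
    dimI K (mx x ^ 3) + (Module.finrank K P + 4) ≤ Module.finrank K R := by
  let V : Submodule K R := (mx x ^ 3).restrictScalars K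
  let Φ : (K × (Fin 3 → K) × P) →ₗ[K] R :=
    { toFun := fun t => t.1 • (1 : R) + ∑ i, t.2.1 i • x i + L t.2.2
      map_add' := by
        intro s t
        simp only [Prod.fst_add, Prod.snd_add, Pi.add_apply, add_smul, map_add,
          Finset.sum_add_distrib]
        ring
      map_smul' := by
        intro c t
        simp only [Prod.smul_fst, Prod.smul_snd, Pi.smul_apply, map_smul, smul_add,
          Finset.smul_sum, smul_smul, smul_eq_mul, RingHom.id_apply] }
  have hinj : Function.Injective (V.mkQ ∘ₗ Φ) := by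
    rw [← LinearMap.ker_eq_bot, LinearMap.ker_eq_bot']
    rintro ⟨c, l, p⟩ h
    rw [LinearMap.comp_apply, Submodule.mkQ_apply, Submodule.Quotient.mk_eq_zero] at h
    have h3 : c • (1 : R) + ∑ i, l i • x i + L p ∈ mx x ^ 3 := h
    have hl : ∑ i, l i • x i ∈ mx x :=
      sum_mem fun i _ => smul_mem_ideal _ _ (Ideal.subset_span (Set.mem_range_self i))
    have hp1 : L p ∈ mx x := Ideal.pow_le_self (by norm_num) (hL2 p)
    have h31 : c • (1 : R) + ∑ i, l i • x i + L p ∈ mx x := Ideal.pow_le_self (by norm_num) h3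
    have hc : c • (1 : R) ∈ mx x := by
      have e : c • (1 : R) = (c • (1 : R) + ∑ i, l i • x i + L p) - (∑ i, l i • x i) - L p := by
        ring
      rw [e]
      exact sub_mem (sub_mem h31 hl) hp1
    have hc0 : c = 0 := const_zero x hx h1 c hc
    subst hc0
    have h32 : (0 : K) • (1 : R) + ∑ i, l i • x i + L p ∈ mx x ^ 2 :=
      Ideal.pow_le_pow_right (by omega) h3
    have hl2 : ∑ i, l i • x i ∈ mx x ^ 2 := by
      have e : ∑ i, l i • x i = ((0 : K) • (1 : R) + ∑ i, l i • x i + L p) - L p := by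
        rw [zero_smul]
        ring
      rw [e]
      exact sub_mem h32 (hL2 p)
    have hl0 : l = 0 := h1 l hl2
    subst hl0
    have hp0 : p = 0 := by
      apply hL3
      simpa using h3
    subst hp0
    rfl
  have h4 := LinearMap.finrank_le_finrank_of_injective hinj
  have h5 := Submodule.finrank_quotient_add_finrank V
  simp only [Module.finrank_prod, Module.finrank_self, Module.finrank_fin_fun] at h4
  change Module.finrank K V + (Module.finrank K P + 4) ≤ Module.finrank K R
  omega

theorem quad_mem (x : Fin 3 → R) (q : Matrix (Fin 3) (Fin 3) K) : quad q x ∈ mx x ^ 2 := by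
  refine sum_mem fun i _ => sum_mem fun j _ => smul_mem_ideal _ _ ?_
  rw [pow_two]
  exact Ideal.mul_mem_mul (Ideal.subset_span (Set.mem_range_self i))
    (Ideal.subset_span (Set.mem_range_self j))

/-- The quadratic form attached to a linear family of matrices, as a linear map. -/
noncomputable def quadL {P : Type} [AddCommGroup P] [Module K P] (x : Fin 3 → R)
    (Q : P →ₗ[K] Matrix (Fin 3) (Fin 3) K) : P →ₗ[K] R where
  toFun := fun p => quad (Q p) x
  map_add' := by
    intro p q
    simp only [quad, map_add, Matrix.add_apply, add_smul, Finset.sum_add_distrib]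
  map_smul' := by
    intro c p
    simp only [quad, map_smul, Matrix.smul_apply, smul_eq_mul, Finset.smul_sum, smul_smul,
      RingHom.id_apply]

/-- Symmetric matrices. -/
def sym6 : (Fin 6 → K) →ₗ[K] Matrix (Fin 3) (Fin 3) K where
  toFun := fun p => !![p 0, p 1, p 2; p 1, p 3, p 4; p 2, p 4, p 5]
  map_add' := by
    intro p q
    ext i j
    fin_cases i <;> fin_cases j <;> simp
  map_smul' := by
    intro c p
    ext i j
    fin_cases i <;> fin_cases j <;> simp

/-- Symmetric matrices with zero first entry. -/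
def sym5 : (Fin 5 → K) →ₗ[K] Matrix (Fin 3) (Fin 3) K where
  toFun := fun p => !![0, p 0, p 1; p 0, p 2, p 3; p 1, p 3, p 4]
  map_add' := by
    intro p q
    ext i j
    fin_cases i <;> fin_cases j <;> simp
  map_smul' := by
    intro c p
    ext i j
    fin_cases i <;> fin_cases j <;> simp

theorem sym6_symm (p : Fin 6 → K) : (sym6 p).IsSymm := by
  ext i j
  fin_cases i <;> fin_cases j <;> simp [sym6]

theorem sym5_symm (p : Fin 5 → K) : (sym5 p).IsSymm := by
  ext i j
  fin_cases i <;> fin_cases j <;> simp [sym5]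

end DIMAux

open DIMAux

section DIM
variable {K R : Type} [Field K] [IsAlgClosed K] [CharZero K] [CommRing R] [Algebra K R]
  [FiniteDimensional K R]

theorem dim_h6 (x : Fin 3 → R) (hx : Gen3 K x) (h1 : Ind1 K x)
    (h2 : ∀ q : Matrix (Fin 3) (Fin 3) K, q.IsSymm → quad q x ∈ mx x ^ 3 → q = 0) :
    dimI K (mx x ^ 3) + 10 ≤ Module.finrank K R := by
  have h := dim_aux x hx h1 (quadL x (sym6 (K := K))) (fun p => quad_mem x _) (by
    intro p hp
    have h3 := h2 (sym6 p) (sym6_symm p) hp
    have e : ∀ i j, sym6 p i j = 0 := fun i j => by rw [h3]; rfl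
    have e00 := e 0 0
    have e01 := e 0 1
    have e02 := e 0 2
    have e11 := e 1 1
    have e12 := e 1 2
    have e22 := e 2 2
    simp only [sym6, LinearMap.coe_mk, AddHom.coe_mk, Matrix.of_apply, Matrix.cons_val',
      Matrix.cons_val_zero, Matrix.cons_val_one, Matrix.cons_val, Matrix.cons_val_fin_one]
      at e00 e01 e02 e11 e12 e22
    funext i
    fin_cases i
    · exact e00
    · exact e01
    · exact e02
    · exact e11
    · exact e12
    · exact e22)
  rw [Module.finrank_fin_fun] at h
  omega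

theorem dim_h5 (x : Fin 3 → R) (hx : Gen3 K x) (h1 : Ind1 K x)
    (h2 : ∀ q : Matrix (Fin 3) (Fin 3) K, q.IsSymm → quad q x ∈ mx x ^ 3 →
      ∀ i j, ¬ (i = 0 ∧ j = 0) → q i j = 0) :
    dimI K (mx x ^ 3) + 9 ≤ Module.finrank K R := by
  have h := dim_aux x hx h1 (quadL x (sym5 (K := K))) (fun p => quad_mem x _) (by
    intro p hp
    have e := h2 (sym5 p) (sym5_symm p) hp
    have e01 := e 0 1 (by decide)
    have e02 := e 0 2 (by decide)
    have e11 := e 1 1 (by decide)
    have e12 := e 1 2 (by decide)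
    have e22 := e 2 2 (by decide)
    simp only [sym5, LinearMap.coe_mk, AddHom.coe_mk, Matrix.of_apply, Matrix.cons_val',
      Matrix.cons_val_zero, Matrix.cons_val_one, Matrix.cons_val, Matrix.cons_val_fin_one]
      at e01 e02 e11 e12 e22
    funext i
    fin_cases i
    · exact e01
    · exact e02
    · exact e11
    · exact e12
    · exact e22)
  rw [Module.finrank_fin_fun] at h
  omega

end DIM

end Pool.Agent.MPac4d2b
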