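import Mathlib
import Pool.Agent.Lib.MP_ac4d2b_ag.Defs
import Pool.Agent.Lib.MP_ac4d2b_ag.GEN

/-!
MP_ac4d2b_ag (project HILB), module GRO: growth of the Hilbert function, case distinction.
-/

set_option autoImplicit false

namespace Pool.Agent.MPac4d2b

open Matrix

namespace GROAux

theorem exists_prod {R : Type} [CommRing R] (I J : Ideal R) (h : ¬ (I ^ 3 ≤ J)) :
    ∃ a ∈ I, ∃ b ∈ I, ∃ c ∈ I, a * b * c ∉ J := by
  by_contra hcon
  push Not at hcon
  apply h
  have h3 : I ^ 3 = I * I * I := by ring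
  rw [h3]
  intro r hr
  refine Submodule.mul_induction_on hr ?_ ?_
  · intro m hm c hc
    revert c
    refine Submodule.mul_induction_on hm ?_ ?_
    · intro a ha b hb c hc
      exact hcon a ha b hb c hc
    · intro m m' h1 h2 c hc
      rw [add_mul]
      exact J.add_mem (h1 c hc) (h2 c hc)
  · intro a b ha hb
    exact J.add_mem ha hb

end GROAux

open GROAux

section GRO
variable {K R : Type} [Field K] [IsAlgClosed K] [CharZero K] [CommRing R] [Algebra K R]
  [FiniteDimensional K R]

theorem h5_cases (x : Fin 3 → R) (hx : Gen3 K x) (h3 : dimI K (mx x ^ 3) ≤ 3) :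
    mx x ^ 4 = ⊥ ∨ (dimI K (mx x ^ 4) ≤ 1 ∧ mx x ^ 5 = ⊥) ∨ mx x ^ 5 ≠ ⊥ := by
  by_cases h4 : mx x ^ 4 = ⊥
  · exact Or.inl h4
  by_cases h5 : mx x ^ 5 = ⊥
  swap
  · exact Or.inr (Or.inr h5)
  refine Or.inr (Or.inl ⟨?_, h5⟩)
  have h3' : mx x ^ 3 ≠ ⊥ := by
    intro h
    apply h4
    rw [eq_bot_iff, ← h]
    exact Ideal.pow_le_pow_right (by omega)
  have hlt : dimI K (mx x ^ 4) < dimI K (mx x ^ 3) := mx_pow_lt x hx 3 h3'
  by_contra hcon
  push Not at hcon
  have hd4 : dimI K (mx x ^ 4) = 2 := by omega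
  have hd3 : dimI K (mx x ^ 3) = 3 := by omega
  have hnle : ¬ (mx x ^ 3 ≤ mx x ^ 4) := by
    intro hle
    apply h3'
    exact mx_pow_ne x hx 3 (le_antisymm hle (Ideal.pow_le_pow_right (by omega)))
  obtain ⟨a, ha, b, hb, c, hc, habc⟩ := exists_prod _ _ hnle
  set s : R := a * b * c with hs
  have hprod : ∀ u ∈ mx x, u * b * c ∈ mx x ^ 3 := by
    intro u hu
    have e3 : mx x ^ 3 = mx x * mx x * mx x := by ring
    rw [e3]
    exact Ideal.mul_mem_mul (Ideal.mul_mem_mul hu hb) hc
  have hs3 : s ∈ mx x ^ 3 := hprod a ha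
  have hdec : ∀ t ∈ mx x ^ 3, ∃ l : K, ∃ e ∈ mx x ^ 4, t = l • s + e := by
    intro t ht
    have hle1 : ((mx x ^ 4).restrictScalars K : Submodule K R) ⊔ Submodule.span K {s}
        ≤ (mx x ^ 3).restrictScalars K := by
      refine sup_le ?_ ?_
      · exact fun r hr => Ideal.pow_le_pow_right (by omega) hr
      · rw [Submodule.span_le]
        rintro _ rfl
        exact hs3
    have hlt1 : ((mx x ^ 4).restrictScalars K : Submodule K R)
        < (mx x ^ 4).restrictScalars K ⊔ Submodule.span K {s} := by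
      refine lt_of_le_of_ne le_sup_left ?_
      intro heq
      apply habc
      have h1 : s ∈ ((mx x ^ 4).restrictScalars K : Submodule K R) := by
        rw [heq]
        exact Submodule.mem_sup_right (Submodule.mem_span_singleton_self s)
      exact h1
    have hr1 := Submodule.finrank_lt_finrank_of_lt hlt1
    have heq := Submodule.eq_of_le_of_finrank_le hle1 (by
      unfold dimI at hd4 hd3
      omega)
    have h1 : t ∈ ((mx x ^ 4).restrictScalars K : Submodule K R) ⊔ Submodule.span K {s} := by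
      rw [heq]; exact ht
    obtain ⟨e, he, v, hv, hev⟩ := Submodule.mem_sup.mp h1
    obtain ⟨l, rfl⟩ := Submodule.mem_span_singleton.mp hv
    exact ⟨l, e, he, by rw [← hev, add_comm]⟩
  have hz : ∀ u ∈ mx x, ∀ e ∈ mx x ^ 4, u * e = 0 := by
    intro u hu e he
    have h1 : u * e ∈ mx x ^ 5 := by
      rw [pow_succ' _ 4]
      exact Ideal.mul_mem_mul hu he
    rw [h5] at h1
    exact h1
  have hus : ∀ u ∈ mx x, ∃ l : K, u * s = l • (a * s) := by
    intro u hu
    obtain ⟨l, e, he, hle⟩ := hdec _ (hprod u hu)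
    refine ⟨l, ?_⟩
    have h1 : u * s = a * (u * b * c) := by rw [hs]; ring
    rw [h1, hle, mul_add, hz a ha e he, add_zero, mul_smul_comm]
  have hle4 : ((mx x ^ 4).restrictScalars K : Submodule K R) ≤ Submodule.span K {a * s} := by
    intro r hr
    have hr' : r ∈ mx x * mx x ^ 3 := by
      rw [← pow_succ']
      exact hr
    refine Submodule.mul_induction_on hr' ?_ ?_
    · intro u hu t ht
      obtain ⟨l, e, he, rfl⟩ := hdec t ht
      obtain ⟨l', hl'⟩ := hus u hu
      rw [mul_add, hz u hu e he, add_zero, mul_smul_comm, hl']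
      exact Submodule.smul_mem _ _ (Submodule.smul_mem _ _ (Submodule.mem_span_singleton_self _))
    · intro p q hp hq
      exact add_mem hp hq
  have h6 := Submodule.finrank_mono hle4
  have h7 := finrank_span_le_card (R := K) ({a * s} : Set R)
  simp only [Set.toFinset_singleton, Finset.card_singleton] at h7
  unfold dimI at hd4
  omega

end GRO

end Pool.Agent.MPac4d2b
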