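import Mathlib
import Pool.Agent.Lib.MP_ac4d2b_ag.Defs
import Pool.Agent.Lib.MP_ac4d2b_ag.RING
import Pool.Agent.Lib.MP_ac4d2b_ag.CL2

/-!
MP_ac4d2b_ag (project HILB), module RINGC: change of the generating triple.
-/

set_option autoImplicit false

namespace Pool.Agent.MPac4d2b

theorem cl_change {K R : Type} [Field K] [CommRing R] [Algebra K R] (a a' : Fin 3 → R) (ha : Algebra.adjoin K (Set.range a) = ⊤)
    (h : Cl (mulT K a)) : Cl (mulT K a') := by
  refine cl_adjoin (mulT K a) (mulT K a') (mulT_comm a) h fun i => ?_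
  have h1 : a' i ∈ Algebra.adjoin K (Set.range a) := by rw [ha]; trivial
  have h2 : (Algebra.lmul K R) (a' i) ∈ (Algebra.adjoin K (Set.range a)).map (Algebra.lmul K R) :=
    ⟨a' i, h1, rfl⟩
  rw [AlgHom.map_adjoin, ← Set.range_comp] at h2
  exact h2

end Pool.Agent.MPac4d2b
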