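import Mathlib
import Pool.Agent.Lib.MP_ac4d2b_ag.Defs
import Pool.Agent.Lib.MP_ac4d2b_ag.GEN
import Pool.Agent.Lib.MP_ac4d2b_ag.RINGC
import Pool.Agent.Lib.MP_ac4d2b_ag.C1R

set_option autoImplicit false

namespace Pool.Agent.MPac4d2b

open Matrix

section H5B
variable {K R : Type} [Field K] [IsAlgClosed K] [CharZero K] [CommRing R] [Algebra K R]
  [FiniteDimensional K R]

namespace H5BAux

omit [IsAlgClosed K] [CharZero K] in
/-- the last step of the chain: an element whose fifth power does not vanish -/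
theorem exists_z (I : Ideal R) (h3 : dimI K (I ^ 3) ≤ 3) (h4 : dimI K (I ^ 4) < dimI K (I ^ 3))
    (h5 : dimI K (I ^ 5) < dimI K (I ^ 4)) (h5' : 1 ≤ dimI K (I ^ 5)) (h5n : I ^ 5 ≠ ⊥)
    (h6 : I ^ 6 = ⊥) : ∃ z ∈ I, z ^ 5 ≠ 0 := by
  have e4 : dimI K (I ^ 4) = 2 := by omega
  have e5 : dimI K (I ^ 5) = 1 := by omega
  -- the first factor
  obtain ⟨z, hz, s, hs, hzs⟩ : ∃ z ∈ I, ∃ s ∈ I ^ 4, z * s ≠ 0 := by
    by_contra hcon
    push Not at hcon
    refine h5n ?_
    rw [eq_bot_iff, show (5 : ℕ) = 4 + 1 from rfl, pow_succ', Ideal.mul_le]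
    intro r hr s hs
    rw [hcon r hr s hs]
    exact Ideal.zero_mem _
  have key : ∀ w ∈ I, ∀ s' ∈ I ^ 4, w * s' ≠ 0 → z * s' ≠ 0 := by
    intro w hw s' hs' hws
    have hs5 : s' ∉ I ^ 5 := by
      intro h
      refine hws ?_
      have : w * s' ∈ I ^ 6 := by
        rw [show (6 : ℕ) = 5 + 1 from rfl, pow_succ']
        exact Ideal.mul_mem_mul hw h
      rw [h6] at this
      exact this
    have hle : ((I ^ 5).restrictScalars K : Submodule K R) ≤ (I ^ 4).restrictScalars K := by
      intro r hr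
      exact Ideal.pow_le_pow_right (by norm_num) hr
    have hlt : ((I ^ 5).restrictScalars K : Submodule K R) <
        (I ^ 5).restrictScalars K ⊔ Submodule.span K {s'} := by
      refine lt_of_le_of_ne le_sup_left fun h => hs5 ?_
      have : s' ∈ (I ^ 5).restrictScalars K ⊔ Submodule.span K {s'} :=
        Submodule.mem_sup_right (Submodule.mem_span_singleton_self s')
      rw [← h] at this
      exact this
    have hlt' := Submodule.finrank_lt_finrank_of_lt hlt
    have hle2 : (I ^ 5).restrictScalars K ⊔ Submodule.span K {s'} ≤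
        ((I ^ 4).restrictScalars K : Submodule K R) := by
      refine sup_le hle ?_
      rw [Submodule.span_singleton_le_iff_mem]
      exact hs'
    have heq : (I ^ 5).restrictScalars K ⊔ Submodule.span K {s'} =
        ((I ^ 4).restrictScalars K : Submodule K R) := by
      refine Submodule.eq_of_le_of_finrank_le hle2 ?_
      unfold dimI at e4 e5
      omega
    have hs2 : s ∈ (I ^ 5).restrictScalars K ⊔ Submodule.span K {s'} := by
      rw [heq]
      exact hs
    obtain ⟨u, hu, v, hv, huv⟩ := Submodule.mem_sup.1 hs2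
    obtain ⟨c, hc⟩ := Submodule.mem_span_singleton.1 hv
    intro h0
    refine hzs ?_
    have hzu : z * u = 0 := by
      have : z * u ∈ I ^ 6 := by
        rw [show (6 : ℕ) = 5 + 1 from rfl, pow_succ']
        exact Ideal.mul_mem_mul hz hu
      rw [h6] at this
      exact this
    rw [← huv, ← hc, mul_add, hzu, mul_smul_comm, h0, smul_zero, add_zero]
  have step : ∀ j k : ℕ, j + k = 4 → ∃ t ∈ I ^ j, z ^ (k + 1) * t ≠ 0 := by
    intro j k
    induction k generalizing j with
    | zero =>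
      intro hj
      obtain rfl : j = 4 := by omega
      exact ⟨s, hs, by simpa using hzs⟩
    | succ k ih =>
      intro hj
      obtain ⟨t, ht, hzt⟩ := ih (j + 1) (by omega)
      obtain ⟨w, hw, t', ht', hwt⟩ : ∃ w ∈ I, ∃ t' ∈ I ^ j, z ^ (k + 1) * (w * t') ≠ 0 := by
        by_contra hcon
        push Not at hcon
        refine hzt ?_
        rw [pow_succ'] at ht
        refine Submodule.mul_induction_on ht (fun w hw t' ht' => hcon w hw t' ht') ?_
        intro a b ha hb
        rw [mul_add, ha, hb, add_zero]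
      refine ⟨t', ht', ?_⟩
      have h1 : w * (z ^ (k + 1) * t') ≠ 0 := by
        intro h
        refine hwt ?_
        rw [← h]
        ring
      have h2 : z ^ (k + 1) * t' ∈ I ^ 4 := by
        have : I ^ 4 = I ^ (k + 1) * I ^ j := by
          rw [← pow_add]
          congr 1
          omega
        rw [this]
        exact Ideal.mul_mem_mul (Ideal.pow_mem_pow hz _) ht'
      have h3 := key w hw _ h2 h1
      intro h
      refine h3 ?_
      rw [← h]
      ring
  obtain ⟨t, -, ht⟩ := step 0 4 rfl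
  refine ⟨z, hz, fun h => ht ?_⟩
  rw [h, zero_mul]

omit [IsAlgClosed K] [CharZero K] in
theorem cube_span (I : Ideal R) (h3 : dimI K (I ^ 3) ≤ 3) (h6 : I ^ 6 = ⊥) (z : R) (hz : z ∈ I)
    (hz5 : z ^ 5 ≠ 0) (r : R) (hr : r ∈ I ^ 3) :
    ∃ c : Fin 3 → K, r = c 0 • z ^ 3 + c 1 • z ^ 4 + c 2 • z ^ 5 := by
  have hz6 : z ^ 6 = 0 := by
    have : z ^ 6 ∈ I ^ 6 := Ideal.pow_mem_pow hz _
    rw [h6] at this
    exact this
  have hz7 : z ^ 7 = 0 := by
    rw [show (7 : ℕ) = 6 + 1 from rfl, pow_succ, hz6, zero_mul]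
  have hli : LinearIndependent K (fun i : Fin 3 => z ^ (3 + (i : ℕ))) := by
    rw [Fintype.linearIndependent_iff]
    intro g hg
    rw [Fin.sum_univ_three] at hg
    simp only [Fin.val_zero, Fin.val_one, Fin.val_two, add_zero] at hg
    have g0 : g 0 = 0 := by
      have h1 : z ^ 2 * (g 0 • z ^ 3 + g 1 • z ^ (3 + 1) + g 2 • z ^ (3 + 2)) =
          g 0 • z ^ 5 + g 1 • z ^ 6 + g 2 • z ^ 7 := by
        simp only [mul_add, mul_smul_comm, ← pow_add]
      rw [hg, hz6, hz7, smul_zero, smul_zero, add_zero, add_zero, mul_zero] at h1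
      exact (smul_eq_zero.1 h1.symm).resolve_right hz5
    rw [g0, zero_smul, zero_add] at hg
    have g1 : g 1 = 0 := by
      have h1 : z ^ 1 * (g 1 • z ^ (3 + 1) + g 2 • z ^ (3 + 2)) =
          g 1 • z ^ 5 + g 2 • z ^ 6 := by
        simp only [mul_add, mul_smul_comm, ← pow_add]
      rw [hg, hz6, smul_zero, add_zero, mul_zero] at h1
      exact (smul_eq_zero.1 h1.symm).resolve_right hz5
    rw [g1, zero_smul, zero_add] at hg
    have g2 : g 2 = 0 := (smul_eq_zero.1 hg).resolve_right hz5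
    intro i
    fin_cases i
    · exact g0
    · exact g1
    · exact g2
  have hfr := finrank_span_eq_card hli
  have hle : Submodule.span K (Set.range fun i : Fin 3 => z ^ (3 + (i : ℕ))) ≤
      ((I ^ 3).restrictScalars K : Submodule K R) := by
    rw [Submodule.span_le]
    rintro _ ⟨i, rfl⟩
    have h1 : z ^ (3 + (i : ℕ)) ∈ I ^ (3 + (i : ℕ)) := Ideal.pow_mem_pow hz _
    exact Ideal.pow_le_pow_right (by omega) h1
  have heq : Submodule.span K (Set.range fun i : Fin 3 => z ^ (3 + (i : ℕ))) =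
      ((I ^ 3).restrictScalars K : Submodule K R) := by
    refine Submodule.eq_of_le_of_finrank_le hle ?_
    rw [hfr, Fintype.card_fin]
    exact h3
  have hr' : r ∈ Submodule.span K (Set.range fun i : Fin 3 => z ^ (3 + (i : ℕ))) := by
    rw [heq]
    exact hr
  obtain ⟨c, hc⟩ := (Submodule.mem_span_range_iff_exists_fun K).1 hr'
  refine ⟨c, ?_⟩
  rw [← hc, Fin.sum_univ_three]
  rfl

/-- the matrix of the change of coordinates -/
def chg (c al : Fin 3 → K) (k : Fin 3) : Matrix (Fin 3) (Fin 3) K :=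
  Matrix.of fun i j => if i = k then c j else (if i = j then 1 else 0) - al i * c j

omit [IsAlgClosed K] [CharZero K] in
theorem chg_det (c al : Fin 3 → K) (k : Fin 3) : (chg c al k).det = c k := by
  rw [Matrix.det_fin_three]
  fin_cases k <;> simp [chg] <;> ring

end H5BAux

open H5BAux in
/-- H5B -/
theorem cl_h5b (x : Fin 3 → R) (hx : Gen3 K x) (h3 : dimI K (mx x ^ 3) ≤ 3)
    (h5 : mx x ^ 5 ≠ ⊥) (IH : ∀ k < Module.finrank K R, MainV K k) : Cl (mulT K x) := by
  have hmono : ∀ i j : ℕ, i ≤ j → mx x ^ i = ⊥ → mx x ^ j = ⊥ := fun i j hij h => by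
    rw [eq_bot_iff, ← h]
    exact Ideal.pow_le_pow_right hij
  have n3 : mx x ^ 3 ≠ ⊥ := fun h => h5 (hmono 3 5 (by norm_num) h)
  have n4 : mx x ^ 4 ≠ ⊥ := fun h => h5 (hmono 4 5 (by norm_num) h)
  have l3 := mx_pow_lt (K := K) x hx 3 n3
  have l4 := mx_pow_lt (K := K) x hx 4 n4
  have l5 := mx_pow_lt (K := K) x hx 5 h5
  norm_num at l3 l4 l5
  have h6 : mx x ^ 6 = ⊥ := by
    have h0 : dimI K (mx x ^ 6) = 0 := by omega
    unfold dimI at h0
    rw [Submodule.finrank_eq_zero] at h0
    rw [eq_bot_iff]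
    intro r hr
    have : r ∈ ((mx x ^ 6).restrictScalars K : Submodule K R) := hr
    rw [h0] at this
    exact this
  obtain ⟨z, hz, hz5⟩ := exists_z (K := K) (mx x) h3 l3 l4 (by omega) h5 h6
  have hcs := cube_span (K := K) (mx x) h3 h6 z hz hz5
  have hz6 : z ^ 6 = 0 := by
    have : z ^ 6 ∈ mx x ^ 6 := Ideal.pow_mem_pow hz _
    rw [h6] at this
    exact this
  -- every element can be corrected to kill the square
  have hcor : ∀ i : Fin 3, ∃ a : Fin 3 → K,
      (x i - (a 0 • z + a 1 • z ^ 2 + a 2 • z ^ 3)) * z ^ 2 = 0 := by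
    intro i
    have h1 : x i * z ^ 2 ∈ mx x ^ 3 := by
      rw [show (3 : ℕ) = 2 + 1 from rfl, pow_succ']
      exact Ideal.mul_mem_mul (Ideal.subset_span ⟨i, rfl⟩) (Ideal.pow_mem_pow hz _)
    obtain ⟨c, hc⟩ := hcs _ h1
    refine ⟨c, ?_⟩
    rw [sub_mul, hc]
    simp only [add_mul, smul_mul_assoc, ← pow_add, ← pow_succ', sub_eq_zero]
  choose a ha using hcor
  -- z is a linear combination of the generators modulo the square
  obtain ⟨c, hc⟩ : ∃ c : Fin 3 → K, z - ∑ j, c j • x j ∈ mx x ^ 2 := by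
    obtain ⟨r, hr⟩ := (Submodule.mem_span_range_iff_exists_fun R).1 hz
    choose c hc using fun j => mx_scalar (K := K) x hx (r j)
    refine ⟨c, ?_⟩
    rw [← hr, ← Finset.sum_sub_distrib]
    refine Ideal.sum_mem _ fun j _ => ?_
    have : r j • x j - c j • x j = (r j - algebraMap K R (c j)) * x j := by
      rw [smul_eq_mul, sub_mul, Algebra.smul_def]
    rw [this, pow_two]
    exact Ideal.mul_mem_mul (hc j) (Ideal.subset_span ⟨j, rfl⟩)
  obtain ⟨k, hk⟩ : ∃ k, c k ≠ 0 := by
    by_contra hcon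
    push Not at hcon
    have h1 : z ∈ mx x ^ 2 := by
      have := hc
      simp only [hcon, zero_smul, Finset.sum_const_zero, sub_zero] at this
      exact this
    have h2 : z ^ 3 ∈ mx x ^ 6 := by
      have := Ideal.pow_mem_pow h1 3
      rw [← pow_mul] at this
      exact this
    rw [h6] at h2
    have h2' : z ^ 3 = 0 := h2
    refine hz5 ?_
    rw [show (5 : ℕ) = 3 + 2 from rfl, pow_add, h2', zero_mul]
  -- the new generators
  have hz2 : z ^ 2 ∈ mx x ^ 2 := Ideal.pow_mem_pow hz _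
  have hz3 : z ^ 3 ∈ mx x ^ 2 := Ideal.pow_le_pow_right (by norm_num) (Ideal.pow_mem_pow hz 3)
  obtain ⟨g1, m1⟩ := gen3_lin x hx (chg c (fun i => a i 0) k) (by
    rw [chg_det]
    exact isUnit_iff_ne_zero.2 hk)
  set x' : Fin 3 → R := fun i => if i = k then z else
    x i - (a i 0 • z + a i 1 • z ^ 2 + a i 2 • z ^ 3) with hx'
  have hsm : ∀ (s : K) (r : R), r ∈ mx x ^ 2 → s • r ∈ mx x ^ 2 := by
    intro s r hr
    rw [Algebra.smul_def]
    exact Ideal.mul_mem_left _ _ hr
  obtain ⟨g2, m2⟩ := gen3_congr (K := K) (lin (chg c (fun i => a i 0) k) x) x' g1 (by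
    rw [m1]
    intro i
    by_cases hi : i = k
    · have : x' i - lin (chg c (fun i => a i 0) k) x i = z - ∑ j, c j • x j := by
        simp only [hx', lin, chg, hi, if_true, Matrix.of_apply]
      rw [this]
      exact hc
    · have : x' i - lin (chg c (fun i => a i 0) k) x i =
          - (a i 0 • (z - ∑ j, c j • x j)) - (a i 1 • z ^ 2 + a i 2 • z ^ 3) := by
        simp only [hx', lin, chg, hi, if_false, Matrix.of_apply, sub_smul, ite_smul, one_smul,
          zero_smul, Finset.sum_sub_distrib, Finset.sum_ite_eq, Finset.mem_univ, if_true,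
          mul_smul, ← Finset.smul_sum, smul_sub]
        abel
      rw [this]
      exact Ideal.sub_mem _ (neg_mem (hsm _ _ hc)) (Ideal.add_mem _ (hsm _ _ hz2) (hsm _ _ hz3)))
  have hkill : ∀ i, i ≠ k → x' i * z ^ 2 = 0 := by
    intro i hi
    simp only [hx', hi, if_false]
    exact ha i
  refine cl_change x' x g2.1 (cl_c1_ring x' g2.1 k (z ^ 2) hkill ?_ ?_ IH)
  · intro hmem
    refine hz5 ?_
    have h1 : ∀ r ∈ Ideal.span (x' '' {i | i ≠ k}), r * z ^ 3 = 0 := by
      intro r hr
      refine Submodule.span_induction ?_ ?_ ?_ ?_ hr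
      · rintro _ ⟨i, hi, rfl⟩
        rw [show (3 : ℕ) = 2 + 1 from rfl, pow_succ, ← mul_assoc, hkill i hi, zero_mul]
      · rw [zero_mul]
      · intro u v _ _ hu hv
        rw [add_mul, hu, hv, add_zero]
      · intro s u _ hu
        rw [smul_eq_mul, mul_assoc, hu, mul_zero]
    have h2 := h1 _ hmem
    rw [← pow_add] at h2
    exact h2
  · have h1 : dimI K (mx x ^ 3) ≤ Module.finrank K R := Submodule.finrank_le _
    omega

end H5B

end Pool.Agent.MPac4d2b
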