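import Mathlib
import Pool.Agent.Lib.MP_ac4d2b_ag.Defs
import Pool.Agent.Lib.MP_ac4d2b_ag.GEN

/-!
MP_ac4d2b_ag, project HILB, module H5D: an element of the square of the maximal ideal, outside
its cube, killed by the conductor of the plane part.
-/

set_option autoImplicit false

namespace Pool.Agent.MPac4d2b

noncomputable section

variable {K R : Type} [Field K] [IsAlgClosed K] [CharZero K] [CommRing R] [Algebra K R]
  [FiniteDimensional K R]

namespace H5DAux

open GENAux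

/-- A polynomial of degree at most two in two elements. -/
def pol (y z : R) (c : Fin 6 → K) : R :=
  algebraMap K R (c 0) + algebraMap K R (c 1) * y + algebraMap K R (c 2) * z +
    (algebraMap K R (c 3) * y ^ 2 + algebraMap K R (c 4) * (y * z) + algebraMap K R (c 5) * z ^ 2)

omit [IsAlgClosed K] [CharZero K] [FiniteDimensional K R] in
theorem dec (I : Ideal R) (y z : R) (hy : y ∈ I) (hz : z ∈ I) (p : R)
    (hp : p ∈ Algebra.adjoin K {y, z}) : ∃ c : Fin 6 → K, p - pol y z c ∈ I ^ 3 := by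
  have h3 : ∀ a b c : R, a ∈ I → b ∈ I → c ∈ I → a * b * c ∈ I ^ 3 := by
    intro a b c ha hb hc
    rw [pow_succ, pow_two]
    exact Ideal.mul_mem_mul (Ideal.mul_mem_mul ha hb) hc
  induction hp using Algebra.adjoin_induction with
  | mem r hr =>
    rcases hr with rfl | hr
    · refine ⟨![0, 1, 0, 0, 0, 0], ?_⟩
      have : r - pol r z (![0, 1, 0, 0, 0, 0] : Fin 6 → K) = 0 := by
        simp [pol]
      rw [this]
      exact Ideal.zero_mem _
    · rw [Set.mem_singleton_iff] at hr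
      subst hr
      refine ⟨![0, 0, 1, 0, 0, 0], ?_⟩
      have : r - pol y r (![0, 0, 1, 0, 0, 0] : Fin 6 → K) = 0 := by
        simp [pol]
      rw [this]
      exact Ideal.zero_mem _
  | algebraMap k =>
    refine ⟨![k, 0, 0, 0, 0, 0], ?_⟩
    have : algebraMap K R k - pol y z (![k, 0, 0, 0, 0, 0] : Fin 6 → K) = 0 := by
      simp [pol]
    rw [this]
    exact Ideal.zero_mem _
  | add a b _ _ ha hb =>
    obtain ⟨c, hc⟩ := ha
    obtain ⟨d, hd⟩ := hb
    refine ⟨c + d, ?_⟩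
    have : a + b - pol y z (c + d) = (a - pol y z c) + (b - pol y z d) := by
      simp only [pol, Pi.add_apply, map_add]
      ring
    rw [this]
    exact Ideal.add_mem _ hc hd
  | mul a b _ _ ha hb =>
    obtain ⟨c, hc⟩ := ha
    obtain ⟨d, hd⟩ := hb
    refine ⟨![c 0 * d 0, c 0 * d 1 + c 1 * d 0, c 0 * d 2 + c 2 * d 0,
      c 0 * d 3 + c 1 * d 1 + c 3 * d 0, c 0 * d 4 + c 1 * d 2 + c 2 * d 1 + c 4 * d 0,
      c 0 * d 5 + c 2 * d 2 + c 5 * d 0], ?_⟩
    set A : ∀ i : Fin 6, R := fun i => algebraMap K R (c i) with hA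
    set B : ∀ i : Fin 6, R := fun i => algebraMap K R (d i) with hB
    have key : a * b - pol y z (![c 0 * d 0, c 0 * d 1 + c 1 * d 0, c 0 * d 2 + c 2 * d 0,
      c 0 * d 3 + c 1 * d 1 + c 3 * d 0, c 0 * d 4 + c 1 * d 2 + c 2 * d 1 + c 4 * d 0,
      c 0 * d 5 + c 2 * d 2 + c 5 * d 0] : Fin 6 → K) =
        a * (b - pol y z d) + pol y z d * (a - pol y z c) +
        ((A 1 * B 3 + A 3 * B 1) * (y * y * y) +
          (A 1 * B 4 + A 2 * B 3 + A 4 * B 1 + A 3 * B 2) * (y * y * z) +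
          (A 1 * B 5 + A 2 * B 4 + A 5 * B 1 + A 4 * B 2) * (y * z * z) +
          (A 2 * B 5 + A 5 * B 2) * (z * z * z) +
          (A 3 * B 3 * y) * (y * y * y) +
          ((A 3 * B 4 + A 4 * B 3) * z) * (y * y * y) +
          ((A 3 * B 5 + A 4 * B 4 + A 5 * B 3) * z) * (y * y * z) +
          ((A 4 * B 5 + A 5 * B 4) * z) * (y * z * z) +
          (A 5 * B 5 * z) * (z * z * z)) := by
      simp only [pol, hA, hB]
      simp
      ring
    rw [key]
    have e1 := h3 y y y hy hy hy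
    have e2 := h3 y y z hy hy hz
    have e3 := h3 y z z hy hz hz
    have e4 := h3 z z z hz hz hz
    refine Ideal.add_mem _ (Ideal.add_mem _ (Ideal.mul_mem_left _ _ hd)
      (Ideal.mul_mem_left _ _ hc)) ?_
    refine Ideal.add_mem _ ?_ (Ideal.mul_mem_left _ _ e4)
    refine Ideal.add_mem _ ?_ (Ideal.mul_mem_left _ _ e3)
    refine Ideal.add_mem _ ?_ (Ideal.mul_mem_left _ _ e2)
    refine Ideal.add_mem _ ?_ (Ideal.mul_mem_left _ _ e1)
    refine Ideal.add_mem _ ?_ (Ideal.mul_mem_left _ _ e1)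
    refine Ideal.add_mem _ ?_ (Ideal.mul_mem_left _ _ e4)
    refine Ideal.add_mem _ ?_ (Ideal.mul_mem_left _ _ e3)
    exact Ideal.add_mem _ (Ideal.mul_mem_left _ _ e1) (Ideal.mul_mem_left _ _ e2)

/-- The symmetric matrix of a quadratic form without square of the first variable. -/
def qm (c : Fin 5 → K) : Matrix (Fin 3) (Fin 3) K :=
  !![0, c 0 / 2, c 1 / 2; c 0 / 2, c 2, c 3 / 2; c 1 / 2, c 3 / 2, c 4]

/-- The value of that form. -/
def qv (x : Fin 3 → R) (c : Fin 5 → K) : R :=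
  algebraMap K R (c 0) * (x 0 * x 1) + algebraMap K R (c 1) * (x 0 * x 2) +
    algebraMap K R (c 2) * (x 1 * x 1) + algebraMap K R (c 3) * (x 1 * x 2) +
    algebraMap K R (c 4) * (x 2 * x 2)

omit [IsAlgClosed K] [CharZero K] in
theorem qm_symm (c : Fin 5 → K) : (qm c).IsSymm := by
  ext i j
  fin_cases i <;> fin_cases j <;> rfl

omit [IsAlgClosed K] [FiniteDimensional K R] in
theorem quad_qm (x : Fin 3 → R) (c : Fin 5 → K) : quad (qm c) x = qv x c := by
  have h2 : ∀ k : K, algebraMap K R k = algebraMap K R (k / 2) + algebraMap K R (k / 2) := by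
    intro k
    rw [← map_add, add_halves]
  unfold quad qv
  rw [h2 (c 0), h2 (c 1), h2 (c 3)]
  simp only [Fin.sum_univ_three, qm, Algebra.smul_def]
  simp
  ring

omit [IsAlgClosed K] [FiniteDimensional K R] in
theorem qv_zero (x : Fin 3 → R)
    (h2 : ∀ q : Matrix (Fin 3) (Fin 3) K, q.IsSymm → quad q x ∈ mx x ^ 3 →
      ∀ i j, ¬ (i = 0 ∧ j = 0) → q i j = 0) (c : Fin 5 → K) (h : qv x c ∈ mx x ^ 3) : c = 0 := by
  rw [← quad_qm] at h
  have key := h2 (qm c) (qm_symm c) h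
  have two : (2 : K) ≠ 0 := two_ne_zero
  have a0 : c 0 / 2 = 0 := key 0 1 (by decide)
  have a1 : c 1 / 2 = 0 := key 0 2 (by decide)
  have a2 : c 2 = 0 := key 1 1 (by decide)
  have a3 : c 3 / 2 = 0 := key 1 2 (by decide)
  have a4 : c 4 = 0 := key 2 2 (by decide)
  rw [div_eq_zero_iff] at a0 a1 a3
  funext i
  fin_cases i
  · exact a0.resolve_right two
  · exact a1.resolve_right two
  · exact a2
  · exact a3.resolve_right two
  · exact a4

omit [IsAlgClosed K] [FiniteDimensional K R] in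
theorem cond (x : Fin 3 → R) (h1 : Ind1 K x)
    (h2 : ∀ q : Matrix (Fin 3) (Fin 3) K, q.IsSymm → quad q x ∈ mx x ^ 3 →
      ∀ i j, ¬ (i = 0 ∧ j = 0) → q i j = 0) (b : R)
    (hb : b ∈ Algebra.adjoin K {x 1, x 2}) (hbx : b * x 0 ∈ Algebra.adjoin K {x 1, x 2}) :
    ∃ a : Fin 3 → K, b - (algebraMap K R (a 0) * (x 1 * x 1) + algebraMap K R (a 1) * (x 1 * x 2) +
      algebraMap K R (a 2) * (x 2 * x 2)) ∈ mx x ^ 3 := by
  obtain ⟨c, hc⟩ := dec (mx x) (x 1) (x 2) (mem_mx x 1) (mem_mx x 2) b hb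
  obtain ⟨d, hd⟩ := dec (mx x) (x 1) (x 2) (mem_mx x 1) (mem_mx x 2) _ hbx
  have m0 := mem_mx x 0
  have m1 := mem_mx x 1
  have m2 := mem_mx x 2
  have s2 : ∀ a b : R, a ∈ mx x → b ∈ mx x → a * b ∈ mx x ^ 2 := by
    intro a b ha hb
    rw [pow_two]
    exact Ideal.mul_mem_mul ha hb
  have le31 : mx x ^ 3 ≤ mx x := Ideal.pow_le_self (by norm_num)
  have le32 : mx x ^ 3 ≤ mx x ^ 2 := Ideal.pow_le_pow_right (by norm_num)
  -- the constant term of the product vanishes
  have d0 : d 0 = 0 := by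
    by_contra hne
    have hmem : algebraMap K R (d 0) ∈ mx x := by
      have e : algebraMap K R (d 0) = b * x 0 - (b * x 0 - pol (x 1) (x 2) d) -
          (algebraMap K R (d 1) * x 1 + algebraMap K R (d 2) * x 2 +
            (algebraMap K R (d 3) * x 1) * x 1 + (algebraMap K R (d 4) * x 1) * x 2 +
            (algebraMap K R (d 5) * x 2) * x 2) := by
        simp only [pol]
        ring
      rw [e]
      refine Ideal.sub_mem _ (Ideal.sub_mem _ (Ideal.mul_mem_left _ _ m0) (le31 hd)) ?_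
      refine Ideal.add_mem _ ?_ (Ideal.mul_mem_left _ _ m2)
      refine Ideal.add_mem _ ?_ (Ideal.mul_mem_left _ _ m2)
      refine Ideal.add_mem _ ?_ (Ideal.mul_mem_left _ _ m1)
      exact Ideal.add_mem _ (Ideal.mul_mem_left _ _ m1) (Ideal.mul_mem_left _ _ m2)
    have htop : mx x = ⊤ := by
      rw [Ideal.eq_top_iff_one]
      have e : (1 : R) = algebraMap K R (d 0)⁻¹ * algebraMap K R (d 0) := by
        rw [← map_mul, inv_mul_cancel₀ hne, map_one]
      rw [e]
      exact Ideal.mul_mem_left _ _ hmem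
    have := h1 1 (by rw [htop, Ideal.top_pow]; trivial)
    exact one_ne_zero (congrFun this 0)
  -- the constant term vanishes
  have c0 : c 0 = 0 := by
    have hmem : ∑ i, (![c 0, - d 1, - d 2] : Fin 3 → K) i • x i ∈ mx x ^ 2 := by
      have e : ∑ i, (![c 0, - d 1, - d 2] : Fin 3 → K) i • x i =
          (b * x 0 - pol (x 1) (x 2) d) - (b - pol (x 1) (x 2) c) * x 0 +
          (algebraMap K R (d 3) * (x 1 * x 1) + algebraMap K R (d 4) * (x 1 * x 2) +
            algebraMap K R (d 5) * (x 2 * x 2)) -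
          (algebraMap K R (c 1) * (x 1 * x 0) + algebraMap K R (c 2) * (x 2 * x 0) +
            (algebraMap K R (c 3) * x 0) * (x 1 * x 1) +
            (algebraMap K R (c 4) * x 0) * (x 1 * x 2) +
            (algebraMap K R (c 5) * x 0) * (x 2 * x 2)) := by
        simp only [pol, Fin.sum_univ_three, Algebra.smul_def, d0]
        simp
        ring
      rw [e]
      have n11 := s2 _ _ m1 m1
      have n12 := s2 _ _ m1 m2
      have n22 := s2 _ _ m2 m2
      have n10 := s2 _ _ m1 m0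
      have n20 := s2 _ _ m2 m0
      refine Ideal.sub_mem _ (Ideal.add_mem _ (Ideal.sub_mem _ (le32 hd)
        (Ideal.mul_mem_right _ _ (le32 hc))) ?_) ?_
      · refine Ideal.add_mem _ ?_ (Ideal.mul_mem_left _ _ n22)
        exact Ideal.add_mem _ (Ideal.mul_mem_left _ _ n11) (Ideal.mul_mem_left _ _ n12)
      · refine Ideal.add_mem _ ?_ (Ideal.mul_mem_left _ _ n22)
        refine Ideal.add_mem _ ?_ (Ideal.mul_mem_left _ _ n12)
        refine Ideal.add_mem _ ?_ (Ideal.mul_mem_left _ _ n11)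
        exact Ideal.add_mem _ (Ideal.mul_mem_left _ _ n10) (Ideal.mul_mem_left _ _ n20)
    exact congrFun (h1 _ hmem) 0
  have d12 : d 1 = 0 ∧ d 2 = 0 := by
    have hmem : ∑ i, (![0, d 1, d 2] : Fin 3 → K) i • x i ∈ mx x ^ 2 := by
      have e : ∑ i, (![0, d 1, d 2] : Fin 3 → K) i • x i =
          (b - pol (x 1) (x 2) c) * x 0 - (b * x 0 - pol (x 1) (x 2) d) -
          (algebraMap K R (d 3) * (x 1 * x 1) + algebraMap K R (d 4) * (x 1 * x 2) +
            algebraMap K R (d 5) * (x 2 * x 2)) +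
          (algebraMap K R (c 1) * (x 1 * x 0) + algebraMap K R (c 2) * (x 2 * x 0) +
            (algebraMap K R (c 3) * x 0) * (x 1 * x 1) +
            (algebraMap K R (c 4) * x 0) * (x 1 * x 2) +
            (algebraMap K R (c 5) * x 0) * (x 2 * x 2)) := by
        simp only [pol, Fin.sum_univ_three, Algebra.smul_def, d0, c0]
        simp
        ring
      rw [e]
      have n11 := s2 _ _ m1 m1
      have n12 := s2 _ _ m1 m2
      have n22 := s2 _ _ m2 m2
      have n10 := s2 _ _ m1 m0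
      have n20 := s2 _ _ m2 m0
      refine Ideal.add_mem _ (Ideal.sub_mem _ (Ideal.sub_mem _
        (Ideal.mul_mem_right _ _ (le32 hc)) (le32 hd)) ?_) ?_
      · refine Ideal.add_mem _ ?_ (Ideal.mul_mem_left _ _ n22)
        exact Ideal.add_mem _ (Ideal.mul_mem_left _ _ n11) (Ideal.mul_mem_left _ _ n12)
      · refine Ideal.add_mem _ ?_ (Ideal.mul_mem_left _ _ n22)
        refine Ideal.add_mem _ ?_ (Ideal.mul_mem_left _ _ n12)
        refine Ideal.add_mem _ ?_ (Ideal.mul_mem_left _ _ n11)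
        exact Ideal.add_mem _ (Ideal.mul_mem_left _ _ n10) (Ideal.mul_mem_left _ _ n20)
    exact ⟨congrFun (h1 _ hmem) 1, congrFun (h1 _ hmem) 2⟩
  -- the linear terms vanish
  have t3 : ∀ a b c : R, a ∈ mx x → b ∈ mx x → c ∈ mx x → a * (b * c) ∈ mx x ^ 3 := by
    intro a b c ha hb hc
    rw [← mul_assoc, pow_succ, pow_two]
    exact Ideal.mul_mem_mul (Ideal.mul_mem_mul ha hb) hc
  have hq : qv x (![c 1, c 2, - d 3, - d 4, - d 5] : Fin 5 → K) ∈ mx x ^ 3 := by
    have e : qv x (![c 1, c 2, - d 3, - d 4, - d 5] : Fin 5 → K) =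
        (b * x 0 - pol (x 1) (x 2) d) - (b - pol (x 1) (x 2) c) * x 0 -
        (algebraMap K R (c 3) * (x 0 * (x 1 * x 1)) + algebraMap K R (c 4) * (x 0 * (x 1 * x 2)) +
          algebraMap K R (c 5) * (x 0 * (x 2 * x 2))) := by
      simp only [qv, pol, d0, c0, d12.1, d12.2]
      simp
      ring
    rw [e]
    refine Ideal.sub_mem _ (Ideal.sub_mem _ hd (Ideal.mul_mem_right _ _ hc)) ?_
    refine Ideal.add_mem _ ?_ (Ideal.mul_mem_left _ _ (t3 _ _ _ m0 m2 m2))
    exact Ideal.add_mem _ (Ideal.mul_mem_left _ _ (t3 _ _ _ m0 m1 m1))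
      (Ideal.mul_mem_left _ _ (t3 _ _ _ m0 m1 m2))
  have hz := qv_zero x h2 _ hq
  have c1 : c 1 = 0 := congrFun hz 0
  have c2 : c 2 = 0 := congrFun hz 1
  refine ⟨![c 3, c 4, c 5], ?_⟩
  have e : b - (algebraMap K R ((![c 3, c 4, c 5] : Fin 3 → K) 0) * (x 1 * x 1) +
      algebraMap K R ((![c 3, c 4, c 5] : Fin 3 → K) 1) * (x 1 * x 2) +
      algebraMap K R ((![c 3, c 4, c 5] : Fin 3 → K) 2) * (x 2 * x 2)) =
      b - pol (x 1) (x 2) c := by
    simp only [pol, c0, c1, c2]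
    simp
    ring
  rw [e]
  exact hc

omit [IsAlgClosed K] [FiniteDimensional K R] in
theorem qv_mem (x : Fin 3 → R) (c : Fin 5 → K) : qv x c ∈ mx x ^ 2 := by
  have s2 : ∀ a b : R, a ∈ mx x → b ∈ mx x → a * b ∈ mx x ^ 2 := by
    intro a b ha hb
    rw [pow_two]
    exact Ideal.mul_mem_mul ha hb
  have m0 := mem_mx x 0
  have m1 := mem_mx x 1
  have m2 := mem_mx x 2
  unfold qv
  refine Ideal.add_mem _ ?_ (Ideal.mul_mem_left _ _ (s2 _ _ m2 m2))
  refine Ideal.add_mem _ ?_ (Ideal.mul_mem_left _ _ (s2 _ _ m1 m2))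
  refine Ideal.add_mem _ ?_ (Ideal.mul_mem_left _ _ (s2 _ _ m1 m1))
  exact Ideal.add_mem _ (Ideal.mul_mem_left _ _ (s2 _ _ m0 m1))
    (Ideal.mul_mem_left _ _ (s2 _ _ m0 m2))

/-- The value of the form as a linear map. -/
def qvl (x : Fin 3 → R) : (Fin 5 → K) →ₗ[K] R where
  toFun := qv x
  map_add' c d := by simp only [qv, Pi.add_apply, map_add]; ring
  map_smul' k c := by
    simp only [qv, Pi.smul_apply, smul_eq_mul, map_mul, RingHom.id_apply, Algebra.smul_def]
    ring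

omit [IsAlgClosed K] in
theorem exists_kill (x : Fin 3 → R) (w : Fin 3 → R) (hw : ∀ i, w i ∈ mx x ^ 2)
    (h4 : dimI K (mx x ^ 4) ≤ 1) : ∃ c : Fin 5 → K, c ≠ 0 ∧ ∀ i, w i * qv x c = 0 := by
  let N : Submodule K R := (mx x ^ 4).restrictScalars K
  have hmem : ∀ (i : Fin 3) (c : Fin 5 → K), w i * qv x c ∈ N := by
    intro i c
    have e : mx x ^ 4 = mx x ^ 2 * mx x ^ 2 := by rw [← pow_add]
    change w i * qv x c ∈ mx x ^ 4
    rw [e]
    exact Ideal.mul_mem_mul (hw i) (qv_mem x c)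
  let f : (Fin 5 → K) →ₗ[K] (Fin 3 → N) :=
    LinearMap.pi fun i => LinearMap.codRestrict N ((LinearMap.mulLeft K (w i)).comp (qvl x))
      (fun c => hmem i c)
  have hlt : Module.finrank K (Fin 3 → N) < Module.finrank K (Fin 5 → K) := by
    rw [Module.finrank_pi_fintype, Module.finrank_fin_fun]
    have h : Module.finrank K N ≤ 1 := h4
    simp only [Finset.sum_const, Finset.card_univ, Fintype.card_fin, smul_eq_mul]
    omega
  have hker := LinearMap.ker_ne_bot_of_finrank_lt (f := f) hlt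
  obtain ⟨c, hc, hne⟩ := Submodule.exists_mem_ne_zero_of_ne_bot hker
  refine ⟨c, hne, fun i => ?_⟩
  rw [LinearMap.mem_ker] at hc
  have := congrFun hc i
  exact congrArg Subtype.val this

end H5DAux

open H5DAux GENAux

theorem h5_delta (x : Fin 3 → R) (hx : Gen3 K x) (h1 : Ind1 K x)
    (h00 : x 0 ^ 2 ∈ mx x ^ 3)
    (h2 : ∀ q : Matrix (Fin 3) (Fin 3) K, q.IsSymm → quad q x ∈ mx x ^ 3 →
      ∀ i j, ¬ (i = 0 ∧ j = 0) → q i j = 0)
    (h4 : mx x ^ 4 = ⊥ ∨ (dimI K (mx x ^ 4) ≤ 1 ∧ mx x ^ 5 = ⊥)) :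
    ∃ d : R, d ∈ mx x ^ 2 ∧ d ∉ mx x ^ 3 ∧
      ∀ b ∈ Algebra.adjoin K {x 1, x 2}, b * x 0 ∈ Algebra.adjoin K {x 1, x 2} → b * d = 0 := by
  have s2 : ∀ a b : R, a ∈ mx x → b ∈ mx x → a * b ∈ mx x ^ 2 := by
    intro a b ha hb
    rw [pow_two]
    exact Ideal.mul_mem_mul ha hb
  have m1 := mem_mx x 1
  have m2 := mem_mx x 2
  rcases h4 with h4 | ⟨h4, h5⟩
  · refine ⟨x 1 * x 1, s2 _ _ m1 m1, ?_, ?_⟩
    · intro h
      have e : qv x (![0, 0, 1, 0, 0] : Fin 5 → K) = x 1 * x 1 := by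
        simp [qv]
      have := qv_zero x h2 _ (e ▸ h)
      exact one_ne_zero (congrFun this 2)
    · intro b hb hbx
      obtain ⟨a, ha⟩ := cond x h1 h2 b hb hbx
      have hb2 : b ∈ mx x ^ 2 := by
        have e : b = (b - (algebraMap K R (a 0) * (x 1 * x 1) +
            algebraMap K R (a 1) * (x 1 * x 2) + algebraMap K R (a 2) * (x 2 * x 2))) +
            (algebraMap K R (a 0) * (x 1 * x 1) +
            algebraMap K R (a 1) * (x 1 * x 2) + algebraMap K R (a 2) * (x 2 * x 2)) := by ring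
        rw [e]
        refine Ideal.add_mem _ (Ideal.pow_le_pow_right (by norm_num) ha) ?_
        refine Ideal.add_mem _ ?_ (Ideal.mul_mem_left _ _ (s2 _ _ m2 m2))
        exact Ideal.add_mem _ (Ideal.mul_mem_left _ _ (s2 _ _ m1 m1))
          (Ideal.mul_mem_left _ _ (s2 _ _ m1 m2))
      have hm : b * (x 1 * x 1) ∈ mx x ^ 4 := by
        have e : mx x ^ 4 = mx x ^ 2 * mx x ^ 2 := by rw [← pow_add]
        rw [e]
        exact Ideal.mul_mem_mul hb2 (s2 _ _ m1 m1)
      rw [h4] at hm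
      exact hm
  · obtain ⟨c, hc0, hc⟩ := exists_kill x ![x 1 * x 1, x 1 * x 2, x 2 * x 2] (by
      intro i
      fin_cases i
      · exact s2 _ _ m1 m1
      · exact s2 _ _ m1 m2
      · exact s2 _ _ m2 m2) h4
    refine ⟨qv x c, qv_mem x c, fun h => hc0 (qv_zero x h2 c h), ?_⟩
    intro b hb hbx
    obtain ⟨a, ha⟩ := cond x h1 h2 b hb hbx
    have k0 : x 1 * x 1 * qv x c = 0 := hc 0
    have k1 : x 1 * x 2 * qv x c = 0 := hc 1
    have k2 : x 2 * x 2 * qv x c = 0 := hc 2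
    have e : b * qv x c = (b - (algebraMap K R (a 0) * (x 1 * x 1) +
            algebraMap K R (a 1) * (x 1 * x 2) + algebraMap K R (a 2) * (x 2 * x 2))) * qv x c +
          (algebraMap K R (a 0) * (x 1 * x 1 * qv x c) +
            algebraMap K R (a 1) * (x 1 * x 2 * qv x c) +
            algebraMap K R (a 2) * (x 2 * x 2 * qv x c)) := by ring
    rw [e, k0, k1, k2, mul_zero, mul_zero, mul_zero, add_zero, add_zero, add_zero]
    have hm : (b - (algebraMap K R (a 0) * (x 1 * x 1) +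
            algebraMap K R (a 1) * (x 1 * x 2) + algebraMap K R (a 2) * (x 2 * x 2))) * qv x c
          ∈ mx x ^ 5 := by
      have e : mx x ^ 5 = mx x ^ 3 * mx x ^ 2 := by rw [← pow_add]
      rw [e]
      exact Ideal.mul_mem_mul ha (qv_mem x c)
    rw [h5] at hm
    exact hm

end

end Pool.Agent.MPac4d2b
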