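import Mathlib
import Pool.Agent.Lib.MP_ac4d2b_ag.Defs
import Pool.Agent.Lib.MP_ac4d2b_ag.RING
import Pool.Agent.Lib.MP_ac4d2b_ag.GEN
import Pool.Agent.Lib.MP_ac4d2b_ag.RINGC
import Pool.Agent.Lib.MP_ac4d2b_ag.AK

/-!
MP_ac4d2b_ag (project HILB), module NF: the normal form `x y = z ^ m`.
-/

set_option autoImplicit false

namespace Pool.Agent.MPac4d2b

open Matrix

namespace NFAux

open Polynomial GENAux

variable {K R : Type} [Field K] [CommRing R] [Algebra K R]

theorem decomp (x : Fin 3 → R) (j : ℕ) (hj : 1 ≤ j) (e : R) (he : e ∈ Fil (mulT K x) (1 : R) j) :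
    ∃ (p : K[X]) (a b : R), X ^ j ∣ p ∧ a ∈ mx x ^ (j - 1) ∧ b ∈ mx x ^ (j - 1) ∧
      e = aeval (x 2) p + x 0 * a + x 1 * b := by
  have hmon : ∀ a b c : ℕ, x 0 ^ a * x 1 ^ b * x 2 ^ c ∈ mx x ^ (a + b + c) := by
    intro a b c
    rw [pow_add, pow_add]
    exact Ideal.mul_mem_mul (Ideal.mul_mem_mul (Ideal.pow_mem_pow (mem_mx x 0) _)
      (Ideal.pow_mem_pow (mem_mx x 1) _)) (Ideal.pow_mem_pow (mem_mx x 2) _)
  unfold Fil at he
  induction he using Submodule.span_induction with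
  | mem e he =>
    obtain ⟨a, b, c, habc, rfl⟩ := he
    rw [RINGAux.mulT_mon, mul_one]
    rcases Nat.eq_zero_or_pos a with rfl | ha
    · rcases Nat.eq_zero_or_pos b with rfl | hb
      · refine ⟨X ^ c, 0, 0, pow_dvd_pow _ (by omega), zero_mem _, zero_mem _, ?_⟩
        simp
      · obtain ⟨b, rfl⟩ : ∃ b', b = b' + 1 := ⟨b - 1, by omega⟩
        refine ⟨0, 0, x 0 ^ 0 * x 1 ^ b * x 2 ^ c, dvd_zero _, zero_mem _,
          Ideal.pow_le_pow_right (by omega) (hmon 0 b c), ?_⟩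
        rw [map_zero]
        ring
    · obtain ⟨a, rfl⟩ : ∃ a', a = a' + 1 := ⟨a - 1, by omega⟩
      refine ⟨0, x 0 ^ a * x 1 ^ b * x 2 ^ c, 0, dvd_zero _,
        Ideal.pow_le_pow_right (by omega) (hmon a b c), zero_mem _, ?_⟩
      rw [map_zero]
      ring
  | zero => exact ⟨0, 0, 0, dvd_zero _, zero_mem _, zero_mem _, by simp⟩
  | add e e' _ _ he he' =>
    obtain ⟨p, a, b, hp, ha, hb, rfl⟩ := he
    obtain ⟨p', a', b', hp', ha', hb', rfl⟩ := he'
    refine ⟨p + p', a + a', b + b', dvd_add hp hp', add_mem ha ha', add_mem hb hb', ?_⟩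
    rw [map_add]
    ring
  | smul c e _ he =>
    obtain ⟨p, a, b, hp, ha, hb, rfl⟩ := he
    refine ⟨C c * p, algebraMap K R c * a, algebraMap K R c * b, Dvd.dvd.mul_left hp _,
      Ideal.mul_mem_left _ _ ha, Ideal.mul_mem_left _ _ hb, ?_⟩
    rw [map_mul, aeval_C, Algebra.smul_def]
    ring

theorem vec_congr (x : Fin 3 → R) (hx : Gen3 K x) (x' y' : R) (hx' : x' - x 0 ∈ mx x ^ 2)
    (hy' : y' - x 1 ∈ mx x ^ 2) :
    Gen3 K ![x', y', x 2] ∧ mx ![x', y', x 2] = mx x := by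
  apply gen3_congr x _ hx
  intro i
  fin_cases i
  · exact hx'
  · exact hy'
  · show x 2 - x 2 ∈ _
    rw [sub_self]; exact zero_mem _

theorem claim (x : Fin 3 → R) (hx : Gen3 K x) (c : K)
    (h : x 0 * x 1 - c • x 2 ^ 2 ∈ mx x ^ 3) (n : ℕ) :
    ∃ (x' y' : R) (p : K[X]), x' - x 0 ∈ mx x ^ 2 ∧ y' - x 1 ∈ mx x ^ 2 ∧ X ∣ p ∧
      x' * y' - aeval (x 2) p ∈ mx x ^ (n + 3) := by
  induction n with
  | zero =>
    refine ⟨x 0, x 1, C c * X ^ 2, ?_, ?_, ?_, ?_⟩
    · rw [sub_self]; exact zero_mem _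
    · rw [sub_self]; exact zero_mem _
    · exact Dvd.dvd.mul_left (dvd_pow_self X two_ne_zero) _
    · rw [map_mul, aeval_C, map_pow, aeval_X, ← Algebra.smul_def]
      exact h
  | succ n ih =>
    obtain ⟨x', y', p, hx', hy', hp, he⟩ := ih
    obtain ⟨hg, hm⟩ := vec_congr x hx x' y' hx' hy'
    have he' : x' * y' - aeval (x 2) p ∈ Fil (mulT K ![x', y', x 2]) (1 : R) (n + 3) := by
      rw [← mx_pow_span _ hg, hm]
      exact he
    obtain ⟨p1, a, b, hp1, ha, hb, heq⟩ := decomp _ (n + 3) (by omega) _ he'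
    rw [hm] at ha hb
    have e2 : (![x', y', x 2] : Fin 3 → R) 2 = x 2 := rfl
    have e0 : (![x', y', x 2] : Fin 3 → R) 0 = x' := rfl
    have e1 : (![x', y', x 2] : Fin 3 → R) 1 = y' := rfl
    rw [e0, e1, e2] at heq
    have h2 : mx x ^ (n + 3 - 1) ≤ mx x ^ 2 := Ideal.pow_le_pow_right (by omega)
    refine ⟨x' - b, y' - a, p + p1, ?_, ?_, ?_, ?_⟩
    · have : x' - b - x 0 = (x' - x 0) - b := by ring
      rw [this]
      exact sub_mem hx' (h2 hb)
    · have : y' - a - x 1 = (y' - x 1) - a := by ring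
      rw [this]
      exact sub_mem hy' (h2 ha)
    · exact dvd_add hp (dvd_trans (dvd_pow_self X (by omega)) hp1)
    · have : (x' - b) * (y' - a) - aeval (x 2) (p + p1) = a * b := by
        rw [map_add]
        linear_combination heq
      rw [this]
      have h3 : a * b ∈ mx x ^ ((n + 3 - 1) + (n + 3 - 1)) := by
        rw [pow_add]
        exact Ideal.mul_mem_mul ha hb
      exact Ideal.pow_le_pow_right (by omega) h3

end NFAux

section LOCAL
variable {K R : Type} [Field K] [IsAlgClosed K] [CharZero K] [CommRing R] [Algebra K R]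
  [FiniteDimensional K R]

open Polynomial GENAux NFAux in
theorem cl_nf (x : Fin 3 → R) (hx : Gen3 K x) (c : K)
    (h : x 0 * x 1 - c • x 2 ^ 2 ∈ mx x ^ 3) : Cl (mulT K x) := by
  obtain ⟨k, hk⟩ := hx.2
  obtain ⟨x', y', p, hx', hy', hp, he⟩ := claim x hx c h k
  obtain ⟨hg, hm⟩ := vec_congr x hx x' y' hx' hy'
  have hxy : x' * y' = aeval (x 2) p := by
    have h1 : mx x ^ (k + 3) ≤ mx x ^ k := Ideal.pow_le_pow_right (by omega)
    have h2 := h1 he
    rw [hk, Ideal.mem_bot] at h2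
    exact sub_eq_zero.mp h2
  have hnil : ∀ r ∈ mx x, r ^ k = 0 := by
    intro r hr
    have h2 := Ideal.pow_mem_pow hr k
    rwa [hk, Ideal.mem_bot] at h2
  have hx'm : x' ∈ mx x := by
    rw [← hm]
    exact mem_mx ![x', y', x 2] 0
  have hy'm : y' ∈ mx x := by
    rw [← hm]
    exact mem_mx ![x', y', x 2] 1
  by_cases hp0 : p = 0
  · rw [hp0, map_zero] at hxy
    refine cl_change ![x', y', x 2] x hg.1 (cl_ak _ hg.1 ?_ (k + 1) (by omega) ?_)
    · intro i
      fin_cases i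
      · exact ⟨k, hnil _ hx'm⟩
      · exact ⟨k, hnil _ hy'm⟩
      · exact ⟨k, hnil _ (mem_mx x 2)⟩
    · show x' * y' = x 2 ^ (k + 1)
      rw [hxy, pow_succ, hnil _ (mem_mx x 2), zero_mul]
  · obtain ⟨u, hpu, hu⟩ := Polynomial.exists_eq_pow_rootMultiplicity_mul_and_not_dvd p hp0 0
    rw [map_zero, sub_zero] at hpu hu
    set m := p.rootMultiplicity 0 with hmdef
    have hm1 : 1 ≤ m := by
      rcases Nat.eq_zero_or_pos m with h0 | h0
      · rw [h0, pow_zero, one_mul] at hpu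
        rw [hpu] at hp
        exact absurd hp hu
      · exact h0
    have hc0 : u.coeff 0 ≠ 0 := by
      intro h0
      exact hu (Polynomial.X_dvd_iff.mpr h0)
    have hunit : IsUnit (aeval (x 2) u : R) := by
      have h1 : aeval (x 2) u = algebraMap K R (u.coeff 0) + aeval (x 2) u.divX * x 2 := by
        conv_lhs => rw [← Polynomial.divX_mul_X_add u]
        rw [map_add, map_mul, aeval_X, aeval_C]
        ring
      rw [h1]
      have h2 : IsNilpotent (aeval (x 2) u.divX * x 2 : R) :=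
        ⟨k, by rw [mul_pow, hnil _ (mem_mx x 2), mul_zero]⟩
      have h3 : IsUnit (algebraMap K R (u.coeff 0)) :=
        (IsUnit.mk0 _ hc0).map (algebraMap K R)
      exact h2.isUnit_add_left_of_commute h3 (Commute.all _ _)
    obtain ⟨w, hw⟩ := hunit.exists_right_inv
    have hadj : Algebra.adjoin K (Set.range ![x' * w, y', x 2]) = ⊤ := by
      rw [eq_top_iff, ← hg.1]
      refine Algebra.adjoin_le ?_
      have m0 : x' * w ∈ Algebra.adjoin K (Set.range ![x' * w, y', x 2]) :=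
        Algebra.subset_adjoin ⟨0, rfl⟩
      have m1 : y' ∈ Algebra.adjoin K (Set.range ![x' * w, y', x 2]) :=
        Algebra.subset_adjoin ⟨1, rfl⟩
      have m2 : x 2 ∈ Algebra.adjoin K (Set.range ![x' * w, y', x 2]) :=
        Algebra.subset_adjoin ⟨2, rfl⟩
      have m3 : aeval (x 2) u ∈ Algebra.adjoin K (Set.range ![x' * w, y', x 2]) := by
        have h4 : aeval (x 2) u ∈ Algebra.adjoin K {x 2} :=
          Polynomial.aeval_mem_adjoin_singleton K (x 2)
        refine Algebra.adjoin_mono ?_ h4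
        rintro _ rfl
        exact ⟨2, rfl⟩
      rintro _ ⟨i, rfl⟩
      fin_cases i
      · show x' ∈ Algebra.adjoin K (Set.range ![x' * w, y', x 2])
        have h6 : (x' * w) * aeval (x 2) u = x' := by
          linear_combination x' * hw
        have h7 := mul_mem m0 m3
        rwa [h6] at h7
      · exact m1
      · exact m2
    refine cl_change ![x' * w, y', x 2] x hadj (cl_ak _ hadj ?_ m hm1 ?_)
    · intro i
      fin_cases i
      · exact ⟨k, hnil _ (Ideal.mul_mem_right _ _ hx'm)⟩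
      · exact ⟨k, hnil _ hy'm⟩
      · exact ⟨k, hnil _ (mem_mx x 2)⟩
    · show x' * w * y' = x 2 ^ m
      have h5 : x' * w * y' = w * aeval (x 2) p := by rw [← hxy]; ring
      rw [h5, hpu, map_mul, map_pow, aeval_X]
      linear_combination (x 2 ^ m) * hw

end LOCAL

end Pool.Agent.MPac4d2b
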