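import Mathlib
import Pool.Agent.Lib.MP_ac4d2b_ag.Defs

/-!
MP_ac4d2b_ag, project HILB, module QLIN: linear algebra of ternary quadratic forms.
-/

set_option autoImplicit false

namespace Pool.Agent.MPac4d2b

open Matrix

namespace QLINAux

/-- diagonalisation of a symmetric matrix -/
theorem diagonalise {K : Type} [Field K] [CharZero K] (q : Matrix (Fin 3) (Fin 3) K)
    (hq : q.IsSymm) : ∃ (B : Matrix (Fin 3) (Fin 3) K) (w : Fin 3 → K), IsUnit B.det ∧
      q = Bᵀ * Matrix.diagonal w * B := by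
  have : Invertible (2 : K) := invertibleOfNonzero two_ne_zero
  set F : LinearMap.BilinForm K (Fin 3 → K) := Matrix.toLinearMap₂' K q with hF
  have hFv : ∀ v w, F v w = v ⬝ᵥ (q *ᵥ w) := fun v w => Matrix.toLinearMap₂'_apply' q v w
  have hsymm : LinearMap.IsSymm F := by
    refine ⟨fun v w => ?_⟩
    rw [RingHom.id_apply, hFv, hFv]
    rw [Matrix.dotProduct_mulVec, ← Matrix.mulVec_transpose, hq.eq, dotProduct_comm]
  obtain ⟨v', hv'⟩ := LinearMap.BilinForm.exists_orthogonal_basis hsymm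
  have hfr : Module.finrank K (Fin 3 → K) = 3 := by simp
  set e : Fin (Module.finrank K (Fin 3 → K)) ≃ Fin 3 := finCongr hfr with he
  set v : Module.Basis (Fin 3) K (Fin 3 → K) := v'.reindex e with hv
  have horth : ∀ i j, i ≠ j → F (v i) (v j) = 0 := by
    intro i j hij
    rw [hv, Module.Basis.reindex_apply, Module.Basis.reindex_apply]
    have hne : e.symm i ≠ e.symm j := fun h => hij (e.symm.injective h)
    exact hv' hne
  set P : Matrix (Fin 3) (Fin 3) K := Matrix.of fun i j => v j i with hP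
  have hPunit : IsUnit P.det := by
    have h1 : P = (Pi.basisFun K (Fin 3)).toMatrix v := by
      ext i j
      simp [hP, Module.Basis.toMatrix_apply]
    rw [h1]
    have h2 := (Pi.basisFun K (Fin 3)).toMatrix_mul_toMatrix_flip v
    exact (Matrix.isUnit_iff_isUnit_det _).mp (IsUnit.of_mul_eq_one _ h2)
  have hD : Pᵀ * q * P = Matrix.diagonal fun i => F (v i) (v i) := by
    ext i j
    have h1 : (Pᵀ * q * P) i j = F (v i) (v j) := by
      rw [hFv, Matrix.mul_assoc, Matrix.mul_apply]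
      rfl
    rw [h1, Matrix.diagonal_apply]
    by_cases hij : i = j
    · subst hij
      simp
    · rw [if_neg hij]
      exact horth i j hij
  have hPi : P⁻¹ * P = 1 := Matrix.nonsing_inv_mul P hPunit
  have hPi' : P * P⁻¹ = 1 := Matrix.mul_nonsing_inv P hPunit
  refine ⟨P⁻¹, fun i => F (v i) (v i), ?_, ?_⟩
  · have h1 := congrArg Matrix.det hPi
    rw [Matrix.det_mul, Matrix.det_one] at h1
    exact IsUnit.of_mul_eq_one _ h1
  · rw [← hD]
    have h1 : (P⁻¹)ᵀ * Pᵀ = 1 := by rw [← Matrix.transpose_mul, hPi', Matrix.transpose_one]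
    calc q = ((P⁻¹)ᵀ * Pᵀ) * q * (P * P⁻¹) := by rw [h1, hPi', Matrix.one_mul, Matrix.mul_one]
      _ = (P⁻¹)ᵀ * (Pᵀ * q * P) * P⁻¹ := by simp only [Matrix.mul_assoc]

theorem entry {K : Type} [Field K] (B : Matrix (Fin 3) (Fin 3) K) (w : Fin 3 → K)
    (i j : Fin 3) : (Bᵀ * Matrix.diagonal w * B) i j = ∑ a, w a * (B a i * B a j) := by
  rw [Matrix.mul_apply]
  refine Finset.sum_congr rfl fun a _ => ?_
  rw [Matrix.mul_diagonal, Matrix.transpose_apply]
  ring

theorem quad_sum {K R : Type} [Field K] [CommRing R] [Algebra K R]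
    (B : Matrix (Fin 3) (Fin 3) K) (w : Fin 3 → K) (x : Fin 3 → R) :
    quad (Bᵀ * Matrix.diagonal w * B) x = ∑ a, w a • lin B x a ^ 2 := by
  simp only [quad, entry, lin, Fin.sum_univ_three, Algebra.smul_def, map_add, map_mul]
  ring

/-- at least two of the diagonal entries are nonzero -/
theorem two_ne {K : Type} [Field K] (B : Matrix (Fin 3) (Fin 3) K) (w : Fin 3 → K)
    (hm : Minor2 (Bᵀ * Matrix.diagonal w * B)) : ∃ i j, i ≠ j ∧ w i ≠ 0 ∧ w j ≠ 0 := by
  by_contra hcon
  push Not at hcon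
  obtain ⟨k, hk⟩ : ∃ k, ∀ i, i ≠ k → w i = 0 := by
    by_cases h0 : w 0 = 0
    · by_cases h1 : w 1 = 0
      · refine ⟨2, fun i hi => ?_⟩
        fin_cases i
        · exact h0
        · exact h1
        · exact absurd rfl hi
      · refine ⟨1, fun i hi => ?_⟩
        exact hcon 1 i (Ne.symm hi) h1
    · refine ⟨0, fun i hi => ?_⟩
      exact hcon 0 i (Ne.symm hi) h0
  obtain ⟨i, j, a, b, h⟩ := hm
  apply h
  have hent : ∀ i j, (Bᵀ * Matrix.diagonal w * B) i j = w k * (B k i * B k j) := by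
    intro i j
    rw [entry, Finset.sum_eq_single k]
    · intro l _ hl
      rw [hk l hl, zero_mul]
    · intro hk'
      exact absurd (Finset.mem_univ k) hk'
  simp only [hent]
  ring

theorem perm_exists : ∀ i j : Fin 3, i ≠ j → ∃ σ : Equiv.Perm (Fin 3), σ 0 = i ∧ σ 1 = j := by
  decide

/-- the case where the first two entries are nonzero -/
theorem normal_aux {K : Type} [Field K] [IsAlgClosed K] [CharZero K]
    (B : Matrix (Fin 3) (Fin 3) K) (w : Fin 3 → K) (hB : IsUnit B.det) (h0 : w 0 ≠ 0)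
    (h1 : w 1 ≠ 0) : ∃ (A : Matrix (Fin 3) (Fin 3) K) (c : K), IsUnit A.det ∧
      ∀ (R : Type) [CommRing R] [Algebra K R] (x : Fin 3 → R),
        ∑ a, w a • lin B x a ^ 2 = lin A x 0 * lin A x 1 - c • lin A x 2 ^ 2 := by
  obtain ⟨s, hs⟩ := IsAlgClosed.exists_pow_nat_eq (w 0) (n := 2) (by norm_num)
  obtain ⟨u, hu⟩ := IsAlgClosed.exists_pow_nat_eq (w 1) (n := 2) (by norm_num)
  obtain ⟨ι, hι⟩ := IsAlgClosed.exists_pow_nat_eq (-1 : K) (n := 2) (by norm_num)
  have hs0 : s ≠ 0 := by
    rintro rfl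
    apply h0
    rw [← hs]; ring
  have hu0 : u ≠ 0 := by
    rintro rfl
    apply h1
    rw [← hu]; ring
  have hι0 : ι ≠ 0 := by
    rintro rfl
    norm_num at hι
  set C : Matrix (Fin 3) (Fin 3) K := !![s, ι * u, 0; s, -(ι * u), 0; 0, 0, 1] with hC
  have hCdet : C.det = -2 * (s * ι * u) := by
    rw [hC, Matrix.det_fin_three]
    simp
    ring
  refine ⟨C * B, -w 2, ?_, ?_⟩
  · rw [Matrix.det_mul, hCdet]
    refine IsUnit.mul ?_ hB
    rw [isUnit_iff_ne_zero]
    have : (-2 : K) ≠ 0 := by norm_num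
    exact mul_ne_zero this (mul_ne_zero (mul_ne_zero hs0 hι0) hu0)
  · intro R _ _ x
    have l0 : lin (C * B) x 0 = s • lin B x 0 + (ι * u) • lin B x 1 := by
      simp only [lin, Matrix.mul_apply, Fin.sum_univ_three, hC, Matrix.of_apply, Matrix.cons_val',
        Matrix.cons_val_zero, Matrix.cons_val_one, Matrix.cons_val, Matrix.cons_val_fin_one,
        Algebra.smul_def, map_add, map_mul, map_zero]
      ring
    have l1 : lin (C * B) x 1 = s • lin B x 0 - (ι * u) • lin B x 1 := by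
      simp only [lin, Matrix.mul_apply, Fin.sum_univ_three, hC, Matrix.of_apply, Matrix.cons_val',
        Matrix.cons_val_zero, Matrix.cons_val_one, Matrix.cons_val, Matrix.cons_val_fin_one,
        Algebra.smul_def, map_add, map_mul, map_zero, map_neg]
      ring
    have l2 : lin (C * B) x 2 = lin B x 2 := by
      simp only [lin, Matrix.mul_apply, Fin.sum_univ_three, hC, Matrix.of_apply, Matrix.cons_val',
        Matrix.cons_val_zero, Matrix.cons_val_one, Matrix.cons_val, Matrix.cons_val_fin_one,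
        Algebra.smul_def, map_add, map_mul, map_zero, map_one]
      ring
    rw [l0, l1, l2, Fin.sum_univ_three]
    have e1 : w 0 = s * s := by rw [← hs, sq]
    have e2 : w 1 = -((ι * u) * (ι * u)) := by
      rw [← hu]
      linear_combination (u ^ 2) * hι
    rw [e1, e2]
    simp only [Algebra.smul_def, map_mul, map_neg]
    ring

end QLINAux

open QLINAux

/-- QLIN: linear algebra of quadratic forms -/
theorem quad_normal {K : Type} [Field K] [IsAlgClosed K] [CharZero K]
    (q : Matrix (Fin 3) (Fin 3) K) (hq : q.IsSymm) (hm : Minor2 q) :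
    ∃ (A : Matrix (Fin 3) (Fin 3) K) (c : K), IsUnit A.det ∧
      ∀ (R : Type) [CommRing R] [Algebra K R] (x : Fin 3 → R),
        quad q x = lin A x 0 * lin A x 1 - c • lin A x 2 ^ 2 := by
  obtain ⟨B, w, hB, rfl⟩ := diagonalise q hq
  obtain ⟨i, j, hij, hi, hj⟩ := two_ne B w hm
  obtain ⟨σ, h0, h1⟩ := perm_exists i j hij
  have hB' : IsUnit (B.submatrix σ id).det := by
    rw [Matrix.det_permute]
    refine IsUnit.mul ?_ hB
    exact ((Equiv.Perm.sign σ).isUnit.map (Int.castRingHom K))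
  obtain ⟨A, c, hA, hAc⟩ := normal_aux (B.submatrix σ id) (fun a => w (σ a)) hB'
    (by rw [h0]; exact hi) (by rw [h1]; exact hj)
  refine ⟨A, c, hA, ?_⟩
  intro R _ _ x
  rw [quad_sum, ← hAc R x]
  rw [← Equiv.sum_comp σ]
  rfl

/-- QRK : a nonzero symmetric matrix without nonzero 2x2 minors -/
theorem rank_one {K : Type} [Field K] [IsAlgClosed K] (q : Matrix (Fin 3) (Fin 3) K)
    (hq : q.IsSymm) (h0 : q ≠ 0) (hm : ¬ Minor2 q) :
    ∃ A : Matrix (Fin 3) (Fin 3) K, IsUnit A.det ∧ q = Aᵀ * Matrix.single 0 0 1 * A := by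
  unfold Minor2 at hm
  push Not at hm
  have hs : ∀ i j, q i j = q j i := fun i j => (hq.apply i j).symm
  obtain ⟨k, hk⟩ : ∃ k, q k k ≠ 0 := by
    by_contra hcon
    push Not at hcon
    apply h0
    ext i j
    have h1 := hm i j i j
    rw [hcon i, hcon j, hs j i] at h1
    have h2 : q i j * q i j = 0 := by linear_combination -h1
    simpa using h2
  obtain ⟨s, hs2⟩ := IsAlgClosed.exists_pow_nat_eq (q k k) (n := 2) (by norm_num)
  have hs0 : s ≠ 0 := by
    rintro rfl
    apply hk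
    rw [← hs2]; ring
  set l : Fin 3 → K := fun i => q i k / s with hl
  have hql : ∀ i j, q i j = l i * l j := by
    intro i j
    have h1 := hm i k j k
    rw [hl]
    simp only
    rw [div_mul_div_comm, ← sq, hs2, eq_div_iff hk]
    rw [hs j k]
    linear_combination h1
  have hlk : l k ≠ 0 := div_ne_zero hk hs0
  have hAq : ∀ A : Matrix (Fin 3) (Fin 3) K, (∀ i, A 0 i = l i) →
      q = Aᵀ * Matrix.single 0 0 1 * A := by
    intro A hA
    ext i j
    rw [hql, ← hA, ← hA, Matrix.mul_apply, Finset.sum_eq_single 0]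
    · rw [Matrix.mul_single_apply_same, Matrix.transpose_apply, mul_one]
    · intro b _ hb
      rw [Matrix.mul_single_apply_of_ne _ _ _ _ _ hb, zero_mul]
    · intro h
      exact absurd (Finset.mem_univ _) h
  fin_cases k
  · refine ⟨!![l 0, l 1, l 2; 0, 1, 0; 0, 0, 1], ?_, hAq _ ?_⟩
    · rw [Matrix.det_fin_three]
      simpa using hlk
    · intro i
      fin_cases i <;> rfl
  · refine ⟨!![l 0, l 1, l 2; 1, 0, 0; 0, 0, 1], ?_, hAq _ ?_⟩
    · rw [Matrix.det_fin_three]
      simpa using hlk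
    · intro i
      fin_cases i <;> rfl
  · refine ⟨!![l 0, l 1, l 2; 1, 0, 0; 0, 1, 0], ?_, hAq _ ?_⟩
    · rw [Matrix.det_fin_three]
      simpa using hlk
    · intro i
      fin_cases i <;> rfl

end Pool.Agent.MPac4d2b
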