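import Mathlib
import Pool.Agent.Lib.MP_ac4d2b_ag.Defs
import Pool.Agent.Lib.MP_ac4d2b_ag.RING
import Pool.Agent.Lib.MP_ac4d2b_ag.GEN
import Pool.Agent.Lib.MP_ac4d2b_ag.CL2
import Pool.Agent.Lib.MP_ac4d2b_ag.NF
import Pool.Agent.Lib.MP_ac4d2b_ag.QLIN

/-!
MP_ac4d2b_ag (project HILB), module QUAD: quadrics of rank at least two.
-/

set_option autoImplicit false

namespace Pool.Agent.MPac4d2b

open Matrix

namespace QUADAux

variable {K R V : Type} [Field K] [CommRing R] [Algebra K R] [AddCommGroup V] [Module K V]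

theorem pow_le_fil (a : Fin 3 → R) (ha : Algebra.adjoin K (Set.range a) = ⊤) (j : ℕ) :
    (mx a ^ j).restrictScalars K ≤ Fil (mulT K a) 1 j := by
  induction j with
  | zero =>
    intro r _
    have h1 := mulT_cyc a ha
    unfold Cyc at h1
    have h2 : r ∈ Submodule.span K (Set.range fun e : ℕ × ℕ × ℕ =>
        (mulT K a 0 ^ e.1 * mulT K a 1 ^ e.2.1 * mulT K a 2 ^ e.2.2) (1 : R)) := by
      rw [h1]; trivial
    refine Submodule.span_mono ?_ h2
    rintro _ ⟨e, rfl⟩
    exact ⟨e.1, e.2.1, e.2.2, by omega, rfl⟩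
  | succ j ih =>
    intro r hr
    have h3 := GENAux.pow_succ_induction a (mx a) rfl j
      (Fil (mulT K a) (1 : R) (j + 1)).toAddSubgroup
      (fun u hu i => GENAux.mul_mem_Fil a j i u (ih hu)) r hr
    exact h3

theorem pow_intertwine (a : Fin 3 → R) (f : Fin 3 → Module.End K V) (e : R ≃ₗ[K] V)
    (he : ∀ i r, e (a i * r) = f i (e r)) (i : Fin 3) (k : ℕ) (r : R) :
    e ((mulT K a i ^ k) r) = (f i ^ k) (e r) := by
  induction k with
  | zero => simp
  | succ k ih =>
    rw [pow_succ', pow_succ', Module.End.mul_apply, Module.End.mul_apply, ← ih]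
    exact he i _

theorem map_fil (a : Fin 3 → R) (f : Fin 3 → Module.End K V) (e : R ≃ₗ[K] V)
    (he : ∀ i r, e (a i * r) = f i (e r)) (v : V) (hv : e 1 = v) (j : ℕ) :
    (Fil (mulT K a) 1 j).map (e : R →ₗ[K] V) = Fil f v j := by
  unfold Fil
  rw [Submodule.map_span]
  congr 1
  ext u
  constructor
  · rintro ⟨_, ⟨i, j', k, h, rfl⟩, rfl⟩
    refine ⟨i, j', k, h, ?_⟩
    simp only [Module.End.mul_apply, LinearEquiv.coe_coe]
    rw [pow_intertwine a f e he, pow_intertwine a f e he, pow_intertwine a f e he, hv]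
  · rintro ⟨i, j', k, h, rfl⟩
    refine ⟨_, ⟨i, j', k, h, rfl⟩, ?_⟩
    simp only [Module.End.mul_apply, LinearEquiv.coe_coe]
    rw [pow_intertwine a f e he, pow_intertwine a f e he, pow_intertwine a f e he, hv]

end QUADAux

section QUAD
variable {K R : Type} [Field K] [IsAlgClosed K] [CharZero K] [CommRing R] [Algebra K R]
  [FiniteDimensional K R]

theorem cl_quad (x : Fin 3 → R) (hx : Gen3 K x) (q : Matrix (Fin 3) (Fin 3) K) (hq : q.IsSymm)
    (hm : Minor2 q) (h : quad q x ∈ mx x ^ 3) : Cl (mulT K x) := by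
  obtain ⟨A, c, hA, hAc⟩ := quad_normal q hq hm
  obtain ⟨hg, hmx⟩ := gen3_lin x hx A hA
  have h1 : Cl (mulT K (lin A x)) := by
    apply cl_nf (lin A x) hg c
    rw [← hAc R x, hmx]
    exact h
  exact cl_change (lin A x) x hg.1 h1

theorem cl_quad_V {V : Type} [AddCommGroup V] [Module K V] [FiniteDimensional K V]
    (f : Fin 3 → Module.End K V) (hf : Comm3 f) (v : V) (hv : Cyc f v)
    (hnil : ∃ k, Fil f v k = ⊥) (q : Matrix (Fin 3) (Fin 3) K) (hq : q.IsSymm) (hm : Minor2 q)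
    (h : ∑ i, ∑ j, q i j • f i (f j v) ∈ Fil f v 3) : Cl f := by
  obtain ⟨S, iS, iA, iF, a, e, ha, he, he1⟩ := exists_ring f hf v hv
  have hmap := QUADAux.map_fil a f e he v he1
  have hG : Gen3 K a := by
    refine ⟨ha, ?_⟩
    obtain ⟨k, hk⟩ := hnil
    refine ⟨k, ?_⟩
    rw [eq_bot_iff]
    intro r hr
    have h1 : r ∈ Fil (mulT K a) (1 : S) k := QUADAux.pow_le_fil a ha k hr
    have h2 : e r ∈ Fil f v k := by
      rw [← hmap k]
      exact ⟨r, h1, rfl⟩
    rw [hk, Submodule.mem_bot] at h2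
    rw [Ideal.mem_bot]
    exact e.map_eq_zero_iff.mp h2
  have hq' : quad q a ∈ mx a ^ 3 := by
    have h1 : e (quad q a) = ∑ i, ∑ j, q i j • f i (f j v) := by
      simp only [quad, map_sum, map_smul]
      refine Finset.sum_congr rfl fun i _ => Finset.sum_congr rfl fun j _ => ?_
      rw [← he1, ← he j, ← he i, mul_one]
    have h2 : e (quad q a) ∈ Fil f v 3 := by rw [h1]; exact h
    rw [← hmap 3] at h2
    obtain ⟨r, hr, hre⟩ := h2
    have h3 : r = quad q a := e.injective hre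
    rw [← h3]
    have h4 := mx_pow_span a hG 3
    rw [← h4] at hr
    exact hr
  have hcl := cl_quad a hG q hq hm hq'
  exact cl_equiv e (mulT K a) f (fun i r => he i r) hcl

end QUAD

end Pool.Agent.MPac4d2b
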