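import Mathlib
import Pool.Agent.Lib.MP_ac4d2b_ag.Defs
import Pool.Agent.Lib.MP_ac4d2b_ag.CL2
import Pool.Agent.Lib.MP_ac4d2b_ag.GEN
import Pool.Agent.Lib.MP_ac4d2b_ag.QUAD

set_option autoImplicit false

namespace Pool.Agent.MPac4d2b

namespace H5MAux

variable {K R : Type} [Field K] [CommRing R] [Algebra K R]

theorem x_mem (x : Fin 3 → R) (i : Fin 3) : x i ∈ mx x := Ideal.subset_span ⟨i, rfl⟩

theorem mulT_pow (x : Fin 3 → R) (i : Fin 3) (a : ℕ) (r : R) :
    (mulT K x i ^ a) r = x i ^ a * r := by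
  induction a generalizing r with
  | zero => simp
  | succ a ih =>
    rw [pow_succ, Module.End.mul_apply, ih]
    simp only [mulT, LinearMap.mulLeft_apply]
    ring

theorem mulT_mono (x : Fin 3 → R) (a b c : ℕ) (r : R) :
    (mulT K x 0 ^ a * mulT K x 1 ^ b * mulT K x 2 ^ c) r = x 0 ^ a * x 1 ^ b * x 2 ^ c * r := by
  rw [Module.End.mul_apply, Module.End.mul_apply, mulT_pow, mulT_pow, mulT_pow]
  ring

/-- span of the monomials of degree at least `j` in `x 1`, `x 2` -/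
def Dj (K : Type) {R : Type} [Field K] [CommRing R] [Algebra K R] (x : Fin 3 → R) (j : ℕ) :
    Submodule K R := Submodule.span K {u | ∃ b c : ℕ, j ≤ b + c ∧ u = x 1 ^ b * x 2 ^ c}

theorem Dj_mono (x : Fin 3 → R) {j j' : ℕ} (h : j ≤ j') : Dj K x j' ≤ Dj K x j := by
  refine Submodule.span_mono ?_
  rintro u ⟨b, c, hbc, rfl⟩
  exact ⟨b, c, h.trans hbc, rfl⟩

theorem mono_mem_Dj (x : Fin 3 → R) {j b c : ℕ} (h : j ≤ b + c) :
    x 1 ^ b * x 2 ^ c ∈ Dj K x j :=
  Submodule.subset_span ⟨b, c, h, rfl⟩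

theorem Dj_le_pow (x : Fin 3 → R) (j : ℕ) {u : R} (h : u ∈ Dj K x j) : u ∈ mx x ^ j := by
  have : Dj K x j ≤ (mx x ^ j).restrictScalars K := by
    refine Submodule.span_le.mpr ?_
    rintro u ⟨b, c, hbc, rfl⟩
    have h1 : x 1 ^ b * x 2 ^ c ∈ mx x ^ (b + c) := by
      rw [pow_add]
      exact Ideal.mul_mem_mul (Ideal.pow_mem_pow (x_mem x 1) b)
        (Ideal.pow_mem_pow (x_mem x 2) c)
    exact Ideal.pow_le_pow_right hbc h1
  exact this h

theorem Dj_y (x : Fin 3 → R) (j : ℕ) {u : R} (h : u ∈ Dj K x j) : x 1 * u ∈ Dj K x j := by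
  have : Dj K x j ≤ (Dj K x j).comap (LinearMap.mulLeft K (x 1)) := by
    refine Submodule.span_le.mpr ?_
    rintro u ⟨b, c, hbc, rfl⟩
    refine Submodule.subset_span ⟨b + 1, c, by omega, ?_⟩
    simp only [LinearMap.mulLeft_apply]
    ring
  exact this h

theorem Dj_z (x : Fin 3 → R) (j : ℕ) {u : R} (h : u ∈ Dj K x j) : x 2 * u ∈ Dj K x j := by
  have : Dj K x j ≤ (Dj K x j).comap (LinearMap.mulLeft K (x 2)) := by
    refine Submodule.span_le.mpr ?_
    rintro u ⟨b, c, hbc, rfl⟩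
    refine Submodule.subset_span ⟨b, c + 1, by omega, ?_⟩
    simp only [LinearMap.mulLeft_apply]
    ring
  exact this h

theorem Dj_adjoin (x : Fin 3 → R) {u : R} (h : u ∈ Dj K x 0) :
    u ∈ Algebra.adjoin K {x 1, x 2} := by
  have : Dj K x 0 ≤ Subalgebra.toSubmodule (Algebra.adjoin K {x 1, x 2}) := by
    refine Submodule.span_le.mpr ?_
    rintro u ⟨b, c, -, rfl⟩
    refine (Algebra.adjoin K {x 1, x 2}).mul_mem
      ((Algebra.adjoin K {x 1, x 2}).pow_mem (Algebra.subset_adjoin (by simp)) b)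
      ((Algebra.adjoin K {x 1, x 2}).pow_mem (Algebra.subset_adjoin (by simp)) c)
  exact this h

/-- the two-step filtration -/
def Nj (K : Type) {R : Type} [Field K] [CommRing R] [Algebra K R] (x : Fin 3 → R) (j : ℕ) :
    Submodule K R := Dj K x j ⊔ (Dj K x (j - 1)).map (LinearMap.mulRight K (x 0))

theorem mem_Nj (x : Fin 3 → R) (j : ℕ) (r : R) :
    r ∈ Nj K x j ↔ ∃ a ∈ Dj K x j, ∃ b ∈ Dj K x (j - 1), r = a + b * x 0 := by
  unfold Nj
  rw [Submodule.mem_sup]
  constructor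
  · rintro ⟨a, ha, c, hc, rfl⟩
    obtain ⟨b, hb, rfl⟩ := hc
    exact ⟨a, ha, b, hb, by simp⟩
  · rintro ⟨a, ha, b, hb, rfl⟩
    exact ⟨a, ha, b * x 0, ⟨b, hb, by simp⟩, rfl⟩

theorem Nj_mono (x : Fin 3 → R) (j : ℕ) : Nj K x (j + 1) ≤ Nj K x j := by
  intro r hr
  rw [mem_Nj] at hr ⊢
  obtain ⟨a, ha, b, hb, rfl⟩ := hr
  exact ⟨a, Dj_mono x (by omega) ha, b, Dj_mono x (by omega) hb, rfl⟩

theorem pow_le_Nj (x : Fin 3 → R) (hx : Gen3 K x) (h00 : x 0 ^ 2 ∈ mx x ^ 3) (n : ℕ) :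
    ∀ j : ℕ, mx x ^ (j + n) = ⊥ → (mx x ^ j).restrictScalars K ≤ Nj K x j := by
  induction n with
  | zero =>
    intro j hj
    rw [Nat.add_zero] at hj
    rw [hj]
    intro r hr
    have : r = 0 := by simpa using hr
    rw [this]
    exact Submodule.zero_mem _
  | succ n ih =>
    intro j hj
    have h1 := ih (j + 1) (by rw [← hj]; congr 1; omega)
    rw [mx_pow_span x hx]
    refine Submodule.span_le.mpr ?_
    rintro u ⟨a, b, c, habc, rfl⟩
    rw [mulT_mono, mul_one]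
    by_cases hlt : j + 1 ≤ a + b + c
    · apply Nj_mono
      apply h1
      have h2 : x 0 ^ a * x 1 ^ b * x 2 ^ c ∈ mx x ^ (a + b + c) := by
        rw [pow_add, pow_add]
        exact Ideal.mul_mem_mul (Ideal.mul_mem_mul
          (Ideal.pow_mem_pow (x_mem x 0) a)
          (Ideal.pow_mem_pow (x_mem x 1) b))
          (Ideal.pow_mem_pow (x_mem x 2) c)
      exact Ideal.pow_le_pow_right hlt h2
    · have he : a + b + c = j := by omega
      match a with
      | 0 =>
        rw [pow_zero, one_mul]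
        exact (mem_Nj x j _).mpr ⟨_, mono_mem_Dj x (by omega), 0, Submodule.zero_mem _, by ring⟩
      | 1 =>
        refine (mem_Nj x j _).mpr ⟨0, Submodule.zero_mem _, x 1 ^ b * x 2 ^ c,
          mono_mem_Dj x (by omega), by ring⟩
      | (a + 2) =>
        apply Nj_mono
        apply h1
        have h2 : x 0 ^ a * x 1 ^ b * x 2 ^ c ∈ mx x ^ (a + b + c) := by
          rw [pow_add, pow_add]
          exact Ideal.mul_mem_mul (Ideal.mul_mem_mul
            (Ideal.pow_mem_pow (x_mem x 0) a)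
            (Ideal.pow_mem_pow (x_mem x 1) b))
            (Ideal.pow_mem_pow (x_mem x 2) c)
        have h3 : x 0 ^ (a + 2) * x 1 ^ b * x 2 ^ c =
            x 0 ^ 2 * (x 0 ^ a * x 1 ^ b * x 2 ^ c) := by ring
        have h4 : j + 1 = 3 + (a + b + c) := by omega
        rw [h3]
        show _ ∈ mx x ^ (j + 1)
        rw [h4, pow_add]
        exact Ideal.mul_mem_mul h00 h2

theorem pow_le_Nj' (x : Fin 3 → R) (hx : Gen3 K x) (h00 : x 0 ^ 2 ∈ mx x ^ 3) (j : ℕ) {r : R}
    (hr : r ∈ mx x ^ j) : ∃ a ∈ Dj K x j, ∃ b ∈ Dj K x (j - 1), r = a + b * x 0 := by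
  obtain ⟨k, hk⟩ := hx.2
  have h1 : mx x ^ (j + k) = ⊥ := by rw [pow_add, hk, Ideal.mul_bot]
  exact (mem_Nj x j r).mp (pow_le_Nj x hx h00 k j h1 hr)

theorem exists_dec (x : Fin 3 → R) (hx : Gen3 K x) (h00 : x 0 ^ 2 ∈ mx x ^ 3) (r : R) :
    ∃ a ∈ Dj K x 0, ∃ b ∈ Dj K x 0, r = a + b * x 0 :=
  pow_le_Nj' x hx h00 0 (by simp)

/-- the map `a + b x ↦ b d` -/
theorem exists_W (x : Fin 3 → R) (hx : Gen3 K x) (h00 : x 0 ^ 2 ∈ mx x ^ 3) (d : R)
    (hd : ∀ b ∈ Algebra.adjoin K {x 1, x 2}, b * x 0 ∈ Algebra.adjoin K {x 1, x 2} →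
      b * d = 0) :
    ∃ W : Module.End K R, ∀ a ∈ Dj K x 0, ∀ b ∈ Dj K x 0, W (a + b * x 0) = b * d := by
  choose A hA B hB hAB using exists_dec x hx h00
  have key : ∀ r, ∀ a ∈ Dj K x 0, ∀ b ∈ Dj K x 0, r = a + b * x 0 → B r * d = b * d := by
    intro r a ha b hb hr
    have h1 : B r - b ∈ Dj K x 0 := Submodule.sub_mem _ (hB r) hb
    have h2 : (B r - b) * x 0 = a - A r := by
      have := hAB r
      rw [hr] at this ⊢
      linear_combination -this
    have h3 : a - A r ∈ Dj K x 0 := Submodule.sub_mem _ ha (hA r)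
    have h4 := hd _ (Dj_adjoin x h1) (by rw [h2]; exact Dj_adjoin x h3)
    linear_combination h4
  refine ⟨{ toFun := fun r => B r * d, map_add' := ?_, map_smul' := ?_ }, ?_⟩
  · intro r s
    rw [← add_mul]
    refine key (r + s) (A r + A s) (Submodule.add_mem _ (hA r) (hA s)) (B r + B s)
      (Submodule.add_mem _ (hB r) (hB s)) ?_
    linear_combination hAB r + hAB s
  · intro c r
    rw [RingHom.id_apply, ← smul_mul_assoc]
    refine key (c • r) (c • A r) (Submodule.smul_mem _ _ (hA r)) (c • B r)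
      (Submodule.smul_mem _ _ (hB r)) ?_
    rw [smul_mul_assoc, ← smul_add, ← hAB r]
  · intro a ha b hb
    exact key _ a ha b hb rfl

/-- coefficients of `d` -/
theorem D2_split (x : Fin 3 → R) {u : R} (hu : u ∈ Dj K x 2) :
    ∃ g e z : K, u - (g • (x 1 * x 1) + e • (x 1 * x 2) + z • (x 2 * x 2)) ∈ mx x ^ 3 := by
  induction hu using Submodule.span_induction with
  | mem u hu =>
    obtain ⟨b, c, hbc, rfl⟩ := hu
    by_cases h3 : 3 ≤ b + c
    · refine ⟨0, 0, 0, ?_⟩
      simp only [zero_smul, add_zero, sub_zero]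
      exact Dj_le_pow (K := K) x 3 (mono_mem_Dj x h3)
    · have : (b = 0 ∧ c = 2) ∨ (b = 1 ∧ c = 1) ∨ (b = 2 ∧ c = 0) := by omega
      rcases this with ⟨rfl, rfl⟩ | ⟨rfl, rfl⟩ | ⟨rfl, rfl⟩
      · refine ⟨0, 0, 1, ?_⟩
        simp [sq]
      · refine ⟨0, 1, 0, ?_⟩
        simp
      · refine ⟨1, 0, 0, ?_⟩
        simp [sq]
  | zero => exact ⟨0, 0, 0, by simp⟩
  | add u v _ _ hu hv =>
    obtain ⟨g, e, z, h1⟩ := hu
    obtain ⟨g', e', z', h2⟩ := hv
    refine ⟨g + g', e + e', z + z', ?_⟩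
    have := Ideal.add_mem _ h1 h2
    convert this using 1
    simp only [add_smul]
    ring
  | smul c u _ hu =>
    obtain ⟨g, e, z, h1⟩ := hu
    refine ⟨c * g, c * e, c * z, ?_⟩
    have := Submodule.smul_of_tower_mem (mx x ^ 3) c h1
    convert this using 1
    simp only [smul_sub, smul_add, smul_smul]

theorem D1_split (x : Fin 3 → R) {u : R} (hu : u ∈ Dj K x 1) :
    ∃ g e : K, u - (g • x 1 + e • x 2) ∈ mx x ^ 2 := by
  induction hu using Submodule.span_induction with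
  | mem u hu =>
    obtain ⟨b, c, hbc, rfl⟩ := hu
    by_cases h3 : 2 ≤ b + c
    · refine ⟨0, 0, ?_⟩
      simp only [zero_smul, add_zero, sub_zero]
      exact Dj_le_pow (K := K) x 2 (mono_mem_Dj x h3)
    · have : (b = 0 ∧ c = 1) ∨ (b = 1 ∧ c = 0) := by omega
      rcases this with ⟨rfl, rfl⟩ | ⟨rfl, rfl⟩
      · refine ⟨0, 1, ?_⟩
        simp
      · refine ⟨1, 0, ?_⟩
        simp
  | zero => exact ⟨0, 0, by simp⟩
  | add u v _ _ hu hv =>
    obtain ⟨g, e, h1⟩ := hu
    obtain ⟨g', e', h2⟩ := hv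
    refine ⟨g + g', e + e', ?_⟩
    have := Ideal.add_mem _ h1 h2
    convert this using 1
    simp only [add_smul]
    ring
  | smul c u _ hu =>
    obtain ⟨g, e, h1⟩ := hu
    refine ⟨c * g, c * e, ?_⟩
    have := Submodule.smul_of_tower_mem (mx x ^ 2) c h1
    convert this using 1
    simp only [smul_sub, smul_add, smul_smul]

theorem coeffs (x : Fin 3 → R) (hx : Gen3 K x) (h00 : x 0 ^ 2 ∈ mx x ^ 3) {d : R}
    (hd2 : d ∈ mx x ^ 2) : ∃ al be ga ep ze : K,
      d - (al • (x 1 * x 0) + be • (x 2 * x 0) + ga • (x 1 * x 1) + ep • (x 1 * x 2) +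
        ze • (x 2 * x 2)) ∈ mx x ^ 3 := by
  obtain ⟨a, ha, b, hb, rfl⟩ := pow_le_Nj' x hx h00 2 hd2
  obtain ⟨ga, ep, ze, h1⟩ := D2_split x ha
  obtain ⟨al, be, h2⟩ := D1_split x hb
  refine ⟨al, be, ga, ep, ze, ?_⟩
  have h3 : (b - (al • x 1 + be • x 2)) * x 0 ∈ mx x ^ 3 := by
    have : mx x ^ 3 = mx x ^ 2 * mx x := by rw [← pow_succ]
    rw [this]
    exact Ideal.mul_mem_mul h2 (x_mem x 0)
  have := Ideal.add_mem _ h1 h3
  convert this using 1
  simp only [sub_mul, add_mul, smul_mul_assoc]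
  ring

/-- the symmetric matrix -/
def qt (t al be ga ep ze : K) : Matrix (Fin 3) (Fin 3) K :=
  !![1, -(t * al / 2), -(t * be / 2); -(t * al / 2), -(t * ga), -(t * ep / 2);
    -(t * be / 2), -(t * ep / 2), -(t * ze)]

theorem qt_symm (t al be ga ep ze : K) : (qt t al be ga ep ze).IsSymm := by
  unfold qt
  ext i j
  fin_cases i <;> fin_cases j <;> rfl

theorem qt_minor [CharZero K] (t al be ga ep ze : K)
    (h : ¬ (al = 0 ∧ be = 0 ∧ ga = 0 ∧ ep = 0 ∧ ze = 0)) (ht0 : t ≠ 0)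
    (ht1 : t ≠ -4 * ga / al ^ 2) (ht2 : t ≠ -4 * ze / be ^ 2) :
    Minor2 (qt t al be ga ep ze) := by
  by_contra hcon
  unfold Minor2 at hcon
  push Not at hcon
  have m1 := hcon 0 1 0 1
  have m2 := hcon 0 2 0 2
  have m3 := hcon 0 1 0 2
  simp only [qt, Matrix.of_apply, Matrix.cons_val', Matrix.cons_val_zero, Matrix.cons_val_one,
    Matrix.cons_val, one_mul, Matrix.cons_val_fin_one] at m1 m2 m3
  have e1 : ga = -(t * al ^ 2 / 4) := by
    have : t * (ga + t * al ^ 2 / 4) = 0 := by linear_combination -m1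
    rcases mul_eq_zero.mp this with h0 | h0
    · exact absurd h0 ht0
    · linear_combination h0
  have e2 : ze = -(t * be ^ 2 / 4) := by
    have : t * (ze + t * be ^ 2 / 4) = 0 := by linear_combination -m2
    rcases mul_eq_zero.mp this with h0 | h0
    · exact absurd h0 ht0
    · linear_combination h0
  have e3 : ep = -(t * al * be / 2) := by
    have : t * (ep + t * al * be / 2) = 0 := by linear_combination -2 * m3
    rcases mul_eq_zero.mp this with h0 | h0
    · exact absurd h0 ht0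
    · linear_combination h0
  have hal : al = 0 := by
    by_contra hal
    apply ht1
    rw [e1]
    field_simp
  have hbe : be = 0 := by
    by_contra hbe
    apply ht2
    rw [e2]
    field_simp
  apply h
  refine ⟨hal, hbe, ?_, ?_, ?_⟩
  · rw [e1, hal]; ring
  · rw [e3, hal]; ring
  · rw [e2, hbe]; ring

end H5MAux

open H5MAux

variable {K R : Type} [Field K] [IsAlgClosed K] [CharZero K] [CommRing R] [Algebra K R]
  [FiniteDimensional K R]

/-- H5M (uses QUAD, CL2, RING, GEN) -/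
theorem h5_move (x : Fin 3 → R) (hx : Gen3 K x) (h00 : x 0 ^ 2 ∈ mx x ^ 3) (d : R)
    (hd2 : d ∈ mx x ^ 2) (hd3 : d ∉ mx x ^ 3)
    (hd : ∀ b ∈ Algebra.adjoin K {x 1, x 2}, b * x 0 ∈ Algebra.adjoin K {x 1, x 2} →
      b * d = 0) : Cl (mulT K x) := by
  obtain ⟨W, hW⟩ := exists_W x hx h00 d hd
  obtain ⟨al, be, ga, ep, ze, hco⟩ := coeffs x hx h00 hd2
  have hnz : ¬ (al = 0 ∧ be = 0 ∧ ga = 0 ∧ ep = 0 ∧ ze = 0) := by
    rintro ⟨rfl, rfl, rfl, rfl, rfl⟩
    apply hd3
    simpa using hco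
  have h1D : (1 : R) ∈ Dj K x 0 := by
    have := mono_mem_Dj (K := K) x (j := 0) (b := 0) (c := 0) (Nat.zero_le _)
    simpa using this
  have hW1 : W 1 = 0 := by
    have := hW 1 h1D 0 (Submodule.zero_mem _)
    simpa using this
  have hWx : W (x 0) = d := by
    have := hW 0 (Submodule.zero_mem _) 1 h1D
    simpa using this
  have hWy : ∀ r, W (x 1 * r) = x 1 * W r := by
    intro r
    obtain ⟨a, ha, b, hb, rfl⟩ := exists_dec x hx h00 r
    have h1 : x 1 * (a + b * x 0) = x 1 * a + x 1 * b * x 0 := by ring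
    rw [h1, hW _ (Dj_y x 0 ha) _ (Dj_y x 0 hb), hW a ha b hb]
    ring
  have hWz : ∀ r, W (x 2 * r) = x 2 * W r := by
    intro r
    obtain ⟨a, ha, b, hb, rfl⟩ := exists_dec x hx h00 r
    have h1 : x 2 * (a + b * x 0) = x 2 * a + x 2 * b * x 0 := by ring
    rw [h1, hW _ (Dj_z x 0 ha) _ (Dj_z x 0 hb), hW a ha b hb]
    ring
  have hWpow : ∀ j r, r ∈ mx x ^ j → W r ∈ mx x ^ (j + 1) := by
    intro j r hr
    obtain ⟨a, ha, b, hb, rfl⟩ := pow_le_Nj' x hx h00 j hr
    rw [hW a (Dj_mono x (Nat.zero_le _) ha) b (Dj_mono x (Nat.zero_le _) hb)]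
    have h1 := Ideal.mul_mem_mul (Dj_le_pow x _ hb) hd2
    rw [← pow_add] at h1
    exact Ideal.pow_le_pow_right (by omega) h1
  refine cl_line (mulT K x) ![W, 0, 0] ?_
  have hfin : ({0, -4 * ga / al ^ 2, -4 * ze / be ^ 2} : Set K).Finite := Set.toFinite _
  refine hfin.infinite_compl.mono ?_
  intro t ht
  simp only [Set.mem_compl_iff, Set.mem_insert_iff, Set.mem_singleton_iff, not_or] at ht
  obtain ⟨ht0, ht1, ht2⟩ := ht
  show Cl (fun i => mulT K x i + t • (![W, 0, 0] : Fin 3 → Module.End K R) i)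
  set f : Fin 3 → Module.End K R := fun i => mulT K x i + t • (![W, 0, 0] : Fin 3 → Module.End K R) i
    with hf
  have f0 : ∀ r, f 0 r = x 0 * r + t • W r := by
    intro r
    simp [hf, mulT]
  have f1 : ∀ r, f 1 r = x 1 * r := by
    intro r
    simp [hf, mulT]
  have f2 : ∀ r, f 2 r = x 2 * r := by
    intro r
    simp [hf, mulT]
  have c01 : f 0 * f 1 = f 1 * f 0 := by
    ext r
    rw [Module.End.mul_apply, Module.End.mul_apply, f1, f0, f0, f1, hWy, mul_add, mul_smul_comm]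
    ring_nf
  have c02 : f 0 * f 2 = f 2 * f 0 := by
    ext r
    rw [Module.End.mul_apply, Module.End.mul_apply, f2, f0, f0, f2, hWz, mul_add, mul_smul_comm]
    ring_nf
  have c12 : f 1 * f 2 = f 2 * f 1 := by
    ext r
    rw [Module.End.mul_apply, Module.End.mul_apply, f2, f1, f1, f2]
    ring
  have hcomm : Comm3 f := by
    intro i j
    fin_cases i <;> fin_cases j
    · rfl
    · exact c01
    · exact c02
    · exact c01.symm
    · rfl
    · exact c12
    · exact c02.symm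
    · exact c12.symm
    · rfl
  have f1pow : ∀ (b : ℕ) r, (f 1 ^ b) r = x 1 ^ b * r := by
    intro b
    induction b with
    | zero => intro r; simp
    | succ b ih =>
      intro r
      rw [pow_succ, Module.End.mul_apply, ih, f1]
      ring
  have f2pow : ∀ (b : ℕ) r, (f 2 ^ b) r = x 2 ^ b * r := by
    intro b
    induction b with
    | zero => intro r; simp
    | succ b ih =>
      intro r
      rw [pow_succ, Module.End.mul_apply, ih, f2]
      ring
  have f0one : f 0 1 = x 0 := by rw [f0, hW1]; simp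
  have hmon0 : ∀ b c : ℕ, (f 0 ^ 0 * f 1 ^ b * f 2 ^ c) (1 : R) = x 1 ^ b * x 2 ^ c := by
    intro b c
    rw [pow_zero, one_mul, Module.End.mul_apply, f1pow, f2pow, mul_one]
  have hWD : ∀ (b c : ℕ) (r : R), W (x 1 ^ b * x 2 ^ c * r) = x 1 ^ b * x 2 ^ c * W r := by
    intro b c r
    induction b with
    | zero =>
      induction c with
      | zero => simp
      | succ c ih =>
        have : x 1 ^ 0 * x 2 ^ (c + 1) * r = x 2 * (x 1 ^ 0 * x 2 ^ c * r) := by ring
        rw [this, hWz, ih]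
        ring
    | succ b ih =>
      have : x 1 ^ (b + 1) * x 2 ^ c * r = x 1 * (x 1 ^ b * x 2 ^ c * r) := by ring
      rw [this, hWy, ih]
      ring
  have hmon1 : ∀ b c : ℕ, (f 0 ^ 1 * f 1 ^ b * f 2 ^ c) (1 : R) = x 1 ^ b * x 2 ^ c * x 0 := by
    intro b c
    rw [pow_one, mul_assoc, Module.End.mul_apply, Module.End.mul_apply, f1pow, f2pow, f0]
    have h1 : x 1 ^ b * (x 2 ^ c * 1) = x 1 ^ b * x 2 ^ c * 1 := by ring
    rw [h1, hWD, hW1]
    simp
    ring
  -- the filtration is unchanged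
  have hup : ∀ j, (mx x ^ j).restrictScalars K ≤ Fil f 1 j := by
    intro j r hr
    obtain ⟨a, ha, b, hb, rfl⟩ := pow_le_Nj' x hx h00 j hr
    refine Submodule.add_mem _ ?_ ?_
    · have h1 : Dj K x j ≤ Fil f 1 j := by
        refine Submodule.span_le.mpr ?_
        rintro u ⟨b, c, hbc, rfl⟩
        exact Submodule.subset_span ⟨0, b, c, by omega, (hmon0 b c).symm⟩
      exact h1 ha
    · have h1 : Dj K x (j - 1) ≤ (Fil f 1 j).comap (LinearMap.mulRight K (x 0)) := by
        refine Submodule.span_le.mpr ?_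
        rintro u ⟨b, c, hbc, rfl⟩
        refine Submodule.subset_span ⟨1, b, c, by omega, ?_⟩
        rw [hmon1, LinearMap.mulRight_apply]
      exact h1 hb
  have hdown : ∀ a b c : ℕ, (f 0 ^ a * f 1 ^ b * f 2 ^ c) (1 : R) ∈ mx x ^ (a + b + c) := by
    intro a b c
    rw [mul_assoc, Module.End.mul_apply]
    have h0 : (f 1 ^ b * f 2 ^ c) (1 : R) ∈ mx x ^ (b + c) := by
      rw [Module.End.mul_apply, f1pow, f2pow, mul_one]
      exact Dj_le_pow (K := K) x _ (mono_mem_Dj x le_rfl)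
    generalize (f 1 ^ b * f 2 ^ c) (1 : R) = r at h0
    induction a with
    | zero => simpa using h0
    | succ a ih =>
      rw [pow_succ', Module.End.mul_apply, f0]
      have h1 : x 0 * (f 0 ^ a) r ∈ mx x ^ (a + 1 + b + c) := by
        have : mx x ^ (a + 1 + b + c) = mx x * mx x ^ (a + b + c) := by
          rw [← pow_succ']
          congr 1
          omega
        rw [this]
        exact Ideal.mul_mem_mul (x_mem x 0) ih
      have h2 : t • W ((f 0 ^ a) r) ∈ mx x ^ (a + 1 + b + c) := by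
        have h3 := hWpow _ _ ih
        have : a + b + c + 1 = a + 1 + b + c := by omega
        rw [this] at h3
        exact Submodule.smul_of_tower_mem _ t h3
      exact Ideal.add_mem _ h1 h2
  have hFil : ∀ j, Fil f 1 j ≤ (mx x ^ j).restrictScalars K := by
    intro j
    refine Submodule.span_le.mpr ?_
    rintro u ⟨a, b, c, habc, rfl⟩
    exact Ideal.pow_le_pow_right habc (hdown a b c)
  have hcyc : Cyc f 1 := by
    unfold Cyc
    rw [eq_top_iff]
    have h1 : (mx x ^ 0).restrictScalars K ≤ Fil f 1 0 := hup 0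
    intro r _
    have h2 : r ∈ Fil f 1 0 := h1 (by simp)
    have h3 : Fil f 1 0 ≤ Submodule.span K
        (Set.range fun e : ℕ × ℕ × ℕ => (f 0 ^ e.1 * f 1 ^ e.2.1 * f 2 ^ e.2.2) (1 : R)) := by
      refine Submodule.span_mono ?_
      rintro u ⟨a, b, c, -, rfl⟩
      exact ⟨(a, b, c), rfl⟩
    exact h3 h2
  have hnil : ∃ k, Fil f 1 k = ⊥ := by
    obtain ⟨k, hk⟩ := hx.2
    refine ⟨k, ?_⟩
    rw [eq_bot_iff]
    intro r hr
    have := hFil k hr
    rw [hk] at this
    simpa using this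
  refine cl_quad_V f hcomm 1 hcyc hnil (qt t al be ga ep ze) (qt_symm _ _ _ _ _ _)
    (qt_minor t al be ga ep ze hnz ht0 ht1 ht2) ?_
  apply hup 3
  have hsum : ∑ i, ∑ j, qt t al be ga ep ze i j • f i (f j 1) =
      x 0 ^ 2 + t • (d - (al • (x 1 * x 0) + be • (x 2 * x 0) + ga • (x 1 * x 1) +
        ep • (x 1 * x 2) + ze • (x 2 * x 2))) := by
    have e0 : f 0 1 = x 0 := f0one
    have e1 : f 1 1 = x 1 := by rw [f1, mul_one]
    have e2 : f 2 1 = x 2 := by rw [f2, mul_one]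
    have e00 : f 0 (x 0) = x 0 ^ 2 + t • d := by rw [f0, hWx, sq]
    have e01 : f 0 (x 1) = x 1 * x 0 := by
      have h1 : x 1 = x 1 * 1 := (mul_one _).symm
      have h2 : W (x 1) = 0 := by rw [h1, hWy, hW1, mul_zero]
      rw [f0, h2, smul_zero, add_zero, mul_comm]
    have e02 : f 0 (x 2) = x 2 * x 0 := by
      have h1 : x 2 = x 2 * 1 := (mul_one _).symm
      have h2 : W (x 2) = 0 := by rw [h1, hWz, hW1, mul_zero]
      rw [f0, h2, smul_zero, add_zero, mul_comm]
    simp only [Fin.sum_univ_three, e0, e1, e2, e00, e01, e02, f1, f2]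
    simp only [qt, Matrix.of_apply, Matrix.cons_val', Matrix.cons_val_zero, Matrix.cons_val_one,
      Matrix.cons_val, Matrix.cons_val_fin_one, one_smul]
    have hc1 : x 2 * x 1 = x 1 * x 2 := mul_comm _ _
    rw [hc1]
    simp only [smul_sub, smul_add, smul_smul, neg_smul]
    have s1 : (t * al / 2) • (x 1 * x 0) + (t * al / 2) • (x 1 * x 0) = (t * al) • (x 1 * x 0) := by
      rw [← add_smul]; congr 1; ring
    have s2 : (t * be / 2) • (x 2 * x 0) + (t * be / 2) • (x 2 * x 0) = (t * be) • (x 2 * x 0) := by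
      rw [← add_smul]; congr 1; ring
    have s3 : (t * ep / 2) • (x 1 * x 2) + (t * ep / 2) • (x 1 * x 2) = (t * ep) • (x 1 * x 2) := by
      rw [← add_smul]; congr 1; ring
    rw [← s1, ← s2, ← s3]
    abel
  rw [hsum]
  exact Ideal.add_mem _ h00 (Submodule.smul_of_tower_mem _ t hco)

end Pool.Agent.MPac4d2b
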