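import Mathlib
import Pool.Agent.Lib.MP_ac4d2b_ag.Defs

/-!
MP_ac4d2b_ag, project HILB, module H6L: linear algebra for the case without quadrics.
-/

set_option autoImplicit false

namespace Pool.Agent.MPac4d2b

open Matrix

namespace H6LAux

/-- The total map. -/
noncomputable def Mtot {K U L : Type} [Field K] [AddCommGroup U] [Module K U]
    [AddCommGroup L] [Module K L] (μ : Fin 3 → U →ₗ[K] L) :
    (Fin 3 → Module.Dual K L) →ₗ[K] Module.Dual K U :=
  ∑ i, (LinearMap.lcomp K K (μ i)) ∘ₗ (LinearMap.proj i)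

theorem Mtot_apply {K U L : Type} [Field K] [AddCommGroup U] [Module K U]
    [AddCommGroup L] [Module K L] (μ : Fin 3 → U →ₗ[K] L) (α : Fin 3 → Module.Dual K L) (u : U) :
    Mtot μ α u = ∑ i, α i (μ i u) := by
  simp [Mtot, LinearMap.lcomp_apply]

/-- Evaluation of the quadratic form at a vector. -/
noncomputable def evQ {K U : Type} [Field K] [AddCommGroup U] [Module K U]
    (σ : U →ₗ[K] Matrix (Fin 3) (Fin 3) K) (η : Fin 3 → K) : Module.Dual K U where
  toFun u := ∑ i, ∑ j, σ u i j * (η i * η j)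
  map_add' u v := by
    simp only [map_add, Matrix.add_apply, add_mul, Finset.sum_add_distrib]
  map_smul' c u := by
    simp only [map_smul, Matrix.smul_apply, smul_eq_mul, RingHom.id_apply, Finset.mul_sum,
      mul_assoc]

theorem evQ_apply {K U : Type} [Field K] [AddCommGroup U] [Module K U]
    (σ : U →ₗ[K] Matrix (Fin 3) (Fin 3) K) (η : Fin 3 → K) (u : U) :
    evQ σ η u = ∑ i, ∑ j, σ u i j * (η i * η j) := rfl

/-- Relations. -/
noncomputable def Rel {K L : Type} [Field K] [AddCommGroup L] [Module K L] (η : Fin 3 → K) :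
    Submodule K (Fin 3 → Module.Dual K L) :=
  LinearMap.ker (∑ i, η i • (LinearMap.proj i : (Fin 3 → Module.Dual K L) →ₗ[K] Module.Dual K L))

theorem mem_Rel {K L : Type} [Field K] [AddCommGroup L] [Module K L] (η : Fin 3 → K)
    (α : Fin 3 → Module.Dual K L) : α ∈ Rel η ↔ ∑ i, η i • α i = 0 := by
  simp [Rel]

theorem key_dual {K U L : Type} [Field K] [AddCommGroup U] [Module K U]
    [FiniteDimensional K U] [AddCommGroup L] [Module K L] [FiniteDimensional K L]
    (μ : Fin 3 → U →ₗ[K] L) (σ : U →ₗ[K] Matrix (Fin 3) (Fin 3) K)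
    (H : ∀ (η : Fin 3 → K) (g : U), (∀ v : Fin 3 → K, ∑ i, v i * η i = 0 → ∑ i, v i • μ i g = 0) →
      ∑ i, ∑ j, σ g i j * (η i * η j) = 0) (η : Fin 3 → K) :
    ∃ α : Fin 3 → Module.Dual K L, ∑ i, η i • α i = 0 ∧ Mtot μ α = evQ σ η := by
  by_contra hc
  have h1 : evQ σ η ∉ (Rel (L := L) η).map (Mtot μ) := by
    rintro ⟨α, hα, he⟩
    exact hc ⟨α, (mem_Rel η α).1 hα, he⟩
  rw [← Subspace.dualCoannihilator_dualAnnihilator_eq
    (W := (Rel (L := L) η).map (Mtot μ)), Submodule.mem_dualAnnihilator] at h1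
  push Not at h1
  obtain ⟨g, hg, hne⟩ := h1
  rw [Submodule.mem_dualCoannihilator] at hg
  apply hne
  rw [evQ_apply]
  apply H
  intro v hv
  rw [← Module.forall_dual_apply_eq_zero_iff K]
  intro β
  have h2 : Mtot μ (fun i => v i • β) g = 0 := by
    apply hg
    refine ⟨_, ?_, rfl⟩
    show (fun i => v i • β) ∈ Rel (L := L) η
    rw [mem_Rel]
    have : ∑ i, η i • v i • β = (∑ i, v i * η i) • β := by
      rw [Finset.sum_smul]
      apply Finset.sum_congr rfl
      intro i _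
      rw [smul_smul, mul_comm]
    rw [this, hv, zero_smul]
  rw [Mtot_apply] at h2
  rw [map_sum, ← h2]
  apply Finset.sum_congr rfl
  intro i _
  simp

end H6LAux

open H6LAux in
theorem h6_linear {K U L : Type} [Field K] [CharZero K] [AddCommGroup U] [Module K U]
    [FiniteDimensional K U] [AddCommGroup L] [Module K L] [FiniteDimensional K L]
    (hL : Module.finrank K L ≤ 2) (μ : Fin 3 → U →ₗ[K] L)
    (σ : U →ₗ[K] Matrix (Fin 3) (Fin 3) K) (hσs : ∀ u, (σ u).IsSymm)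
    (p : Fin 3 → Fin 3 → U) (hp : ∀ i j, p i j = p j i)
    (hσ : ∀ q : Matrix (Fin 3) (Fin 3) K, q.IsSymm → σ (∑ i, ∑ j, q i j • p i j) = q)
    (hμ : ∀ i j k, μ i (p j k) = μ j (p i k)) :
    ∃ (η : Fin 3 → K) (g : U), (∀ v : Fin 3 → K, ∑ i, v i * η i = 0 → ∑ i, v i • μ i g = 0) ∧
      ∑ i, ∑ j, σ g i j * (η i * η j) ≠ 0 := by
  by_contra hc
  push Not at hc
  have hK := key_dual μ σ hc
  have h2 : (2 : K) ≠ 0 := two_ne_zero
  -- the values of the form at the generators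
  have hval : ∀ (η : Fin 3 → K) (i j : Fin 3), evQ σ η (p i j) = η i * η j := by
    intro η i j
    obtain ⟨q, hqd⟩ : ∃ q : Matrix (Fin 3) (Fin 3) K,
        q = (2 : K)⁻¹ • (Matrix.single i j (1 : K) + Matrix.single j i 1) := ⟨_, rfl⟩
    have hqe : ∀ a b, q a b = (2 : K)⁻¹ * ((if i = a ∧ j = b then 1 else 0) +
        (if j = a ∧ i = b then 1 else 0)) := by
      intro a b
      rw [hqd, Matrix.smul_apply, Matrix.add_apply, Matrix.single_apply, Matrix.single_apply,
        smul_eq_mul]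
    have hq : q.IsSymm := by
      rw [hqd, Matrix.IsSymm, Matrix.transpose_smul, Matrix.transpose_add, Matrix.transpose_single,
        Matrix.transpose_single, add_comm]
    have h3 := hσ _ hq
    have h4 : ∑ a, ∑ b, q a b • p a b = p i j := by
      have e1 : ∀ a b : Fin 3, q a b • p a b =
          (2 : K)⁻¹ • ((if i = a ∧ j = b then p a b else 0) +
            (if j = a ∧ i = b then p a b else 0)) := by
        intro a b
        rw [hqe]
        split_ifs <;> simp [mul_smul, add_smul]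
      simp only [e1, ← Finset.smul_sum, Finset.sum_add_distrib]
      have e2 : ∀ i j : Fin 3, ∑ a, ∑ b, (if i = a ∧ j = b then p a b else 0) = p i j := by
        intro i j
        rw [Finset.sum_eq_single i, Finset.sum_eq_single j] <;> simp +contextual [eq_comm]
      rw [e2, e2, hp j i, ← two_smul K (p i j), smul_smul, inv_mul_cancel₀ h2, one_smul]
    rw [h4] at h3
    rw [evQ_apply, h3]
    have e1 : ∀ a b : Fin 3, q a b * (η a * η b) =
          (2 : K)⁻¹ * ((if i = a ∧ j = b then (η a * η b) else 0) +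
            (if j = a ∧ i = b then (η a * η b) else 0)) := by
      intro a b
      rw [hqe]
      split_ifs <;> simp [add_mul, mul_assoc]
    simp only [e1, ← Finset.mul_sum, Finset.sum_add_distrib]
    have e2 : ∀ i j : Fin 3, ∑ a, ∑ b, (if i = a ∧ j = b then η a * η b else 0) = η i * η j := by
      intro i j
      rw [Finset.sum_eq_single i, Finset.sum_eq_single j] <;> simp +contextual [eq_comm]
    rw [e2, e2, mul_comm (η j), ← two_mul, inv_mul_cancel_left₀ h2]
  -- the six coordinates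
  let S : (Fin 3 → Module.Dual K L) →ₗ[K] (Fin 6 → K) :=
    LinearMap.pi (fun m => (Module.Dual.eval K U
      ((![p 0 0, p 0 1, p 0 2, p 1 1, p 1 2, p 2 2] : Fin 6 → U) m)) ∘ₗ Mtot μ)
  have hS : ∀ α, S α = ![Mtot μ α (p 0 0), Mtot μ α (p 0 1), Mtot μ α (p 0 2),
      Mtot μ α (p 1 1), Mtot μ α (p 1 2), Mtot μ α (p 2 2)] := by
    intro α
    ext m
    fin_cases m <;> rfl
  have hSt : ∀ η : Fin 3 → K, ∃ α : Fin 3 → Module.Dual K L, ∑ i, η i • α i = 0 ∧
      S α = ![η 0 * η 0, η 0 * η 1, η 0 * η 2, η 1 * η 1, η 1 * η 2, η 2 * η 2] := by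
    intro η
    obtain ⟨α, h1, h3⟩ := hK η
    refine ⟨α, h1, ?_⟩
    rw [hS, h3]
    simp only [hval]
  have hsurj : Function.Surjective S := by
    rw [← LinearMap.range_eq_top, eq_top_iff]
    intro c _
    have hm : ∀ η : Fin 3 → K, (![η 0 * η 0, η 0 * η 1, η 0 * η 2, η 1 * η 1, η 1 * η 2,
        η 2 * η 2] : Fin 6 → K) ∈ LinearMap.range S := by
      intro η
      obtain ⟨α, -, h3⟩ := hSt η
      exact ⟨α, h3⟩
    have m0 := hm ![1, 0, 0]
    have m1 := hm ![1, 1, 0]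
    have m2 := hm ![1, 0, 1]
    have m3 := hm ![0, 1, 0]
    have m4 := hm ![0, 1, 1]
    have m5 := hm ![0, 0, 1]
    have hcomb : c = (c 0 - c 1 - c 2) • (![![(1 : K), 0, 0] 0 * ![(1 : K), 0, 0] 0,
        ![(1 : K), 0, 0] 0 * ![(1 : K), 0, 0] 1, ![(1 : K), 0, 0] 0 * ![(1 : K), 0, 0] 2,
        ![(1 : K), 0, 0] 1 * ![(1 : K), 0, 0] 1, ![(1 : K), 0, 0] 1 * ![(1 : K), 0, 0] 2,
        ![(1 : K), 0, 0] 2 * ![(1 : K), 0, 0] 2] : Fin 6 → K) +
        c 1 • (![![(1 : K), 1, 0] 0 * ![(1 : K), 1, 0] 0,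
        ![(1 : K), 1, 0] 0 * ![(1 : K), 1, 0] 1, ![(1 : K), 1, 0] 0 * ![(1 : K), 1, 0] 2,
        ![(1 : K), 1, 0] 1 * ![(1 : K), 1, 0] 1, ![(1 : K), 1, 0] 1 * ![(1 : K), 1, 0] 2,
        ![(1 : K), 1, 0] 2 * ![(1 : K), 1, 0] 2] : Fin 6 → K) +
        c 2 • (![![(1 : K), 0, 1] 0 * ![(1 : K), 0, 1] 0,
        ![(1 : K), 0, 1] 0 * ![(1 : K), 0, 1] 1, ![(1 : K), 0, 1] 0 * ![(1 : K), 0, 1] 2,
        ![(1 : K), 0, 1] 1 * ![(1 : K), 0, 1] 1, ![(1 : K), 0, 1] 1 * ![(1 : K), 0, 1] 2,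
        ![(1 : K), 0, 1] 2 * ![(1 : K), 0, 1] 2] : Fin 6 → K) +
        (c 3 - c 1 - c 4) • (![![(0 : K), 1, 0] 0 * ![(0 : K), 1, 0] 0,
        ![(0 : K), 1, 0] 0 * ![(0 : K), 1, 0] 1, ![(0 : K), 1, 0] 0 * ![(0 : K), 1, 0] 2,
        ![(0 : K), 1, 0] 1 * ![(0 : K), 1, 0] 1, ![(0 : K), 1, 0] 1 * ![(0 : K), 1, 0] 2,
        ![(0 : K), 1, 0] 2 * ![(0 : K), 1, 0] 2] : Fin 6 → K) +
        c 4 • (![![(0 : K), 1, 1] 0 * ![(0 : K), 1, 1] 0,
        ![(0 : K), 1, 1] 0 * ![(0 : K), 1, 1] 1, ![(0 : K), 1, 1] 0 * ![(0 : K), 1, 1] 2,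
        ![(0 : K), 1, 1] 1 * ![(0 : K), 1, 1] 1, ![(0 : K), 1, 1] 1 * ![(0 : K), 1, 1] 2,
        ![(0 : K), 1, 1] 2 * ![(0 : K), 1, 1] 2] : Fin 6 → K) +
        (c 5 - c 2 - c 4) • (![![(0 : K), 0, 1] 0 * ![(0 : K), 0, 1] 0,
        ![(0 : K), 0, 1] 0 * ![(0 : K), 0, 1] 1, ![(0 : K), 0, 1] 0 * ![(0 : K), 0, 1] 2,
        ![(0 : K), 0, 1] 1 * ![(0 : K), 0, 1] 1, ![(0 : K), 0, 1] 1 * ![(0 : K), 0, 1] 2,
        ![(0 : K), 0, 1] 2 * ![(0 : K), 0, 1] 2] : Fin 6 → K) := by
      ext m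
      fin_cases m <;> simp <;> ring
    rw [hcomb]
    refine Submodule.add_mem _ (Submodule.add_mem _ (Submodule.add_mem _ (Submodule.add_mem _
      (Submodule.add_mem _ ?_ ?_) ?_) ?_) ?_) ?_ <;> exact Submodule.smul_mem _ _ (by assumption)
  have hfin1 : Module.finrank K (Fin 3 → Module.Dual K L) = 3 * Module.finrank K L := by
    rw [Module.finrank_pi_fintype]
    simp [Subspace.dual_finrank_eq]
  have hfin2 : Module.finrank K (Fin 6 → K) = 6 := by simp
  have hfin3 : Module.finrank K (Fin 6 → K) ≤ Module.finrank K (Fin 3 → Module.Dual K L) :=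
    LinearMap.finrank_le_finrank_of_surjective hsurj
  have hfin4 : Module.finrank K (Fin 3 → Module.Dual K L) = Module.finrank K (Fin 6 → K) := by
    omega
  have hinj : Function.Injective S :=
    (LinearMap.injective_iff_surjective_of_finrank_eq_finrank hfin4).2 hsurj
  have hLpos : 0 < Module.finrank K L := by omega
  obtain ⟨l, hl⟩ : ∃ l : L, l ≠ 0 := by
    have := Module.finrank_pos_iff.1 hLpos
    exact exists_ne 0
  obtain ⟨β, hβ⟩ : ∃ β : Module.Dual K L, β l = 1 := by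
    have h3 : ¬ ∀ f : Module.Dual K L, f l = 0 := by
      rw [Module.forall_dual_apply_eq_zero_iff]
      exact hl
    push Not at h3
    obtain ⟨f, hf⟩ := h3
    exact ⟨(f l)⁻¹ • f, by simp [hf]⟩
  let e : (Fin 3 → Module.Dual K L) ≃ₗ[K] (Fin 6 → K) := LinearEquiv.ofBijective S ⟨hinj, hsurj⟩
  have he : ∀ α, e α = S α := fun α => rfl
  -- the numbers `c m k`
  let c : Fin 6 → Fin 3 → K := fun m k => e.symm (Pi.single m 1) k l
  have hc0 : ∀ (x : Fin 6 → K) (k : Fin 3), e.symm x k l = ∑ m, x m * c m k := by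
    intro x k
    have h3 : x = ∑ m, x m • (Pi.single m 1 : Fin 6 → K) := by
      conv_lhs => rw [← Finset.univ_sum_single x]
      apply Finset.sum_congr rfl
      intro m _
      rw [← Pi.single_smul]
      simp
    conv_lhs => rw [h3]
    rw [map_sum]
    simp only [map_smul, Finset.sum_apply, Pi.smul_apply, LinearMap.coe_sum,
      LinearMap.smul_apply, smul_eq_mul]
    rfl
  -- first identity
  have hstar : ∀ η : Fin 3 → K, ∑ k, η k * (η 0 * η 0 * c 0 k + η 0 * η 1 * c 1 k +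
      η 0 * η 2 * c 2 k + η 1 * η 1 * c 3 k + η 1 * η 2 * c 4 k + η 2 * η 2 * c 5 k) = 0 := by
    intro η
    obtain ⟨α, h1, h3⟩ := hSt η
    have h4 : α = e.symm ![η 0 * η 0, η 0 * η 1, η 0 * η 2, η 1 * η 1, η 1 * η 2, η 2 * η 2] := by
      rw [← h3, ← he, LinearEquiv.symm_apply_apply]
    have h5 : ∑ i, η i * α i l = 0 := by
      have := congrArg (fun f : Module.Dual K L => f l) h1
      simpa using this
    rw [← h5]
    apply Finset.sum_congr rfl
    intro k _
    rw [h4, hc0]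
    congr 1
    simp only [Fin.sum_univ_six]
    rfl
  -- second identity
  let F : Fin 3 → Fin 3 → Fin 3 → K := fun k i j => β (μ k (p i j))
  have hF1 : ∀ k i j, F k i j = F k j i := by
    intro k i j
    show β (μ k (p i j)) = β (μ k (p j i))
    rw [hp]
  have hF2 : ∀ k i j, F k i j = F i k j := by
    intro k i j
    show β (μ k (p i j)) = β (μ i (p k j))
    rw [hμ]
  have htr : ∀ k : Fin 3, F k 0 0 * c 0 k + F k 0 1 * c 1 k + F k 0 2 * c 2 k +
      F k 1 1 * c 3 k + F k 1 2 * c 4 k + F k 2 2 * c 5 k = 1 := by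
    intro k
    have h3 : e (Pi.single k β) = ![F k 0 0, F k 0 1, F k 0 2, F k 1 1, F k 1 2, F k 2 2] := by
      rw [he, hS]
      have h4 : ∀ u, Mtot μ (Pi.single k β) u = β (μ k u) := by
        intro u
        rw [Mtot_apply, Finset.sum_eq_single k]
        · simp
        · intro b _ hb
          simp [hb]
        · simp
      simp only [h4]
      rfl
    have h4 : (Pi.single k β : Fin 3 → Module.Dual K L) k l = 1 := by
      simp [hβ]
    rw [← e.symm_apply_apply (Pi.single k β), h3, hc0] at h4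
    rw [← h4]
    simp only [Fin.sum_univ_six]
    rfl
  have t0 := htr 0
  have t1 := htr 1
  have t2 := htr 2
  have hs : ∀ x y z : K, x * (x * x * c 0 0 + x * y * c 1 0 + x * z * c 2 0 + y * y * c 3 0 +
      y * z * c 4 0 + z * z * c 5 0) + y * (x * x * c 0 1 + x * y * c 1 1 + x * z * c 2 1 +
      y * y * c 3 1 + y * z * c 4 1 + z * z * c 5 1) + z * (x * x * c 0 2 + x * y * c 1 2 +
      x * z * c 2 2 + y * y * c 3 2 + y * z * c 4 2 + z * z * c 5 2) = 0 := by
    intro x y z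
    have h3 := hstar ![x, y, z]
    simp only [Fin.sum_univ_three] at h3
    exact h3
  have a300 : c 0 0 = 0 := by
    have := hs 1 0 0
    linear_combination this
  have a030 : c 3 1 = 0 := by
    have := hs 0 1 0
    linear_combination this
  have a003 : c 5 2 = 0 := by
    have := hs 0 0 1
    linear_combination this
  have a210 : c 1 0 + c 0 1 = 0 := by
    have u1 := hs 1 1 0
    have u2 := hs 1 (-1) 0
    have u3 : 2 * (c 1 0 + c 0 1) = 0 := by linear_combination u1 - u2 - 2 * a030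
    exact (mul_eq_zero.1 u3).resolve_left h2
  have a120 : c 3 0 + c 1 1 = 0 := by
    have u1 := hs 1 1 0
    have u2 := hs 1 (-1) 0
    have u3 : 2 * (c 3 0 + c 1 1) = 0 := by linear_combination u1 + u2 - 2 * a300
    exact (mul_eq_zero.1 u3).resolve_left h2
  have a201 : c 2 0 + c 0 2 = 0 := by
    have u1 := hs 1 0 1
    have u2 := hs 1 0 (-1)
    have u3 : 2 * (c 2 0 + c 0 2) = 0 := by linear_combination u1 - u2 - 2 * a003
    exact (mul_eq_zero.1 u3).resolve_left h2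
  have a102 : c 5 0 + c 2 2 = 0 := by
    have u1 := hs 1 0 1
    have u2 := hs 1 0 (-1)
    have u3 : 2 * (c 5 0 + c 2 2) = 0 := by linear_combination u1 + u2 - 2 * a300
    exact (mul_eq_zero.1 u3).resolve_left h2
  have a021 : c 4 1 + c 3 2 = 0 := by
    have u1 := hs 0 1 1
    have u2 := hs 0 1 (-1)
    have u3 : 2 * (c 4 1 + c 3 2) = 0 := by linear_combination u1 - u2 - 2 * a003
    exact (mul_eq_zero.1 u3).resolve_left h2
  have a012 : c 5 1 + c 4 2 = 0 := by
    have u1 := hs 0 1 1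
    have u2 := hs 0 1 (-1)
    have u3 : 2 * (c 5 1 + c 4 2) = 0 := by linear_combination u1 + u2 - 2 * a030
    exact (mul_eq_zero.1 u3).resolve_left h2
  have a111 : c 4 0 + c 2 1 + c 1 2 = 0 := by
    have u1 := hs 1 1 1
    linear_combination u1 - a300 - a030 - a003 - a210 - a120 - a201 - a102 - a021 - a012
  rw [hF2 1 0 0, hF1 0 1 0, hF2 1 0 1, hF2 1 0 2] at t1
  rw [hF2 2 0 0, hF1 0 2 0, hF2 2 0 1, hF1 0 2 1, hF2 2 0 2, hF2 2 1 1, hF1 1 2 1,
    hF2 2 1 2] at t2
  have h3 : (3 : K) = 0 := by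
    linear_combination (F 0 0 0) * a300 + (F 0 0 1) * a210 + (F 0 0 2) * a201 +
      (F 0 1 1) * a120 + (F 0 1 2) * a111 + (F 0 2 2) * a102 + (F 1 1 1) * a030 +
      (F 1 1 2) * a021 + (F 1 2 2) * a012 + (F 2 2 2) * a003 - t0 - t1 - t2
  exact three_ne_zero h3

end Pool.Agent.MPac4d2b
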