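import Pool.Agent.Lib.MP_ac4d2b_ag.GEN
import Pool.Agent.Lib.MP_ac4d2b_ag.RINGC
import Pool.Agent.Lib.MP_ac4d2b_ag.C1R
import Pool.Agent.Lib.MP_ac4d2b_ag.H6L

/-!
MP_ac4d2b_ag (Hilbert scheme of 12 points), module H6: local algebras without quadratic relations.
-/

set_option autoImplicit false
set_option linter.unusedSectionVars false

namespace Pool.Agent.MPac4d2b

namespace H6Aux

open Matrix

section Gen
variable {K R : Type} [Field K] [CommRing R] [Algebra K R]

/-- the quadratic form, linear in the matrix -/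
def quadL (x : Fin 3 → R) : Matrix (Fin 3) (Fin 3) K →ₗ[K] R where
  toFun q := quad q x
  map_add' q q' := by
    simp only [quad, Matrix.add_apply, add_smul, Finset.sum_add_distrib]
  map_smul' c q := by
    simp only [quad, Matrix.smul_apply, smul_eq_mul, mul_smul, Finset.smul_sum, RingHom.id_apply]

theorem quadL_apply (x : Fin 3 → R) (q : Matrix (Fin 3) (Fin 3) K) : quadL x q = quad q x := rfl

theorem quad_transpose (x : Fin 3 → R) (q : Matrix (Fin 3) (Fin 3) K) :
    quad qᵀ x = quad q x := by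
  unfold quad
  rw [Finset.sum_comm]
  refine Finset.sum_congr rfl fun i _ => Finset.sum_congr rfl fun j _ => ?_
  rw [Matrix.transpose_apply, mul_comm (x j)]

/-- the symmetric matrix of `x i * x j` -/
def symM (q : Matrix (Fin 3) (Fin 3) K) : Matrix (Fin 3) (Fin 3) K := (2 : K)⁻¹ • (q + qᵀ)

theorem symM_isSymm (q : Matrix (Fin 3) (Fin 3) K) : (symM q).IsSymm := by
  unfold symM Matrix.IsSymm
  rw [Matrix.transpose_smul, Matrix.transpose_add, Matrix.transpose_transpose, add_comm]

theorem quad_symM [CharZero K] (x : Fin 3 → R) (q : Matrix (Fin 3) (Fin 3) K) :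
    quad (symM q) x = quad q x := by
  have h : quadL x (symM q) = quadL x q := by
    unfold symM
    rw [map_smul, map_add, quadL_apply, quadL_apply, quad_transpose, ← two_smul K, smul_smul,
      inv_mul_cancel₀ (two_ne_zero), one_smul]
  exact h

theorem quad_single (x : Fin 3 → R) (i j : Fin 3) :
    quad (Matrix.single i j (1 : K)) x = x i * x j := by
  unfold quad
  rw [Finset.sum_eq_single i, Finset.sum_eq_single j]
  · simp
  · intro b _ hb
    simp [Matrix.single, hb.symm]
  · simp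
  · intro b _ hb
    refine Finset.sum_eq_zero fun k _ => ?_
    simp [Matrix.single, hb.symm]
  · simp

theorem x_mem (x : Fin 3 → R) (i : Fin 3) : x i ∈ mx x := Ideal.subset_span ⟨i, rfl⟩

theorem lin_mem (x : Fin 3 → R) (A : Matrix (Fin 3) (Fin 3) K) (i : Fin 3) :
    lin A x i ∈ mx x := by
  unfold lin
  refine Ideal.sum_mem _ fun j _ => ?_
  rw [Algebra.smul_def]
  exact Ideal.mul_mem_left _ _ (x_mem x j)

theorem smul_mem' (I : Ideal R) (c : K) {r : R} (h : r ∈ I) : c • r ∈ I := by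
  rw [Algebra.smul_def]
  exact Ideal.mul_mem_left _ _ h

theorem quad_mem (x : Fin 3 → R) (q : Matrix (Fin 3) (Fin 3) K) : quad q x ∈ mx x ^ 2 := by
  unfold quad
  refine Ideal.sum_mem _ fun i _ => Ideal.sum_mem _ fun j _ => smul_mem' _ _ ?_
  rw [pow_two]
  exact Ideal.mul_mem_mul (x_mem x i) (x_mem x j)

/-- degree two part of an element of the square -/
theorem exists_quad [CharZero K] (x : Fin 3 → R) (hx : Gen3 K x) (u : R) (hu : u ∈ mx x ^ 2) :
    ∃ q : Matrix (Fin 3) (Fin 3) K, q.IsSymm ∧ u - quad q x ∈ mx x ^ 3 := by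
  have hu' : u ∈ Fil (mulT K x) 1 2 := by
    rw [← mx_pow_span x hx 2]
    exact hu
  clear hu
  unfold Fil at hu'
  induction hu' using Submodule.span_induction with
  | mem u h =>
    obtain ⟨a, b, c, habc, rfl⟩ := h
    have hval : ((mulT K x 0) ^ a * (mulT K x 1) ^ b * (mulT K x 2) ^ c) (1 : R) =
        x 0 ^ a * x 1 ^ b * x 2 ^ c := by
      unfold mulT
      simp [LinearMap.pow_mulLeft, Module.End.mul_apply, mul_assoc]
    rw [hval]
    by_cases h3 : 3 ≤ a + b + c
    · refine ⟨0, Matrix.isSymm_zero, ?_⟩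
      have h0 : quad (0 : Matrix (Fin 3) (Fin 3) K) x = 0 := by
        have := map_zero (quadL (K := K) x)
        exact this
      rw [h0, sub_zero]
      have hmem : x 0 ^ a * x 1 ^ b * x 2 ^ c ∈ mx x ^ (a + b + c) := by
        rw [pow_add, pow_add]
        exact Ideal.mul_mem_mul (Ideal.mul_mem_mul (Ideal.pow_mem_pow (x_mem x 0) _)
          (Ideal.pow_mem_pow (x_mem x 1) _)) (Ideal.pow_mem_pow (x_mem x 2) _)
      exact Ideal.pow_le_pow_right h3 hmem
    · have h2 : a + b + c = 2 := by omega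
      obtain ⟨i, j, hij⟩ : ∃ i j : Fin 3, x 0 ^ a * x 1 ^ b * x 2 ^ c = x i * x j := by
        have : (a = 2 ∧ b = 0 ∧ c = 0) ∨ (a = 0 ∧ b = 2 ∧ c = 0) ∨ (a = 0 ∧ b = 0 ∧ c = 2) ∨
            (a = 1 ∧ b = 1 ∧ c = 0) ∨ (a = 1 ∧ b = 0 ∧ c = 1) ∨ (a = 0 ∧ b = 1 ∧ c = 1) := by
          omega
        rcases this with ⟨rfl, rfl, rfl⟩ | ⟨rfl, rfl, rfl⟩ | ⟨rfl, rfl, rfl⟩ | ⟨rfl, rfl, rfl⟩ |
          ⟨rfl, rfl, rfl⟩ | ⟨rfl, rfl, rfl⟩
        · exact ⟨0, 0, by ring⟩
        · exact ⟨1, 1, by ring⟩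
        · exact ⟨2, 2, by ring⟩
        · exact ⟨0, 1, by ring⟩
        · exact ⟨0, 2, by ring⟩
        · exact ⟨1, 2, by ring⟩
      refine ⟨symM (Matrix.single i j 1), symM_isSymm _, ?_⟩
      rw [hij, quad_symM, quad_single, sub_self]
      exact Ideal.zero_mem _
  | zero =>
    refine ⟨0, Matrix.isSymm_zero, ?_⟩
    have h0 : quad (0 : Matrix (Fin 3) (Fin 3) K) x = 0 := map_zero (quadL (K := K) x)
    rw [h0, sub_zero]
    exact Ideal.zero_mem _
  | add u v hu hv ihu ihv =>
    obtain ⟨q, hq, h⟩ := ihu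
    obtain ⟨q', hq', h'⟩ := ihv
    refine ⟨q + q', hq.add hq', ?_⟩
    have : u + v - quad (q + q') x = (u - quad q x) + (v - quad q' x) := by
      have h0 : quad (q + q') x = quad q x + quad q' x := map_add (quadL (K := K) x) q q'
      rw [h0]; ring
    rw [this]
    exact Ideal.add_mem _ h h'
  | smul c u hu ih =>
    obtain ⟨q, hq, h⟩ := ih
    refine ⟨c • q, hq.smul c, ?_⟩
    have : c • u - quad (c • q) x = c • (u - quad q x) := by
      have h0 : quad (c • q) x = c • quad q x := map_smul (quadL (K := K) x) c q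
      rw [h0, smul_sub]
    rw [this]
    exact smul_mem' _ c h

/-- linear part of an element of the maximal ideal -/
theorem exists_lin (x : Fin 3 → R) (hx : Gen3 K x) (u : R) (hu : u ∈ mx x) :
    ∃ l : Fin 3 → K, u - ∑ i, l i • x i ∈ mx x ^ 2 := by
  obtain ⟨c, hc⟩ := (Ideal.mem_span_range_iff_exists_fun).mp hu
  choose l hl using fun i => mx_scalar (K := K) x hx (c i)
  refine ⟨l, ?_⟩
  have : u - ∑ i, l i • x i = ∑ i, (c i - algebraMap K R (l i)) * x i := by
    rw [← hc, ← Finset.sum_sub_distrib]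
    refine Finset.sum_congr rfl fun i _ => ?_
    rw [Algebra.smul_def]; ring
  rw [this, pow_two]
  exact Ideal.sum_mem _ fun i _ => Ideal.mul_mem_mul (hl i) (x_mem x i)

theorem sum_smul_mem (x : Fin 3 → R) (l : Fin 3 → K) : ∑ i, l i • x i ∈ mx x :=
  Ideal.sum_mem _ fun i _ => smul_mem' _ _ (x_mem x i)

/-- product of linear forms as quadratic form -/
theorem quad_vecMulVec (x : Fin 3 → R) (l l' : Fin 3 → K) :
    quad (Matrix.vecMulVec l l') x = (∑ i, l i • x i) * (∑ j, l' j • x j) := by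
  unfold quad
  rw [Finset.sum_mul_sum]
  refine Finset.sum_congr rfl fun i _ => Finset.sum_congr rfl fun j _ => ?_
  rw [Matrix.vecMulVec_apply, smul_mul_smul_comm]

/-- an invertible matrix whose rows 0 and 2 are orthogonal to a given nonzero vector -/
theorem exists_matrix (η : Fin 3 → K) (hη : η ≠ 0) :
    ∃ A : Matrix (Fin 3) (Fin 3) K, IsUnit A.det ∧ ∑ j, A 0 j * η j = 0 ∧ ∑ j, A 2 j * η j = 0 := by
  obtain ⟨k, hk⟩ := Function.ne_iff.mp hη
  have hk' : η k ≠ 0 := hk
  fin_cases k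
  · refine ⟨!![-η 1, η 0, 0; 1, 0, 0; -η 2, 0, η 0], ?_, ?_, ?_⟩
    · rw [Matrix.det_fin_three]
      simp only [Fin.zero_eta] at hk'
      simp [hk']
    · simp [Fin.sum_univ_three]; ring
    · simp [Fin.sum_univ_three]; ring
  · refine ⟨!![η 1, -η 0, 0; 0, 1, 0; 0, -η 2, η 1], ?_, ?_, ?_⟩
    · rw [Matrix.det_fin_three]
      simp only [Fin.mk_one] at hk'
      simp [hk']
    · simp [Fin.sum_univ_three]; ring
    · simp [Fin.sum_univ_three]; ring
  · refine ⟨!![η 2, 0, -η 0; 0, 0, 1; 0, η 2, -η 1], ?_, ?_, ?_⟩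
    · rw [Matrix.det_fin_three]
      have hk'' : η 2 ≠ 0 := hk'
      simp [hk'']
    · simp [Fin.sum_univ_three]; ring
    · simp [Fin.sum_univ_three]; ring

end Gen

section Main
variable {K R : Type} [Field K] [IsAlgClosed K] [CharZero K] [CommRing R] [Algebra K R]
  [FiniteDimensional K R]

/-- the quotient form -/
theorem exists_eta (x : Fin 3 → R) (hx : Gen3 K x)
    (h2 : ∀ q : Matrix (Fin 3) (Fin 3) K, q.IsSymm → quad q x ∈ mx x ^ 3 → q = 0)
    (h3 : dimI K (mx x ^ 3) ≤ 2) :
    ∃ (η : Fin 3 → K) (g : R) (q : Matrix (Fin 3) (Fin 3) K), q.IsSymm ∧ g ∈ mx x ^ 2 ∧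
      g - quad q x ∈ mx x ^ 3 ∧
      (∀ v : Fin 3 → K, ∑ i, v i * η i = 0 → (∑ i, v i • x i) * g = 0) ∧
      ∑ i, ∑ j, q i j * (η i * η j) ≠ 0 := by
  set U : Submodule K R := (mx x ^ 2).restrictScalars K with hU
  set L : Submodule K R := (mx x ^ 3).restrictScalars K with hL
  have hmem : ∀ i : Fin 3, ∀ u ∈ U, LinearMap.mulLeft K (x i) u ∈ L := by
    intro i u hu
    show x i * u ∈ mx x ^ 3
    rw [pow_succ']
    exact Ideal.mul_mem_mul (x_mem x i) hu
  let μ : Fin 3 → U →ₗ[K] L := fun i => (LinearMap.mulLeft K (x i)).restrict (hmem i)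
  let Sy : Submodule K (Matrix (Fin 3) (Fin 3) K) :=
    { carrier := {q | q.IsSymm}
      add_mem' := fun ha hb => ha.add hb
      zero_mem' := Matrix.isSymm_zero
      smul_mem' := fun c q hq => hq.smul c }
  let ψ : (Sy × L) →ₗ[K] R := (quadL x ∘ₗ Sy.subtype).coprod L.subtype
  have hψ : ∀ z : Sy × L, ψ z = quad (z.1 : Matrix (Fin 3) (Fin 3) K) x + z.2 := fun z => rfl
  have hψU : ∀ z, ψ z ∈ U := by
    intro z
    rw [hψ]
    exact Ideal.add_mem _ (quad_mem x _) (Ideal.pow_le_pow_right (by norm_num) z.2.2)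
  let Ψ : (Sy × L) →ₗ[K] U := ψ.codRestrict U hψU
  have hΨb : Function.Bijective Ψ := by
    constructor
    · rw [← LinearMap.ker_eq_bot, LinearMap.ker_eq_bot']
      rintro ⟨⟨q, hq⟩, l⟩ h0
      have h0' : quad q x + l = 0 := congrArg Subtype.val h0
      have h4 : quad q x ∈ mx x ^ 3 := by
        rw [eq_neg_of_add_eq_zero_left h0']
        exact (mx x ^ 3).neg_mem l.2
      have hq0 := h2 q hq h4
      subst hq0
      have h5 : quad (0 : Matrix (Fin 3) (Fin 3) K) x = 0 := map_zero (quadL (K := K) x)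
      rw [h5, zero_add] at h0'
      ext1
      · rfl
      · exact Subtype.ext h0'
    · rintro ⟨u, hu⟩
      obtain ⟨q, hq, h⟩ := exists_quad x hx u hu
      refine ⟨(⟨q, hq⟩, ⟨u - quad q x, h⟩), Subtype.ext ?_⟩
      show quad q x + (u - quad q x) = u
      ring
  let E := LinearEquiv.ofBijective Ψ hΨb
  let σ : U →ₗ[K] Matrix (Fin 3) (Fin 3) K :=
    (Sy.subtype ∘ₗ LinearMap.fst K Sy L) ∘ₗ E.symm.toLinearMap
  have hσs : ∀ u, (σ u).IsSymm := fun u => (E.symm u).1.2
  let p : Fin 3 → Fin 3 → U := fun i j =>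
    ⟨x i * x j, by
      show x i * x j ∈ mx x ^ 2
      rw [pow_two]; exact Ideal.mul_mem_mul (x_mem x i) (x_mem x j)⟩
  obtain ⟨η, g, hg1, hg2⟩ := h6_linear (K := K) (U := U) (L := L) h3 μ σ hσs p
    (fun i j => Subtype.ext (mul_comm _ _)) (by
      intro q hq
      have : E (⟨q, hq⟩, 0) = ∑ i, ∑ j, q i j • p i j := by
        apply Subtype.ext
        show quad q x + 0 = _
        rw [add_zero]
        simp only [AddSubmonoidClass.coe_finsetSum, Submodule.coe_smul]
        rfl
      show ((E.symm (∑ i, ∑ j, q i j • p i j)).1 : Matrix (Fin 3) (Fin 3) K) = q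
      rw [← this, LinearEquiv.symm_apply_apply]) (by
      intro i j k
      apply Subtype.ext
      show x i * (x j * x k) = x j * (x i * x k)
      ring)
  refine ⟨η, g, σ g, hσs g, g.2, ?_, ?_, hg2⟩
  · have h6 : E (E.symm g) = g := E.apply_symm_apply g
    have h7 : quad (σ g) x + ((E.symm g).2 : R) = (g : R) := congrArg Subtype.val h6
    rw [← h7, add_sub_cancel_left]
    exact (E.symm g).2.2
  · intro v hv
    have h8 := congrArg Subtype.val (hg1 v hv)
    rw [Finset.sum_mul]
    simp only [AddSubmonoidClass.coe_finsetSum, Submodule.coe_smul, ZeroMemClass.coe_zero] at h8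
    rw [← h8]
    refine Finset.sum_congr rfl fun i _ => ?_
    rw [smul_mul_assoc]
    rfl

end Main

end H6Aux

section LOCAL
variable {K R : Type} [Field K] [IsAlgClosed K] [CharZero K] [CommRing R] [Algebra K R]
  [FiniteDimensional K R]

open H6Aux in
/-- H6 -/
theorem cl_h6 (x : Fin 3 → R) (hx : Gen3 K x) (h1 : Ind1 K x)
    (h2 : ∀ q : Matrix (Fin 3) (Fin 3) K, q.IsSymm → quad q x ∈ mx x ^ 3 → q = 0)
    (h3 : dimI K (mx x ^ 3) ≤ 2) (IH : ∀ k < Module.finrank K R, MainV K k) :
    Cl (mulT K x) := by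
  obtain ⟨η, g, q, hq, hgI, hgq, hv, hne⟩ := exists_eta x hx h2 h3
  have hη : η ≠ 0 := by
    rintro rfl
    apply hne
    simp
  obtain ⟨A, hA, hA0, hA2⟩ := exists_matrix η hη
  obtain ⟨hx', hmx⟩ := gen3_lin x hx A hA
  refine cl_change (lin A x) x hx'.1 (cl_c1_ring (lin A x) hx'.1 1 g ?_ ?_ ?_ IH)
  · intro i hi
    fin_cases i
    · exact hv (A 0) hA0
    · exact absurd rfl hi
    · exact hv (A 2) hA2
  · intro hmem
    have himg : (lin A x) '' {i : Fin 3 | i ≠ 1} = {lin A x 0, lin A x 2} := by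
      ext r
      constructor
      · rintro ⟨i, hi, rfl⟩
        fin_cases i
        · exact Or.inl rfl
        · exact absurd rfl hi
        · exact Or.inr rfl
      · rintro (rfl | rfl)
        · exact ⟨0, by decide, rfl⟩
        · exact ⟨2, by decide, rfl⟩
    rw [himg, Ideal.mem_span_pair] at hmem
    obtain ⟨a, b, hab⟩ := hmem
    obtain ⟨a0, ha⟩ := mx_scalar (K := K) x hx a
    obtain ⟨b0, hb⟩ := mx_scalar (K := K) x hx b
    -- the constant terms vanish
    have hlin : a0 • lin A x 0 + b0 • lin A x 2 ∈ mx x ^ 2 := by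
      have : a0 • lin A x 0 + b0 • lin A x 2 =
          g - (a - algebraMap K R a0) * lin A x 0 - (b - algebraMap K R b0) * lin A x 2 := by
        rw [← hab, Algebra.smul_def, Algebra.smul_def]; ring
      rw [this]
      refine Ideal.sub_mem _ (Ideal.sub_mem _ hgI ?_) ?_
      · rw [pow_two]; exact Ideal.mul_mem_mul ha (lin_mem x A 0)
      · rw [pow_two]; exact Ideal.mul_mem_mul hb (lin_mem x A 2)
    have hrows : ∀ j, a0 * A 0 j + b0 * A 2 j = 0 := by
      have : a0 • lin A x 0 + b0 • lin A x 2 = ∑ j, (a0 * A 0 j + b0 * A 2 j) • x j := by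
        unfold lin
        rw [Finset.smul_sum, Finset.smul_sum, ← Finset.sum_add_distrib]
        refine Finset.sum_congr rfl fun j _ => ?_
        rw [add_smul, mul_smul, mul_smul]
      rw [this] at hlin
      intro j
      exact congrFun (h1 _ hlin) j
    have hzero : a0 = 0 ∧ b0 = 0 := by
      have hvec : Matrix.vecMul ![a0, 0, b0] A = 0 := by
        ext j
        rw [Matrix.vecMul, dotProduct, Fin.sum_univ_three]
        simpa using hrows j
      have hinj := Matrix.eq_zero_of_vecMul_eq_zero hA.ne_zero hvec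
      exact ⟨by simpa using congrFun hinj 0, by simpa using congrFun hinj 2⟩
    obtain ⟨rfl, rfl⟩ := hzero
    rw [map_zero, sub_zero] at ha hb
    obtain ⟨l, hl⟩ := exists_lin (K := K) x hx a ha
    obtain ⟨l', hl'⟩ := exists_lin (K := K) x hx b hb
    have hlinA : ∀ i, lin A x i = ∑ j, A i j • x j := fun i => rfl
    set q0 : Matrix (Fin 3) (Fin 3) K := Matrix.vecMulVec l (A 0) + Matrix.vecMulVec l' (A 2)
      with hq0
    have hquad0 : quad q0 x = (∑ i, l i • x i) * lin A x 0 + (∑ i, l' i • x i) * lin A x 2 := by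
      have : quad q0 x = quad (Matrix.vecMulVec l (A 0)) x + quad (Matrix.vecMulVec l' (A 2)) x :=
        map_add (quadL (K := K) x) _ _
      rw [this, quad_vecMulVec, quad_vecMulVec]
      rfl
    have hdiff : quad (q - symM q0) x ∈ mx x ^ 3 := by
      have h5 : quad (q - symM q0) x = quad q x - quad (symM q0) x :=
        map_sub (quadL (K := K) x) _ _
      rw [h5, quad_symM, hquad0]
      have h6 : quad q x - ((∑ i, l i • x i) * lin A x 0 + (∑ i, l' i • x i) * lin A x 2) =
          (a - ∑ i, l i • x i) * lin A x 0 + (b - ∑ i, l' i • x i) * lin A x 2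
            - (g - quad q x) := by
        rw [← hab]; ring
      rw [h6]
      refine Ideal.sub_mem _ (Ideal.add_mem _ ?_ ?_) hgq
      · rw [pow_succ]; exact Ideal.mul_mem_mul hl (lin_mem x A 0)
      · rw [pow_succ]; exact Ideal.mul_mem_mul hl' (lin_mem x A 2)
    have hqq := sub_eq_zero.mp (h2 _ (hq.sub (symM_isSymm q0)) hdiff)
    apply hne
    have hval : ∀ M : Matrix (Fin 3) (Fin 3) K,
        ∑ i, ∑ j, (symM M) i j * (η i * η j) = ∑ i, ∑ j, M i j * (η i * η j) := by
      intro M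
      have hT : ∑ i, ∑ j, M j i * (η i * η j) = ∑ i, ∑ j, M i j * (η i * η j) := by
        rw [Finset.sum_comm]
        refine Finset.sum_congr rfl fun i _ => Finset.sum_congr rfl fun j _ => ?_
        ring
      have : ∑ i, ∑ j, (symM M) i j * (η i * η j) =
          (2 : K)⁻¹ * (∑ i, ∑ j, M i j * (η i * η j) + ∑ i, ∑ j, M j i * (η i * η j)) := by
        rw [← Finset.sum_add_distrib, Finset.mul_sum]
        refine Finset.sum_congr rfl fun i _ => ?_
        rw [← Finset.sum_add_distrib, Finset.mul_sum]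
        refine Finset.sum_congr rfl fun j _ => ?_
        simp only [symM, Matrix.smul_apply, Matrix.add_apply, Matrix.transpose_apply, smul_eq_mul]
        ring
      rw [this, hT, ← two_mul, ← mul_assoc, inv_mul_cancel₀ two_ne_zero, one_mul]
    rw [hqq, hval, hq0]
    have hsplit : ∑ i, ∑ j, (Matrix.vecMulVec l (A 0) + Matrix.vecMulVec l' (A 2)) i j *
        (η i * η j) = (∑ i, l i * η i) * (∑ j, A 0 j * η j) +
          (∑ i, l' i * η i) * (∑ j, A 2 j * η j) := by
      rw [Finset.sum_mul_sum, Finset.sum_mul_sum, ← Finset.sum_add_distrib]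
      refine Finset.sum_congr rfl fun i _ => ?_
      rw [← Finset.sum_add_distrib]
      refine Finset.sum_congr rfl fun j _ => ?_
      simp only [Matrix.add_apply, Matrix.vecMulVec_apply]
      ring
    rw [hsplit, hA0, hA2, mul_zero, mul_zero, add_zero]
  · by_contra hlt
    have hle : Module.finrank K R ≤ 1 := by omega
    rw [finrank_le_one_iff] at hle
    obtain ⟨v, hv'⟩ := hle
    obtain ⟨c, hc⟩ := hv' 1
    obtain ⟨d, hd⟩ := hv' (x 0)
    by_cases hd0 : d = 0
    · have hx0 : x 0 = 0 := by rw [← hd, hd0, zero_smul]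
      have := h1 (Pi.single 0 1) (by
        rw [Fin.sum_univ_three]
        simp [hx0])
      have h7 := congrFun this 0
      simp at h7
    · have hone : (1 : R) ∈ mx x := by
        have : (1 : R) = (c * d⁻¹) • x 0 := by
          rw [← hc, ← hd, smul_smul, mul_assoc, inv_mul_cancel₀ hd0, mul_one]
        rw [this]
        exact smul_mem' _ _ (x_mem x 0)
      obtain ⟨k, hk⟩ := hx.2
      have htop : mx x = ⊤ := (Ideal.eq_top_iff_one _).mpr hone
      rw [htop, Ideal.top_pow] at hk
      have h10 : ∀ r : R, r = 0 := fun r => by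
        have : r ∈ (⊤ : Ideal R) := Submodule.mem_top
        rw [hk] at this
        exact this
      have := h1 (fun _ => 1) (by rw [h10 (∑ i, (1 : K) • x i)]; exact Ideal.zero_mem _)
      have h7 := congrFun this 0
      simp at h7

end LOCAL

end Pool.Agent.MPac4d2b
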