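import Mathlib
import Pool.Agent.Lib.MP_ac4d2b_ag.Defs
import Pool.Agent.Lib.MP_ac4d2b_ag.RINGC
import Pool.Agent.Lib.MP_ac4d2b_ag.GEN
import Pool.Agent.Lib.MP_ac4d2b_ag.QLIN
import Pool.Agent.Lib.MP_ac4d2b_ag.QUAD
import Pool.Agent.Lib.MP_ac4d2b_ag.H6
import Pool.Agent.Lib.MP_ac4d2b_ag.H5D
import Pool.Agent.Lib.MP_ac4d2b_ag.H5M
import Pool.Agent.Lib.MP_ac4d2b_ag.GRO
import Pool.Agent.Lib.MP_ac4d2b_ag.H5B
import Pool.Agent.Lib.MP_ac4d2b_ag.DIM
import Pool.Agent.Lib.MP_ac4d2b_ag.LOC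

/-!
MP_ac4d2b_ag (project HILB), module CLS: the case distinction for dimension at most 12 and the
main theorem.
-/

set_option autoImplicit false

namespace Pool.Agent.MPac4d2b

open Matrix

namespace CLSAux

variable {K R : Type} [Field K] [CommRing R] [Algebra K R]

theorem not_minor2_iff {K : Type} [Field K] (q : Matrix (Fin 3) (Fin 3) K) (h : ¬ Minor2 q) :
    ∃ u v : Fin 3 → K, q = vecMulVec u v := by
  have h' : ∀ i j k l, q i k * q j l = q i l * q j k := by
    intro i j k l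
    by_contra hne
    exact h ⟨i, j, k, l, sub_ne_zero.mpr hne⟩
  by_cases h0 : q = 0
  · exact ⟨0, 0, by ext i j; simp [h0, vecMulVec_apply]⟩
  · obtain ⟨k, l, hkl⟩ : ∃ k l, q k l ≠ 0 := by
      by_contra hne
      push Not at hne
      exact h0 (by ext i j; exact hne i j)
    refine ⟨fun i => q i l, fun j => q k j / q k l, ?_⟩
    ext i j
    rw [vecMulVec_apply, mul_div_assoc', eq_div_iff hkl]
    exact h' i k j l

theorem not_minor2_vecMulVec {K : Type} [Field K] (u v : Fin 3 → K) :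
    ¬ Minor2 (vecMulVec u v) := by
  rintro ⟨i, j, k, l, h⟩
  apply h
  simp only [vecMulVec_apply]
  ring

theorem not_minor2_congr {K : Type} [Field K] (q C : Matrix (Fin 3) (Fin 3) K)
    (h : ¬ Minor2 q) : ¬ Minor2 (Cᵀ * q * C) := by
  obtain ⟨u, v, rfl⟩ := not_minor2_iff q h
  rw [Matrix.mul_vecMulVec, Matrix.vecMulVec_mul]
  exact not_minor2_vecMulVec _ _

theorem quad_add (q q' : Matrix (Fin 3) (Fin 3) K) (x : Fin 3 → R) :
    quad (q + q') x = quad q x + quad q' x := by
  simp only [quad, Matrix.add_apply, add_smul, Finset.sum_add_distrib]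

theorem quad_single (s : K) (x : Fin 3 → R) :
    quad (Matrix.single 0 0 s) x = s • (x 0 ^ 2) := by
  simp [quad, Fin.sum_univ_three, Matrix.single_apply, pow_two]

theorem ind1_lin (x : Fin 3 → R) (hx : Ind1 K x) (A : Matrix (Fin 3) (Fin 3) K)
    (hA : IsUnit A.det) (hm : mx (lin A x) = mx x) : Ind1 K (lin A x) := by
  intro c hc
  rw [hm] at hc
  have h1 : ∑ i, c i • lin A x i = ∑ j, (c ᵥ* A) j • x j := by
    simp only [lin, Finset.smul_sum, smul_smul, vecMul, dotProduct, Finset.sum_smul]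
    rw [Finset.sum_comm]
  rw [h1] at hc
  have h2 := hx _ hc
  have h3 : c ᵥ* A ᵥ* A⁻¹ = 0 := by rw [h2, zero_vecMul]
  rwa [vecMul_vecMul, Matrix.mul_nonsing_inv _ hA, vecMul_one] at h3

end CLSAux

open CLSAux

section
variable {K : Type} [Field K] [IsAlgClosed K] [CharZero K]

theorem cl_local {R : Type} [CommRing R] [Algebra K R] [FiniteDimensional K R] (x : Fin 3 → R)
    (hx : Gen3 K x) (h1 : Ind1 K x) (hn : Module.finrank K R ≤ 12)
    (IH : ∀ k < Module.finrank K R, MainV K k) : Cl (mulT K x) := by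
  by_cases hq : ∃ q : Matrix (Fin 3) (Fin 3) K, q.IsSymm ∧ Minor2 q ∧ quad q x ∈ mx x ^ 3
  · obtain ⟨q, hs, hm, hqx⟩ := hq
    exact cl_quad x hx q hs hm hqx
  have hq' : ∀ q : Matrix (Fin 3) (Fin 3) K, q.IsSymm → quad q x ∈ mx x ^ 3 → ¬ Minor2 q :=
    fun q hs h hm => hq ⟨q, hs, hm, h⟩
  by_cases hz : ∀ q : Matrix (Fin 3) (Fin 3) K, q.IsSymm → quad q x ∈ mx x ^ 3 → q = 0
  · have h3 := dim_h6 x hx h1 hz
    exact cl_h6 x hx h1 hz (by omega) IH
  push Not at hz
  obtain ⟨q, hs, hqx, hq0⟩ := hz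
  obtain ⟨A, hA, hqA⟩ := rank_one q hs hq0 (hq' q hs hqx)
  obtain ⟨hg, hm⟩ := gen3_lin x hx A hA
  have h1' : Ind1 K (lin A x) := ind1_lin x h1 A hA hm
  have h00 : lin A x 0 ^ 2 ∈ mx (lin A x) ^ 3 := by
    have h : quad (Matrix.single 0 0 (1 : K)) (lin A x) = quad q x := by
      rw [quad_lin, ← hqA]
    rw [quad_single, one_smul] at h
    rw [h, hm]
    exact hqx
  have h2 : ∀ q : Matrix (Fin 3) (Fin 3) K, q.IsSymm → quad q (lin A x) ∈ mx (lin A x) ^ 3 →
      ∀ i j, ¬ (i = 0 ∧ j = 0) → q i j = 0 := by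
    intro p hp hpx
    have key : ∀ s : K, ¬ Minor2 (p + Matrix.single 0 0 s) := by
      intro s hms
      have h4 : quad (Aᵀ * (p + Matrix.single 0 0 s) * A) x ∈ mx x ^ 3 := by
        rw [← quad_lin, quad_add, quad_single, ← hm]
        refine Ideal.add_mem _ hpx ?_
        rw [Algebra.smul_def]
        exact Ideal.mul_mem_left _ _ h00
      have h5 : (Aᵀ * (p + Matrix.single 0 0 s) * A).IsSymm := by
        have : (p + Matrix.single 0 0 s)ᵀ = p + Matrix.single 0 0 s := by
          rw [Matrix.transpose_add, hp.eq, Matrix.transpose_single]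
        rw [Matrix.IsSymm, Matrix.transpose_mul, Matrix.transpose_mul, this,
          Matrix.transpose_transpose, Matrix.mul_assoc]
      have h6 := not_minor2_congr _ A⁻¹ (hq' _ h5 h4)
      have h7 : (A⁻¹)ᵀ * (Aᵀ * (p + Matrix.single 0 0 s) * A) * A⁻¹
          = p + Matrix.single 0 0 s := by
        have h8 : (A⁻¹)ᵀ * Aᵀ = 1 := by
          rw [← Matrix.transpose_mul, Matrix.mul_nonsing_inv _ hA, Matrix.transpose_one]
        calc (A⁻¹)ᵀ * (Aᵀ * (p + Matrix.single 0 0 s) * A) * A⁻¹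
            = ((A⁻¹)ᵀ * Aᵀ) * (p + Matrix.single 0 0 s) * (A * A⁻¹) := by
              simp only [Matrix.mul_assoc]
          _ = _ := by rw [h8, Matrix.mul_nonsing_inv _ hA, Matrix.one_mul, Matrix.mul_one]
      rw [h7] at h6
      exact h6 hms
    have hmin : ∀ (s : K) (i j k l : Fin 3),
        (p i k + (Matrix.single 0 0 s : Matrix (Fin 3) (Fin 3) K) i k) *
        (p j l + (Matrix.single 0 0 s : Matrix (Fin 3) (Fin 3) K) j l) =
        (p i l + (Matrix.single 0 0 s : Matrix (Fin 3) (Fin 3) K) i l) *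
        (p j k + (Matrix.single 0 0 s : Matrix (Fin 3) (Fin 3) K) j k) := by
      intro s i j k l
      by_contra hne
      exact key s ⟨i, j, k, l, sub_ne_zero.mpr hne⟩
    have hsym : ∀ i j, p i j = p j i := fun i j => (hp.apply i j).symm
    have e11 : p 1 1 = 0 := by
      have a0 := hmin 0 0 1 0 1
      have a1 := hmin 1 0 1 0 1
      simp at a0 a1
      linear_combination a1 - a0
    have e01 : p 0 1 = 0 := by
      have a0 := hmin 0 0 1 0 1
      simp [e11] at a0
      rcases a0 with h | h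
      · exact h
      · rw [hsym]; exact h
    have e22 : p 2 2 = 0 := by
      have a0 := hmin 0 0 2 0 2
      have a1 := hmin 1 0 2 0 2
      simp at a0 a1
      linear_combination a1 - a0
    have e02 : p 0 2 = 0 := by
      have a0 := hmin 0 0 2 0 2
      simp [e22] at a0
      rcases a0 with h | h
      · exact h
      · rw [hsym]; exact h
    have e12 : p 1 2 = 0 := by
      have a0 := hmin 0 0 1 0 2
      have a1 := hmin 1 0 1 0 2
      simp at a0 a1
      linear_combination a1 - a0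
    have e10 : p 1 0 = 0 := by rw [hsym]; exact e01
    have e20 : p 2 0 = 0 := by rw [hsym]; exact e02
    have e21 : p 2 1 = 0 := by rw [hsym]; exact e12
    intro i j hij
    fin_cases i <;> fin_cases j <;> first | exact absurd ⟨rfl, rfl⟩ hij | assumption
  have h3 := dim_h5 (lin A x) hg h1' h2
  have h3' : dimI K (mx (lin A x) ^ 3) ≤ 3 := by omega
  refine cl_change (lin A x) x hg.1 ?_
  have hA' : (mx (lin A x) ^ 4 = ⊥ ∨ (dimI K (mx (lin A x) ^ 4) ≤ 1 ∧ mx (lin A x) ^ 5 = ⊥)) →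
      Cl (mulT K (lin A x)) := by
    intro h4
    obtain ⟨d, hd2, hd3, hd⟩ := h5_delta (lin A x) hg h1' h00 h2 h4
    exact h5_move (lin A x) hg h00 d hd2 hd3 hd
  rcases h5_cases (lin A x) hg h3' with h | h | h
  · exact hA' (Or.inl h)
  · exact hA' (Or.inr h)
  · exact cl_h5b (lin A x) hg h3' h IH

theorem main_le (n : ℕ) (hn : n ≤ 12) : MainV K n := by
  induction n using Nat.strong_induction_on with
  | _ n ih =>
    have IH : ∀ k < n, MainV K k := fun k hk => ih k hk (by omega)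
    refine main_reduce n IH ?_
    intro R _ _ _ x hx h1 hR
    exact cl_local x hx h1 (by omega) (by rw [hR]; exact IH)

end

end Pool.Agent.MPac4d2b
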