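import Mathlib

/-!
# MP_ac4d2b_ag: the determinant step

`N` is a module over `O[X]` (`O` a domain) on which the element `x` of `O` acts injectively, generated by
elements `e b` with `P b • e b ∈ x N`. If `∏ P b = h ^ Q` and every `P b` divides `h`, then `h` acts as
`x * Y`, and `Y` satisfies a relation `F` with `x ^ Q F = δ` modulo `x Y - h`, `δ` monic.
-/

set_option autoImplicit false

open Polynomial

namespace Pool.Agent.Hilb

section Det

variable {O : Type} [CommRing O]

/-- a determinant with monic diagonal, dominating the rows -/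
theorem det_monic_of_rows [IsDomain O] {B : Type} [Fintype B] [DecidableEq B] (M : Matrix B B O[X])
    (s : B → ℕ) (h1 : ∀ b, (M b b).Monic) (h2 : ∀ b, (M b b).natDegree = s b)
    (h3 : ∀ b c, b ≠ c → (M b c).degree < (s b : WithBot ℕ)) :
    M.det.Monic ∧ M.det.natDegree = ∑ b, s b := by
  classical
  have hdiag : (∏ b, M b b).Monic := monic_prod_of_monic _ _ fun b _ => h1 b
  have hdeg : (∏ b, M b b).natDegree = ∑ b, s b := by
    rw [natDegree_prod_of_monic _ _ fun b _ => h1 b]
    exact Finset.sum_congr rfl fun b _ => h2 b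
  have hdeg' : (∏ b, M b b).degree = ((∑ b, s b : ℕ) : WithBot ℕ) := by
    rw [degree_eq_natDegree hdiag.ne_zero, hdeg]
  have hterm : ∀ σ : Equiv.Perm B, σ ≠ 1 →
      (Equiv.Perm.sign σ • ∏ i, M (σ i) i).degree < ((∑ b, s b : ℕ) : WithBot ℕ) := by
    intro σ hσ
    have hle : (Equiv.Perm.sign σ • ∏ i, M (σ i) i).degree ≤ (∏ i, M (σ i) i).degree := by
      rcases Int.units_eq_one_or (Equiv.Perm.sign σ) with h | h <;> rw [h] <;> simp
    refine lt_of_le_of_lt hle ?_
    by_cases h0 : ∏ i, M (σ i) i = 0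
    · rw [h0, degree_zero]
      exact WithBot.bot_lt_coe _
    have h0' : ∀ i, M (σ i) i ≠ 0 := by
      intro i hi
      exact h0 (Finset.prod_eq_zero (Finset.mem_univ i) hi)
    rw [degree_eq_natDegree h0, Nat.cast_lt, natDegree_prod _ _ fun i _ => h0' i]
    obtain ⟨i, hi⟩ : ∃ i, σ i ≠ i := by
      by_contra hcon
      push Not at hcon
      exact hσ (Equiv.ext hcon)
    have hs : ∑ b, s b = ∑ i, s (σ i) := (Equiv.sum_comp σ s).symm
    rw [hs]
    refine Finset.sum_lt_sum (fun j _ => ?_) ⟨i, Finset.mem_univ _, ?_⟩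
    · by_cases hj : σ j = j
      · rw [hj, h2]
      · have := h3 (σ j) j hj
        rw [degree_eq_natDegree (h0' j), Nat.cast_lt] at this
        exact this.le
    · have := h3 (σ i) i hi
      rw [degree_eq_natDegree (h0' i), Nat.cast_lt] at this
      exact this
  have hsplit : M.det = (∏ b, M b b) +
      ∑ σ ∈ (Finset.univ.erase (1 : Equiv.Perm B)), Equiv.Perm.sign σ • ∏ i, M (σ i) i := by
    rw [Matrix.det_apply, ← Finset.add_sum_erase _ _ (Finset.mem_univ (1 : Equiv.Perm B))]
    simp
  have hrest : (∑ σ ∈ (Finset.univ.erase (1 : Equiv.Perm B)), Equiv.Perm.sign σ • ∏ i, M (σ i) i).degree <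
      (∏ b, M b b).degree := by
    rw [hdeg']
    refine lt_of_le_of_lt (degree_sum_le _ _) ?_
    rw [Finset.sup_lt_iff (WithBot.bot_lt_coe _)]
    intro σ hσ
    exact hterm σ (Finset.ne_of_mem_erase hσ)
  rw [hsplit]
  refine ⟨hdiag.add_of_left hrest, ?_⟩
  rw [natDegree_add_eq_left_of_degree_lt hrest, hdeg]

/-- DET -/
theorem det_core [IsDomain O] {N : Type} [AddCommGroup N] [Module O[X] N] (x : O)
    (hx : ∀ n : N, (C x : O[X]) • n = 0 → n = 0) (hx0 : x ≠ 0)
    {B : Type} [Fintype B] [DecidableEq B] (e u : B → N) (P Pc : B → O[X]) (h : O[X]) (Q : ℕ)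
    (hP : ∀ b, (P b).Monic) (hPc : ∀ b, P b * Pc b = h) (hprod : ∏ b, P b = h ^ Q)
    (he : ∀ b, P b • e b = (C x : O[X]) • u b)
    (hgen : ∀ n : N, ∃ c : B → O[X], (∀ b, (c b).degree < (P b).degree) ∧ n = ∑ b, c b • e b) :
    ∃ Y : Module.End O[X] N, (∀ n, (C x : O[X]) • Y n = h • n) ∧
      ∃ δ : O[X], δ.Monic ∧ δ.natDegree = ∑ b, (P b).natDegree ∧ (∀ n : N, δ • n = 0) ∧
        ∃ F W : O[X][X], aeval Y F = 0 ∧
          C (C x ^ Q) * F - C δ = (C (C x) * X - C h) * W := by
  classical
  -- the endomorphism `Y`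
  have hY : ∀ n : N, ∃ y : N, (C x : O[X]) • y = h • n := by
    intro n
    obtain ⟨c, _, hn⟩ := hgen n
    refine ⟨∑ b, c b • Pc b • u b, ?_⟩
    rw [hn, Finset.smul_sum, Finset.smul_sum]
    refine Finset.sum_congr rfl fun b _ => ?_
    rw [← hPc b, smul_comm (C x) (c b), smul_comm (C x) (Pc b), ← he b, smul_smul, smul_smul, smul_smul]
    congr 1
    ring
  have hinj : ∀ a b : N, (C x : O[X]) • a = (C x : O[X]) • b → a = b := by
    intro a b hab
    have : (C x : O[X]) • (a - b) = 0 := by rw [smul_sub, hab, sub_self]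
    exact sub_eq_zero.1 (hx _ this)
  choose y hy using hY
  let Y : Module.End O[X] N :=
    { toFun := y
      map_add' := fun a b => hinj _ _ (by rw [smul_add, hy, hy, hy, smul_add])
      map_smul' := fun p a => hinj _ _ (by
        rw [hy, RingHom.id_apply, smul_comm (C x) p, hy, smul_comm]) }
  have hYn : ∀ n, (C x : O[X]) • Y n = h • n := hy
  refine ⟨Y, hYn, ?_⟩
  -- the matrix
  choose c hc1 hc2 using hgen
  let Γ : Matrix B B O[X] := fun b' b => (if b' = b then P b else 0) - C x * c (u b) b'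
  have hΓ : ∀ b, ∑ b', Γ b' b • e b' = 0 := by
    intro b
    have h1 : ∀ b', Γ b' b • e b' = (if b' = b then P b else 0) • e b' - (C x * c (u b) b') • e b' :=
      fun b' => sub_smul _ _ _
    rw [Finset.sum_congr rfl fun b' _ => h1 b', Finset.sum_sub_distrib]
    have h2 : ∑ b', (if b' = b then P b else 0) • e b' = P b • e b := by
      simp [ite_smul]
    have h3 : ∑ b', (C x * c (u b) b') • e b' = (C x : O[X]) • u b := by
      conv_rhs => rw [hc2 (u b)]
      rw [Finset.smul_sum]
      exact Finset.sum_congr rfl fun b' _ => mul_smul _ _ _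
    rw [h2, h3, he, sub_self]
  have hdet0 : ∀ b'', Γ.det • e b'' = 0 := by
    intro b''
    have h1 : ∑ b', (Γ * Γ.adjugate) b' b'' • e b' = 0 := by
      have h2 : ∀ b', (Γ * Γ.adjugate) b' b'' • e b' =
          ∑ b, Γ.adjugate b b'' • (Γ b' b • e b') := by
        intro b'
        rw [Matrix.mul_apply, Finset.sum_smul]
        refine Finset.sum_congr rfl fun b _ => ?_
        rw [smul_smul, mul_comm]
      rw [Finset.sum_congr rfl fun b' _ => h2 b', Finset.sum_comm]
      refine Finset.sum_eq_zero fun b _ => ?_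
      rw [← Finset.smul_sum, hΓ, smul_zero]
    rw [Matrix.mul_adjugate] at h1
    rw [← h1]
    simp [Matrix.one_apply, ite_smul]
  have hmon := det_monic_of_rows Γ (fun b => (P b).natDegree) ?_ ?_ ?_
  rotate_left
  · intro b
    have h1 : Γ b b = P b + (- (C x * c (u b) b)) := by simp [Γ, sub_eq_add_neg]
    rw [h1]
    refine (hP b).add_of_left ?_
    rw [degree_neg]
    rw [degree_C_mul hx0]
    exact hc1 (u b) b
  · intro b
    have h1 : Γ b b = P b + (- (C x * c (u b) b)) := by simp [Γ, sub_eq_add_neg]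
    rw [h1]
    refine natDegree_add_eq_left_of_degree_lt ?_
    rw [degree_neg]
    rw [degree_C_mul hx0]
    exact hc1 (u b) b
  · intro b b' hbb
    have h1 : Γ b b' = - (C x * c (u b') b) := by simp [Γ, hbb]
    rw [h1, degree_neg, degree_C_mul hx0, ← degree_eq_natDegree (hP b).ne_zero]
    exact hc1 (u b') b
  refine ⟨Γ.det, hmon.1, hmon.2, ?_, ?_⟩
  · intro n
    rw [hc2 n, Finset.smul_sum]
    refine Finset.sum_eq_zero fun b _ => ?_
    rw [smul_comm, hdet0, smul_zero]
  -- expansion of the determinant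
  let D : Finset B → O[X] := fun s => Matrix.det
    (fun b => s.piecewise (fun b => (Pi.single b (1 : O[X]) : B → O[X])) (fun b => fun b' => - c (u b) b') b)
  have hexp : Γ.det = ∑ s : Finset B, (C x) ^ (sᶜ).card * (∏ b ∈ s, P b) * D s := by
    rw [← Matrix.det_transpose]
    have h1 : Γ.transpose = (fun b => (P b • (Pi.single b (1 : O[X]) : B → O[X]))) +
        (fun b => (C x • fun b' => - c (u b) b')) := by
      funext b b'
      simp only [Matrix.transpose_apply, Pi.add_apply, Pi.smul_apply, smul_eq_mul, Γ, Pi.single_apply]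
      split_ifs <;> ring
    have h2 := MultilinearMap.map_add_univ
      (Matrix.detRowAlternating (R := O[X]) (n := B)).toMultilinearMap
      (fun b => (P b • (Pi.single b (1 : O[X]) : B → O[X]))) (fun b => (C x • fun b' => - c (u b) b'))
    have h3 : Matrix.det Γ.transpose =
        (Matrix.detRowAlternating (R := O[X]) (n := B)).toMultilinearMap Γ.transpose := rfl
    rw [h3, h1, h2]
    refine Finset.sum_congr rfl fun s _ => ?_
    have h4 : (s.piecewise (fun b => (P b • (Pi.single b (1 : O[X]) : B → O[X])))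
        (fun b => (C x • fun b' => - c (u b) b'))) =
        fun b => (if b ∈ s then P b else C x) • (s.piecewise
          (fun b => (Pi.single b (1 : O[X]) : B → O[X])) (fun b => fun b' => - c (u b) b') b) := by
      funext b
      by_cases hb : b ∈ s
      · simp [Finset.piecewise, hb]
      · simp [Finset.piecewise, hb]
    rw [h4, MultilinearMap.map_smul_univ, smul_eq_mul]
    have h5 : ∏ b, (if b ∈ s then P b else C x) = (C x) ^ (sᶜ).card * (∏ b ∈ s, P b) := by
      rw [Finset.prod_ite, Finset.prod_const, mul_comm]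
      congr 1
      · congr 2
        ext b
        simp
      · refine Finset.prod_congr ?_ fun _ _ => rfl
        ext b
        simp
    rw [h5]
    rfl
  -- the single terms
  have hterm : ∀ s : Finset B, ∃ F W : O[X][X],
      C (C x ^ Q) * F - C ((C x) ^ (sᶜ).card * (∏ b ∈ s, P b) * D s) = (C (C x) * X - C h) * W := by
    intro s
    rcases le_or_gt (sᶜ).card Q with hk | hk
    · obtain ⟨k, hk'⟩ := Nat.exists_eq_add_of_le hk
      have hprodP : ∏ b ∈ s, P b = h ^ k * ∏ b ∈ sᶜ, Pc b := by
        have h1 : (∏ b ∈ sᶜ, P b) ≠ 0 := (monic_prod_of_monic _ _ fun b _ => hP b).ne_zero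
        apply mul_right_cancel₀ h1
        rw [Finset.prod_mul_prod_compl, hprod, mul_assoc, ← Finset.prod_mul_distrib]
        have h2 : ∏ b ∈ sᶜ, Pc b * P b = h ^ (sᶜ).card := by
          rw [Finset.prod_congr rfl fun b _ => by rw [mul_comm, hPc b], Finset.prod_const]
        rw [h2, ← pow_add, hk', add_comm]
      obtain ⟨W, hW⟩ := sub_dvd_pow_sub_pow (C (C x) * X : O[X][X]) (C h) k
      refine ⟨X ^ k * C ((∏ b ∈ sᶜ, Pc b) * D s), C (C x ^ (sᶜ).card * (∏ b ∈ sᶜ, Pc b) * D s) * W, ?_⟩
      rw [hprodP]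
      have h3 : C (C x ^ Q) * (X ^ k * C ((∏ b ∈ sᶜ, Pc b) * D s)) =
          C (C x ^ (sᶜ).card * (∏ b ∈ sᶜ, Pc b) * D s) * (C (C x) * X : O[X][X]) ^ k := by
        rw [hk']
        simp only [C_mul, C_pow, mul_pow, pow_add]
        ring
      have h4 : C (C x ^ (sᶜ).card * (h ^ k * ∏ b ∈ sᶜ, Pc b) * D s) =
          C (C x ^ (sᶜ).card * (∏ b ∈ sᶜ, Pc b) * D s) * (C h : O[X][X]) ^ k := by
        simp only [C_mul, C_pow]
        ring
      rw [h3, h4, ← mul_sub, hW]
      ring
    · obtain ⟨k, hk'⟩ := Nat.exists_eq_add_of_le hk.le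
      refine ⟨C ((C x) ^ k * (∏ b ∈ s, P b) * D s), 0, ?_⟩
      rw [hk']
      simp only [C_mul, C_pow, pow_add]
      ring
  choose F W hFW using hterm
  have hsum : C (C x ^ Q) * (∑ s, F s) - C Γ.det = (C (C x) * X - C h) * ∑ s, W s := by
    have hC : (C (∑ s : Finset B, (C x) ^ (sᶜ).card * (∏ b ∈ s, P b) * D s) : O[X][X]) =
        ∑ s : Finset B, C ((C x) ^ (sᶜ).card * (∏ b ∈ s, P b) * D s) := map_sum _ _ _
    rw [hexp, hC, Finset.mul_sum, Finset.mul_sum, ← Finset.sum_sub_distrib]
    exact Finset.sum_congr rfl fun s _ => hFW s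
  refine ⟨∑ s, F s, ∑ s, W s, ?_, hsum⟩
  have hxQ : ∀ (k : ℕ) (n : N), ((C x : O[X]) ^ k) • n = 0 → n = 0 := by
    intro k
    induction k with
    | zero => intro n hn; simpa using hn
    | succ k ih =>
      intro n hn
      rw [pow_succ', mul_smul] at hn
      exact ih n (hx _ hn)
  have hzero : aeval Y (C (C x) * X - C h : O[X][X]) = 0 := by
    rw [map_sub, map_mul, aeval_C, aeval_X, aeval_C]
    ext n
    simp only [LinearMap.sub_apply, Module.End.mul_apply, Module.algebraMap_end_apply, LinearMap.zero_apply]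
    rw [hYn, sub_self]
  ext n
  apply hxQ Q
  have h6 : aeval Y (C (C x ^ Q) * (∑ s, F s) : O[X][X]) n = 0 := by
    have h7 : (C (C x ^ Q) * (∑ s, F s) : O[X][X]) = C Γ.det + (C (C x) * X - C h) * ∑ s, W s := by
      rw [← hsum]
      ring
    rw [h7, map_add, map_mul, hzero, zero_mul, add_zero, aeval_C, Module.algebraMap_end_apply, hc2 n,
      Finset.smul_sum]
    refine Finset.sum_eq_zero fun b _ => ?_
    rw [smul_comm, hdet0, smul_zero]
  rw [map_mul, aeval_C, Module.End.mul_apply, Module.algebraMap_end_apply] at h6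
  exact h6

end Det

end Pool.Agent.Hilb
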