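import Pool.Agent.Lib.MP_ac4d2b_ag.CL2

/-!
MP_ac4d2b_ag (Hilbert scheme of 12 points), module IRR: the frozen statement from the main theorem.
-/

set_option autoImplicit false
set_option linter.unusedSectionVars false

namespace Pool.Agent.MPac4d2b

namespace IRRAux

open Matrix MvPolynomial

variable {K : Type} [Field K] {ι : Type} [Fintype ι] [DecidableEq ι]

/-- cyclic vector of a triple of matrices -/
def CycM (T : Fin 3 → Matrix ι ι K) (v : ι → K) : Prop :=
  Submodule.span K (Set.range (fun e : ℕ × ℕ × ℕ =>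
    (T 0 ^ e.1 * T 1 ^ e.2.1 * T 2 ^ e.2.2) *ᵥ v)) = ⊤

theorem pow_conj (g h : Matrix ι ι K) (hgh : h * g = 1) (d : ι → K) (k : ℕ) :
    (g * diagonal d * h) ^ k * g = g * diagonal (fun a => d a ^ k) := by
  induction k with
  | zero => simp
  | succ k ih =>
    rw [pow_succ', Matrix.mul_assoc, ih]
    rw [Matrix.mul_assoc (g * diagonal d) h, ← Matrix.mul_assoc h g, hgh, Matrix.one_mul,
      Matrix.mul_assoc, diagonal_mul_diagonal]
    congr 2
    ext a
    exact (pow_succ' _ _).symm

theorem cyc_of (g h : Matrix ι ι K) (hgh : h * g = 1) (d : Fin 3 → ι → K)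
    (hd : Function.Injective (d 0)) (v : ι → K) (hv : ∀ a, (h *ᵥ v) a ≠ 0)
    (T : Fin 3 → Matrix ι ι K) (hT : T 0 = g * diagonal (d 0) * h) : CycM T v := by
  have hgh' : g * h = 1 := by
    exact mul_eq_one_comm.mp hgh
  unfold CycM
  rw [eq_top_iff]
  intro y _
  set u : ι → K := h *ᵥ v with hu
  have hvu : v = g *ᵥ u := by
    rw [hu, mulVec_mulVec, hgh', one_mulVec]
  set p : Polynomial K := Lagrange.interpolate Finset.univ (d 0) (fun a => (h *ᵥ y) a / u a)
    with hp
  have hpe : ∀ a, p.eval (d 0 a) = (h *ᵥ y) a / u a := by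
    intro a
    exact Lagrange.eval_interpolate_at_node _ (fun x _ y _ hxy => hd hxy) (Finset.mem_univ a)
  have hy : y = ∑ k ∈ Finset.range (p.natDegree + 1), p.coeff k • ((T 0 ^ k) *ᵥ v) := by
    have h1 : ∀ k, (T 0 ^ k) *ᵥ v = g *ᵥ (fun a => d 0 a ^ k * u a) := by
      intro k
      rw [hvu, mulVec_mulVec, hT, pow_conj g h hgh, ← mulVec_mulVec]
      congr 1
      ext a
      rw [mulVec_diagonal]
    simp_rw [h1]
    have h2 : ∑ k ∈ Finset.range (p.natDegree + 1),
        p.coeff k • (g *ᵥ fun a => d 0 a ^ k * u a) =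
        g *ᵥ (fun a => p.eval (d 0 a) * u a) := by
      have : (fun a => p.eval (d 0 a) * u a) = ∑ k ∈ Finset.range (p.natDegree + 1),
          p.coeff k • (fun a => d 0 a ^ k * u a) := by
        ext a
        rw [Finset.sum_apply, Polynomial.eval_eq_sum_range, Finset.sum_mul]
        refine Finset.sum_congr rfl fun k _ => ?_
        simp [mul_assoc]
      rw [this, mulVec_sum]
      refine Finset.sum_congr rfl fun k _ => ?_
      rw [mulVec_smul]
    rw [h2]
    have h3 : (fun a => p.eval (d 0 a) * u a) = h *ᵥ y := by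
      ext a
      rw [hpe a, div_mul_cancel₀ _ (hv a)]
    rw [h3, mulVec_mulVec, hgh', one_mulVec]
  rw [hy]
  refine Submodule.sum_mem _ fun k _ => Submodule.smul_mem _ _ (Submodule.subset_span ?_)
  exact ⟨(k, 0, 0), by simp⟩

/-- parameters: a matrix, three diagonals, a vector -/
abbrev Par (ι : Type) := (ι × ι) ⊕ (Fin 3 × ι) ⊕ ι

/-- generic matrix -/
noncomputable def gG : Matrix ι ι (MvPolynomial (Par ι) K) := Matrix.of fun a b => X (Sum.inl (a, b))

noncomputable def dG (i : Fin 3) : ι → MvPolynomial (Par ι) K := fun a => X (Sum.inr (Sum.inl (i, a)))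

noncomputable def vG : ι → MvPolynomial (Par ι) K := fun a => X (Sum.inr (Sum.inr a))

/-- the generic simultaneously diagonalisable matrices (up to a scalar) -/
noncomputable def tG (i : Fin 3) : Matrix ι ι (MvPolynomial (Par ι) K) :=
  gG * diagonal (dG i) * gG.adjugate

/-- the parametrisation -/
noncomputable def Phi : MvPolynomial ((Fin 3 × ι × ι) ⊕ ι) K →ₐ[K] MvPolynomial (Par ι) K :=
  aeval (Sum.elim (fun x => tG x.1 x.2.1 x.2.2) vG)

def qg (q : Par ι → K) : Matrix ι ι K := Matrix.of fun a b => q (Sum.inl (a, b))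
def qd (q : Par ι → K) (i : Fin 3) : ι → K := fun a => q (Sum.inr (Sum.inl (i, a)))
def qv (q : Par ι → K) : ι → K := fun a => q (Sum.inr (Sum.inr a))

theorem map_gG (q : Par ι → K) : (eval q).mapMatrix (gG (K := K) (ι := ι)) = qg q := by
  ext a b
  simp [gG, qg]

theorem eval_det (q : Par ι → K) : eval q (gG (K := K) (ι := ι)).det = (qg q).det := by
  rw [RingHom.map_det, map_gG]

theorem eval_Phi (q : Par ι → K) (f : MvPolynomial ((Fin 3 × ι × ι) ⊕ ι) K) :
    eval q (Phi f) = eval (Sum.elim (pt fun i => qg q * diagonal (qd q i) * (qg q).adjugate)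
      (qv q)) f := by
  unfold Phi
  rw [CL1Aux.eval_aeval']
  congr 2
  ext j
  rcases j with ⟨i, a, b⟩ | a
  · simp only [Sum.elim_inl, pt]
    have h1 : eval q (tG i a b) = ((eval q).mapMatrix (tG (K := K) (ι := ι) i)) a b := rfl
    have h2 : (eval q).mapMatrix (diagonal (dG (K := K) (ι := ι) i)) = diagonal (qd q i) := by
      ext a b
      by_cases hab : a = b
      · subst hab
        simp [dG, qd]
      · simp [hab]
    rw [h1, tG, map_mul, map_mul, RingHom.map_adjugate, map_gG, h2]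
  · simp [vG, qv]

/-- the matrices of a point -/
def mt (p : (Fin 3 × ι × ι) ⊕ ι → K) (i : Fin 3) : Matrix ι ι K :=
  Matrix.of fun a b => p (Sum.inl (i, a, b))

/-- the vector of a point -/
def vc (p : (Fin 3 × ι × ι) ⊕ ι → K) : ι → K := fun a => p (Sum.inr a)

/-- commuting triples with a cyclic vector -/
def UU : Set ((Fin 3 × ι × ι) ⊕ ι → K) :=
  {p | (∀ i j, mt p i * mt p j = mt p j * mt p i) ∧ CycM (mt p) (vc p)}

/-- non-degeneracy polynomial -/
noncomputable def bad : MvPolynomial (Par ι) K :=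
  gG.det * (∏ a, ∏ b ∈ Finset.univ.erase a, (dG 0 a - dG 0 b)) *
    ∏ a, (gG.adjugate *ᵥ vG) a

theorem eval_bad (q : Par ι → K) : eval q (bad (K := K) (ι := ι)) =
    (qg q).det * (∏ a, ∏ b ∈ Finset.univ.erase a, (qd q 0 a - qd q 0 b)) *
    ∏ a, ((qg q).adjugate *ᵥ qv q) a := by
  unfold bad
  rw [map_mul, map_mul, eval_det, map_prod, map_prod]
  congr 1
  · congr 1
    refine Finset.prod_congr rfl fun a _ => ?_
    rw [map_prod]
    refine Finset.prod_congr rfl fun b _ => ?_
    simp [dG, qd]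
  · refine Finset.prod_congr rfl fun a _ => ?_
    have h1 : ∀ b, eval q ((gG (K := K) (ι := ι)).adjugate a b) = (qg q).adjugate a b := by
      intro b
      have : eval q ((gG (K := K) (ι := ι)).adjugate a b) =
        ((eval q).mapMatrix (gG (K := K) (ι := ι)).adjugate) a b := rfl
      rw [this, RingHom.map_adjugate, map_gG]
    simp only [mulVec, dotProduct, map_sum, map_mul, h1]
    refine Finset.sum_congr rfl fun b _ => ?_
    simp [vG, qv]

theorem mem_UU (q : Par ι → K) (hq : eval q (bad (K := K) (ι := ι)) ≠ 0) :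
    Sum.elim (pt fun i => qg q * diagonal (qd q i) * (qg q).adjugate) (qv q) ∈
      UU (K := K) (ι := ι) := by
  rw [eval_bad] at hq
  have h1 : (qg q).det ≠ 0 := left_ne_zero_of_mul (left_ne_zero_of_mul hq)
  have h2 := right_ne_zero_of_mul (left_ne_zero_of_mul hq)
  have h3 := right_ne_zero_of_mul hq
  set g := qg q
  set δ := g.det
  set h : Matrix ι ι K := δ⁻¹ • g.adjugate with hh
  have hgh : h * g = 1 := by
    rw [hh, smul_mul_assoc, adjugate_mul, smul_smul, inv_mul_cancel₀ h1, one_smul]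
  have hT : ∀ i, g * diagonal (qd q i) * g.adjugate =
      g * diagonal (fun a => δ * qd q i a) * h := by
    intro i
    have : diagonal (fun a => δ * qd q i a) = δ • diagonal (qd q i) := by
      ext a b
      by_cases hab : a = b
      · subst hab; simp
      · simp [hab]
    rw [this, hh]
    simp only [Matrix.mul_smul, Matrix.smul_mul, smul_smul]
    rw [inv_mul_cancel₀ h1, one_smul]
  have hmt : mt (Sum.elim (pt fun i => g * diagonal (qd q i) * g.adjugate) (qv q)) =
      fun i => g * diagonal (fun a => δ * qd q i a) * h := by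
    ext i a b
    rw [← hT]
    rfl
  have hvc : vc (Sum.elim (pt fun i => g * diagonal (qd q i) * g.adjugate) (qv q)) = qv q := rfl
  refine ⟨?_, ?_⟩
  · intro i j
    rw [hmt]
    have : ∀ i j, g * diagonal (fun a => δ * qd q i a) * h *
        (g * diagonal (fun a => δ * qd q j a) * h) =
        g * diagonal (fun a => (δ * qd q i a) * (δ * qd q j a)) * h := by
      intro i j
      calc g * diagonal (fun a => δ * qd q i a) * h * (g * diagonal (fun a => δ * qd q j a) * h)
          = g * diagonal (fun a => δ * qd q i a) * (h * g) *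
            diagonal (fun a => δ * qd q j a) * h := by simp only [Matrix.mul_assoc]
        _ = _ := by rw [hgh, Matrix.mul_one, Matrix.mul_assoc g, diagonal_mul_diagonal]
    rw [this, this]
    congr 3
    ext a
    ring
  · rw [hvc, hmt]
    refine cyc_of g h hgh (fun i a => δ * qd q i a) ?_ _ ?_ _ rfl
    · intro a b hab
      by_contra hne
      have hab' : qd q 0 a = qd q 0 b := mul_left_cancel₀ h1 hab
      exact (Finset.prod_ne_zero_iff.mp ((Finset.prod_ne_zero_iff.mp h2) a (Finset.mem_univ a)) b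
        (Finset.mem_erase.mpr ⟨fun h => hne h.symm, Finset.mem_univ b⟩)) (sub_eq_zero.mpr hab')
    · intro a
      rw [hh, smul_mulVec, Pi.smul_apply, smul_eq_mul]
      exact mul_ne_zero (inv_ne_zero h1) (Finset.prod_ne_zero_iff.mp h3 a (Finset.mem_univ a))

theorem exists_good [Infinite K] : ∃ q : Par ι → K, eval q (bad (K := K) (ι := ι)) ≠ 0 := by
  classical
  obtain ⟨e⟩ : Nonempty (ι ↪ K) :=
    ⟨((Fintype.equivFin ι).toEmbedding.trans Fin.valEmbedding).trans (Infinite.natEmbedding K)⟩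
  refine ⟨Sum.elim (fun x => (1 : Matrix ι ι K) x.1 x.2)
    (Sum.elim (fun x => e x.2) (fun _ => 1)), ?_⟩
  rw [eval_bad]
  have h1 : qg (Sum.elim (fun x : ι × ι => (1 : Matrix ι ι K) x.1 x.2)
    (Sum.elim (fun x : Fin 3 × ι => e x.2) (fun _ => 1))) = 1 := rfl
  rw [h1]
  refine mul_ne_zero (mul_ne_zero (by simp) ?_) ?_
  · refine Finset.prod_ne_zero_iff.mpr fun a _ => Finset.prod_ne_zero_iff.mpr fun b hb => ?_
    refine sub_ne_zero.mpr fun h => (Finset.mem_erase.mp hb).1 ?_
    exact (e.injective h).symm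
  · refine Finset.prod_ne_zero_iff.mpr fun a _ => ?_
    simp [qv]

theorem bad_ne_zero [Infinite K] : bad (K := K) (ι := ι) ≠ 0 := by
  obtain ⟨q, hq⟩ := exists_good (K := K) (ι := ι)
  intro h
  rw [h] at hq
  simp at hq

/-- If `Phi f = 0` then `f` vanishes at every point whose triple is in the closure of the
simultaneously diagonalisable ones. -/
theorem vanish_of_Phi (f : MvPolynomial ((Fin 3 × ι × ι) ⊕ ι) K) (hf : Phi f = 0)
    (p : (Fin 3 × ι × ι) ⊕ ι → K) (hp : Dn (mt p)) : eval p f = 0 := by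
  classical
  -- fix the vector
  set s : (Fin 3 × ι × ι) ⊕ ι → MvPolynomial (Fin 3 × ι × ι) K :=
    Sum.elim X (fun a => C (p (Sum.inr a))) with hs
  have key : ∀ S : Fin 3 → Matrix ι ι K, eval (pt S) (aeval s f) =
      eval (Sum.elim (pt S) (vc p)) f := by
    intro S
    rw [CL1Aux.eval_aeval']
    congr 2
    ext j
    rcases j with j | a
    · simp [hs]
    · simp [hs, vc]
  have h1 := hp (aeval s f) (by
    rintro S ⟨g, h, d, hgh, hS⟩
    rw [key]
    have hdet : g.det ≠ 0 := by
      intro h0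
      have := congrArg Matrix.det hgh
      rw [det_mul, h0, zero_mul, det_one] at this
      exact zero_ne_one this
    have hh : h = g.det⁻¹ • g.adjugate := by
      have h2 : g.adjugate * (g * h) = g.adjugate := by rw [hgh, Matrix.mul_one]
      rw [← Matrix.mul_assoc, adjugate_mul, smul_mul_assoc, Matrix.one_mul] at h2
      rw [← h2, smul_smul, inv_mul_cancel₀ hdet, one_smul]
    set q : Par ι → K := Sum.elim (fun x => g x.1 x.2)
      (Sum.elim (fun x => g.det⁻¹ * d x.1 x.2) (vc p)) with hq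
    have h3 := eval_Phi q f
    rw [hf, map_zero] at h3
    have hqg : qg q = g := rfl
    have hqv : qv q = vc p := rfl
    have h4 : (fun i => qg q * diagonal (qd q i) * (qg q).adjugate) = S := by
      ext1 i
      rw [hqg, hS i, hh]
      have : diagonal (qd q i) = g.det⁻¹ • diagonal (d i) := by
        ext a b
        by_cases hab : a = b
        · subst hab; simp [qd, hq]
        · simp [hab]
      rw [this, Matrix.mul_smul, Matrix.smul_mul, Matrix.mul_smul]
    rw [h4, hqv] at h3
    exact h3.symm)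
  rw [key] at h1
  have h5 : Sum.elim (pt (mt p)) (vc p) = p := by
    ext j
    rcases j with ⟨i, a, b⟩ | a <;> rfl
  rwa [h5] at h1

theorem irr [Infinite K] (hmain : ∀ T : Fin 3 → Matrix ι ι K, (∀ i j, T i * T j = T j * T i) →
      (∃ v, CycM T v) → Dn T) :
    (∃ p, p ∈ UU (K := K) (ι := ι)) ∧
      ∀ S T : Set (MvPolynomial ((Fin 3 × ι × ι) ⊕ ι) K),
        UU ⊆ {x | ∀ f ∈ S, MvPolynomial.eval x f = 0} ∪
              {x | ∀ f ∈ T, MvPolynomial.eval x f = 0} →
        UU ⊆ {x | ∀ f ∈ S, MvPolynomial.eval x f = 0} ∨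
          UU ⊆ {x | ∀ f ∈ T, MvPolynomial.eval x f = 0} := by
  refine ⟨?_, ?_⟩
  · obtain ⟨q, hq⟩ := exists_good (K := K) (ι := ι)
    exact ⟨_, mem_UU q hq⟩
  · intro S T hST
    by_contra hcon
    rw [not_or, Set.not_subset, Set.not_subset] at hcon
    obtain ⟨⟨p₁, hp₁, hf⟩, p₂, hp₂, hg⟩ := hcon
    simp only [Set.mem_ofPred_eq, not_forall] at hf hg
    obtain ⟨f, hfS, hf⟩ := hf
    obtain ⟨g, hgT, hg⟩ := hg
    have hzero : Phi f * Phi g * bad = 0 := by
      apply MvPolynomial.funext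
      intro q
      rw [map_mul, map_mul, map_zero]
      by_cases hq : eval q (bad (K := K) (ι := ι)) = 0
      · rw [hq, mul_zero]
      · have hmem := mem_UU q hq
        rw [eval_Phi, eval_Phi]
        rcases hST hmem with h | h
        · rw [h f hfS, zero_mul, zero_mul]
        · rw [h g hgT, mul_zero, zero_mul]
    have h2 := (mul_eq_zero.mp hzero).resolve_right bad_ne_zero
    rcases mul_eq_zero.mp h2 with h | h
    · exact hf (vanish_of_Phi f h p₁ (hmain _ hp₁.1 ⟨_, hp₁.2⟩))
    · exact hg (vanish_of_Phi g h p₂ (hmain _ hp₂.1 ⟨_, hp₂.2⟩))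

end IRRAux

open IRRAux Matrix in
theorem irr_of_main (hmain : MainV ℂ 12) :
    ∀ U : Set ((Fin 3 × Fin 12 × Fin 12) ⊕ Fin 12 → ℂ),
      U = {p : (Fin 3 × Fin 12 × Fin 12) ⊕ Fin 12 → ℂ |
        (∀ i j : Fin 3,
          Matrix.of (fun a b => p (Sum.inl (i, a, b))) *
              Matrix.of (fun a b => p (Sum.inl (j, a, b))) =
            Matrix.of (fun a b => p (Sum.inl (j, a, b))) *
              Matrix.of (fun a b => p (Sum.inl (i, a, b)))) ∧
        Submodule.span ℂ (Set.range (fun e : ℕ × ℕ × ℕ =>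
          Matrix.mulVec
            (Matrix.of (fun a b => p (Sum.inl ((0 : Fin 3), a, b))) ^ e.1 *
              Matrix.of (fun a b => p (Sum.inl ((1 : Fin 3), a, b))) ^ e.2.1 *
              Matrix.of (fun a b => p (Sum.inl ((2 : Fin 3), a, b))) ^ e.2.2)
            (fun a => p (Sum.inr a)))) = ⊤} →
      (∃ p, p ∈ U) ∧
      ∀ S T : Set (MvPolynomial ((Fin 3 × Fin 12 × Fin 12) ⊕ Fin 12) ℂ),
        U ⊆ {x | ∀ f ∈ S, MvPolynomial.eval x f = 0} ∪
              {x | ∀ f ∈ T, MvPolynomial.eval x f = 0} →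
        U ⊆ {x | ∀ f ∈ S, MvPolynomial.eval x f = 0} ∨
          U ⊆ {x | ∀ f ∈ T, MvPolynomial.eval x f = 0} := by
  intro U hU
  have hU' : U = UU (K := ℂ) (ι := Fin 12) := hU
  rw [hU']
  refine irr fun T hT hv => ?_
  obtain ⟨v, hv⟩ := hv
  have h1 : Cl (fun i => (Matrix.toLin' (T i) : Module.End ℂ (Fin 12 → ℂ))) := by
    refine hmain (Fin 12 → ℂ) _ v ?_ ?_ (by simp)
    · intro i j
      show Matrix.toLin' (T i) ∘ₗ Matrix.toLin' (T j) = Matrix.toLin' (T j) ∘ₗ Matrix.toLin' (T i)
      rw [← Matrix.toLin'_mul, ← Matrix.toLin'_mul, hT i j]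
    · unfold Cyc
      unfold CycM at hv
      rw [← hv]
      congr 2
      funext e
      have h0 : ∀ M : Matrix (Fin 12) (Fin 12) ℂ,
          (Matrix.toLin' M : Module.End ℂ (Fin 12 → ℂ)) = Matrix.toLinAlgEquiv' M := fun _ => rfl
      show ((Matrix.toLin' (T 0) : Module.End ℂ (Fin 12 → ℂ)) ^ e.1 *
        (Matrix.toLin' (T 1) : Module.End ℂ (Fin 12 → ℂ)) ^ e.2.1 *
        (Matrix.toLin' (T 2) : Module.End ℂ (Fin 12 → ℂ)) ^ e.2.2) v = _
      rw [h0, h0, h0, ← map_pow, ← map_pow, ← map_pow, ← map_mul, ← map_mul,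
        Matrix.toLinAlgEquiv'_apply]
  rw [cl_iff (Pi.basisFun ℂ (Fin 12))] at h1
  have h2 : (fun i => LinearMap.toMatrix (Pi.basisFun ℂ (Fin 12)) (Pi.basisFun ℂ (Fin 12))
      (Matrix.toLin' (T i))) = T := by
    ext1 i
    rw [← Matrix.toLin_eq_toLin', LinearMap.toMatrix_toLin]
  rwa [h2] at h1

end Pool.Agent.MPac4d2b
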