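import Mathlib
import Pool.Agent.Lib.MP_ac4d2b_ag.Defs
import Pool.Agent.Lib.MP_ac4d2b_ag.CL2
import Pool.Agent.Lib.MP_ac4d2b_ag.SPL
import Pool.Agent.Lib.MP_ac4d2b_ag.PAIR
import Pool.Agent.Lib.MP_ac4d2b_ag.RING
import Pool.Agent.Lib.MP_ac4d2b_ag.RINGC
import Pool.Agent.Lib.MP_ac4d2b_ag.GEN

/-!
MP_ac4d2b_ag (project HILB), module LOC: reduction to local algebras.
-/

set_option autoImplicit false

namespace Pool.Agent.MPac4d2b

namespace LOCAux

open GENAux

variable {K : Type} [Field K]

theorem nilp_of_not_twoEig {V : Type} [AddCommGroup V] [Module K V] [FiniteDimensional K V]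
    [Nontrivial V] [IsAlgClosed K] (g : Module.End K V) (h : ¬ TwoEig g) :
    ∃ μ : K, IsNilpotent (g - algebraMap K (Module.End K V) μ) := by
  obtain ⟨μ, hμ⟩ := Module.End.exists_eigenvalue g
  refine ⟨μ, ?_⟩
  have hroot : ∀ ν ∈ (minpoly K g).roots, ν = μ := by
    intro ν hν
    by_contra hne
    apply h
    refine ⟨ν, μ, hne, ?_, hμ⟩
    rw [Module.End.hasEigenvalue_iff_isRoot]
    exact Polynomial.isRoot_of_mem_roots hν
  have hint : IsIntegral K g := Algebra.IsIntegral.isIntegral g
  have hrep : (minpoly K g).roots = Multiset.replicate (Multiset.card (minpoly K g).roots) μ :=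
    Multiset.eq_replicate.mpr ⟨rfl, hroot⟩
  have hsplit := (IsAlgClosed.splits (minpoly K g)).eq_prod_roots_of_monic (minpoly.monic hint)
  rw [hrep, Multiset.map_replicate, Multiset.prod_replicate] at hsplit
  have h1 := minpoly.aeval K g
  rw [hsplit, map_pow, map_sub, Polynomial.aeval_X, Polynomial.aeval_C] at h1
  exact ⟨_, h1⟩

end LOCAux

open GENAux LOCAux

theorem main_reduce {K : Type} [Field K] [IsAlgClosed K] [CharZero K] (n : ℕ)
    (IH : ∀ k < n, MainV K k)
    (hloc : ∀ (R : Type) [CommRing R] [Algebra K R] [FiniteDimensional K R] (x : Fin 3 → R),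
      Gen3 K x → Ind1 K x → Module.finrank K R = n → Cl (mulT K x)) : MainV K n := by
  intro V _ _ _ f v hf hv hn
  by_cases hn1 : n ≤ 1
  · exact cl_of_finrank_le_one f (by omega)
  obtain ⟨R, _, _, _, a, e, hadj, he, he1⟩ := exists_ring f hf v hv
  have hR : Module.finrank K R = n := by rw [← hn]; exact e.finrank_eq
  have hnt : Nontrivial R := by
    apply Module.nontrivial_of_finrank_pos (R := K)
    omega
  suffices h : Cl (mulT K a) from cl_equiv e (mulT K a) f (fun i r => he i r) h
  by_cases htwo : ∃ r : R, TwoEig (LinearMap.mulLeft K r : Module.End K R)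
  · obtain ⟨r, hr⟩ := htwo
    refine cl_of_twoEig (mulT K a) (mulT_comm a) 1 (mulT_cyc a hadj) _ ?_ hr (by rw [hR]; exact IH)
    intro i
    ext s
    show r * (a i * s) = a i * (r * s)
    ring
  have hnil : ∀ r : R, ∃ c : K, IsNilpotent (r - algebraMap K R c) := by
    intro r
    obtain ⟨c, k, hk⟩ := nilp_of_not_twoEig (LinearMap.mulLeft K r : Module.End K R)
      (fun h => htwo ⟨r, h⟩)
    refine ⟨c, k, ?_⟩
    have h1 : (LinearMap.mulLeft K r : Module.End K R) - algebraMap K (Module.End K R) c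
        = LinearMap.mulLeft K (r - algebraMap K R c) := by
      ext s
      simp [sub_mul, Algebra.smul_def]
    rw [h1, LinearMap.pow_mulLeft] at hk
    have h2 := congrArg (fun T : Module.End K R => T 1) hk
    simpa using h2
  choose c hc using fun i => hnil (a i)
  let x : Fin 3 → R := fun i => a i - algebraMap K R (c i)
  have hxadj : Algebra.adjoin K (Set.range x) = ⊤ := by
    rw [eq_top_iff, ← hadj]
    refine Algebra.adjoin_le ?_
    rintro _ ⟨i, rfl⟩
    have h1 : a i = x i + algebraMap K R (c i) := by simp [x]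
    rw [h1]
    exact add_mem (Algebra.subset_adjoin ⟨i, rfl⟩) (Subalgebra.algebraMap_mem _ _)
  have hI : ∃ k : ℕ, mx x ^ k = ⊥ := by
    have h1 : mx x ≤ nilradical R := by
      refine Ideal.span_le.mpr ?_
      rintro _ ⟨i, rfl⟩
      exact hc i
    have : IsNoetherianRing R := IsNoetherianRing.of_finite K R
    obtain ⟨k, hk⟩ := IsNoetherianRing.isNilpotent_nilradical R
    refine ⟨k, ?_⟩
    rw [eq_bot_iff]
    refine le_trans (Ideal.pow_right_mono h1 k) ?_
    rw [hk]
    exact le_rfl
  have hgen : Gen3 K x := ⟨hxadj, hI⟩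
  refine cl_change x a hxadj ?_
  by_cases hind : Ind1 K x
  · exact hloc R x hgen hind hR
  unfold Ind1 at hind
  push Not at hind
  obtain ⟨d, hd, hd0⟩ := hind
  obtain ⟨l, hl⟩ : ∃ l, d l ≠ 0 := by
    by_contra hcon
    push Not at hcon
    exact hd0 (funext hcon)
  -- the two other elements generate
  obtain ⟨p, q, hpq⟩ : ∃ p q : Fin 3, ∀ i, i = l ∨ i = p ∨ i = q := by
    fin_cases l
    · exact ⟨1, 2, by decide⟩
    · exact ⟨0, 2, by decide⟩
    · exact ⟨0, 1, by decide⟩
  let y : Fin 2 → R := ![x p, x q]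
  have hy : ∀ i, i ≠ l → x i ∈ Ideal.span (Set.range y) := by
    intro i hi
    rcases hpq i with h | h | h
    · exact absurd h hi
    · rw [h]; exact Ideal.subset_span ⟨0, rfl⟩
    · rw [h]; exact Ideal.subset_span ⟨1, rfl⟩
  have hyle : Ideal.span (Set.range y) ≤ mx x := by
    refine Ideal.span_le.mpr ?_
    rintro _ ⟨i, rfl⟩
    fin_cases i
    · exact mem_mx x p
    · exact mem_mx x q
  have h2 : mx x ≤ Ideal.span (Set.range y) ⊔ mx x ^ 2 := by
    refine Ideal.span_le.mpr ?_
    rintro _ ⟨i, rfl⟩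
    by_cases hi : i = l
    · subst hi
      have h3 : d i • x i = ∑ j, d j • x j - ∑ j ∈ Finset.univ.erase i, d j • x j := by
        rw [← Finset.add_sum_erase Finset.univ _ (Finset.mem_univ i)]
        ring
      have h4 : ∑ j ∈ Finset.univ.erase i, d j • x j ∈ Ideal.span (Set.range y) := by
        refine Submodule.sum_mem _ fun j hj => ?_
        rw [Algebra.smul_def]
        exact Ideal.mul_mem_left _ _ (hy j (Finset.ne_of_mem_erase hj))
      have h5 : d i • x i ∈ Ideal.span (Set.range y) ⊔ mx x ^ 2 := by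
        rw [h3]
        exact sub_mem (Ideal.mem_sup_right hd) (Ideal.mem_sup_left h4)
      have h6 : x i = algebraMap K R (d i)⁻¹ * (d i • x i) := by
        rw [← Algebra.smul_def, smul_smul, inv_mul_cancel₀ hl, one_smul]
      show x i ∈ Ideal.span (Set.range y) ⊔ mx x ^ 2
      rw [h6]
      exact Ideal.mul_mem_left _ _ h5
    · exact Ideal.mem_sup_left (hy i hi)
  have h3 : ∀ k : ℕ, mx x ≤ Ideal.span (Set.range y) ⊔ mx x ^ (k + 2) := by
    intro k
    induction k with
    | zero => exact h2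
    | succ k ih =>
      refine le_trans ih (sup_le le_sup_left ?_)
      calc mx x ^ (k + 2) = mx x ^ (k + 1) * mx x := pow_succ _ _
        _ ≤ mx x ^ (k + 1) * (Ideal.span (Set.range y) ⊔ mx x ^ 2) := Ideal.mul_mono_right h2
        _ = mx x ^ (k + 1) * Ideal.span (Set.range y) ⊔ mx x ^ (k + 1) * mx x ^ 2 :=
          Ideal.mul_sup _ _ _
        _ ≤ Ideal.span (Set.range y) ⊔ mx x ^ (k + 1 + 2) := by
          refine sup_le_sup Ideal.mul_le_right ?_
          rw [← pow_add]
  have hyI : mx x = Ideal.span (Set.range y) := by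
    refine le_antisymm ?_ hyle
    obtain ⟨k, hk⟩ := hI
    have h4 := h3 k
    have h5 : mx x ^ (k + 2) = ⊥ := by
      rw [eq_bot_iff, ← hk]
      exact Ideal.pow_le_pow_right (by omega)
    rwa [h5, sup_bot_eq] at h4
  have hyadj : Algebra.adjoin K (Set.range y) = ⊤ :=
    adjoin_eq_top_of_ideal y (mx x) hyI hI (mx_scalar x hgen)
  refine cl_pair (LinearMap.mulLeft K (x p)) (LinearMap.mulLeft K (x q)) ?_ (mulT K x) ?_
  · ext s
    show x p * (x q * s) = x q * (x p * s)
    ring
  · intro i
    have h1 : x i ∈ Algebra.adjoin K (Set.range y) := by rw [hyadj]; trivial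
    have h2 : (Algebra.lmul K R) (x i) ∈
        (Algebra.adjoin K (Set.range y)).map (Algebra.lmul K R) := ⟨x i, h1, rfl⟩
    rw [AlgHom.map_adjoin, ← Set.range_comp] at h2
    have h3 : Set.range ((Algebra.lmul K R) ∘ y)
        = {(LinearMap.mulLeft K (x p) : Module.End K R), LinearMap.mulLeft K (x q)} := by
      ext T
      constructor
      · rintro ⟨j, rfl⟩
        fin_cases j
        · left; rfl
        · right; rfl
      · rintro (rfl | rfl)
        · exact ⟨0, rfl⟩
        · exact ⟨1, rfl⟩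
    rw [h3] at h2
    exact h2

end Pool.Agent.MPac4d2b
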